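import Pool.Agent.Work.MP_c5a777_ag.Sev.Coef
import Pool.Agent.Work.MP_c5a777_ag.Sev.StU

/-! Bundle of small proof modules (one section per former module). -/

section

/-!
# The point `Q` lies on the curve, and the function `ff` vanishes at `Q`
-/

namespace Pool.Agent.Work.MP_c5a777_ag.Sev

variable {R : Type*} [CommRing R]

/-- `xQ` in terms of `t = X + Y` and `w = X Y`. -/
def xT (h A t w : R) : R :=
  (2 + 4 * h + 6 * h ^ 2) * w ^ 2 + (8 - 4 * h - 4 * h ^ 2) * A * w * t +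
    4 * A * (t ^ 3 - 3 * t * w) + (-4 - 4 * h + 4 * h ^ 2) * w * (t ^ 2 - 2 * w) +
    (-4 * h + 4 * h ^ 2) * (t ^ 4 - 4 * t ^ 2 * w + 2 * w ^ 2)

/-- `yQ` in terms of `t = X + Y` and `w = X Y`. -/
def yT (h A t w : R) : R :=
  8 * A ^ 2 * (t ^ 4 - 4 * t ^ 2 * w + 2 * w ^ 2) +
    (-16 + 8 * h + 8 * h ^ 2) * A ^ 2 * w * (t ^ 2 - 2 * w) +
    (24 - 8 * h ^ 2) * A ^ 2 * w ^ 2 +
    (8 + 8 * h - 8 * h ^ 2) * A * (t ^ 5 - 5 * t ^ 3 * w + 5 * t * w ^ 2) +
    (-24 + 16 * h + 16 * h ^ 2) * A * w * (t ^ 3 - 3 * t * w) +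
    (32 - 24 * h - 16 * h ^ 2) * A * w ^ 2 * t +
    (-16 - 16 * h + 24 * h ^ 2) * (t ^ 6 - 6 * t ^ 4 * w + 9 * t ^ 2 * w ^ 2 - 2 * w ^ 3) +
    (16 + 32 * h - 32 * h ^ 2) * w * (t ^ 4 - 4 * t ^ 2 * w + 2 * w ^ 2) +
    (-8 - 16 * h + 8 * h ^ 2) * w ^ 2 * (t ^ 2 - 2 * w) +
    (-24 - 72 * h - 40 * h ^ 2) * w ^ 3

theorem xQ_eq (h A X Y : R) : xQ h A X Y = xT h A (X + Y) (X * Y) := by
  unfold xQ xT
  ring

theorem yQ_eq (h A X Y : R) : yQ h A X Y = yT h A (X + Y) (X * Y) := by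
  unfold yQ yT
  ring

theorem s7_eq (X Y : R) : X ^ 7 + Y ^ 7 = (X + Y) ^ 7 - 7 * (X * Y) * (X + Y) ^ 5 +
    14 * (X * Y) ^ 2 * (X + Y) ^ 3 - 7 * (X * Y) ^ 3 * (X + Y) := by
  ring

theorem we_T (h A t w : R) (hh : Rel h) :
    We h A w (t ^ 7 - 7 * w * t ^ 5 + 14 * w ^ 2 * t ^ 3 - 7 * w ^ 3 * t) (xT h A t w)
      (yT h A t w) = 0 := by
  unfold Rel at hh
  unfold We a1 a2 a3 a4 a6 xT yT
  linear_combination (
    64*h^3*A^3*t^3*w^3 - 192*h^3*A^2*t^6*w^2 + 576*h^3*A^2*t^4*w^3 + 384*h^3*A^2*t^2*w^4 +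
    192*h^3*A*t^9*w - 1152*h^3*A*t^7*w^2 + 960*h^3*A*t^5*w^3 + 2304*h^3*A*t^3*w^4 - 1584*h^3*A*t*w^5
    - 64*h^3*t^12 + 576*h^3*t^10*w - 1344*h^3*t^8*w^2 - 576*h^3*t^6*w^3 + 5040*h^3*t^4*w^4 -
    4752*h^3*t^2*w^5 + 1296*h^3*w^6 + 576*h^2*A^3*t^3*w^3 - 1344*h^2*A^3*t*w^4 - 896*h^2*A^2*t^6*w^2
    + 5824*h^2*A^2*t^4*w^3 - 9888*h^2*A^2*t^2*w^4 + 2016*h^2*A^2*w^5 + 64*h^2*A*t^9*w -
    832*h^2*A*t^7*w^2 + 2848*h^2*A*t^5*w^3 - 3232*h^2*A*t^3*w^4 - 2784*h^2*A*t*w^5 + 256*h^2*t^12 -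
    3648*h^2*t^10*w + 19904*h^2*t^8*w^2 - 52832*h^2*t^6*w^3 + 74208*h^2*t^4*w^4 - 54624*h^2*t^2*w^5
    + 15408*h^2*w^6 + 64*h*A^5*t^3*w^2 - 192*h*A^5*t*w^3 - 128*h*A^4*t^6*w + 896*h*A^4*t^4*w^2 -
    1664*h*A^4*t^2*w^3 + 192*h*A^4*w^4 + 64*h*A^3*t^9 - 576*h*A^3*t^7*w + 1728*h*A^3*t^5*w^2 -
    2304*h*A^3*t^3*w^3 + 1984*h*A^3*t*w^4 - 128*h*A^2*t^10 + 1408*h*A^2*t^8*w - 3520*h*A^2*t^6*w^2 -
    1088*h*A^2*t^4*w^3 + 4448*h*A^2*t^2*w^4 + 1344*h*A^2*w^5 - 128*h*A*t^11 + 1600*h*A*t^9*w -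
    9184*h*A*t^7*w^2 + 28992*h*A*t^5*w^3 - 42160*h*A*t^3*w^4 + 15136*h*A*t*w^5 + 512*h*t^10*w -
    5184*h*t^8*w^2 + 18432*h*t^6*w^3 - 31248*h*t^4*w^4 + 26880*h*t^2*w^5 - 4104*h*w^6 +
    64*A^5*t^3*w^2 - 128*A^5*t*w^3 + 128*A^4*t^6*w - 576*A^4*t^4*w^2 + 192*A^4*t^2*w^3 + 512*A^4*w^4
    - 192*A^3*t^9 + 1664*A^3*t^7*w - 4416*A^3*t^5*w^2 + 2112*A^3*t^3*w^3 + 2752*A^3*t*w^4 +
    320*A^2*t^10 - 3392*A^2*t^8*w + 10880*A^2*t^6*w^2 - 10016*A^2*t^4*w^3 + 704*A^2*t^2*w^4 -
    4032*A^2*w^5 + 256*A*t^11 - 3968*A*t^9*w + 25152*A*t^7*w^2 - 75616*A*t^5*w^3 + 103120*A*t^3*w^4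
    - 43536*A*t*w^5 - 256*t^12 + 3584*t^10*w - 19456*t^8*w^2 + 51456*t^6*w^3 - 68352*t^4*w^4 +
    38672*t^2*w^5 - 14960*w^6) * hh

theorem ff_T (h A t w : R) (hh : Rel h) :
    ff h A w (t ^ 7 - 7 * w * t ^ 5 + 14 * w ^ 2 * t ^ 3 - 7 * w ^ 3 * t) (xT h A t w)
      (yT h A t w) = 0 := by
  unfold Rel at hh
  unfold ff e8 e10 e14 xT yT
  linear_combination (
    128*h^3*A^4*t^4*w^3 - 384*h^3*A^4*t^2*w^4 - 384*h^3*A^3*t^7*w^2 + 2432*h^3*A^3*t^5*w^3 -
    4352*h^3*A^3*t^3*w^4 + 1152*h^3*A^3*t*w^5 + 384*h^3*A^2*t^10*w - 3328*h^3*A^2*t^8*w^2 +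
    10112*h^3*A^2*t^6*w^3 - 12800*h^3*A^2*t^4*w^4 + 6048*h^3*A^2*t^2*w^5 - 864*h^3*A^2*w^6 -
    128*h^3*A*t^13 + 896*h^3*A*t^11*w - 640*h^3*A*t^9*w^2 - 7424*h^3*A*t^7*w^3 + 19296*h^3*A*t^5*w^4
    - 16032*h^3*A*t^3*w^5 + 4320*h^3*A*t*w^6 + 384*h^3*t^14 - 5120*h^3*t^12*w + 27136*h^3*t^10*w^2 -
    73728*h^3*t^8*w^3 + 109920*h^3*t^6*w^4 - 89280*h^3*t^4*w^5 + 36864*h^3*t^2*w^6 - 6048*h^3*w^7 +
    256*h^2*A^4*t^4*w^3 - 640*h^2*A^4*t^2*w^4 + 256*h^2*A^3*t^5*w^3 - 2048*h^2*A^3*t^3*w^4 +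
    1536*h^2*A^3*t*w^5 - 768*h^2*A^2*t^10*w + 6656*h^2*A^2*t^8*w^2 - 18688*h^2*A^2*t^6*w^3 +
    16512*h^2*A^2*t^4*w^4 + 1152*h^2*A^2*t^2*w^5 - 864*h^2*A^2*w^6 + 512*h^2*A*t^13 -
    4864*h^2*A*t^11*w + 14848*h^2*A*t^9*w^2 - 12288*h^2*A*t^7*w^3 - 9280*h^2*A*t^5*w^4 +
    8512*h^2*A*t^3*w^5 + 288*h^2*A*t*w^6 - 1408*h^2*t^14 + 18944*h^2*t^12*w - 99456*h^2*t^10*w^2 +
    256768*h^2*t^8*w^3 - 336160*h^2*t^6*w^4 + 205632*h^2*t^4*w^5 - 46464*h^2*t^2*w^6 -
    128*h*A^4*t^6*w^2 + 640*h*A^4*t^4*w^3 - 640*h*A^4*t^2*w^4 + 256*h*A^3*t^9*w - 1792*h*A^3*t^7*w^2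
    + 4480*h*A^3*t^5*w^3 - 4992*h*A^3*t^3*w^4 + 1536*h*A^3*t*w^5 - 128*h*A^2*t^12 +
    1408*h*A^2*t^10*w - 6784*h*A^2*t^8*w^2 + 17920*h*A^2*t^6*w^3 - 24800*h*A^2*t^4*w^4 +
    13984*h*A^2*t^2*w^5 + 1056*h*A^2*w^6 - 256*h*A*t^13 + 2560*h*A*t^11*w - 7296*h*A*t^9*w^2 -
    1984*h*A*t^7*w^3 + 33856*h*A*t^5*w^4 - 36768*h*A*t^3*w^5 + 8832*h*A*t*w^6 + 2816*h*t^14 -
    38912*h*t^12*w + 210176*h*t^10*w^2 - 558592*h*t^8*w^3 + 754048*h*t^6*w^4 - 480064*h*t^4*w^5 +
    119584*h*t^2*w^6 - 4032*h*w^7 - 128*A^4*t^6*w^2 + 384*A^4*t^4*w^3 - 256*A^4*t^2*w^4 -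
    256*A^3*t^9*w + 1280*A^3*t^7*w^2 - 384*A^3*t^5*w^3 - 2560*A^3*t^3*w^4 + 1280*A^3*t*w^5 +
    384*A^2*t^12 - 3968*A^2*t^10*w + 15488*A^2*t^8*w^2 - 27136*A^2*t^6*w^3 + 17632*A^2*t^4*w^4 +
    1472*A^2*t^2*w^5 - 1376*A^2*w^6 - 256*A*t^13 + 3072*A*t^11*w - 14336*A*t^9*w^2 + 32000*A*t^7*w^3
    - 34208*A*t^5*w^4 + 17664*A*t^3*w^5 - 9024*A*t*w^6 - 4992*t^14 + 69888*t^12*w - 384128*t^10*w^2
    + 1045248*t^8*w^3 - 1453632*t^6*w^4 + 949056*t^4*w^5 - 217632*t^2*w^6 + 10976*w^7) * hh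

/-- The point `Q` lies on the curve. -/
theorem we_Q (h A X Y : R) (hh : Rel h) :
    We h A (X * Y) (X ^ 7 + Y ^ 7) (xQ h A X Y) (yQ h A X Y) = 0 := by
  rw [s7_eq, xQ_eq, yQ_eq]
  exact we_T h A _ _ hh

/-- The function `ff` vanishes at `Q`. -/
theorem ff_Q (h A X Y : R) (hh : Rel h) :
    ff h A (X * Y) (X ^ 7 + Y ^ 7) (xQ h A X Y) (yQ h A X Y) = 0 := by
  rw [s7_eq, xQ_eq, yQ_eq]
  exact ff_T h A _ _ hh

end Pool.Agent.Work.MP_c5a777_ag.Sev

end

section

/-!
# Comparison of components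
-/

set_option autoImplicit false

namespace Pool.Agent.Work.MP_c5a777_ag.Sev

namespace AuxComp

open Polynomial

/-- The powers of a seventh root of a non-seventh-power are linearly independent. -/
theorem indep {k M : Type} [Field k] [Field M] [Algebra k M] (a : k)
    (hb : ∀ b : k, b ^ 7 ≠ a) (t : M) (ht : t ^ 7 = algebraMap k M a)
    (c0 c1 c2 c3 c4 c5 c6 : k)
    (h0 : algebraMap k M c0 + algebraMap k M c1 * t + algebraMap k M c2 * t ^ 2 +
      algebraMap k M c3 * t ^ 3 + algebraMap k M c4 * t ^ 4 + algebraMap k M c5 * t ^ 5 +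
      algebraMap k M c6 * t ^ 6 = 0) :
    c0 = 0 ∧ c1 = 0 ∧ c2 = 0 ∧ c3 = 0 ∧ c4 = 0 ∧ c5 = 0 ∧ c6 = 0 := by
  have hirr : Irreducible (X ^ 7 - C a : k[X]) :=
    X_pow_sub_C_irreducible_of_prime (by norm_num) hb
  have hmon : (X ^ 7 - C a : k[X]).Monic := monic_X_pow_sub_C a (by norm_num)
  have hmin : (X ^ 7 - C a : k[X]) = minpoly k t :=
    minpoly.eq_of_irreducible_of_monic hirr (by simp [ht]) hmon
  set p : k[X] := C c0 + C c1 * X + C c2 * X ^ 2 + C c3 * X ^ 3 + C c4 * X ^ 4 + C c5 * X ^ 5 +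
    C c6 * X ^ 6 with hp
  have hroot : aeval t p = 0 := by
    rw [hp]
    simp only [map_add, map_mul, map_pow, aeval_C, aeval_X]
    exact h0
  have hpz : p = 0 := by
    by_contra hne
    have h1 := minpoly.degree_le_of_ne_zero k t hne hroot
    rw [← hmin, degree_X_pow_sub_C (by norm_num)] at h1
    have h2 : p.degree ≤ 6 := by
      rw [hp]
      compute_degree
    have h3 := le_trans h1 h2
    exact absurd h3 (by decide)
  have hc : ∀ n, p.coeff n = 0 := by
    intro n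
    rw [hpz, coeff_zero]
  refine ⟨?_, ?_, ?_, ?_, ?_, ?_, ?_⟩
  · have := hc 0
    simpa [hp, coeff_X, coeff_C] using this
  · have := hc 1
    simpa [hp, coeff_X, coeff_C] using this
  · have := hc 2
    simpa [hp, coeff_X, coeff_C] using this
  · have := hc 3
    simpa [hp, coeff_X, coeff_C] using this
  · have := hc 4
    simpa [hp, coeff_X, coeff_C] using this
  · have := hc 5
    simpa [hp, coeff_X, coeff_C] using this
  · have := hc 6
    simpa [hp, coeff_X, coeff_C] using this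

end AuxComp

open AuxComp in
theorem pr_Comp (h1 : StConst) : StComp := by
  intro k M _ _ _ _ h hh a ha hb t ht A α β x hx
  obtain ⟨-, -, -, hk1, hk2, -⟩ := h1 k h hh
  have key := indep a hb t ht
    ((2 + 4 * h + 6 * h ^ 2) * a ^ 2 * α ^ 2 * β ^ 2 - x)
    ((-4 - 4 * h + 4 * h ^ 2) * a ^ 2 * α ^ 3 * β)
    (4 * A * a * β ^ 3 + (-4 * h + 4 * h ^ 2) * a ^ 2 * α ^ 4)
    ((8 - 4 * h - 4 * h ^ 2) * A * a * α * β ^ 2)
    ((8 - 4 * h - 4 * h ^ 2) * A * a * α ^ 2 * β)
    (4 * A * a * α ^ 3 + (-4 * h + 4 * h ^ 2) * a * β ^ 4)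
    ((-4 - 4 * h + 4 * h ^ 2) * a * α * β ^ 3) (by
      simp only [map_add, map_sub, map_mul, map_pow, map_neg, map_ofNat]
      rw [hx]
      unfold xQ
      generalize algebraMap k M h = h' at *
      generalize algebraMap k M A = A' at *
      generalize algebraMap k M α = α' at *
      generalize algebraMap k M β = β' at *
      rw [← ht]
      ring)
  obtain ⟨-, e1, e2, -, -, e5, -⟩ := key
  have k1 : α ^ 3 * β = 0 := by
    have h3 : (4 * h ^ 2 - 4 * h - 4) * a ^ 2 * (α ^ 3 * β) = 0 := by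
      linear_combination e1
    rcases mul_eq_zero.mp h3 with h4 | h4
    · exact absurd h4 (mul_ne_zero hk2 (pow_ne_zero 2 ha))
    · exact h4
  rcases mul_eq_zero.mp k1 with h4 | h4
  · have hα : α = 0 := pow_eq_zero_iff (by norm_num) |>.mp h4
    refine ⟨hα, ?_⟩
    rw [hα] at e5
    have h5 : ((4 * h ^ 2 - 4 * h) * a) * β ^ 4 = 0 := by
      linear_combination e5
    rcases mul_eq_zero.mp h5 with h6 | h6
    · exact absurd h6 (mul_ne_zero hk1 ha)
    · exact pow_eq_zero_iff (by norm_num) |>.mp h6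
  · refine ⟨?_, h4⟩
    rw [h4] at e2
    have h5 : ((4 * h ^ 2 - 4 * h) * a ^ 2) * α ^ 4 = 0 := by
      linear_combination e2
    rcases mul_eq_zero.mp h5 with h6 | h6
    · exact absurd h6 (mul_ne_zero hk1 (pow_ne_zero 2 ha))
    · exact pow_eq_zero_iff (by norm_num) |>.mp h6

end Pool.Agent.Work.MP_c5a777_ag.Sev

end

section

/-!
# The relation for `z + z⁶` and the nonvanishing of constants
-/

set_option autoImplicit false

namespace Pool.Agent.Work.MP_c5a777_ag.Sev

theorem pr_RelZ : StRelZ := by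
  intro R _ z hz
  unfold Rel
  linear_combination (z ^ 12 - z ^ 11 + 3 * z ^ 7 - 2 * z ^ 6 - z ^ 4 + 3 * z ^ 2 - z - 1) * hz

namespace AuxConst

theorem ne_of_mul {k : Type} [Field k] {a b c : k} (hc : c ≠ 0) (h : a * b = c) : a ≠ 0 := by
  rintro rfl
  rw [zero_mul] at h
  exact hc h.symm

end AuxConst

open AuxConst in
theorem pr_Const : StConst := by
  intro k _ _ h hh
  have hR : h ^ 3 + h ^ 2 - 2 * h - 1 = 0 := hh
  have n128 : (128 : k) ≠ 0 := by exact_mod_cast (by norm_num : (128 : ℕ) ≠ 0)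
  have n4 : (4 : k) ≠ 0 := by exact_mod_cast (by norm_num : (4 : ℕ) ≠ 0)
  have n7 : (7 : k) ≠ 0 := by exact_mod_cast (by norm_num : (7 : ℕ) ≠ 0)
  refine ⟨ne_of_mul n128 (b := -5 - 28 * h - 14 * h ^ 2) ?_,
    ne_of_mul one_ne_zero (b := -2 + h + h ^ 2) ?_,
    ne_of_mul one_ne_zero (b := -1 + h + h ^ 2) ?_,
    ne_of_mul n4 (b := 2 + h) ?_,
    ne_of_mul n4 (b := h ^ 2 - 3) ?_,
    ne_of_mul n7 (b := 1 - h + 2 * h ^ 2) ?_⟩
  · unfold kap
    linear_combination (128 * (196 + 980 * h)) * hR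
  · linear_combination hR
  · linear_combination h * hR
  · linear_combination 4 * hR
  · linear_combination (4 * (h - 2)) * hR
  · linear_combination (3 - 2 * h) * hR

end Pool.Agent.Work.MP_c5a777_ag.Sev

end

section

/-!
# Integrality of the function and its value near the cusp
-/

set_option autoImplicit false

namespace Pool.Agent.Work.MP_c5a777_ag.Sev

namespace AuxCusp

variable {K Γ : Type} [Field K] [LinearOrderedCommGroupWithZero Γ] (v : Valuation K Γ)

/-- the ideal of the elements of value less than one -/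
def mx : Ideal v.integer where
  carrier := {a | v (a : K) < 1}
  add_mem' := by
    intro a b ha hb
    simp only [Set.mem_ofPred_eq, Subring.coe_add] at *
    exact (v.map_add _ _).trans_lt (max_lt ha hb)
  zero_mem' := by simp
  smul_mem' := by
    intro c a ha
    simp only [Set.mem_ofPred_eq, smul_eq_mul, Subring.coe_mul, map_mul] at *
    have hc : v (c : K) ≤ 1 := c.2
    calc v (c : K) * v (a : K) ≤ 1 * v (a : K) := mul_le_mul_left hc _
      _ < 1 := by rwa [one_mul]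

theorem mem_mx (a : v.integer) : a ∈ mx v ↔ v (a : K) < 1 := Iff.rfl

variable {v}

theorem int_y {h A w S x y : K} (hh : v h ≤ 1) (hA : v A ≤ 1) (hw : v w ≤ 1) (hS : v S ≤ 1)
    (hx : v x ≤ 1) (hW : We h A w S x y = 0) : v y ≤ 1 := by
  by_contra hy
  rw [not_le] at hy
  let h' : v.integer := ⟨h, hh⟩
  let A' : v.integer := ⟨A, hA⟩
  let w' : v.integer := ⟨w, hw⟩
  let S' : v.integer := ⟨S, hS⟩
  let x' : v.integer := ⟨x, hx⟩
  have hB : v (x ^ 3 + a2 h w * x ^ 2 + a4 h A w S * x + a6 h A w S) ≤ 1 := by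
    have h1 := (x' ^ 3 + a2 h' w' * x' ^ 2 + a4 h' A' w' S' * x' + a6 h' A' w' S').2
    have h2 : ((x' ^ 3 + a2 h' w' * x' ^ 2 + a4 h' A' w' S' * x' + a6 h' A' w' S' :
        v.integer) : K) = x ^ 3 + a2 h w * x ^ 2 + a4 h A w S * x + a6 h A w S := by
      simp only [a2, a4, a6]
      push_cast
      rfl
    rw [← h2]
    exact h1
  have hD : v (a1 h A w * x + a3 h A w) ≤ 1 := by
    have h1 := (a1 h' A' w' * x' + a3 h' A' w').2
    have h2 : ((a1 h' A' w' * x' + a3 h' A' w' : v.integer) : K) =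
        a1 h A w * x + a3 h A w := by
      simp only [a1, a3]
      push_cast
      rfl
    rw [← h2]
    exact h1
  have heq : y ^ 2 = (x ^ 3 + a2 h w * x ^ 2 + a4 h A w S * x + a6 h A w S) -
      (a1 h A w * x + a3 h A w) * y := by
    unfold We at hW
    linear_combination hW
  have hle : v (y ^ 2) ≤ v y := by
    rw [heq]
    refine (v.map_sub _ _).trans (max_le (hB.trans hy.le) ?_)
    rw [map_mul]
    calc v (a1 h A w * x + a3 h A w) * v y ≤ 1 * v y := mul_le_mul_left hD _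
      _ = v y := one_mul _
  rw [map_pow, sq] at hle
  have h0 : v y ≠ 0 := (zero_lt_one.trans hy).ne'
  have : v y * v y ≤ v y * 1 := by rwa [mul_one]
  have := (mul_le_mul_iff_right₀ (zero_lt_iff.2 h0)).1 this
  exact absurd this (not_le.2 hy)

end AuxCusp

open AuxCusp in
/-- integrality -/
theorem pr_Int : StInt := by
  intro K Γ _ _ v h A w S x y hh hA hw hS hW hx
  have hy := int_y hh hA hw hS hx hW
  refine ⟨hy, ?_⟩
  let h' : v.integer := ⟨h, hh⟩
  let A' : v.integer := ⟨A, hA⟩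
  let w' : v.integer := ⟨w, hw⟩
  let S' : v.integer := ⟨S, hS⟩
  let x' : v.integer := ⟨x, hx⟩
  let y' : v.integer := ⟨y, hy⟩
  have h1 := (ff h' A' w' S' x' y').2
  have h2 : ((ff h' A' w' S' x' y' : v.integer) : K) = ff h A w S x y := by
    simp only [ff, e8, e10, e14]
    push_cast
    rfl
  rw [← h2]
  exact h1

open AuxCusp in
/-- the value near the cusp -/
theorem pr_Cusp : StCusp := by
  intro K Γ _ _ v h A w S x y hh hA hw hS1 hW hx
  have hS : v S ≤ 1 := by
    have h1 : S = (S - 1) + 1 := by ring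
    rw [h1]
    refine (v.map_add _ _).trans (max_le hS1.le ?_)
    rw [map_one]
  have hy := int_y hh hA.le hw.le hS hx.le hW
  let h' : v.integer := ⟨h, hh⟩
  let A' : v.integer := ⟨A, hA.le⟩
  let w' : v.integer := ⟨w, hw.le⟩
  let S' : v.integer := ⟨S, hS⟩
  let x' : v.integer := ⟨x, hx.le⟩
  let y' : v.integer := ⟨y, hy⟩
  let q := Ideal.Quotient.mk (mx v)
  have q0 : ∀ a : v.integer, q a = 0 ↔ v (a : K) < 1 := fun a =>
    Ideal.Quotient.eq_zero_iff_mem
  have qA : q A' = 0 := (q0 _).2 hA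
  have qw : q w' = 0 := (q0 _).2 hw
  have qx : q x' = 0 := (q0 _).2 hx
  have qS : q S' = 1 := by
    have h1 : q (S' - 1) = 0 := (q0 _).2 hS1
    rw [map_sub, map_one, sub_eq_zero] at h1
    exact h1
  have hW' : We h' A' w' S' x' y' = 0 := by
    apply Subtype.ext
    have h2 : ((We h' A' w' S' x' y' : v.integer) : K) = We h A w S x y := by
      simp only [We, a1, a2, a3, a4, a6]
      push_cast
      rfl
    rw [h2, hW]
    rfl
  have qy : q y' = 0 := by
    have h1 : q (y' ^ 2) = 0 := by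
      have h3 := congrArg q hW'
      simp only [We, a1, a2, a3, a4, a6, map_add, map_sub, map_mul, map_pow, map_neg, qA, qw, qx,
        map_zero] at h3
      rw [map_pow]
      linear_combination h3
    have h2 : v (y ^ 2) < 1 := (q0 _).1 h1
    refine (q0 _).2 ?_
    change v y < 1
    by_contra hc
    rw [not_lt] at hc
    rw [map_pow] at h2
    exact absurd h2 (not_lt.2 (one_le_pow₀ hc))
  have hf : q (ff h' A' w' S' x' y' - kap h') = 0 := by
    simp only [ff, e8, e10, e14, kap, map_add, map_sub, map_mul, map_pow, map_neg, qA, qw, qx,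
      qy, qS, map_ofNat]
    ring
  have h1 := (q0 _).1 hf
  have h2 : ((ff h' A' w' S' x' y' - kap h' : v.integer) : K) = ff h A w S x y - kap h := by
    simp only [ff, e8, e10, e14, kap]
    push_cast
    rfl
  rw [h2] at h1
  exact h1

end Pool.Agent.Work.MP_c5a777_ag.Sev

end

section

/-!
# Extension of valuation rings
-/

set_option autoImplicit false

namespace Pool.Agent.Work.MP_c5a777_ag.Sev

/-- A valuation ring of `L` is the intersection with `L` of a valuation ring of `M`. -/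
theorem pr_Extend : StExtend := by
  intro L M _ _ _ A
  obtain ⟨B, hle, hloc⟩ :=
    ((A.toLocalSubring).map (algebraMap L M)).exists_le_valuationSubring
  have hin : ∀ z ∈ A, algebraMap L M z ∈ B := fun z hz => hle ⟨z, hz, rfl⟩
  refine ⟨B, le_antisymm ?_ ?_⟩
  · intro z hz
    have hzB : algebraMap L M z ∈ B := hz
    by_contra hzA
    have hz0 : z ≠ 0 := by
      rintro rfl
      exact hzA A.zero_mem
    have hinv : z⁻¹ ∈ A := (A.mem_or_inv_mem z).resolve_left hzA
    have hmz : algebraMap L M z⁻¹ * algebraMap L M z = 1 := by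
      rw [← map_mul, inv_mul_cancel₀ hz0, map_one]
    let x : ((A.toLocalSubring).map (algebraMap L M)).toSubring :=
      ⟨algebraMap L M z⁻¹, ⟨z⁻¹, hinv, rfl⟩⟩
    have hux : IsUnit (Subring.inclusion hle x) :=
      isUnit_iff_exists_inv.mpr ⟨⟨algebraMap L M z, hzB⟩, Subtype.ext hmz⟩
    have hu : IsUnit x := hloc.1 x hux
    obtain ⟨y, hy⟩ := isUnit_iff_exists_inv.mp hu
    obtain ⟨w, hw, hwy⟩ := y.2
    have hy2 : algebraMap L M z⁻¹ * (y : M) = 1 := congrArg Subtype.val hy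
    have hw2 : algebraMap L M (z⁻¹ * w) = algebraMap L M 1 := by
      rw [map_mul, map_one, ← hy2, ← hwy]
    have hw3 : z⁻¹ * w = 1 := (algebraMap L M).injective hw2
    have hw4 : w = z := by
      have := congrArg (fun t => z * t) hw3
      simpa [← mul_assoc, mul_inv_cancel₀ hz0] using this
    apply hzA
    rw [← hw4]
    exact hw
  · intro z hz
    exact hin z hz

end Pool.Agent.Work.MP_c5a777_ag.Sev

end

section

set_option autoImplicit false

/-!
# The order seven class: homogeneity and the scaled forms of the two regimes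
-/

namespace Pool.Agent.Work.MP_c5a777_ag.Sev

theorem pr_Hom : StHom := by
  intro R _ h l A w S x y
  constructor
  · unfold We a1 a2 a3 a4 a6
    ring
  · unfold ff e8 e10 e14
    ring

namespace AuxHom

section

variable {K Γ : Type} [Field K] [LinearOrderedCommGroupWithZero Γ] (v : Valuation K Γ)

theorem pos {l : K} (hl : l ≠ 0) (n : ℕ) : 0 < v l ^ n :=
  pow_pos ((Valuation.pos_iff v).2 hl) n

theorem div_le {l a : K} (hl : l ≠ 0) (n : ℕ) (h : v a ≤ v l ^ n) : v (a / l ^ n) ≤ 1 := by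
  rw [map_div₀, map_pow, div_le_one₀ (pos v hl n)]
  exact h

theorem div_lt {l a : K} (hl : l ≠ 0) (n : ℕ) (h : v a < v l ^ n) : v (a / l ^ n) < 1 := by
  rw [map_div₀, map_pow, div_lt_one₀ (pos v hl n)]
  exact h

theorem lt_div {l a : K} (hl : l ≠ 0) (n : ℕ) (h : v l ^ n < v a) : 1 < v (a / l ^ n) := by
  rw [map_div₀, map_pow, one_lt_div₀ (pos v hl n)]
  exact h

/-- the scaled point is on the scaled curve, and the value of the scaled function -/
theorem scale {h l A w S x y : K} (hl : l ≠ 0) (hW : We h A w S x y = 0) :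
    We h (A / l ^ 1) (w / l ^ 2) (S / l ^ 7) (x / l ^ 4) (y / l ^ 6) = 0 ∧
      ff h A w S x y = l ^ 14 *
        ff h (A / l ^ 1) (w / l ^ 2) (S / l ^ 7) (x / l ^ 4) (y / l ^ 6) := by
  have key := pr_Hom K h l (A / l ^ 1) (w / l ^ 2) (S / l ^ 7) (x / l ^ 4) (y / l ^ 6)
  have e1 : l * (A / l ^ 1) = A := by field_simp
  have e2 : l ^ 2 * (w / l ^ 2) = w := by field_simp
  have e3 : l ^ 7 * (S / l ^ 7) = S := by field_simp
  have e4 : l ^ 4 * (x / l ^ 4) = x := by field_simp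
  have e5 : l ^ 6 * (y / l ^ 6) = y := by field_simp
  rw [e1, e2, e3, e4, e5] at key
  refine ⟨?_, key.2⟩
  have h2 := key.1
  rw [hW] at h2
  rcases mul_eq_zero.1 h2.symm with h3 | h3
  · exact absurd h3 (pow_ne_zero 12 hl)
  · exact h3

end

end AuxHom

open AuxHom in
theorem pr_PoleL (h1 : StPole) : StPoleL := by
  intro K Γ _ _ v h l A w S x y hl hh hA hw hS hW hx
  obtain ⟨hW', hf⟩ := scale hl hW
  obtain ⟨hy, hv⟩ := h1 K Γ v h (A / l ^ 1) (w / l ^ 2) (S / l ^ 7) (x / l ^ 4) (y / l ^ 6) hh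
    (div_le v hl 1 (by rwa [pow_one])) (div_le v hl 2 hw) (div_le v hl 7 hS) hW'
    (lt_div v hl 4 hx)
  have hy0 : y ≠ 0 := by
    intro h0
    apply hy
    rw [h0, zero_div]
  have hx0 : x ≠ 0 := by
    intro h0
    rw [h0, map_zero] at hx
    exact absurd hx (not_lt.2 zero_le)
  refine ⟨hy0, ?_⟩
  have e : ff h A w S x y / (y / x) ^ 7 =
      ff h (A / l ^ 1) (w / l ^ 2) (S / l ^ 7) (x / l ^ 4) (y / l ^ 6) /
        (y / l ^ 6 / (x / l ^ 4)) ^ 7 := by
    rw [hf]
    field_simp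
  rw [e]
  exact hv

open AuxHom in
theorem pr_CuspL (h1 : StCusp) : StCuspL := by
  intro K Γ _ _ v h l A w S x y hl hh hk hA hw hS hW hx
  obtain ⟨hW', hf⟩ := scale hl hW
  have hS' : v (S / l ^ 7 - 1) < 1 := by
    have e : S / l ^ 7 - 1 = (S - l ^ 7) / l ^ 7 := by
      rw [sub_div, div_self (pow_ne_zero 7 hl)]
    rw [e]
    exact div_lt v hl 7 hS
  have hv := h1 K Γ v h (A / l ^ 1) (w / l ^ 2) (S / l ^ 7) (x / l ^ 4) (y / l ^ 6) hh
    (div_lt v hl 1 (by rwa [pow_one])) (div_lt v hl 2 hw) hS' hW' (div_lt v hl 4 hx)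
  have hk0 : kap h ≠ 0 := by
    intro h0
    rw [h0, map_zero] at hk
    exact absurd hk.symm one_ne_zero
  have e : ff h A w S x y / (kap h * l ^ 14) - 1 =
      (ff h (A / l ^ 1) (w / l ^ 2) (S / l ^ 7) (x / l ^ 4) (y / l ^ 6) - kap h) / kap h := by
    rw [hf]
    field_simp
  rw [e, map_div₀, hk, div_one]
  exact hv

end Pool.Agent.Work.MP_c5a777_ag.Sev

end

section

set_option autoImplicit false

/-! Item Inert. -/

namespace Pool.Agent.Work.MP_c5a777_ag.Sev

namespace AuxInert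

section maps

variable {R S : Type*} [CommRing R] [CommRing S] (f : R →+* S)

theorem map_We (h A w T x y : R) :
    f (We h A w T x y) = We (f h) (f A) (f w) (f T) (f x) (f y) := by
  simp only [We, a1, a2, a3, a4, a6, map_add, map_sub, map_mul, map_pow, map_neg, map_ofNat]

theorem map_ff (h A w T x y : R) :
    f (ff h A w T x y) = ff (f h) (f A) (f w) (f T) (f x) (f y) := by
  simp only [ff, e8, e10, e14, map_add, map_sub, map_mul, map_pow, map_neg, map_ofNat]

theorem map_xQ (h A X Y : R) : f (xQ h A X Y) = xQ (f h) (f A) (f X) (f Y) := by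
  simp only [xQ, map_add, map_sub, map_mul, map_pow, map_neg, map_ofNat]

end maps

section val

variable {K Γ : Type*} [Field K] [LinearOrderedCommGroupWithZero Γ] (v : Valuation K Γ)

theorem v_one_of_sub {z : K} (h : v (z - 1) < 1) : v z = 1 := by
  have h1 := v.map_one_add_of_lt h
  rwa [add_sub_cancel] at h1

theorem exists_max (u α β : K) (hu : u ≠ 0) :
    ∃ l, l ≠ 0 ∧ v u ≤ v l ∧ v α ≤ v l ∧ v β ≤ v l ∧ (l = u ∨ l = α ∨ l = β) := by
  have hpos : ∀ l, v u ≤ v l → l ≠ 0 := by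
    intro l h h0
    rw [h0, map_zero, le_zero_iff] at h
    exact hu ((map_eq_zero v).mp h)
  rcases le_total (v u) (v α) with h1 | h1
  · rcases le_total (v α) (v β) with h2 | h2
    · exact ⟨β, hpos β (h1.trans h2), h1.trans h2, h2, le_rfl, Or.inr (Or.inr rfl)⟩
    · exact ⟨α, hpos α h1, h1, le_rfl, h2, Or.inr (Or.inl rfl)⟩
  · rcases le_total (v u) (v β) with h2 | h2
    · exact ⟨β, hpos β h2, h2, h1.trans h2, le_rfl, Or.inr (Or.inr rfl)⟩
    · exact ⟨u, hu, le_rfl, h1, h2, Or.inl rfl⟩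

theorem contra (a p u : K) (hp : p ≠ 0) (hu : u = a * p ^ 7) (ha : v a = 1)
    (hb : ∀ b, ¬ v (a - b ^ 7) < 1) (h : v (p ^ 4 * (1 + u)) < v u) : False := by
  have hP : v p ≠ 0 := (map_ne_zero v).mpr hp
  have hP0 : 0 < v p := zero_lt_iff.mpr hP
  have hvu : v u = v p ^ 7 := by rw [hu, map_mul, ha, one_mul, map_pow]
  rw [map_mul, map_pow, hvu] at h
  have h1 : v (1 + u) < v p ^ 3 := by
    have e : v p ^ 7 = v p ^ 4 * v p ^ 3 := by rw [← pow_add]
    rw [e] at h
    exact lt_of_mul_lt_mul_left' h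
  rcases lt_trichotomy (v p) 1 with h2 | h2 | h2
  · have h3 : v u < 1 := by
      rw [hvu]
      exact pow_lt_one₀ zero_le h2 (by norm_num)
    rw [v.map_one_add_of_lt h3] at h1
    have h4 : v p ^ 3 < 1 := pow_lt_one₀ zero_le h2 (by norm_num)
    exact absurd (h1.trans h4) (lt_irrefl _)
  · rw [h2, one_pow] at h1
    apply hb (-1 / p)
    have e : a - (-1 / p) ^ 7 = (1 + u) / p ^ 7 := by
      rw [hu]
      field_simp
      ring
    rw [e, map_div₀, map_pow, h2, one_pow, div_one]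
    exact h1
  · have h3 : v 1 < v u := by
      rw [hvu, map_one]
      exact one_lt_pow₀ h2 (by norm_num)
    have h4 : v (1 + u) = v u := by
      rw [add_comm]
      exact v.map_add_eq_of_lt_left h3
    rw [h4, hvu] at h1
    have h5 : v p ^ 3 < v p ^ 7 := pow_lt_pow_right₀ h2 (by norm_num)
    exact absurd (h1.trans h5) (lt_irrefl _)

end val

section res

variable {L : Type} [Field L] [Algebra ℂ L] (A : ValuationSubring L)

/-- the constants in the valuation ring -/
noncomputable def cst (hC : ∀ z : ℂ, algebraMap ℂ L z ∈ A) : ℂ →+* A :=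
  (algebraMap ℂ L).codRestrict A.toSubring hC

theorem key (h4 : StNormF) (h5 : StComp) (h6 : StRelZ) (hC : ∀ z : ℂ, algebraMap ℂ L z ∈ A)
    (ζ : ℂ) (hζ : IsPrimitiveRoot ζ 7) (a B α β x y : A)
    (ha : a ∉ IsLocalRing.maximalIdeal A)
    (hb : ∀ b : A, a - b ^ 7 ∉ IsLocalRing.maximalIdeal A)
    (hW : We (cst A hC ζ + cst A hC ζ ^ 6) B (a * α * β) (a ^ 4 * α ^ 7 + a ^ 3 * β ^ 7) x y = 0)
    (hf : ff (cst A hC ζ + cst A hC ζ ^ 6) B (a * α * β) (a ^ 4 * α ^ 7 + a ^ 3 * β ^ 7) x y ∈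
      IsLocalRing.maximalIdeal A) :
    α ∈ IsLocalRing.maximalIdeal A ∧ β ∈ IsLocalRing.maximalIdeal A := by
  obtain ⟨res, hres⟩ : ∃ res : A →+* IsLocalRing.ResidueField A,
    res = IsLocalRing.residue A := ⟨_, rfl⟩
  have hker : ∀ z : A, res z = 0 ↔ z ∈ IsLocalRing.maximalIdeal A := by
    intro z
    rw [hres]
    exact IsLocalRing.residue_eq_zero_iff z
  have hsurj : Function.Surjective res := by
    rw [hres]
    exact IsLocalRing.residue_surjective
  let algk : Algebra ℂ (IsLocalRing.ResidueField A) := (res.comp (cst A hC)).toAlgebra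
  have hch : CharZero (IsLocalRing.ResidueField A) :=
    charZero_of_injective_algebraMap (algebraMap ℂ (IsLocalRing.ResidueField A)).injective
  obtain ⟨j, hj⟩ : ∃ j : IsLocalRing.ResidueField A →+*
    AlgebraicClosure (IsLocalRing.ResidueField A), j = algebraMap _ _ := ⟨_, rfl⟩
  let algM : Algebra ℂ (AlgebraicClosure (IsLocalRing.ResidueField A)) :=
    (j.comp (res.comp (cst A hC))).toAlgebra
  obtain ⟨t, ht⟩ := IsAlgClosed.exists_pow_nat_eq (j (res a)) (n := 7) (by norm_num)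
  obtain ⟨z, hz⟩ : ∃ z, z = j (res (cst A hC ζ)) := ⟨_, rfl⟩
  have hz7 : z ^ 7 = 1 := by
    rw [hz, ← map_pow, ← map_pow, ← map_pow, hζ.pow_eq_one, map_one, map_one, map_one]
  obtain ⟨X, hX⟩ : ∃ X, X = t ^ 4 * j (res α) := ⟨_, rfl⟩
  obtain ⟨Y, hY⟩ : ∃ Y, Y = t ^ 3 * j (res β) := ⟨_, rfl⟩
  have e1 : j (res (a * α * β)) = X * Y := by
    rw [hX, hY, map_mul, map_mul, map_mul, map_mul, ← ht]
    ring
  have e2 : j (res (a ^ 4 * α ^ 7 + a ^ 3 * β ^ 7)) = X ^ 7 + Y ^ 7 := by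
    rw [hX, hY]
    simp only [map_add, map_mul, map_pow, ← ht]
    ring
  have e3 : j (res (cst A hC ζ + cst A hC ζ ^ 6)) = z + z ^ 6 := by
    rw [hz]
    simp only [map_add, map_pow]
  have hWM : We (z + z ^ 6) (j (res B)) (X * Y) (X ^ 7 + Y ^ 7) (j (res x)) (j (res y)) = 0 := by
    rw [← e1, ← e2, ← e3, ← map_We, ← map_We, hW, map_zero, map_zero]
  have hfM : ff (z + z ^ 6) (j (res B)) (X * Y) (X ^ 7 + Y ^ 7) (j (res x)) (j (res y)) = 0 := by
    rw [← e1, ← e2, ← e3, ← map_ff, ← map_ff, (hker _).mpr hf, map_zero]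
  have hN := h4 (AlgebraicClosure (IsLocalRing.ResidueField A)) ζ hζ (z + z ^ 6) z (j (res B)) X Y
    (j (res x)) (j (res y)) hz rfl hWM
  rw [hfM, zero_mul] at hN
  obtain ⟨i, -, hi⟩ := Finset.prod_eq_zero_iff.mp hN.symm
  have hrel : Rel (res (cst A hC ζ) + res (cst A hC ζ) ^ 6) := by
    refine h6 _ _ ?_
    have h7 : ∑ i ∈ Finset.range 7, ζ ^ i = 0 := hζ.geom_sum_eq_zero (by norm_num)
    simp only [Finset.sum_range_succ, Finset.sum_range_zero, zero_add, pow_zero, pow_one] at h7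
    have h8 : res (cst A hC (1 + ζ + ζ ^ 2 + ζ ^ 3 + ζ ^ 4 + ζ ^ 5 + ζ ^ 6)) = 0 := by
      rw [h7, map_zero, map_zero]
    simp only [map_add, map_pow, map_one] at h8
    linear_combination h8
  have hres' := h5 (IsLocalRing.ResidueField A) (AlgebraicClosure (IsLocalRing.ResidueField A))
    (res (cst A hC ζ) + res (cst A hC ζ) ^ 6) hrel (res a) (fun h => ha ((hker a).mp h))
    (fun b hb' => by
      obtain ⟨b', rfl⟩ := hsurj b
      refine hb b' ((hker _).mp ?_)
      rw [map_sub, map_pow, hb', sub_self])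
    (z ^ (2 * i) * t) (by
      rw [mul_pow, ht, ← pow_mul, mul_comm (2 * i) 7, pow_mul, hz7, one_pow, one_mul, hj])
    (res B) (res α) (res β) (res x) (by
      rw [← hj]
      have e4 : (z ^ (2 * i) * t) ^ 4 * j (res α) = z ^ i * X := by
        rw [hX, mul_pow, ← pow_mul]
        have : z ^ (2 * i * 4) = z ^ i := by
          have e : 2 * i * 4 = 7 * i + i := by ring
          rw [e, pow_add, pow_mul, hz7, one_pow, one_mul]
        rw [this]
        ring
      have e5 : (z ^ (2 * i) * t) ^ 3 * j (res β) = z ^ (6 * i) * Y := by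
        rw [hY, mul_pow, ← pow_mul]
        have : z ^ (2 * i * 3) = z ^ (6 * i) := by
          congr 1
          ring
        rw [this]
        ring
      have e6 : j (res (cst A hC ζ) + res (cst A hC ζ) ^ 6) = z + z ^ 6 := by
        rw [hz, map_add, map_pow]
      rw [e4, e5, e6]
      exact (sub_eq_zero.mp hi).symm)
  exact ⟨(hker α).mp hres'.1, (hker β).mp hres'.2⟩

end res

end AuxInert

open AuxInert in
theorem pr_Inert (h1 : StPole) (h2 : StInt) (h3 : StHom) (h4 : StNormF) (h5 : StComp)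
    (h6 : StRelZ) : StInert := by
  intro L _ _ A hC ζ c0 hζ hc0 h c hh hc u r x y p a hp hu ha hb hW
  have ha0 : a ≠ 0 := by
    intro h0
    rw [h0, map_zero] at ha
    exact zero_ne_one ha
  have hu0 : u ≠ 0 := by
    rw [hu]
    exact mul_ne_zero ha0 (pow_ne_zero _ hp)
  have hle : ∀ z : ℂ, A.valuation (algebraMap ℂ L z) ≤ 1 := fun z =>
    (A.valuation_le_one_iff _).mpr (hC z)
  have hvc : A.valuation c = 1 := by
    refine le_antisymm (hc ▸ hle c0) ?_
    have h7 := hle c0⁻¹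
    rw [map_inv₀, map_inv₀, ← hc] at h7
    have hcn : c ≠ 0 := by
      rw [hc]
      exact (map_ne_zero _).mpr hc0
    have hvn : A.valuation c ≠ 0 := (map_ne_zero _).mpr hcn
    rwa [inv_le_one₀ (zero_lt_iff.mpr hvn)] at h7
  have hvh : A.valuation h ≤ 1 := hh ▸ hle _
  obtain ⟨l, hl0, l1, l2, l3, l4⟩ := exists_max A.valuation u (p ^ 4 * (1 + u)) (p ^ 3 * r) hu0
  have hvl : A.valuation l ≠ 0 := (map_ne_zero _).mpr hl0
  have hvl0 : 0 < A.valuation l := zero_lt_iff.mpr hvl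
  obtain ⟨B, hB⟩ : ∃ B, B = u / l := ⟨_, rfl⟩
  obtain ⟨α, hα⟩ : ∃ α, α = c * (p ^ 4 * (1 + u)) / l := ⟨_, rfl⟩
  obtain ⟨β, hβ⟩ : ∃ β, β = c * (p ^ 3 * r) / l := ⟨_, rfl⟩
  obtain ⟨x', hx'⟩ : ∃ x', x' = x / l ^ 4 := ⟨_, rfl⟩
  obtain ⟨y', hy'⟩ : ∃ y', y' = y / l ^ 6 := ⟨_, rfl⟩
  have eB : u = l * B := by rw [hB]; field_simp
  have ew : wf c u r = l ^ 2 * (a * α * β) := by
    rw [hα, hβ, wf]
    have : l ^ 2 * (a * (c * (p ^ 4 * (1 + u)) / l) * (c * (p ^ 3 * r) / l)) =
        c ^ 2 * (a * p ^ 7) * (1 + u) * r := by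
      field_simp
    rw [this, ← hu]
  have eS : Sf c u r = l ^ 7 * (a ^ 4 * α ^ 7 + a ^ 3 * β ^ 7) := by
    rw [hα, hβ, Sf]
    have : l ^ 7 * (a ^ 4 * (c * (p ^ 4 * (1 + u)) / l) ^ 7 + a ^ 3 * (c * (p ^ 3 * r) / l) ^ 7) =
        c ^ 7 * ((a * p ^ 7) ^ 4 * (1 + u) ^ 7 + (a * p ^ 7) ^ 3 * r ^ 7) := by
      field_simp
    rw [this, ← hu]
  have ex : x = l ^ 4 * x' := by rw [hx']; field_simp
  have ey : y = l ^ 6 * y' := by rw [hy']; field_simp
  obtain ⟨H1, H2⟩ := h3 L h l B (a * α * β) (a ^ 4 * α ^ 7 + a ^ 3 * β ^ 7) x' y'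
  rw [← eB, ← ew, ← eS, ← ex, ← ey] at H1 H2
  have hW' : We h B (a * α * β) (a ^ 4 * α ^ 7 + a ^ 3 * β ^ 7) x' y' = 0 := by
    have h7 : We h u (wf c u r) (Sf c u r) x y = 0 := hW
    rw [H1] at h7
    exact (mul_eq_zero.mp h7).resolve_left (pow_ne_zero _ hl0)
  have hfu : fu h c u r x y =
      l ^ 14 * ff h B (a * α * β) (a ^ 4 * α ^ 7 + a ^ 3 * β ^ 7) x' y' := H2
  have vB : A.valuation B ≤ 1 := by
    rw [hB, map_div₀]
    exact div_le_one_of_le₀ l1 zero_le
  have vα : A.valuation α = A.valuation (p ^ 4 * (1 + u)) / A.valuation l := by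
    rw [hα, map_div₀, map_mul, hvc, one_mul]
  have vβ : A.valuation β = A.valuation (p ^ 3 * r) / A.valuation l := by
    rw [hβ, map_div₀, map_mul, hvc, one_mul]
  have vα1 : A.valuation α ≤ 1 := by
    rw [vα]
    exact div_le_one_of_le₀ l2 zero_le
  have vβ1 : A.valuation β ≤ 1 := by
    rw [vβ]
    exact div_le_one_of_le₀ l3 zero_le
  have vw : A.valuation (a * α * β) ≤ 1 := by
    rw [map_mul, map_mul, ha, one_mul]
    exact mul_le_one' vα1 vβ1
  have vS : A.valuation (a ^ 4 * α ^ 7 + a ^ 3 * β ^ 7) ≤ 1 := by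
    refine (A.valuation.map_add _ _).trans (max_le ?_ ?_)
    · rw [map_mul, map_pow, map_pow, ha, one_pow, one_mul]
      exact pow_le_one' vα1 7
    · rw [map_mul, map_pow, map_pow, ha, one_pow, one_mul]
      exact pow_le_one' vβ1 7
  rcases lt_or_ge 1 (A.valuation x') with hx1 | hx1
  · obtain ⟨hy0, hv⟩ := h1 L _ A.valuation h B _ _ x' y' hvh vB vw vS hW' hx1
    have hx0 : x' ≠ 0 := by
      intro h0
      rw [h0, map_zero] at hx1
      exact absurd hx1 (not_lt.mpr zero_le)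
    refine ⟨l ^ 2 * (y' / x'), mul_ne_zero (pow_ne_zero _ hl0) (div_ne_zero hy0 hx0), ?_⟩
    rw [hfu]
    have e : ∀ F : L, l ^ 14 * F / (l ^ 2 * (y' / x')) ^ 7 = F / (y' / x') ^ 7 := by
      intro F
      have h8 : (l ^ 2 * (y' / x')) ^ 7 = l ^ 14 * (y' / x') ^ 7 := by ring
      rw [h8, mul_div_mul_left _ _ (pow_ne_zero 14 hl0)]
    rw [e]
    exact v_one_of_sub A.valuation hv
  · obtain ⟨hy1, hf1⟩ := h2 L _ A.valuation h B _ _ x' y' hvh vB vw vS hW' hx1
    rcases hf1.lt_or_eq with hf2 | hf2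
    · exfalso
      have mem : ∀ z : L, A.valuation z ≤ 1 → z ∈ A := fun z hz =>
        (A.valuation_le_one_iff z).mp hz
      have hmax : ∀ z : A, z ∈ IsLocalRing.maximalIdeal A ↔ A.valuation (z : L) < 1 := fun z =>
        A.valuation_lt_one_iff z
      have hcst : ((cst A hC ζ + cst A hC ζ ^ 6 : A) : L) = h := by
        rw [hh, map_add, map_pow]
        rfl
      have hsub : ∀ z : A, A.subtype z = (z : L) := fun z => rfl
      have lift : ∀ z : L, A.valuation z ≤ 1 → ∃ w : A, (w : L) = z := fun z hz =>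
        ⟨⟨z, mem z hz⟩, rfl⟩
      obtain ⟨aA, ea⟩ := lift a ha.le
      obtain ⟨BA, eBA⟩ := lift B vB
      obtain ⟨αA, eα⟩ := lift α vα1
      obtain ⟨βA, eβ⟩ := lift β vβ1
      obtain ⟨xA, exA⟩ := lift x' hx1
      obtain ⟨yA, eyA⟩ := lift y' hy1
      have ew' : ((aA * αA * βA : A) : L) = a * α * β := by
        rw [← ea, ← eα, ← eβ]
        rfl
      have eS' : ((aA ^ 4 * αA ^ 7 + aA ^ 3 * βA ^ 7 : A) : L) =
          a ^ 4 * α ^ 7 + a ^ 3 * β ^ 7 := by
        rw [← ea, ← eα, ← eβ]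
        rfl
      obtain ⟨k1, k2⟩ := key A h4 h5 h6 hC ζ hζ aA BA αA βA xA yA
        (fun h => by
          rw [hmax, ea] at h
          exact absurd h (by rw [ha]; exact lt_irrefl _))
        (fun b h => by
          rw [hmax] at h
          refine hb b ?_
          rw [← ea]
          exact h)
        (by
          apply A.subtype_injective
          rw [map_We, map_zero, hsub, hcst]
          rw [hsub, hsub, hsub, hsub, hsub, ew', eS', eBA, exA, eyA]
          exact hW')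
        (by
          rw [hmax, ← hsub, map_ff, hsub, hcst]
          rw [hsub, hsub, hsub, hsub, hsub, ew', eS', eBA, exA, eyA]
          exact hf2)
      rw [hmax] at k1 k2
      have k1' : A.valuation α < 1 := eα ▸ k1
      have k2' : A.valuation β < 1 := eβ ▸ k2
      rw [vα, div_lt_one₀ hvl0] at k1'
      rw [vβ, div_lt_one₀ hvl0] at k2'
      rcases l4 with rfl | rfl | rfl
      · exact contra A.valuation a p _ hp hu ha hb k1'
      · exact absurd k1' (lt_irrefl _)
      · exact absurd k2' (lt_irrefl _)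
    · refine ⟨l ^ 2, pow_ne_zero _ hl0, ?_⟩
      rw [hfu]
      have e : ∀ F : L, l ^ 14 * F / (l ^ 2) ^ 7 = F := by
        intro F
        rw [← pow_mul]
        exact mul_div_cancel_left₀ F (pow_ne_zero _ hl0)
      rw [e]
      exact hf2

end Pool.Agent.Work.MP_c5a777_ag.Sev

end

section

/-!
# If the cyclic algebra (a, b) of degree seven is split, then b is a norm
-/

set_option autoImplicit false

namespace Pool.Agent.Work.MP_c5a777_ag.Sev

open Matrix Polynomial

namespace AuxMat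

/-- eigenvectors with distinct eigenvalues: a vector with the first eigenvalue is a
multiple of the first eigenvector -/
theorem eig_line {F : Type*} [Field F] (A : Matrix (Fin 7) (Fin 7) F)
    (q : Fin 7 → F) (hq : Function.Injective q) (f : Fin 7 → Fin 7 → F)
    (hf : ∀ j, f j ≠ 0) (hAf : ∀ j, A *ᵥ f j = q j • f j) (u : Fin 7 → F)
    (hu : A *ᵥ u = q 0 • u) : ∃ γ : F, u = γ • f 0 := by
  have hli : LinearIndependent F f := by
    refine Module.End.eigenvectors_linearIndependent' (Matrix.mulVecLin A) q hq _ ?_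
    intro j
    rw [Module.End.hasEigenvector_iff, Module.End.mem_eigenspace_iff]
    exact ⟨by simpa using hAf j, hf j⟩
  have hspan : ⊤ ≤ Submodule.span F (Set.range f) := by
    rw [hli.span_eq_top_of_card_eq_finrank (by simp)]
  have hw : u ∈ Submodule.span F (Set.range f) := hspan trivial
  rw [Submodule.mem_span_range_iff_exists_fun] at hw
  obtain ⟨c, hc⟩ := hw
  have h1 : A *ᵥ u = ∑ j, (c j * q j) • f j := by
    rw [← hc, Matrix.mulVec_sum]
    refine Finset.sum_congr rfl fun j _ => ?_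
    rw [Matrix.mulVec_smul, hAf, smul_smul]
  have h2 : ∑ j, (c j * (q j - q 0)) • f j = 0 := by
    have h3 : A *ᵥ u - q 0 • u = 0 := by rw [hu, sub_self]
    rw [h1, ← hc, Finset.smul_sum, ← Finset.sum_sub_distrib] at h3
    rw [← h3]
    refine Finset.sum_congr rfl fun j _ => ?_
    rw [smul_smul, ← sub_smul]
    congr 1
    ring
  have h4 := Fintype.linearIndependent_iff.1 hli _ h2
  have h5 : ∀ j, j ≠ 0 → c j = 0 := by
    intro j hj
    exact (mul_eq_zero.1 (h4 j)).resolve_right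
      (sub_ne_zero.2 fun h => hj (hq h))
  refine ⟨c 0, ?_⟩
  rw [← hc, Finset.sum_eq_single 0 (fun j _ hj => by rw [h5 j hj, zero_smul])
    (fun h => absurd (Finset.mem_univ _) h)]

/-- an eigenvector -/
theorem eig_exists {F : Type*} [Field F] (A : Matrix (Fin 7) (Fin 7) F) (w p a : F)
    (hw : IsPrimitiveRoot w 7) (hp : p ^ 7 = a) (hA : A ^ 7 = Matrix.scalar (Fin 7) a) :
    ∃ (i : ℕ) (e : Fin 7 → F), e ≠ 0 ∧ A *ᵥ e = (w ^ i * p) • e := by
  by_contra hcon
  push Not at hcon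
  have key : ∀ (n : ℕ) (v : Fin 7 → F), v ≠ 0 →
      (aeval A (∏ i ∈ Finset.range n, (X - C (w ^ i * p)) : F[X])) *ᵥ v ≠ 0 := by
    intro n
    induction n with
    | zero => intro v hv; simpa using hv
    | succ n ih =>
      intro v hv h0
      rw [Finset.prod_range_succ, map_mul, ← Matrix.mulVec_mulVec] at h0
      refine ih _ ?_ h0
      intro h1
      apply hcon n v hv
      rw [map_sub, aeval_X, aeval_C, Matrix.sub_mulVec, sub_eq_zero] at h1
      rw [h1, Algebra.algebraMap_eq_smul_one, Matrix.smul_mulVec, Matrix.one_mulVec]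
  have h1 := key 7 1 (by
    intro h
    have := congrFun h 0
    simp at this)
  apply h1
  rw [← X_pow_sub_C_eq_prod hw (by norm_num) hp, map_sub, map_pow, aeval_X, aeval_C, hA]
  have : (algebraMap F (Matrix (Fin 7) (Fin 7) F)) a = Matrix.scalar (Fin 7) a := rfl
  rw [this, sub_self, Matrix.zero_mulVec]

/-- powers of a matrix as iterates -/
theorem pow_mulVec_iter {F : Type*} [Field F] (B : Matrix (Fin 7) (Fin 7) F) (n : ℕ)
    (v : Fin 7 → F) : B ^ n *ᵥ v = (fun x => B *ᵥ x)^[n] v := by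
  induction n generalizing v with
  | zero => simp
  | succ n ih => rw [pow_succ, ← Matrix.mulVec_mulVec, ih, Function.iterate_succ_apply]

end AuxMat

open AuxMat in
theorem pr_Mat : StMat := by
  intro L F _ _ _ w hw a b ha hb p hp σ hσ hσ7 U V hU hV hVU
  classical
  set φ := algebraMap L F with hφ
  have hinj : Function.Injective φ := φ.injective
  set ω : F := φ w with hω
  have hωp : IsPrimitiveRoot ω 7 := hw.map_of_injective hinj
  have hω7 : ω ^ 7 = 1 := hωp.pow_eq_one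
  have hω0 : ω ≠ 0 := hωp.ne_zero (by norm_num)
  have ha' : φ a ≠ 0 := fun h => ha (hinj (by rw [h, map_zero]))
  have hb' : φ b ≠ 0 := fun h => hb (hinj (by rw [h, map_zero]))
  have hp0 : p ≠ 0 := by
    intro h
    apply ha'
    rw [← hp, h]; ring
  set A : Matrix (Fin 7) (Fin 7) F := U.map φ with hA
  set B : Matrix (Fin 7) (Fin 7) F := V.map φ with hB
  have hAe : A = φ.mapMatrix U := rfl
  have hBe : B = φ.mapMatrix V := rfl
  have hsc : ∀ c : L, φ.mapMatrix (Matrix.scalar (Fin 7) c) = Matrix.scalar (Fin 7) (φ c) := by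
    intro c
    ext i j
    simp [Matrix.scalar_apply, Matrix.diagonal_apply, apply_ite φ]
  have hA7 : A ^ 7 = Matrix.scalar (Fin 7) (φ a) := by
    rw [hAe, ← map_pow, hU, hsc]
  have hB7 : B ^ 7 = Matrix.scalar (Fin 7) (φ b) := by
    rw [hBe, ← map_pow, hV, hsc]
  have hscv : ∀ (c : F) (v : Fin 7 → F), Matrix.scalar (Fin 7) c *ᵥ v = c • v := by
    intro c v
    ext i
    simp [Matrix.scalar_apply, Matrix.mulVec_diagonal]
  have hBA : B * A = ω • (A * B) := by
    rw [hAe, hBe, ← map_mul, hVU, ← map_mul]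
    ext i j
    rw [RingHom.mapMatrix_apply, Matrix.map_apply, Matrix.smul_apply, Matrix.smul_apply,
      RingHom.mapMatrix_apply, Matrix.map_apply, smul_eq_mul, smul_eq_mul, map_mul]
  -- B is injective
  have hB7v : ∀ v : Fin 7 → F, (fun x => B *ᵥ x)^[7] v = φ b • v := by
    intro v
    rw [← pow_mulVec_iter, hB7, hscv]
  have hBinj : ∀ v : Fin 7 → F, B *ᵥ v = 0 → v = 0 := by
    intro v hv
    have h1 := hB7v v
    rw [Function.iterate_succ_apply] at h1
    simp only [hv] at h1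
    rw [← pow_mulVec_iter, Matrix.mulVec_zero] at h1
    exact (smul_eq_zero.1 h1.symm).resolve_left hb'
  -- B shifts the eigenvalues
  have hAB : ∀ (v : Fin 7 → F) (q : F), A *ᵥ v = q • v →
      A *ᵥ (B *ᵥ v) = (ω ^ 6 * q) • (B *ᵥ v) := by
    intro v q hv
    have h1 : A * B = (ω ^ 6) • (B * A) := by
      rw [hBA, smul_smul]
      have : ω ^ 6 * ω = 1 := by rw [← hω7]; ring
      rw [this, one_smul]
    rw [Matrix.mulVec_mulVec, h1, Matrix.smul_mulVec, ← Matrix.mulVec_mulVec, hv,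
      Matrix.mulVec_smul, smul_smul]
  -- an eigenvector for p
  obtain ⟨e, he, hAe'⟩ : ∃ e : Fin 7 → F, e ≠ 0 ∧ A *ᵥ e = p • e := by
    obtain ⟨i, e, he, hi⟩ := eig_exists A ω p (φ a) hωp hp hA7
    have key : ∀ (i : ℕ) (e : Fin 7 → F), e ≠ 0 → A *ᵥ e = (ω ^ i * p) • e →
        ∃ e : Fin 7 → F, e ≠ 0 ∧ A *ᵥ e = p • e := by
      intro i
      induction i with
      | zero => intro e he hi; exact ⟨e, he, by simpa using hi⟩
      | succ i ih =>
        intro e he hi
        refine ih (B *ᵥ e) (fun h => he (hBinj _ h)) ?_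
        rw [hAB _ _ hi]
        congr 1
        calc ω ^ 6 * (ω ^ (i + 1) * p) = ω ^ 7 * (ω ^ i * p) := by ring
          _ = ω ^ i * p := by rw [hω7, one_mul]
    exact key i e he hi
  -- the seven eigenvectors
  let f : ℕ → Fin 7 → F := fun k => Nat.rec e (fun _ v => B *ᵥ v) k
  have hf0 : f 0 = e := rfl
  have hfs : ∀ k, f (k + 1) = B *ᵥ f k := fun k => rfl
  have hfne : ∀ k, f k ≠ 0 := by
    intro k
    induction k with
    | zero => exact he
    | succ k ih => intro h; exact ih (hBinj _ h)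
  have hfA : ∀ k, A *ᵥ f k = (ω ^ (6 * k) * p) • f k := by
    intro k
    induction k with
    | zero => rw [hf0, mul_zero, pow_zero, one_mul]; exact hAe'
    | succ k ih =>
      rw [hfs, hAB _ _ ih]
      congr 1
      ring
  have hqinj : Function.Injective fun k : Fin 7 => ω ^ (6 * (k : ℕ)) * p := by
    intro i j hij
    have h1 : ω ^ (6 * (i : ℕ)) = ω ^ (6 * (j : ℕ)) := mul_right_cancel₀ hp0 hij
    have h2 : (ω ^ 6) ^ (i : ℕ) = (ω ^ 6) ^ (j : ℕ) := by rw [← pow_mul, ← pow_mul, h1]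
    have h3 : IsPrimitiveRoot (ω ^ 6) 7 := hωp.pow_of_coprime 6 (by norm_num)
    exact Fin.ext (h3.pow_inj i.2 j.2 h2)
  -- the semilinear map
  have hσA : ∀ v : Fin 7 → F, (fun i => σ ((A *ᵥ v) i)) = A *ᵥ (fun i => σ (v i)) := by
    intro v
    funext i
    simp only [Matrix.mulVec, dotProduct, map_sum, map_mul, hA, Matrix.map_apply]
    refine Finset.sum_congr rfl fun j _ => ?_
    rw [hφ, σ.commutes]
  have hσB : ∀ v : Fin 7 → F, (fun i => σ ((B *ᵥ v) i)) = B *ᵥ (fun i => σ (v i)) := by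
    intro v
    funext i
    simp only [Matrix.mulVec, dotProduct, map_sum, map_mul, hB, Matrix.map_apply]
    refine Finset.sum_congr rfl fun j _ => ?_
    rw [hφ, σ.commutes]
  set e1 : Fin 7 → F := fun i => σ (e i) with he1
  have hAe1 : A *ᵥ e1 = (ω * p) • e1 := by
    rw [he1, ← hσA, hAe']
    funext i
    simp [hσ, hω]
  have hg : A *ᵥ (B *ᵥ e1) = p • (B *ᵥ e1) := by
    rw [hAB e1 _ hAe1]
    congr 1
    calc ω ^ 6 * (ω * p) = ω ^ 7 * p := by ring
      _ = p := by rw [hω7, one_mul]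
  obtain ⟨γ, hγ⟩ := eig_line A (fun k : Fin 7 => ω ^ (6 * (k : ℕ)) * p) hqinj
    (fun k => f k) (fun k => hfne k) (fun k => hfA k) (B *ᵥ e1) (by simpa using hg)
  have hγ' : B *ᵥ e1 = γ • e := hγ
  refine ⟨γ, ?_⟩
  -- iterates of σ on vectors
  let E : ℕ → Fin 7 → F := fun k i => σ^[k] (e i)
  have hE0 : E 0 = e := rfl
  have hE1 : E 1 = e1 := rfl
  have hEs : ∀ k, (fun i => σ (E k i)) = E (k + 1) := by
    intro k
    funext i
    exact (Function.iterate_succ_apply' σ k (e i)).symm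
  have hEB : ∀ k, B *ᵥ E (k + 1) = (σ^[k] γ) • E k := by
    intro k
    induction k with
    | zero => exact hγ'
    | succ k ih =>
      rw [← hEs, ← hσB, ih]
      funext i
      rw [Pi.smul_apply, Pi.smul_apply, smul_eq_mul, smul_eq_mul, map_mul]
      rw [← congrFun (hEs k) i, Function.iterate_succ_apply']
  have hE7 : E 7 = e := by
    funext i
    exact hσ7 (e i)
  have hiter : ∀ k, (fun x => B *ᵥ x)^[k] (E k) =
      (∏ i ∈ Finset.range k, σ^[i] γ) • e := by
    intro k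
    induction k with
    | zero => simp [hE0]
    | succ k ih =>
      rw [Function.iterate_succ_apply, hEB, ← pow_mulVec_iter, Matrix.mulVec_smul,
        pow_mulVec_iter, ih, smul_smul, Finset.prod_range_succ, mul_comm]
  have k5 := hiter 7
  rw [hE7, hB7v] at k5
  obtain ⟨i, hi⟩ := Function.ne_iff.1 he
  have k6 := congrFun k5 i
  simp only [Pi.smul_apply, smul_eq_mul] at k6
  exact mul_right_cancel₀ hi k6

end Pool.Agent.Work.MP_c5a777_ag.Sev

end

section

/-!
# A reduction criterion for an element not to be a norm of degree seven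
-/

set_option autoImplicit false

namespace Pool.Agent.Work.MP_c5a777_ag.Sev

namespace AuxNoNorm

/-- over a valuation ring a nonzero element of a free module is a nonzero scalar times an
element with a coordinate equal to one -/
theorem exists_primitive {O T Ω : Type*} [CommRing O] [IsDomain O] [ValuationRing O]
    [CommRing T] [Algebra O T] [Module.Free O T] [CommRing Ω] (θ : T →+* Ω)
    (hθ : ∀ z, θ z = 0 → z ∈ (IsLocalRing.maximalIdeal O).map (algebraMap O T))
    (z : T) (hz : z ≠ 0) : ∃ (a : O) (z' : T), a ≠ 0 ∧ z = a • z' ∧ θ z' ≠ 0 := by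
  classical
  set b := Module.Free.chooseBasis O T with hb
  have hsupp : (b.repr z).support.Nonempty := by
    rw [Finsupp.support_nonempty_iff]
    intro h
    exact hz (b.repr.map_eq_zero_iff.1 h)
  -- a coordinate dividing all the others
  have key : ∀ s : Finset (Module.Free.ChooseBasisIndex O T), s.Nonempty →
      ∃ i ∈ s, ∀ j ∈ s, b.repr z i ∣ b.repr z j := by
    intro s hs
    induction hs using Finset.Nonempty.cons_induction with
    | singleton i => exact ⟨i, by simp, fun j hj => by rw [Finset.mem_singleton.1 hj]⟩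
    | cons i s his hs ih =>
      obtain ⟨k, hk, hks⟩ := ih
      rcases ValuationRing.dvd_total (b.repr z i) (b.repr z k) with h | h
      · refine ⟨i, Finset.mem_cons_self _ _, fun j hj => ?_⟩
        rcases Finset.mem_cons.1 hj with rfl | hj
        · exact dvd_rfl
        · exact h.trans (hks j hj)
      · refine ⟨k, Finset.mem_cons_of_mem hk, fun j hj => ?_⟩
        rcases Finset.mem_cons.1 hj with rfl | hj
        · exact h
        · exact hks j hj
  obtain ⟨i, hi, hdvd⟩ := key _ hsupp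
  have hi0 : b.repr z i ≠ 0 := Finsupp.mem_support_iff.1 hi
  have hdvd' : ∀ j, ∃ c, b.repr z j = b.repr z i * c := by
    intro j
    by_cases hj : j ∈ (b.repr z).support
    · exact hdvd j hj
    · exact ⟨0, by rw [mul_zero]; exact Finsupp.notMem_support_iff.1 hj⟩
  choose c hc using hdvd'
  set z' : T := ∑ j ∈ (b.repr z).support, c j • b j with hz'
  have hrel : z = b.repr z i • z' := by
    conv_lhs => rw [← b.linearCombination_repr z, Finsupp.linearCombination_apply, Finsupp.sum]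
    rw [hz', Finset.smul_sum]
    refine Finset.sum_congr rfl fun j _ => ?_
    rw [smul_smul, ← hc]
  have hcoord : b.repr z' i = 1 := by
    have h1 : b.repr z i * b.repr z' i = b.repr z i * 1 := by
      rw [mul_one]
      conv_rhs => rw [hrel]
      rw [map_smul, Finsupp.smul_apply, smul_eq_mul]
    exact mul_left_cancel₀ hi0 h1
  refine ⟨b.repr z i, z', hi0, hrel, ?_⟩
  intro h0
  have h1 := hθ z' h0
  have h2 : z' ∈ (IsLocalRing.maximalIdeal O • ⊤ : Submodule O T) := by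
    rw [Ideal.smul_top_eq_map]
    exact h1
  have h3 : b.coord i z' ∈ Submodule.map (b.coord i)
      (IsLocalRing.maximalIdeal O • ⊤ : Submodule O T) := Submodule.mem_map_of_mem h2
  rw [Submodule.map_smul''] at h3
  have h4 : b.coord i z' ∈ IsLocalRing.maximalIdeal O := by
    have h5 : (IsLocalRing.maximalIdeal O) • (Submodule.map (b.coord i) ⊤) ≤
        (IsLocalRing.maximalIdeal O : Ideal O) • (⊤ : Ideal O) :=
      Submodule.smul_mono le_rfl le_top
    have h6 := h5 h3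
    rwa [smul_eq_mul, Ideal.mul_top] at h6
  rw [Module.Basis.coord_apply, hcoord] at h4
  exact (Ideal.ne_top_iff_one _).1 (IsLocalRing.maximalIdeal.isMaximal O).ne_top h4

/-- the product of the iterates -/
def Nm {R : Type*} [CommRing R] (σ : R →+* R) (z : R) : R := ∏ i ∈ Finset.range 7, σ^[i] z

theorem iter_inj {R : Type*} [CommRing R] (σ : R →+* R) (hσ : Function.Injective σ) (i : ℕ) :
    Function.Injective (σ^[i]) := hσ.iterate i

theorem iter_zero {R : Type*} [CommRing R] (σ : R →+* R) (i : ℕ) : σ^[i] 0 = 0 := by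
  induction i with
  | zero => rfl
  | succ i ih => rw [Function.iterate_succ_apply, map_zero, ih]

theorem iter_mul {R : Type*} [CommRing R] (σ : R →+* R) (i : ℕ) (x y : R) :
    σ^[i] (x * y) = σ^[i] x * σ^[i] y := by
  induction i generalizing x y with
  | zero => rfl
  | succ i ih => rw [Function.iterate_succ_apply, map_mul, ih]; rfl

theorem Nm_ne {R : Type*} [CommRing R] [IsDomain R] (σ : R →+* R) (hσ : Function.Injective σ)
    (z : R) (hz : z ≠ 0) : Nm σ z ≠ 0 := by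
  unfold Nm
  rw [Finset.prod_ne_zero_iff]
  intro i _ h
  exact hz (iter_inj σ hσ i (h.trans (iter_zero σ i).symm))

theorem map_Nm {R S : Type*} [CommRing R] [CommRing S] (θ : R →+* S) (σ : R →+* R)
    (τ : S →+* S) (h : ∀ z, θ (σ z) = τ (θ z)) (z : R) : θ (Nm σ z) = Nm τ (θ z) := by
  unfold Nm
  rw [map_prod]
  have key : ∀ (i : ℕ) (z : R), θ (σ^[i] z) = τ^[i] (θ z) := by
    intro i
    induction i with
    | zero => intro z; rfl
    | succ i ih =>
      intro z
      rw [Function.iterate_succ_apply, ih, h, Function.iterate_succ_apply]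
  exact Finset.prod_congr rfl fun i _ => key i z

theorem Nm_mul {R : Type*} [CommRing R] (σ : R →+* R) (x y : R) :
    Nm σ (x * y) = Nm σ x * Nm σ y := by
  unfold Nm
  rw [← Finset.prod_mul_distrib]
  exact Finset.prod_congr rfl fun i _ => iter_mul σ i x y

theorem Nm_fix {R : Type*} [CommRing R] (σ : R →+* R) (x : R) (h : σ x = x) :
    Nm σ x = x ^ 7 := by
  unfold Nm
  have : ∀ i, σ^[i] x = x := fun i => Function.iterate_fixed h i
  simp only [this, Finset.prod_const, Finset.card_range]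

theorem ord_prod {Ω : Type*} [CommRing Ω] [IsDomain Ω] (ord : Ω → ℕ)
    (hmul : ∀ a b, a ≠ 0 → b ≠ 0 → ord (a * b) = ord a + ord b) (g : ℕ → Ω) (d : ℕ)
    (hg : ∀ i, g i ≠ 0) (hd : ∀ i, ord (g i) = d) (n : ℕ) :
    ord (∏ i ∈ Finset.range (n + 1), g i) = (n + 1) * d := by
  induction n with
  | zero => simp [hd]
  | succ n ih =>
    rw [Finset.prod_range_succ, hmul _ _ (Finset.prod_ne_zero_iff.2 fun i _ => hg i) (hg _),
      ih, hd]
    ring

end AuxNoNorm

open AuxNoNorm in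
theorem pr_NoNorm : StNoNorm := by
  intro O T Ω F _ _ _ _ _ _ _ _ _ θ hθ σ hσa τ hτ hτi ord hmul hord ι hι s hs f hf h7 z1 z2
    hz1 hz2 γ hγ hN
  have : IsDomain T := hι.isDomain ι
  have hσi : Function.Injective σ := by
    intro x y hxy
    apply hι
    apply s.injective
    rw [← hs, ← hs, hxy]
  have hsi : Function.Injective s := s.injective
  have hM0 : ∀ z, z ≠ 0 → Nm τ z ≠ 0 := fun z hz => Nm_ne τ hτi z hz
  have hiter : ∀ (z : Ω), z ≠ 0 → ∀ i, τ^[i] z ≠ 0 := by
    intro z hz i h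
    exact hz (iter_inj τ hτi i (h.trans (iter_zero τ i).symm))
  have hiord : ∀ (z : Ω) (i : ℕ), ord (τ^[i] z) = ord z := by
    intro z i
    induction i generalizing z with
    | zero => rfl
    | succ i ih => rw [Function.iterate_succ_apply, ih, hord]
  have hMord : ∀ z, z ≠ 0 → ord (Nm τ z) = 7 * ord z := fun z hz =>
    ord_prod ord hmul (fun i => τ^[i] z) (ord z) (hiter z hz) (hiord z) 6
  have hpow7 : ∀ c : Ω, c ≠ 0 → ord (c ^ 7) = 7 * ord c := by
    intro c hc
    have := ord_prod ord hmul (fun _ => c) (ord c) (fun _ => hc) (fun _ => rfl) 6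
    rwa [Finset.prod_const, Finset.card_range] at this
  have hNsmul : ∀ (a : O) z, Nm σ (a • z) = a ^ 7 • Nm σ z := by
    intro a z
    rw [Algebra.smul_def, Nm_mul, Nm_fix σ _ (hσa a), Algebra.smul_def, map_pow]
  -- clear denominators
  have hmain : Nm σ z1 = f * Nm σ z2 := by
    apply hι
    have hn2 : ι (Nm σ z2) ≠ 0 := fun h => Nm_ne σ hσi z2 hz2 (hι (by rw [h, map_zero]))
    have hι2 : ι z2 ≠ 0 := fun h => hz2 (hι (by rw [h, map_zero]))
    have e0 : Nm s γ = ι f := hN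
    have e1 : Nm s γ * ι (Nm σ z2) = ι (Nm σ z1) := by
      rw [map_Nm ι σ s hs, map_Nm ι σ s hs, ← Nm_mul, hγ, div_mul_cancel₀ _ hι2]
    rw [← e1, e0, map_mul ι f]
  obtain ⟨a1, y1, ha1, hy1, ht1⟩ := exists_primitive θ hθ z1 hz1
  obtain ⟨a2, y2, ha2, hy2, ht2⟩ := exists_primitive θ hθ z2 hz2
  rw [hy1, hy2, hNsmul, hNsmul, mul_smul_comm] at hmain
  have htf : ∀ (a : O) (x y : T), a ≠ 0 → a • x = a • y → x = y := by
    intro a x y ha hxy
    exact smul_right_injective T ha hxy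
  apply h7
  rcases ValuationRing.dvd_total a1 a2 with ⟨c, hc⟩ | ⟨c, hc⟩
  · have h1 : Nm σ y1 = c ^ 7 • (f * Nm σ y2) := by
      apply htf (a1 ^ 7) _ _ (pow_ne_zero 7 ha1)
      rw [hmain, hc, mul_pow, smul_smul]
    have h2 : Nm τ (θ y1) = (θ (algebraMap O T c)) ^ 7 * (θ f * Nm τ (θ y2)) := by
      rw [← map_Nm θ σ τ hτ, h1, Algebra.smul_def, map_mul, map_mul, map_Nm θ σ τ hτ,
        map_pow, map_pow]
    have hc0 : θ (algebraMap O T c) ≠ 0 := by
      intro h
      rw [h] at h2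
      apply hM0 _ ht1
      rw [h2]; ring
    have h3 : 7 * ord (θ y1) = 7 * ord (θ (algebraMap O T c)) +
        (ord (θ f) + 7 * ord (θ y2)) := by
      rw [← hMord _ ht1, h2, hmul _ _ (pow_ne_zero 7 hc0) (mul_ne_zero hf (hM0 _ ht2)),
        hmul _ _ hf (hM0 _ ht2), hpow7 _ hc0, hMord _ ht2]
    omega
  · have h1 : c ^ 7 • Nm σ y1 = f * Nm σ y2 := by
      apply htf (a2 ^ 7) _ _ (pow_ne_zero 7 ha2)
      rw [← hmain, hc, mul_pow, smul_smul]
    have h2 : (θ (algebraMap O T c)) ^ 7 * Nm τ (θ y1) = θ f * Nm τ (θ y2) := by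
      rw [← map_Nm θ σ τ hτ, ← map_Nm θ σ τ hτ, ← map_mul θ f, ← h1, Algebra.smul_def,
        map_mul θ (algebraMap O T (c ^ 7)), map_pow, map_pow]
    have hc0 : θ (algebraMap O T c) ≠ 0 := by
      intro h
      rw [h] at h2
      apply mul_ne_zero hf (hM0 _ ht2)
      rw [← h2]; ring
    have h3 : 7 * ord (θ (algebraMap O T c)) + 7 * ord (θ y1) =
        ord (θ f) + 7 * ord (θ y2) := by
      rw [← hMord _ ht1, ← hpow7 _ hc0, ← hmul _ _ (pow_ne_zero 7 hc0) (hM0 _ ht1), h2,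
        hmul _ _ hf (hM0 _ ht2), hMord _ ht2]
    omega

end Pool.Agent.Work.MP_c5a777_ag.Sev

end

section

/-!
# The norm formula
-/

set_option autoImplicit false

namespace Pool.Agent.Work.MP_c5a777_ag.Sev

namespace AuxNormF

open Polynomial

section

variable {R : Type*} [CommRing R]

/-- first factor -/
noncomputable def Pp (h A w S : R) : R[X] := X ^ 2 + C (e8 h A w S)

/-- second factor -/
noncomputable def Qp (h A w S : R) : R[X] := C (e10 h A w S) * X + C (e14 h A w S)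

/-- the linear coefficient -/
noncomputable def bp (h A w : R) : R[X] := C (a1 h A w) * X + C (a3 h A w)

/-- the cubic -/
noncomputable def Gp (h A w S : R) : R[X] :=
  X ^ 3 + C (a2 h w) * X ^ 2 + C (a4 h A w S) * X + C (a6 h A w S)

/-- the norm -/
noncomputable def Np (h A w S : R) : R[X] :=
  Pp h A w S ^ 2 * Gp h A w S + (Pp h A w S * Qp h A w S * bp h A w - Qp h A w S ^ 2)

theorem eval_Np (h A w S x : R) : (Np h A w S).eval x =
    (x ^ 2 + e8 h A w S) ^ 2 * (x ^ 3 + a2 h w * x ^ 2 + a4 h A w S * x + a6 h A w S) +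
    ((x ^ 2 + e8 h A w S) * (e10 h A w S * x + e14 h A w S) * (a1 h A w * x + a3 h A w) -
      (e10 h A w S * x + e14 h A w S) ^ 2) := by
  simp [Np, Pp, Qp, bp, Gp]

theorem norm_id (h A w S x y : R) (hW : We h A w S x y = 0) :
    ff h A w S x y * ff h A w S x (-y - a1 h A w * x - a3 h A w) =
      -(Np h A w S).eval x := by
  rw [eval_Np]
  unfold We at hW
  unfold ff
  linear_combination (-(x ^ 2 + e8 h A w S) ^ 2) * hW

theorem root (h z A X Y : R) (hh : Rel h) (hz : z ^ 7 = 1) (i : ℕ) :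
    (Np h A (X * Y) (X ^ 7 + Y ^ 7)).eval (xQ h A (z ^ i * X) (z ^ (6 * i) * Y)) = 0 := by
  have e1 : z ^ i * X * (z ^ (6 * i) * Y) = X * Y := by
    have : z ^ i * z ^ (6 * i) = 1 := by
      rw [← pow_add, show i + 6 * i = 7 * i by ring, pow_mul, hz, one_pow]
    linear_combination (X * Y) * this
  have e2 : (z ^ i * X) ^ 7 + (z ^ (6 * i) * Y) ^ 7 = X ^ 7 + Y ^ 7 := by
    have h1 : (z ^ i) ^ 7 = 1 := by
      rw [← pow_mul, mul_comm, pow_mul, hz, one_pow]
    have h2 : (z ^ (6 * i)) ^ 7 = 1 := by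
      rw [← pow_mul, mul_comm, pow_mul, hz, one_pow]
    rw [mul_pow, mul_pow, h1, h2, one_mul, one_mul]
  have h1 := we_Q h A (z ^ i * X) (z ^ (6 * i) * Y) hh
  have h2 := ff_Q h A (z ^ i * X) (z ^ (6 * i) * Y) hh
  rw [e1, e2] at h1 h2
  have h3 := norm_id _ _ _ _ _ _ h1
  rw [h2, zero_mul] at h3
  exact neg_eq_zero.1 h3.symm

theorem monic_Pp [Nontrivial R] (h A w S : R) :
    (Pp h A w S).Monic ∧ (Pp h A w S).natDegree = 2 := by
  unfold Pp
  constructor
  · monicity!
  · compute_degree!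

theorem monic_Gp [Nontrivial R] (h A w S : R) :
    (Gp h A w S).Monic ∧ (Gp h A w S).natDegree = 3 := by
  unfold Gp
  constructor
  · monicity!
  · compute_degree!

theorem monic_Np [Nontrivial R] (h A w S : R) :
    (Np h A w S).Monic ∧ (Np h A w S).natDegree = 7 := by
  obtain ⟨hP, hP2⟩ := monic_Pp h A w S
  obtain ⟨hG, hG3⟩ := monic_Gp h A w S
  have hM : (Pp h A w S ^ 2 * Gp h A w S).Monic := (hP.pow 2).mul hG
  have hd : (Pp h A w S ^ 2 * Gp h A w S).natDegree = 7 := by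
    rw [Monic.natDegree_mul (hP.pow 2) hG, hP.natDegree_pow, hP2, hG3]
  have hl : (Pp h A w S * Qp h A w S * bp h A w - Qp h A w S ^ 2).natDegree ≤ 4 := by
    unfold Pp Qp bp
    compute_degree
  have hlt : (Pp h A w S * Qp h A w S * bp h A w - Qp h A w S ^ 2).natDegree <
      (Pp h A w S ^ 2 * Gp h A w S).natDegree := by omega
  unfold Np
  constructor
  · exact hM.add_of_left (degree_lt_degree hlt)
  · rw [natDegree_add_eq_left_of_natDegree_lt hlt, hd]

theorem map_coef {K : Type*} [CommRing K] (φ : R →+* K) (h A w S : R) :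
    φ (e8 h A w S) = e8 (φ h) (φ A) (φ w) (φ S) ∧
    φ (e10 h A w S) = e10 (φ h) (φ A) (φ w) (φ S) ∧
    φ (e14 h A w S) = e14 (φ h) (φ A) (φ w) (φ S) ∧
    φ (a1 h A w) = a1 (φ h) (φ A) (φ w) ∧ φ (a2 h w) = a2 (φ h) (φ w) ∧
    φ (a3 h A w) = a3 (φ h) (φ A) (φ w) ∧ φ (a4 h A w S) = a4 (φ h) (φ A) (φ w) (φ S) ∧
    φ (a6 h A w S) = a6 (φ h) (φ A) (φ w) (φ S) := by
  refine ⟨?_, ?_, ?_, ?_, ?_, ?_, ?_, ?_⟩ <;>
    simp only [e8, e10, e14, a1, a2, a3, a4, a6, map_add, map_sub, map_mul, map_pow, map_neg,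
      map_ofNat]

theorem map_Np {K : Type*} [CommRing K] (φ : R →+* K) (h A w S : R) :
    (Np h A w S).map φ = Np (φ h) (φ A) (φ w) (φ S) := by
  obtain ⟨c1, c2, c3, c4, c5, c6, c7, c8⟩ := map_coef φ h A w S
  simp only [Np, Pp, Qp, bp, Gp, Polynomial.map_add,
    Polynomial.map_sub, Polynomial.map_mul, Polynomial.map_pow, Polynomial.map_X,
    Polynomial.map_C, c1, c2, c3, c4, c5, c6, c7, c8]

theorem map_xQ {K : Type*} [CommRing K] (φ : R →+* K) (h A X Y : R) :
    φ (xQ h A X Y) = xQ (φ h) (φ A) (φ X) (φ Y) := by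
  simp only [xQ, map_add, map_sub, map_mul, map_pow, map_neg, map_ofNat]

end

/-- the factorisation in a domain -/
theorem factor {D : Type*} [CommRing D] [IsDomain D] (h z A X Y : D) (hh : Rel h)
    (hz : z ^ 7 = 1)
    (hinj : Set.InjOn (fun i : ℕ => xQ h A (z ^ i * X) (z ^ (6 * i) * Y)) (Finset.range 7)) :
    Np h A (X * Y) (X ^ 7 + Y ^ 7) =
      ∏ i ∈ Finset.range 7, (Polynomial.X - C (xQ h A (z ^ i * X) (z ^ (6 * i) * Y))) := by
  obtain ⟨hM, hd⟩ := monic_Np h A (X * Y) (X ^ 7 + Y ^ 7)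
  have hM' : (∏ i ∈ Finset.range 7,
      (Polynomial.X - C (xQ h A (z ^ i * X) (z ^ (6 * i) * Y)))).Monic :=
    monic_prod_of_monic _ _ (fun i _ => monic_X_sub_C _)
  have hd' : (∏ i ∈ Finset.range 7,
      (Polynomial.X - C (xQ h A (z ^ i * X) (z ^ (6 * i) * Y)))).natDegree = 7 := by
    rw [natDegree_prod_of_monic _ _ (fun i _ => monic_X_sub_C _)]
    simp
  refine eq_of_degree_le_of_eval_index_eq (Finset.range 7) hinj ?_ ?_ ?_ ?_
  · rw [degree_eq_natDegree hM.ne_zero, hd]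
    simp
  · rw [degree_eq_natDegree hM.ne_zero, hd, degree_eq_natDegree hM'.ne_zero, hd']
  · rw [hM.leadingCoeff, hM'.leadingCoeff]
  · intro i hi
    rw [root h z A X Y hh hz i, eval_prod]
    refine (Finset.prod_eq_zero hi ?_).symm
    simp

end AuxNormF

open AuxNormF in
theorem pr_NormF (h1 : StRelZ) (h2 : StConst) : StNormF := by
  intro K _ _ ζ hζ h z A X Y x y hz hh hW
  rw [norm_id _ _ _ _ _ _ hW]
  -- the relation in `ℂ`
  have hζ7 : ζ ^ 7 = 1 := hζ.pow_eq_one
  have hζ1 : ζ ≠ 1 := hζ.ne_one (by norm_num)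
  have hcyc : ζ ^ 6 + ζ ^ 5 + ζ ^ 4 + ζ ^ 3 + ζ ^ 2 + ζ + 1 = 0 := by
    have h3 : (ζ - 1) * (ζ ^ 6 + ζ ^ 5 + ζ ^ 4 + ζ ^ 3 + ζ ^ 2 + ζ + 1) = 0 := by
      linear_combination hζ7
    rcases mul_eq_zero.1 h3 with h4 | h4
    · exact absurd (sub_eq_zero.1 h4) hζ1
    · exact h4
  have hRel0 : Rel (ζ + ζ ^ 6) := h1 ℂ ζ hcyc
  obtain ⟨-, -, -, hc, -, -⟩ := h2 ℂ _ hRel0
  -- the universal ring
  let R0 := MvPolynomial (Fin 3) ℂ
  let z0 : R0 := MvPolynomial.C ζ
  have hz0 : z0 ^ 7 = 1 := by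
    show (MvPolynomial.C ζ : MvPolynomial (Fin 3) ℂ) ^ 7 = 1
    rw [← map_pow, hζ7, map_one]
  have hrel : Rel (z0 + z0 ^ 6) := by
    have h3 : (MvPolynomial.C (σ := Fin 3) ((ζ + ζ ^ 6) ^ 3 + (ζ + ζ ^ 6) ^ 2 -
        2 * (ζ + ζ ^ 6) - 1) : MvPolynomial (Fin 3) ℂ) = 0 := by
      have : (ζ + ζ ^ 6) ^ 3 + (ζ + ζ ^ 6) ^ 2 - 2 * (ζ + ζ ^ 6) - 1 = 0 := hRel0
      rw [this, map_zero]
    show (z0 + z0 ^ 6) ^ 3 + (z0 + z0 ^ 6) ^ 2 - 2 * (z0 + z0 ^ 6) - 1 = 0
    rw [← h3]
    simp only [map_add, map_sub, map_mul, map_pow, map_one, map_ofNat]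
    rfl
  let A0 : R0 := MvPolynomial.X 0
  let X0 : R0 := MvPolynomial.X 1
  let Y0 : R0 := MvPolynomial.X 2
  have hinj : Set.InjOn (fun i : ℕ => xQ (z0 + z0 ^ 6) A0 (z0 ^ i * X0) (z0 ^ (6 * i) * Y0))
      (Finset.range 7) := by
    intro i hi j hj hij
    have hi' : i < 7 := by simpa using hi
    have hj' : j < 7 := by simpa using hj
    let ψ : R0 →+* ℂ := (MvPolynomial.aeval (![0, 1, 0] : Fin 3 → ℂ)).toRingHom
    have hψz : ψ z0 = ζ := by
      show (MvPolynomial.aeval (![0, 1, 0] : Fin 3 → ℂ)) (MvPolynomial.C ζ) = ζ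
      rw [MvPolynomial.aeval_C]; rfl
    have hψA : ψ A0 = 0 := by
      show (MvPolynomial.aeval (![0, 1, 0] : Fin 3 → ℂ)) (MvPolynomial.X 0) = 0
      rw [MvPolynomial.aeval_X]; rfl
    have hψX : ψ X0 = 1 := by
      show (MvPolynomial.aeval (![0, 1, 0] : Fin 3 → ℂ)) (MvPolynomial.X 1) = 1
      rw [MvPolynomial.aeval_X]; rfl
    have hψY : ψ Y0 = 0 := by
      show (MvPolynomial.aeval (![0, 1, 0] : Fin 3 → ℂ)) (MvPolynomial.X 2) = 0
      rw [MvPolynomial.aeval_X]; rfl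
    have key : ∀ k : ℕ, ψ (xQ (z0 + z0 ^ 6) A0 (z0 ^ k * X0) (z0 ^ (6 * k) * Y0)) =
        (4 * (ζ + ζ ^ 6) ^ 2 - 4 * (ζ + ζ ^ 6)) * ζ ^ (4 * k) := by
      intro k
      rw [map_xQ]
      simp only [map_add, map_mul, map_pow, hψz, hψA, hψX, hψY]
      unfold xQ
      rw [pow_mul']
      ring
    have h3 := congrArg ψ hij
    simp only [key] at h3
    have h4 := mul_left_cancel₀ hc h3
    have h5 : ζ ^ i = ζ ^ j := by
      have h6 : ∀ k : ℕ, (ζ ^ (4 * k)) ^ 2 = ζ ^ k := by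
        intro k
        rw [← pow_mul, show 4 * k * 2 = 7 * k + k by ring, pow_add, pow_mul ζ 7 k, hζ7,
          one_pow, one_mul]
      rw [← h6 i, ← h6 j, h4]
    exact hζ.pow_inj hi' hj' h5
  have hfac := factor (z0 + z0 ^ 6) z0 A0 X0 Y0 hrel hz0 hinj
  -- specialise
  let φ : R0 →+* K := (MvPolynomial.aeval (![A, X, Y] : Fin 3 → K)).toRingHom
  have hφz : φ z0 = z := by
    show (MvPolynomial.aeval (![A, X, Y] : Fin 3 → K)) (MvPolynomial.C ζ) = z
    rw [MvPolynomial.aeval_C, hz]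
  have hφA : φ A0 = A := by
    show (MvPolynomial.aeval (![A, X, Y] : Fin 3 → K)) (MvPolynomial.X 0) = A
    rw [MvPolynomial.aeval_X]; rfl
  have hφX : φ X0 = X := by
    show (MvPolynomial.aeval (![A, X, Y] : Fin 3 → K)) (MvPolynomial.X 1) = X
    rw [MvPolynomial.aeval_X]; rfl
  have hφY : φ Y0 = Y := by
    show (MvPolynomial.aeval (![A, X, Y] : Fin 3 → K)) (MvPolynomial.X 2) = Y
    rw [MvPolynomial.aeval_X]; rfl
  have h3 := congrArg (fun p => (Polynomial.map φ p).eval x) hfac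
  simp only [map_Np, Polynomial.map_prod, Polynomial.map_sub, Polynomial.map_X,
    Polynomial.map_C, Polynomial.eval_prod, Polynomial.eval_sub, Polynomial.eval_X,
    Polynomial.eval_C] at h3
  simp only [map_xQ] at h3
  simp only [map_add, map_mul, map_pow, hφz, hφA, hφX, hφY] at h3
  rw [hh, h3]
  have h4 : ∀ i ∈ Finset.range 7, xQ (z + z ^ 6) A (z ^ i * X) (z ^ (6 * i) * Y) - x =
      (-1) * (x - xQ (z + z ^ 6) A (z ^ i * X) (z ^ (6 * i) * Y)) := by
    intro i _; ring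
  rw [Finset.prod_congr rfl h4, Finset.prod_mul_distrib, Finset.prod_const, Finset.card_range]
  ring

end Pool.Agent.Work.MP_c5a777_ag.Sev

end

section

set_option autoImplicit false

/-!
# Item Pole: the function near the origin of the curve
-/

namespace Pool.Agent.Work.MP_c5a777_ag.Sev

namespace AuxPole

section coef

variable {R S' : Type*} [CommRing R] [CommRing S'] (f : R →+* S') (h A w S : R)

theorem map_a1 : f (a1 h A w) = a1 (f h) (f A) (f w) := by
  simp only [a1, map_add, map_mul, map_neg, map_sub, map_pow, map_ofNat]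
theorem map_a2 : f (a2 h w) = a2 (f h) (f w) := by
  simp only [a2, map_add, map_mul, map_neg, map_sub, map_pow, map_ofNat]
theorem map_a3 : f (a3 h A w) = a3 (f h) (f A) (f w) := by
  simp only [a3, map_add, map_mul, map_neg, map_sub, map_pow, map_ofNat]
theorem map_a4 : f (a4 h A w S) = a4 (f h) (f A) (f w) (f S) := by
  simp only [a4, map_add, map_mul, map_neg, map_sub, map_pow, map_ofNat]
theorem map_a6 : f (a6 h A w S) = a6 (f h) (f A) (f w) (f S) := by
  simp only [a6, map_add, map_mul, map_neg, map_sub, map_pow, map_ofNat]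
theorem map_e8 : f (e8 h A w S) = e8 (f h) (f A) (f w) (f S) := by
  simp only [e8, map_add, map_mul, map_neg, map_sub, map_pow, map_ofNat]
theorem map_e10 : f (e10 h A w S) = e10 (f h) (f A) (f w) (f S) := by
  simp only [e10, map_add, map_mul, map_neg, map_sub, map_pow, map_ofNat]
theorem map_e14 : f (e14 h A w S) = e14 (f h) (f A) (f w) (f S) := by
  simp only [e14, map_add, map_mul, map_neg, map_sub, map_pow, map_ofNat]

end coef

variable {K Γ : Type*} [Field K] [LinearOrderedCommGroupWithZero Γ] (v : Valuation K Γ)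

theorem sub_lt {a b : K} {g : Γ} (ha : v a < g) (hb : v b < g) : v (a - b) < g := by
  rw [sub_eq_add_neg]
  exact Valuation.map_add_lt v ha (by rwa [Valuation.map_neg])

theorem mul_lt {c z : K} {g : Γ} (hc : v c ≤ 1) (hz : v z < g) : v (c * z) < g := by
  rw [map_mul]
  exact lt_of_le_of_lt (mul_le_of_le_one_left' hc) hz

/-- the values of the coordinates -/
theorem sq_eq {b1 b2 b3 b4 b6 x y : K} (h1 : v b1 ≤ 1) (h2 : v b2 ≤ 1) (h3 : v b3 ≤ 1)
    (h4 : v b4 ≤ 1) (h6 : v b6 ≤ 1) (hx : 1 < v x)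
    (he : y ^ 2 + b1 * x * y + b3 * y - (x ^ 3 + b2 * x ^ 2 + b4 * x + b6) = 0) :
    v y ^ 2 = v x ^ 3 := by
  have hx0 : 0 < v x := lt_trans zero_lt_one hx
  have p1 : (1 : Γ) < v x ^ 3 := one_lt_pow₀ hx (by norm_num)
  have p2 : v x < v x ^ 3 := by
    have := pow_lt_pow_right₀ hx (show 1 < 3 by norm_num)
    simpa using this
  have p3 : v x ^ 2 < v x ^ 3 := pow_lt_pow_right₀ hx (by norm_num)
  rcases lt_trichotomy (v y ^ 2) (v x ^ 3) with hlt | heq | hgt
  · exfalso
    have q1 : v x * v y < v x ^ 3 := by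
      by_contra hc
      rw [not_lt] at hc
      have q2 : v x ^ 2 ≤ v y := by
        have : v x * v x ^ 2 ≤ v x * v y := by
          rwa [← pow_succ']
        exact le_of_mul_le_mul_left this hx0
      have q3 : v x ^ 3 ≤ v y ^ 2 := by
        calc v x ^ 3 ≤ v x ^ 4 := (pow_lt_pow_right₀ hx (by norm_num)).le
          _ = (v x ^ 2) ^ 2 := by rw [← pow_mul]
          _ ≤ v y ^ 2 := pow_le_pow_left₀ zero_le q2 2
      exact absurd hlt (not_lt.2 q3)
    have q4 : v y < v x ^ 3 :=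
      lt_of_le_of_lt (le_mul_of_one_le_left' hx.le) q1
    have e : x ^ 3 = y ^ 2 + b1 * (x * y) + b3 * y - b2 * x ^ 2 - b4 * x - b6 * 1 := by
      linear_combination -he
    have r : v (y ^ 2 + b1 * (x * y) + b3 * y - b2 * x ^ 2 - b4 * x - b6 * 1) < v x ^ 3 := by
      refine sub_lt v (sub_lt v (sub_lt v (Valuation.map_add_lt v (Valuation.map_add_lt v ?_
        (mul_lt v h1 ?_)) (mul_lt v h3 q4)) (mul_lt v h2 ?_)) (mul_lt v h4 p2)) (mul_lt v h6 ?_)
      · rwa [map_pow]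
      · rwa [map_mul]
      · rwa [map_pow]
      · rwa [map_one]
    rw [← e, map_pow] at r
    exact lt_irrefl _ r
  · exact heq
  · exfalso
    have q0 : v x < v y := by
      by_contra hc
      rw [not_lt] at hc
      have : v y ^ 2 ≤ v x ^ 2 := pow_le_pow_left₀ zero_le hc 2
      exact absurd (lt_of_lt_of_le hgt this) (not_lt.2 p3.le)
    have hy0 : 0 < v y := lt_trans hx0 q0
    have q1 : v x * v y < v y ^ 2 := by
      rw [sq]
      exact mul_lt_mul_of_pos_right q0 hy0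
    have q4 : v y < v y ^ 2 :=
      lt_of_le_of_lt (le_mul_of_one_le_left' hx.le) q1
    have e : y ^ 2 = x ^ 3 + b2 * x ^ 2 + b4 * x + b6 * 1 - b1 * (x * y) - b3 * y := by
      linear_combination he
    have r : v (x ^ 3 + b2 * x ^ 2 + b4 * x + b6 * 1 - b1 * (x * y) - b3 * y) < v y ^ 2 := by
      refine sub_lt v (sub_lt v (Valuation.map_add_lt v (Valuation.map_add_lt v
        (Valuation.map_add_lt v ?_ (mul_lt v h2 ?_)) (mul_lt v h4 (lt_trans p2 hgt)))
        (mul_lt v h6 ?_)) (mul_lt v h1 ?_)) (mul_lt v h3 q4)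
      · rwa [map_pow]
      · rw [map_pow]
        exact lt_trans p3 hgt
      · rw [map_one]
        exact lt_trans p1 hgt
      · rwa [map_mul]
    rw [← e, map_pow] at r
    exact lt_irrefl _ r

theorem mono {x y : K} (hx : 1 < v x) (h : v y ^ 2 = v x ^ 3) {i j : ℕ} (hij : 2 * i < 3 * j) :
    v (x ^ i / y ^ j) < 1 := by
  have hx0 : 0 < v x := lt_trans zero_lt_one hx
  by_contra hc
  rw [not_lt] at hc
  have h2 : 1 ≤ v (x ^ i / y ^ j) ^ 2 := one_le_pow₀ hc
  have h3 : v (x ^ i / y ^ j) ^ 2 = v x ^ (2 * i) / v x ^ (3 * j) := by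
    rw [map_div₀, map_pow, map_pow, div_pow, ← pow_mul, ← pow_mul, mul_comm i 2, mul_comm j 2,
      pow_mul (v y), h, ← pow_mul]
  rw [h3, one_le_div₀ (pow_pos hx0 _)] at h2
  exact absurd h2 (not_le.2 (pow_lt_pow_right₀ hx hij))

theorem main {b1 b2 b3 b4 b6 c8 c10 c14 x y : K} (h1 : v b1 ≤ 1) (h2 : v b2 ≤ 1)
    (h3 : v b3 ≤ 1) (h4 : v b4 ≤ 1) (h6 : v b6 ≤ 1) (h8 : v c8 ≤ 1) (h10 : v c10 ≤ 1)
    (h14 : v c14 ≤ 1) (hx : 1 < v x)
    (he : y ^ 2 + b1 * x * y + b3 * y - (x ^ 3 + b2 * x ^ 2 + b4 * x + b6) = 0) :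
    y ≠ 0 ∧ v ((x ^ 2 * y + c8 * y + c10 * x + c14) / (y / x) ^ 7 - 1) < 1 := by
  have hv := sq_eq v h1 h2 h3 h4 h6 hx he
  have hx0 : 0 < v x := lt_trans zero_lt_one hx
  have hxn : x ≠ 0 := by
    rintro rfl
    simp at hx0
  have hyn : y ≠ 0 := by
    rintro rfl
    rw [map_zero, zero_pow (by norm_num)] at hv
    exact absurd hv.symm (pow_pos hx0 3).ne'
  refine ⟨hyn, ?_⟩
  have hd : v (x ^ 3 / y ^ 2 - 1) < 1 := by
    have e : x ^ 3 / y ^ 2 - 1 = b1 * (x ^ 1 / y ^ 1) + b3 * (x ^ 0 / y ^ 1) -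
        b2 * (x ^ 2 / y ^ 2) - b4 * (x ^ 1 / y ^ 2) - b6 * (x ^ 0 / y ^ 2) := by
      field_simp
      linear_combination -he
    rw [e]
    exact sub_lt v (sub_lt v (sub_lt v (Valuation.map_add_lt v
      (mul_lt v h1 (mono v hx hv (by norm_num))) (mul_lt v h3 (mono v hx hv (by norm_num))))
      (mul_lt v h2 (mono v hx hv (by norm_num)))) (mul_lt v h4 (mono v hx hv (by norm_num))))
      (mul_lt v h6 (mono v hx hv (by norm_num)))
  have e : (x ^ 2 * y + c8 * y + c10 * x + c14) / (y / x) ^ 7 - 1 =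
      ((x ^ 3 / y ^ 2 - 1) ^ 2 + 3 * (x ^ 3 / y ^ 2 - 1) + 3) * (x ^ 3 / y ^ 2 - 1) +
        c8 * (x ^ 7 / y ^ 6) + c10 * (x ^ 8 / y ^ 7) + c14 * (x ^ 7 / y ^ 7) := by
    field_simp
    ring
  rw [e]
  have h3' : v (3 : K) ≤ 1 := by
    have : ((3 : ℕ) : K) ∈ v.integer := natCast_mem v.integer 3
    rw [Nat.cast_ofNat] at this
    exact this
  refine Valuation.map_add_lt v (Valuation.map_add_lt v (Valuation.map_add_lt v
    (mul_lt v ?_ hd) (mul_lt v h8 (mono v hx hv (by norm_num))))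
    (mul_lt v h10 (mono v hx hv (by norm_num)))) (mul_lt v h14 (mono v hx hv (by norm_num)))
  refine Valuation.map_add_le v (Valuation.map_add_le v ?_ ?_) h3'
  · rw [map_pow]
    exact pow_le_one₀ zero_le hd.le
  · rw [map_mul]
    exact mul_le_one' h3' hd.le

end AuxPole

open AuxPole in
theorem pr_Pole : StPole := by
  intro K Γ _ _ v h A w S x y hh hA hw hS he hx
  have hmem : ∀ z : v.integer, v (z : K) ≤ 1 := fun z => z.2
  let h' : v.integer := ⟨h, hh⟩
  let A' : v.integer := ⟨A, hA⟩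
  let w' : v.integer := ⟨w, hw⟩
  let S' : v.integer := ⟨S, hS⟩
  have c1 : v (a1 h A w) ≤ 1 := by
    have := hmem (a1 h' A' w')
    rwa [← Subring.coe_subtype, map_a1] at this
  have c2 : v (a2 h w) ≤ 1 := by
    have := hmem (a2 h' w')
    rwa [← Subring.coe_subtype, map_a2] at this
  have c3 : v (a3 h A w) ≤ 1 := by
    have := hmem (a3 h' A' w')
    rwa [← Subring.coe_subtype, map_a3] at this
  have c4 : v (a4 h A w S) ≤ 1 := by
    have := hmem (a4 h' A' w' S')
    rwa [← Subring.coe_subtype, map_a4] at this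
  have c6 : v (a6 h A w S) ≤ 1 := by
    have := hmem (a6 h' A' w' S')
    rwa [← Subring.coe_subtype, map_a6] at this
  have c8 : v (e8 h A w S) ≤ 1 := by
    have := hmem (e8 h' A' w' S')
    rwa [← Subring.coe_subtype, map_e8] at this
  have c10 : v (e10 h A w S) ≤ 1 := by
    have := hmem (e10 h' A' w' S')
    rwa [← Subring.coe_subtype, map_e10] at this
  have c14 : v (e14 h A w S) ≤ 1 := by
    have := hmem (e14 h' A' w' S')
    rwa [← Subring.coe_subtype, map_e14] at this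
  exact main v c1 c2 c3 c4 c6 c8 c10 c14 hx he

end Pool.Agent.Work.MP_c5a777_ag.Sev

end

section

set_option autoImplicit false

namespace Pool.Agent.Work.MP_c5a777_ag.Sev

namespace AuxRam

section

variable {L M : Type} [Field L] [Field M] [Algebra L M] {A : ValuationSubring L}
  {B : ValuationSubring M}

theorem mem_iff (hB : B.comap (algebraMap L M) = A) (z : L) :
    algebraMap L M z ∈ B ↔ z ∈ A := by
  rw [← hB]
  exact Iff.rfl

theorem le_one_iff (hB : B.comap (algebraMap L M) = A) (z : L) :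
    B.valuation (algebraMap L M z) ≤ 1 ↔ A.valuation z ≤ 1 := by
  rw [B.valuation_le_one_iff, A.valuation_le_one_iff, mem_iff hB]

theorem le_iff (hB : B.comap (algebraMap L M) = A) (z z' : L) :
    B.valuation (algebraMap L M z) ≤ B.valuation (algebraMap L M z') ↔
      A.valuation z ≤ A.valuation z' := by
  by_cases hz : z' = 0
  · subst hz
    simp
  · have h1 : 0 < A.valuation z' := zero_lt_iff.mpr ((Valuation.ne_zero_iff _).mpr hz)
    have hz2 : algebraMap L M z' ≠ 0 := by simpa using hz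
    have h2 : 0 < B.valuation (algebraMap L M z') :=
      zero_lt_iff.mpr ((Valuation.ne_zero_iff _).mpr hz2)
    rw [← div_le_one₀ h1, ← div_le_one₀ h2, ← map_div₀, ← map_div₀, ← map_div₀, le_one_iff hB]

theorem lt_iff (hB : B.comap (algebraMap L M) = A) (z z' : L) :
    B.valuation (algebraMap L M z) < B.valuation (algebraMap L M z') ↔
      A.valuation z < A.valuation z' := by
  rw [← not_le, ← not_le, le_iff hB]

theorem eq_iff (hB : B.comap (algebraMap L M) = A) (z z' : L) :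
    B.valuation (algebraMap L M z) = B.valuation (algebraMap L M z') ↔
      A.valuation z = A.valuation z' := by
  rw [le_antisymm_iff, le_antisymm_iff, le_iff hB, le_iff hB]

theorem lt_one_iff (hB : B.comap (algebraMap L M) = A) (z : L) :
    B.valuation (algebraMap L M z) < 1 ↔ A.valuation z < 1 := by
  have := lt_iff hB z 1
  simpa using this

theorem eq_one_iff (hB : B.comap (algebraMap L M) = A) (z : L) :
    B.valuation (algebraMap L M z) = 1 ↔ A.valuation z = 1 := by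
  have := eq_iff hB z 1
  simpa using this

theorem const_val [Algebra ℂ L] (hC : ∀ z : ℂ, algebraMap ℂ L z ∈ A) {z : ℂ} (hz : z ≠ 0) :
    A.valuation (algebraMap ℂ L z) = 1 := by
  apply le_antisymm
  · rw [A.valuation_le_one_iff]; exact hC z
  · have h1 : A.valuation (algebraMap ℂ L z⁻¹) ≤ 1 := by
      rw [A.valuation_le_one_iff]; exact hC _
    rw [map_inv₀, map_inv₀] at h1
    have h2 : algebraMap ℂ L z ≠ 0 := by simpa using hz
    have h3 : 0 < A.valuation (algebraMap ℂ L z) :=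
      zero_lt_iff.mpr ((Valuation.ne_zero_iff _).mpr h2)
    exact (inv_le_one₀ h3).mp h1

theorem We_map (h A' w S x y : L) :
    We (algebraMap L M h) (algebraMap L M A') (algebraMap L M w) (algebraMap L M S)
      (algebraMap L M x) (algebraMap L M y) = algebraMap L M (We h A' w S x y) := by
  simp only [We, a1, a2, a3, a4, a6, map_add, map_sub, map_mul, map_pow, map_neg, map_ofNat]

theorem ff_map (h A' w S x y : L) :
    ff (algebraMap L M h) (algebraMap L M A') (algebraMap L M w) (algebraMap L M S)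
      (algebraMap L M x) (algebraMap L M y) = algebraMap L M (ff h A' w S x y) := by
  simp only [ff, e8, e10, e14, map_add, map_sub, map_mul, map_pow, map_neg, map_ofNat]

end

theorem core (h1 : StPoleL) (h2 : StCuspL) (h3 : StExtend) (h4 : StConst)
    (L : Type) [Field L] [Algebra ℂ L] (A : ValuationSubring L)
    (hC : ∀ z : ℂ, algebraMap ℂ L z ∈ A) (h0 c0 : ℂ) (hrel : Rel h0) (hc0 : c0 ≠ 0) (h c : L)
    (hh : h = algebraMap ℂ L h0) (u r x y La Lb : L)
    (hW : Wu h c u r x y = 0) (hS : Sf c u r = La + Lb) (hw : wf c u r ^ 7 = La * Lb)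
    (hLa : La ≠ 0) (hu7 : A.valuation u ^ 7 < A.valuation La)
    (hLb : A.valuation Lb < A.valuation La)
    (hne : A.valuation x ^ 7 ≠ A.valuation La ^ 4) :
    (x ≠ 0 ∧ y ≠ 0 ∧ A.valuation (fu h c u r x y / (y / x) ^ 7 - 1) < 1) ∨
      A.valuation (fu h c u r x y / (kap h * La ^ 2) - 1) < 1 := by
  obtain ⟨B, hB⟩ := h3 L (AlgebraicClosure L) A
  obtain ⟨l, hl⟩ := IsAlgClosed.exists_pow_nat_eq (algebraMap L (AlgebraicClosure L) La)
    (show 0 < 7 by norm_num)
  have hl0 : l ≠ 0 := by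
    intro h0
    rw [h0, zero_pow (by norm_num)] at hl
    apply hLa
    have : algebraMap L (AlgebraicClosure L) La = 0 := hl.symm
    simpa using this
  have hlv : B.valuation l ^ 7 = B.valuation (algebraMap L (AlgebraicClosure L) La) := by
    rw [← map_pow, hl]
  have e1 : B.valuation (algebraMap L (AlgebraicClosure L) u) < B.valuation l := by
    refine lt_of_pow_lt_pow_left₀ 7 (zero_le) ?_
    rw [hlv, ← map_pow, ← map_pow, lt_iff hB, map_pow]
    exact hu7
  have e2 : B.valuation (algebraMap L (AlgebraicClosure L) (wf c u r)) < B.valuation l ^ 2 := by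
    refine lt_of_pow_lt_pow_left₀ 7 (zero_le) ?_
    rw [← pow_mul, mul_comm 2 7, pow_mul, hlv, ← map_pow, ← map_pow, ← map_pow, ← map_pow,
      lt_iff hB, hw, map_mul, map_pow, sq]
    have hp : 0 < A.valuation La := zero_lt_iff.mpr ((Valuation.ne_zero_iff _).mpr hLa)
    exact mul_lt_mul_of_pos_left hLb hp
  have e3 : B.valuation (algebraMap L (AlgebraicClosure L) (Sf c u r) - l ^ 7) <
      B.valuation l ^ 7 := by
    rw [hl, hlv, ← map_sub, lt_iff hB, hS]
    have : La + Lb - La = Lb := by ring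
    rw [this]
    exact hLb
  have e4 : B.valuation (algebraMap L (AlgebraicClosure L) (Sf c u r)) ≤ B.valuation l ^ 7 := by
    rw [hlv, le_iff hB, hS]
    exact (Valuation.map_add _ _ _).trans (max_le le_rfl hLb.le)
  have e5 : B.valuation (algebraMap L (AlgebraicClosure L) h) ≤ 1 := by
    rw [le_one_iff hB, A.valuation_le_one_iff, hh]
    exact hC _
  have hkap0 : kap h0 ≠ 0 := (h4 ℂ h0 hrel).1
  have hkap : kap h = algebraMap ℂ L (kap h0) := by
    rw [hh]
    simp only [kap, map_add, map_sub, map_mul, map_pow, map_ofNat]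
  have hkapM : kap (algebraMap L (AlgebraicClosure L) h) =
      algebraMap L (AlgebraicClosure L) (kap h) := by
    simp only [kap, map_add, map_sub, map_mul, map_pow, map_ofNat]
  have e6 : B.valuation (kap (algebraMap L (AlgebraicClosure L) h)) = 1 := by
    rw [hkapM, eq_one_iff hB, hkap]
    exact const_val hC hkap0
  have hWM : We (algebraMap L (AlgebraicClosure L) h) (algebraMap L (AlgebraicClosure L) u)
      (algebraMap L (AlgebraicClosure L) (wf c u r)) (algebraMap L (AlgebraicClosure L) (Sf c u r))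
      (algebraMap L (AlgebraicClosure L) x) (algebraMap L (AlgebraicClosure L) y) = 0 := by
    rw [We_map]
    have : We h u (wf c u r) (Sf c u r) x y = 0 := hW
    rw [this, map_zero]
  have hfM := ff_map (M := AlgebraicClosure L) h u (wf c u r) (Sf c u r) x y
  rcases lt_trichotomy (B.valuation (algebraMap L (AlgebraicClosure L) x))
    (B.valuation l ^ 4) with hx | hx | hx
  · right
    have := h2 (AlgebraicClosure L) _ B.valuation _ l _ _ _ _ _ hl0 e5 e6 e1 e2 e3 hWM hx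
    rw [hfM, hkapM] at this
    have hl14 : l ^ 14 = algebraMap L (AlgebraicClosure L) (La ^ 2) := by
      rw [map_pow, ← hl, ← pow_mul]
    rw [hl14, ← map_mul, ← map_div₀] at this
    have h5 : algebraMap L (AlgebraicClosure L)
        (ff h u (wf c u r) (Sf c u r) x y / (kap h * La ^ 2)) - 1 =
        algebraMap L (AlgebraicClosure L)
        (ff h u (wf c u r) (Sf c u r) x y / (kap h * La ^ 2) - 1) := by
      rw [map_sub, map_one]
    rw [h5, lt_one_iff hB] at this
    exact this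
  · exfalso
    apply hne
    have h5 : B.valuation (algebraMap L (AlgebraicClosure L) x) ^ 7 =
        B.valuation (algebraMap L (AlgebraicClosure L) La) ^ 4 := by
      rw [hx, ← pow_mul, mul_comm 4 7, pow_mul, hlv]
    rw [← map_pow, ← map_pow, ← map_pow, ← map_pow, eq_iff hB, map_pow, map_pow] at h5
    exact h5
  · left
    have hx0 : x ≠ 0 := by
      rintro rfl
      rw [map_zero, map_zero] at hx
      exact absurd hx (not_lt.mpr zero_le)
    have := h1 (AlgebraicClosure L) _ B.valuation _ l _ _ _ _ _ hl0 e5 e1.le e2.le e4 hWM hx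
    obtain ⟨hy, this⟩ := this
    refine ⟨hx0, ?_, ?_⟩
    · rintro rfl
      exact hy (map_zero _)
    · rw [hfM, ← map_div₀, ← map_pow, ← map_div₀] at this
      have h5 : algebraMap L (AlgebraicClosure L)
          (ff h u (wf c u r) (Sf c u r) x y / (y / x) ^ 7) - 1 =
          algebraMap L (AlgebraicClosure L)
          (ff h u (wf c u r) (Sf c u r) x y / (y / x) ^ 7 - 1) := by
        rw [map_sub, map_one]
      rw [h5, lt_one_iff hB] at this
      exact this

end AuxRam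

open AuxRam in
theorem pr_Ram (h1 : StPoleL) (h2 : StCuspL) (h3 : StExtend) (h4 : StConst) : StRam := by
  intro L _ _ A hC h0 c0 hrel hc0 h c hh hc u r x y hu hn hW
  have hkap0 : kap h0 ≠ 0 := (h4 ℂ h0 hrel).1
  have hkap : kap h = algebraMap ℂ L (kap h0) := by
    rw [hh]
    simp only [kap, map_add, map_sub, map_mul, map_pow, map_ofNat]
  have hvc : A.valuation c = 1 := by rw [hc]; exact const_val hC hc0
  have hcL : c ≠ 0 := by
    intro h5
    rw [h5, map_zero] at hvc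
    exact zero_ne_one hvc
  have hvu0 : A.valuation u ≠ 0 := (Valuation.ne_zero_iff _).mpr hu
  have hvupos : 0 < A.valuation u := zero_lt_iff.mpr hvu0
  have hvu1 : A.valuation u ≠ 1 := by
    intro h5
    exact hn 1 (by rw [h5, map_one, one_pow])
  -- the two monomials
  set U : L := c ^ 7 * u ^ 4 * (1 + u) ^ 7 with hU
  set V : L := c ^ 7 * u ^ 3 * r ^ 7 with hV
  have hSf : Sf c u r = U + V := by
    rw [hU, hV]; unfold Sf; ring
  have hwf : wf c u r ^ 7 = U * V := by
    rw [hU, hV]; unfold wf; ring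
  have hvU : A.valuation U = A.valuation u ^ 4 * A.valuation (1 + u) ^ 7 := by
    rw [hU]; simp only [map_mul, map_pow, hvc, one_pow, one_mul]
  have hvV : A.valuation V = A.valuation u ^ 3 * A.valuation r ^ 7 := by
    rw [hV]; simp only [map_mul, map_pow, hvc, one_pow, one_mul]
  have h1u : A.valuation u ^ 7 < A.valuation U := by
    rcases lt_or_gt_of_ne hvu1 with h5 | h5
    · have h6 : A.valuation (1 + u) = 1 := Valuation.map_one_add_of_lt _ h5
      rw [hvU, h6, one_pow, mul_one]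
      exact pow_lt_pow_right_of_lt_one₀ hvupos h5 (by norm_num)
    · have h6 : A.valuation (1 + u) = A.valuation u := by
        have h7 := Valuation.map_add_eq_of_lt_left A.valuation (x := u) (y := 1)
          (by rw [map_one]; exact h5)
        rwa [add_comm] at h7
      rw [hvU, h6, ← pow_add]
      exact pow_lt_pow_right₀ h5 (by norm_num)
  have hvU0 : 0 < A.valuation U := lt_of_le_of_lt zero_le h1u
  have hU0 : U ≠ 0 := (Valuation.ne_zero_iff _).mp hvU0.ne'
  have h1u0 : (1 + u) ≠ 0 := by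
    intro h5
    apply hU0
    rw [hU, h5]
    simp
  have hv1u : A.valuation (1 + u) ≠ 0 := (Valuation.ne_zero_iff _).mpr h1u0
  have hUV : A.valuation U ≠ A.valuation V := by
    intro h5
    rw [hvU, hvV] at h5
    apply hn (r / (1 + u))
    rw [map_div₀, div_pow, eq_div_iff (pow_ne_zero _ hv1u)]
    have h6 : A.valuation u ^ 3 * (A.valuation u * A.valuation (1 + u) ^ 7) =
        A.valuation u ^ 3 * A.valuation r ^ 7 := by
      rw [← h5, ← mul_assoc, ← pow_succ]
    exact mul_left_cancel₀ (pow_ne_zero 3 hvu0) h6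
  rcases lt_or_gt_of_ne hUV with h5 | h5
  · -- V dominates
    have hV0 : V ≠ 0 := (Valuation.ne_zero_iff _).mp (lt_of_le_of_lt zero_le h5).ne'
    have hr0 : r ≠ 0 := by
      rintro rfl
      apply hV0
      rw [hV]; simp
    have hvr : A.valuation r ≠ 0 := (Valuation.ne_zero_iff _).mpr hr0
    have hne : A.valuation x ^ 7 ≠ A.valuation V ^ 4 := by
      intro h6
      apply hn (x ^ 3 / (r ^ 12 * u ^ 5))
      rw [map_div₀, map_mul, map_pow, map_pow, map_pow, div_pow,
        eq_div_iff (pow_ne_zero _ (mul_ne_zero (pow_ne_zero _ hvr) (pow_ne_zero _ hvu0)))]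
      have h7 : (A.valuation x ^ 3) ^ 7 = (A.valuation x ^ 7) ^ 3 := pow_right_comm _ _ _
      have h8 : V ^ 12 = c ^ 84 * (u * (r ^ 12 * u ^ 5) ^ 7) := by rw [hV]; ring
      have h9 := congrArg A.valuation h8
      simp only [map_mul, map_pow, hvc, one_pow, one_mul] at h9
      rw [h7, h6, ← pow_mul, h9]
    rcases core h1 h2 h3 h4 L A hC h0 c0 hrel hc0 h c hh u r x y V U hW
      (by rw [hSf]; ring) (by rw [hwf]; ring) hV0 (h1u.trans h5) h5 hne with h6 | h6
    · obtain ⟨hx0, hy0, h7⟩ := h6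
      refine ⟨y / x, 0, 1, one_ne_zero, div_ne_zero hy0 hx0, ?_⟩
      rw [map_one, pow_zero, one_mul, one_mul]
      exact h7
    · refine ⟨r ^ 2, 6, kap h0 * c0 ^ 14, mul_ne_zero hkap0 (pow_ne_zero _ hc0),
        pow_ne_zero _ hr0, ?_⟩
      have h7 : algebraMap ℂ L (kap h0 * c0 ^ 14) * u ^ 6 * (r ^ 2) ^ 7 = kap h * V ^ 2 := by
        rw [map_mul, ← hkap, map_pow, ← hc, hV]; ring
      rw [h7]
      exact h6
  · -- U dominates
    have hne : A.valuation x ^ 7 ≠ A.valuation U ^ 4 := by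
      intro h6
      apply hn (x ^ 4 / ((1 + u) ^ 16 * u ^ 9))
      rw [map_div₀, map_mul, map_pow, map_pow, map_pow, div_pow,
        eq_div_iff (pow_ne_zero _ (mul_ne_zero (pow_ne_zero _ hv1u) (pow_ne_zero _ hvu0)))]
      have h7 : (A.valuation x ^ 4) ^ 7 = (A.valuation x ^ 7) ^ 4 := pow_right_comm _ _ _
      have h8 : U ^ 16 = c ^ 112 * (u * ((1 + u) ^ 16 * u ^ 9) ^ 7) := by rw [hU]; ring
      have h9 := congrArg A.valuation h8
      simp only [map_mul, map_pow, hvc, one_pow, one_mul] at h9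
      rw [h7, h6, ← pow_mul, h9]
    rcases core h1 h2 h3 h4 L A hC h0 c0 hrel hc0 h c hh u r x y U V hW
      hSf hwf hU0 h1u h5 hne with h6 | h6
    · obtain ⟨hx0, hy0, h7⟩ := h6
      refine ⟨y / x, 0, 1, one_ne_zero, div_ne_zero hy0 hx0, ?_⟩
      rw [map_one, pow_zero, one_mul, one_mul]
      exact h7
    · refine ⟨(1 + u) ^ 2, 8, kap h0 * c0 ^ 14, mul_ne_zero hkap0 (pow_ne_zero _ hc0),
        pow_ne_zero _ h1u0, ?_⟩
      have h7 : algebraMap ℂ L (kap h0 * c0 ^ 14) * u ^ 8 * ((1 + u) ^ 2) ^ 7 =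
          kap h * U ^ 2 := by
        rw [map_mul, ← hkap, map_pow, ← hc, hU]; ring
      rw [h7]
      exact h6

end Pool.Agent.Work.MP_c5a777_ag.Sev

end

section

/-!
# The class of order seven is unramified
-/

set_option autoImplicit false

namespace Pool.Agent.Work.MP_c5a777_ag.Sev

namespace AuxUnram

theorem rel_root (h4 : StRelZ) {ζ : ℂ} (hζ : IsPrimitiveRoot ζ 7) : Rel (ζ + ζ ^ 6) := by
  refine h4 ℂ ζ ?_
  have h := hζ.geom_sum_eq_zero (by norm_num)
  simp only [Finset.sum_range_succ, Finset.sum_range_zero, pow_zero, pow_one, zero_add] at h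
  linear_combination h

end AuxUnram

/-- The class is unramified. -/
theorem pr_Unram (h1 : StForms) (h2 : StRam) (h3 : StInert) (h4 : StRelZ) : StUnram := by
  intro L _ _ A hA hD ζ c0 hζ hc0 h c hh hc u r x y hu hW hf
  obtain ⟨f1, f2, f3⟩ := h1 L A hA hD u (fu h c u r x y) hu hf
  by_cases hg : ∀ g : L, A.valuation u ≠ A.valuation g ^ 7
  · exact f1 (h2 L A hA (ζ + ζ ^ 6) c0 (AuxUnram.rel_root h4 hζ) hc0 h c hh hc u r x y hu hg hW)
  · push Not at hg
    obtain ⟨p, hp⟩ := hg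
    have hu0 : A.valuation u ≠ 0 := (Valuation.ne_zero_iff _).2 hu
    have hp0 : p ≠ 0 := by
      rintro rfl
      apply hu0
      rw [hp, map_zero]
      exact zero_pow (by norm_num)
    have hpp : p ^ 7 ≠ 0 := pow_ne_zero 7 hp0
    have hua : u = u / p ^ 7 * p ^ 7 := (div_mul_cancel₀ u hpp).symm
    have hva : A.valuation (u / p ^ 7) = 1 := by
      rw [map_div₀, map_pow, hp]
      exact div_self (pow_ne_zero 7 ((Valuation.ne_zero_iff _).2 hp0))
    by_cases hb : ∃ b : L, A.valuation (u / p ^ 7 - b ^ 7) < 1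
    · obtain ⟨b, hb⟩ := hb
      exact f2 ⟨p, u / p ^ 7, b, hp0, hua, hva, hb⟩
    · push Not at hb
      obtain ⟨g, hg0, hg⟩ := h3 L A hA ζ c0 hζ hc0 h c hh hc u r x y p (u / p ^ 7) hp0 hua hva
        (fun b => not_lt.2 (hb b)) hW
      exact f3 ⟨p, u / p ^ 7, g, fu h c u r x y / g ^ 7, hp0, hg0, hua,
        (div_mul_cancel₀ _ (pow_ne_zero 7 hg0)).symm, hva, hg⟩

end Pool.Agent.Work.MP_c5a777_ag.Sev

end

section

/-!
# A valuation subring of the complex numbers above five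
-/

set_option autoImplicit false

namespace Pool.Agent.Work.MP_c5a777_ag.Sev

theorem pr_Val5 : StVal5 := by
  unfold StVal5
  have hc2 : (((5 : (⊥ : Subring ℂ)) : (⊥ : Subring ℂ)) : ℂ) = 5 := rfl
  have key := Ideal.image_subset_nonunits_valuationSubring (K := ℂ) (A := (⊥ : Subring ℂ))
    (Ideal.span {(5 : (⊥ : Subring ℂ))}) (by
      intro h
      rw [Ideal.span_singleton_eq_top] at h
      obtain ⟨u, hu⟩ := h
      have h2 : (5 : (⊥ : Subring ℂ)) * (↑u⁻¹ : (⊥ : Subring ℂ)) = 1 := by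
        rw [← hu]; simp
      obtain ⟨n, hn⟩ := Subring.mem_bot.mp (↑u⁻¹ : (⊥ : Subring ℂ)).2
      have h3 : (5 : ℂ) * (n : ℂ) = 1 := by
        have := congrArg (Subring.subtype (⊥ : Subring ℂ)) h2
        rw [map_mul, map_one] at this
        rw [hn]
        exact this
      have h4 : (5 : ℤ) * n = 1 := by exact_mod_cast h3
      omega)
  obtain ⟨O, hle, hO⟩ := key
  refine ⟨O, ?_⟩
  have h2 : (5 : ℂ) ∈ O.nonunits := by
    apply hO
    exact ⟨5, Ideal.subset_span rfl, hc2⟩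
  exact h2

end Pool.Agent.Work.MP_c5a777_ag.Sev

end

section

/-!
Bilinearity, symmetry and the Steinberg relation for the tame symbol modulo seventh powers.
-/

set_option autoImplicit false
set_option linter.unusedSectionVars false
set_option linter.unusedVariables false

namespace Pool.Agent.Work.MP_c5a777_ag.Sev

section F1

variable {L : Type*} [Field L] (A : ValuationSubring L)

namespace TL

theorem pi_lt {π : A} (hπ : Irreducible π) : A.valuation (π : L) < 1 := by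
  rw [← A.valuation_lt_one_iff, IsLocalRing.mem_maximalIdeal]
  exact hπ.not_isUnit

theorem pi_ne {π : A} (hπ : Irreducible π) : ((π : A) : L) ≠ 0 := by
  intro h
  apply hπ.ne_zero
  exact Subtype.ext h

theorem unit_ne (u : Aˣ) : ((u : A) : L) ≠ 0 := by
  intro h
  apply u.ne_zero
  exact Subtype.ext h

theorem res_ne (u : Aˣ) : IsLocalRing.residue A (u : A) ≠ 0 :=
  (u.isUnit.map (IsLocalRing.residue A)).ne_zero

theorem zpow_val_inj {π : A} (hπ : Irreducible π) {m n : ℤ}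
    (h : A.valuation (π : L) ^ m = A.valuation (π : L) ^ n) : m = n := by
  have hp0 : A.valuation (π : L) ≠ 0 := (Valuation.ne_zero_iff _).mpr (pi_ne A hπ)
  have hp1 := pi_lt A hπ
  rcases lt_trichotomy m n with h1 | h1 | h1
  · exact absurd h (zpow_lt_zpow_right_of_lt_one₀ (zero_lt_iff.mpr hp0) hp1 h1).ne'
  · exact h1
  · exact absurd h (zpow_lt_zpow_right_of_lt_one₀ (zero_lt_iff.mpr hp0) hp1 h1).ne

theorem val_dec {π : A} (u : Aˣ) (m : ℤ) :
    A.valuation (((u : A) : L) * ((π : A) : L) ^ m) = A.valuation (π : L) ^ m := by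
  rw [map_mul, A.valuation_unit u, one_mul, map_zpow₀]

theorem dec_unique {π : A} (hπ : Irreducible π) {u u' : Aˣ} {m m' : ℤ}
    (h : ((u : A) : L) * ((π : A) : L) ^ m = ((u' : A) : L) * ((π : A) : L) ^ m') :
    m = m' ∧ u = u' := by
  have h1 : m = m' := by
    apply zpow_val_inj A hπ
    rw [← val_dec A u m, h, val_dec]
  refine ⟨h1, ?_⟩
  subst h1
  have h2 := mul_right_cancel₀ (zpow_ne_zero m (pi_ne A hπ)) h
  exact Units.ext (Subtype.ext h2)

theorem dec_exists [IsDiscreteValuationRing A] {π : A} (hπ : Irreducible π) {a : L}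
    (ha : a ≠ 0) : ∃ (u : Aˣ) (m : ℤ), a = ((u : A) : L) * ((π : A) : L) ^ m := by
  rcases A.mem_or_inv_mem a with h | h
  · have hx : (⟨a, h⟩ : A) ≠ 0 := by
      intro h0
      exact ha (congrArg Subtype.val h0)
    obtain ⟨n, u, hu⟩ := IsDiscreteValuationRing.eq_unit_mul_pow_irreducible hx hπ
    refine ⟨u, n, ?_⟩
    have := congrArg Subtype.val hu
    rw [zpow_natCast]
    simpa using this
  · have hx : (⟨a⁻¹, h⟩ : A) ≠ 0 := by
      intro h0
      exact inv_ne_zero ha (congrArg Subtype.val h0)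
    obtain ⟨n, u, hu⟩ := IsDiscreteValuationRing.eq_unit_mul_pow_irreducible hx hπ
    refine ⟨u⁻¹, -n, ?_⟩
    have h1 : a⁻¹ = ((u : A) : L) * ((π : A) : L) ^ n := by
      have := congrArg Subtype.val hu
      simpa using this
    have h2 : (((u⁻¹ : Aˣ) : A) : L) = (((u : A) : L))⁻¹ := by
      have h3 : ((u : A) : L) * (((u⁻¹ : Aˣ) : A) : L) = 1 := by
        exact congrArg Subtype.val (u.mul_inv)
      exact eq_inv_of_mul_eq_one_right h3
    rw [h2, zpow_neg, zpow_natCast, ← mul_inv, ← h1, inv_inv]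

theorem neg_one_seventh {F : Type*} [Field F] (k : ℤ) : (((-1 : F)) ^ k) ^ 7 = (-1) ^ k := by
  rcases Int.even_or_odd k with h | h
  · rw [h.neg_one_zpow, one_pow]
  · rw [h.neg_one_zpow]; norm_num

theorem res_eq {u u' : A} (h : A.valuation ((u : L) - (u' : L)) < 1) :
    IsLocalRing.residue A u = IsLocalRing.residue A u' := by
  rw [← sub_eq_zero, ← map_sub, IsLocalRing.residue_eq_zero_iff, A.valuation_lt_one_iff]
  simpa using h

theorem val_inv_unit (u : Aˣ) : (((u⁻¹ : Aˣ) : A) : L) = (((u : A) : L))⁻¹ := by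
  have h3 : ((u : A) : L) * (((u⁻¹ : Aˣ) : A) : L) = 1 := by
    exact congrArg Subtype.val (u.mul_inv)
  exact eq_inv_of_mul_eq_one_right h3

theorem res_inv_unit (u : Aˣ) :
    IsLocalRing.residue A ((u⁻¹ : Aˣ) : A) = (IsLocalRing.residue A (u : A))⁻¹ := by
  have h3 : IsLocalRing.residue A (u : A) * IsLocalRing.residue A ((u⁻¹ : Aˣ) : A) = 1 := by
    rw [← map_mul, u.mul_inv, map_one]
  exact eq_inv_of_mul_eq_one_right h3

end TL

open TL

variable [IsDiscreteValuationRing A]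

theorem tf_mul_left {a a' b : L} (ha : a ≠ 0) (ha' : a' ≠ 0) (hb : b ≠ 0)
    (h : TameSeventh A a b) (h' : TameSeventh A a' b) : TameSeventh A (a * a') b := by
  intro π s w m n hπ hs hw
  obtain ⟨u1, m1, h1⟩ := dec_exists A hπ ha
  obtain ⟨u2, m2, h2⟩ := dec_exists A hπ ha'
  obtain ⟨r1, hr1⟩ := h π u1 w m1 n hπ h1 hw
  obtain ⟨r2, hr2⟩ := h' π u2 w m2 n hπ h2 hw
  have hdec : ((s : A) : L) * ((π : A) : L) ^ m =
      (((u1 * u2 : Aˣ) : A) : L) * ((π : A) : L) ^ (m1 + m2) := by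
    rw [← hs, h1, h2, zpow_add₀ (pi_ne A hπ)]
    push_cast
    ring
  obtain ⟨hm, hsu⟩ := dec_unique A hπ hdec
  refine ⟨r1 * r2, ?_⟩
  have hw0 := res_ne A w
  rw [mul_pow, hr1, hr2, hm, hsu, Units.val_mul, map_mul, mul_zpow, add_mul,
    zpow_add₀ (by norm_num : (-1 : IsLocalRing.ResidueField A) ≠ 0), neg_add,
    zpow_add₀ hw0]
  ring

theorem tf_symm {a b : L} (ha : a ≠ 0) (hb : b ≠ 0) (h : TameSeventh A a b) :
    TameSeventh A b a := by
  intro π s w m n hπ hs hw
  obtain ⟨r, hr⟩ := h π w s n m hπ hw hs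
  refine ⟨r⁻¹, ?_⟩
  rw [inv_pow, hr, mul_inv, mul_inv, ← zpow_neg, ← zpow_neg, ← zpow_neg, neg_neg]
  have e : (-1 : IsLocalRing.ResidueField A) ^ (-(n * m)) = (-1) ^ (m * n) := by
    rw [zpow_neg, mul_comm n m]
    rcases Int.even_or_odd (m * n) with h | h
    · rw [h.neg_one_zpow, inv_one]
    · rw [h.neg_one_zpow]; norm_num
  rw [e]
  ring

theorem tf_inv_left {a b : L} (ha : a ≠ 0) (hb : b ≠ 0) (h : TameSeventh A a b) :
    TameSeventh A a⁻¹ b := by
  intro π s w m n hπ hs hw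
  have h1 : a = (((s⁻¹ : Aˣ) : A) : L) * ((π : A) : L) ^ (-m) := by
    rw [val_inv_unit, zpow_neg, ← mul_inv, ← hs, inv_inv]
  obtain ⟨r, hr⟩ := h π s⁻¹ w (-m) n hπ h1 hw
  refine ⟨r⁻¹, ?_⟩
  rw [inv_pow, hr, res_inv_unit, mul_inv, mul_inv, inv_zpow, inv_inv, neg_neg, ← zpow_neg,
    ← zpow_neg]
  congr 2
  congr 1
  ring

theorem tf_pow_seven {a b : L} (ha : a ≠ 0) (hb : b ≠ 0) : TameSeventh A (a ^ 7) b := by
  intro π s w m n hπ hs hw
  obtain ⟨u, k, h1⟩ := dec_exists A hπ ha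
  have hdec : ((s : A) : L) * ((π : A) : L) ^ m =
      (((u ^ 7 : Aˣ) : A) : L) * ((π : A) : L) ^ (k * 7) := by
    rw [← hs, h1, mul_pow, ← zpow_natCast (((π : A) : L) ^ k), ← zpow_mul]
    push_cast
    ring
  obtain ⟨hm, hsu⟩ := dec_unique A hπ hdec
  refine ⟨(-1) ^ (k * n) * (IsLocalRing.residue A (u : A)) ^ n *
        (IsLocalRing.residue A (w : A)) ^ (-k), ?_⟩
  rw [mul_pow, mul_pow, hm, hsu, Units.val_pow_eq_pow_val, map_pow]
  congr 1
  · congr 1
    · rw [← zpow_natCast, ← zpow_mul]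
      congr 1
      push_cast
      ring
    · rw [← zpow_natCast, ← zpow_natCast, ← zpow_mul, ← zpow_mul, mul_comm]
  · rw [← zpow_natCast, ← zpow_mul]
    congr 1
    push_cast
    ring

theorem tf_self {a : L} (ha : a ≠ 0) : TameSeventh A a a := by
  intro π s w m n hπ hs hw
  obtain ⟨hm, hsu⟩ := dec_unique A hπ (hs.symm.trans hw)
  subst hm
  subst hsu
  refine ⟨(-1) ^ (m * m), ?_⟩
  rw [neg_one_seventh, mul_assoc, ← zpow_add₀ (res_ne A s), add_neg_cancel, zpow_zero, mul_one]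

theorem tf_unit_seventh {a b : L} (hb : b ≠ 0) (hv : A.valuation a = 1) (r : L)
    (hr : A.valuation (a - r ^ 7) < 1) : TameSeventh A a b := by
  intro π s w m n hπ hs hw
  have hm : m = 0 := by
    apply zpow_val_inj A hπ
    rw [zpow_zero, ← hv, hs, val_dec]
  subst hm
  rw [zpow_zero, mul_one] at hs
  have hr1 : A.valuation r ≤ 1 := by
    by_contra hc
    push Not at hc
    have h1 : 1 < A.valuation (r ^ 7) := by
      rw [map_pow]
      exact one_lt_pow' hc (by norm_num)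
    have h2 : A.valuation (a - r ^ 7) = A.valuation (r ^ 7) := by
      exact Valuation.map_sub_eq_of_lt_right _ (by rw [hv]; exact h1)
    rw [h2] at hr
    exact absurd hr (not_lt.2 h1.le)
  have hrA : r ∈ A := A.mem_of_valuation_le_one r hr1
  refine ⟨(IsLocalRing.residue A ⟨r, hrA⟩) ^ n, ?_⟩
  have h3 : IsLocalRing.residue A (s : A) = IsLocalRing.residue A ((⟨r, hrA⟩ : A) ^ 7) := by
    apply res_eq
    rw [← hs]
    simpa using hr
  rw [h3, map_pow, zero_mul, zpow_zero, neg_zero, zpow_zero, one_mul, mul_one,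
    ← zpow_natCast, ← zpow_natCast, ← zpow_mul, ← zpow_mul, mul_comm]

theorem exp_seven {π : A} (hπ : Irreducible π) {k : L} (hk : k ≠ 0) (n : ℤ)
    (h : A.valuation (π : L) ^ n = A.valuation k ^ 7) : ∃ q : ℤ, n = q * 7 := by
  obtain ⟨u, q, hq⟩ := dec_exists A hπ hk
  refine ⟨q, zpow_val_inj A hπ ?_⟩
  rw [h, hq, val_dec, ← zpow_natCast, ← zpow_mul]
  norm_num

theorem tf_unit_pow {a b k : L} (hb : b ≠ 0) (hv : A.valuation a = 1)
    (hk : A.valuation b = A.valuation k ^ 7) : TameSeventh A a b := by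
  intro π s w m n hπ hs hw
  have hm : m = 0 := by
    apply zpow_val_inj A hπ
    rw [zpow_zero, ← hv, hs, val_dec]
  subst hm
  have hk0 : k ≠ 0 := by
    rintro rfl
    rw [map_zero, zero_pow (by norm_num)] at hk
    exact (Valuation.ne_zero_iff _).mpr hb hk
  obtain ⟨q, hq⟩ := exp_seven A hπ hk0 n (by rw [← hk, hw, val_dec])
  refine ⟨(IsLocalRing.residue A (s : A)) ^ q, ?_⟩
  rw [zero_mul, zpow_zero, neg_zero, zpow_zero, one_mul, mul_one, hq, ← zpow_natCast,
    ← zpow_mul]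
  norm_num

theorem tf_steinberg {a b : L} (ha : a ≠ 0) (hb : b ≠ 0) (h : a + b = 1) :
    TameSeventh A a b := by
  intro π s w m n hπ hs hw
  have hp0 : A.valuation (π : L) ≠ 0 := (Valuation.ne_zero_iff _).mpr (pi_ne A hπ)
  have hp1 := pi_lt A hπ
  have hb' : b = 1 - a := by rw [← h]; ring
  have ha' : a = 1 - b := by rw [← h]; ring
  have hva : A.valuation a = A.valuation (π : L) ^ m := by rw [hs, val_dec]
  have hvb : A.valuation b = A.valuation (π : L) ^ n := by rw [hw, val_dec]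
  rcases lt_trichotomy (A.valuation a) 1 with h1 | h1 | h1
  · -- v(a) > 0 : b is a 1-unit
    have h2 : A.valuation b = 1 := by
      rw [hb']
      have : A.valuation (1 - a) = A.valuation (1 : L) :=
        Valuation.map_sub_eq_of_lt_left _ (by rw [map_one]; exact h1)
      rw [this, map_one]
    have hn : n = 0 := by
      apply zpow_val_inj A hπ
      rw [zpow_zero, ← hvb, h2]
    subst hn
    rw [zpow_zero, mul_one] at hw
    have h3 : IsLocalRing.residue A (w : A) = 1 := by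
      rw [← map_one (IsLocalRing.residue A)]
      apply res_eq
      rw [← hw, hb']
      have e : (1 - a) - ((1 : A) : L) = -a := by push_cast; ring
      rw [e, Valuation.map_neg]
      exact h1
    refine ⟨1, ?_⟩
    rw [h3, mul_zero, zpow_zero, zpow_zero, one_zpow]
    norm_num
  · -- v(a) = 0
    have hm : m = 0 := by
      apply zpow_val_inj A hπ
      rw [zpow_zero, ← hva, h1]
    subst hm
    rw [zpow_zero, mul_one] at hs
    have h2 : A.valuation b ≤ 1 := by
      rw [hb']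
      refine (Valuation.map_sub _ _ _).trans ?_
      rw [map_one, h1, max_self]
    rcases h2.lt_or_eq with h4 | h4
    · have h3 : IsLocalRing.residue A (s : A) = 1 := by
        rw [← map_one (IsLocalRing.residue A)]
        apply res_eq
        rw [← hs]
        have e : a - ((1 : A) : L) = -b := by rw [ha']; push_cast; ring
        rw [e, Valuation.map_neg]
        exact h4
      refine ⟨1, ?_⟩
      rw [h3, zero_mul, zpow_zero, one_zpow, neg_zero, zpow_zero]
      norm_num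
    · have hn : n = 0 := by
        apply zpow_val_inj A hπ
        rw [zpow_zero, ← hvb, h4]
      subst hn
      refine ⟨1, ?_⟩
      rw [zero_mul, zpow_zero, zpow_zero, neg_zero, zpow_zero]
      norm_num
  · -- v(a) < 0
    have h2 : A.valuation b = A.valuation a := by
      rw [hb']
      exact Valuation.map_sub_eq_of_lt_right _ (by rw [map_one]; exact h1)
    have hmn : n = m := by
      apply zpow_val_inj A hπ
      rw [← hvb, h2, hva]
    subst hmn
    have h3 : IsLocalRing.residue A (w : A) = -IsLocalRing.residue A (s : A) := by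
      rw [← map_neg]
      apply res_eq
      have hpn : ((π : A) : L) ^ n ≠ 0 := zpow_ne_zero n (pi_ne A hπ)
      have e : ((w : A) : L) - ((-(s : A) : A) : L) = (((π : A) : L) ^ n)⁻¹ := by
        have e2 : (((w : A) : L) + ((s : A) : L)) * ((π : A) : L) ^ n = 1 := by
          rw [add_mul, ← hw, ← hs, add_comm, h]
        push_cast
        rw [sub_neg_eq_add]
        exact eq_inv_of_mul_eq_one_left e2
      rw [e, map_inv₀, map_zpow₀, ← hva]
      exact inv_lt_one_of_one_lt₀ h1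
    refine ⟨(-1) ^ (n * n) * (-1) ^ (-n), ?_⟩
    have hs0 := res_ne A s
    have e3 : (-IsLocalRing.residue A (s : A)) ^ (-n) =
        (-1) ^ (-n) * (IsLocalRing.residue A (s : A)) ^ (-n) := by
      rw [← mul_zpow, neg_one_mul]
    rw [h3, e3, mul_pow, neg_one_seventh, neg_one_seventh]
    have e4 : (IsLocalRing.residue A (s : A)) ^ n * (IsLocalRing.residue A (s : A)) ^ (-n) = 1 := by
      rw [← zpow_add₀ hs0, add_neg_cancel, zpow_zero]
    calc (-1 : IsLocalRing.ResidueField A) ^ (n * n) * (-1) ^ (-n)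
        = (-1) ^ (n * n) * (-1) ^ (-n) *
          ((IsLocalRing.residue A (s : A)) ^ n * (IsLocalRing.residue A (s : A)) ^ (-n)) := by
          rw [e4, mul_one]
      _ = _ := by ring

/-- consequences -/
theorem tf_mul_right {a b b' : L} (ha : a ≠ 0) (hb : b ≠ 0) (hb' : b' ≠ 0)
    (h : TameSeventh A a b) (h' : TameSeventh A a b') : TameSeventh A a (b * b') :=
  tf_symm A (mul_ne_zero hb hb') ha
    (tf_mul_left A hb hb' ha (tf_symm A ha hb h) (tf_symm A ha hb' h'))

theorem tf_inv_right {a b : L} (ha : a ≠ 0) (hb : b ≠ 0) (h : TameSeventh A a b) :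
    TameSeventh A a b⁻¹ :=
  tf_symm A (inv_ne_zero hb) ha (tf_inv_left A hb ha (tf_symm A ha hb h))

end F1

namespace GH

section val

variable {L : Type*} [Field L] (A : ValuationSubring L)

theorem sm_add {a b : L} (ha : A.valuation a < 1) (hb : A.valuation b < 1) :
    A.valuation (a + b) < 1 := A.valuation.map_add_lt ha hb

theorem sm_neg {a : L} (ha : A.valuation a < 1) : A.valuation (-a) < 1 := by
  rwa [Valuation.map_neg]

theorem sm_sub {a b : L} (ha : A.valuation a < 1) (hb : A.valuation b < 1) :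
    A.valuation (a - b) < 1 := by
  rw [sub_eq_add_neg]; exact sm_add A ha (sm_neg A hb)

theorem sm_mem {a : L} (ha : A.valuation a < 1) : a ∈ A := A.mem_of_valuation_le_one a ha.le

theorem sm_mul_left {a b : L} (ha : a ∈ A) (hb : A.valuation b < 1) :
    A.valuation (a * b) < 1 := by
  rw [map_mul]
  exact lt_of_le_of_lt (mul_le_of_le_one_left' ((A.valuation_le_one_iff a).mpr ha)) hb

theorem sm_mul_right {a b : L} (ha : A.valuation a < 1) (hb : b ∈ A) :
    A.valuation (a * b) < 1 := by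
  rw [mul_comm]; exact sm_mul_left A hb ha

theorem sm_pow {a : L} (ha : A.valuation a < 1) {n : ℕ} (hn : n ≠ 0) :
    A.valuation (a ^ n) < 1 := by
  obtain ⟨k, rfl⟩ := Nat.exists_eq_succ_of_ne_zero hn
  rw [pow_succ]
  exact sm_mul_left A (pow_mem (sm_mem A ha) k) ha

theorem sm_of_pow {a : L} {n : ℕ} (ha : A.valuation (a ^ n) < 1) : A.valuation a < 1 := by
  rw [map_pow] at ha
  by_contra h
  push Not at h
  exact absurd ha (not_lt.2 (one_le_pow_of_one_le' h n))

theorem un_add {a b : L} (ha : A.valuation a = 1) (hb : A.valuation b < 1) :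
    A.valuation (a + b) = 1 := by
  rw [A.valuation.map_add_eq_of_lt_left (by rw [ha]; exact hb), ha]

theorem un_ne {a : L} (ha : A.valuation a = 1) : a ≠ 0 := by
  rintro rfl; simp at ha

theorem un_of_pow {a : L} {n : ℕ} (hn : n ≠ 0) (h : A.valuation (a ^ n) = 1) :
    A.valuation a = 1 := by
  rw [map_pow] at h
  exact (pow_eq_one_iff.mp h).resolve_right hn

theorem sm_inv {a : L} (ha : 1 < A.valuation a) : A.valuation a⁻¹ < 1 := by
  rw [map_inv₀]
  exact inv_lt_one_of_one_lt₀ ha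

theorem one_add_ne {s : L} (hs : A.valuation s < 1) : (1 : L) + s ≠ 0 :=
  un_ne A (un_add A (map_one _) hs)

variable [IsDiscreteValuationRing A]

theorem tf_one_unit {s b : L} (hs : A.valuation s < 1) (hb : b ≠ 0) :
    TameSeventh A (1 + s) b := by
  apply tf_unit_seventh A hb (un_add A (map_one _) hs) 1
  have e : (1 : L) + s - 1 ^ 7 = s := by ring
  rw [e]; exact hs

theorem approx_left {a a' s b : L} (ha' : a' ≠ 0) (hs : A.valuation s < 1) (hb : b ≠ 0)
    (e : a = a' * (1 + s)) (hT : TameSeventh A a' b) : TameSeventh A a b := by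
  rw [e]
  exact tf_mul_left A ha' (one_add_ne A hs) hb hT (tf_one_unit A hs hb)

theorem approx_right {a b b' s : L} (ha : a ≠ 0) (hs : A.valuation s < 1) (hb' : b' ≠ 0)
    (e : b = b' * (1 + s)) (hT : TameSeventh A a b') : TameSeventh A a b := by
  rw [e]
  exact tf_mul_right A ha hb' (one_add_ne A hs) hT
    (tf_symm A (one_add_ne A hs) ha (tf_one_unit A hs ha))


end val

end GH

section

variable {L : Type*} [Field L] (A : ValuationSubring L) [IsDiscreteValuationRing A]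

open TL

theorem tf_div_left {a a' b : L} (ha : a ≠ 0) (ha' : a' ≠ 0) (hb : b ≠ 0)
    (h : TameSeventh A a b) (h' : TameSeventh A a' b) : TameSeventh A (a / a') b := by
  rw [div_eq_mul_inv]
  exact tf_mul_left A ha (inv_ne_zero ha') hb h (tf_inv_left A ha' hb h')

theorem tf_div_right {a b b' : L} (ha : a ≠ 0) (hb : b ≠ 0) (hb' : b' ≠ 0)
    (h : TameSeventh A a b) (h' : TameSeventh A a b') : TameSeventh A a (b / b') :=
  tf_symm A (div_ne_zero hb hb') ha (tf_div_left A hb hb' ha (tf_symm A ha hb h)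
    (tf_symm A ha hb' h'))

variable [Algebra ℂ L] (hC : ∀ z : ℂ, algebraMap ℂ L z ∈ A)

include hC

omit [IsDiscreteValuationRing A] in
theorem cval {z : ℂ} (hz : z ≠ 0) : A.valuation (algebraMap ℂ L z) = 1 := by
  have h1 : A.valuation (algebraMap ℂ L z) ≤ 1 := A.valuation_le_one ⟨_, hC z⟩
  have h2 : A.valuation (algebraMap ℂ L z⁻¹) ≤ 1 := A.valuation_le_one ⟨_, hC z⁻¹⟩
  apply le_antisymm h1
  have h3 : algebraMap ℂ L z * algebraMap ℂ L z⁻¹ = 1 := by
    rw [← map_mul, mul_inv_cancel₀ hz, map_one]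
  have h4 : A.valuation (algebraMap ℂ L z) * A.valuation (algebraMap ℂ L z⁻¹) = 1 := by
    rw [← map_mul, h3, map_one]
  rw [← h4]
  exact mul_le_of_le_one_right' h2

/-- a unit congruent to a nonzero constant has trivial symbols -/
theorem tf_const {a b : L} (hb : b ≠ 0) (z : ℂ) (hz : z ≠ 0)
    (h : A.valuation (a - algebraMap ℂ L z) < 1) : TameSeventh A a b := by
  obtain ⟨r, hr⟩ := IsAlgClosed.exists_pow_nat_eq z (n := 7) (by norm_num)
  have hv : A.valuation a = 1 := by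
    have e : a = algebraMap ℂ L z + (a - algebraMap ℂ L z) := by ring
    rw [e]
    exact GH.un_add A (cval A hC hz) h
  refine tf_unit_seventh A hb hv (algebraMap ℂ L r) ?_
  rw [← map_pow, hr]
  exact h

theorem tf_const' {b : L} (hb : b ≠ 0) (z : ℂ) (hz : z ≠ 0) :
    TameSeventh A (algebraMap ℂ L z) b :=
  tf_const A hC hb z hz (by rw [sub_self, map_zero]; exact zero_lt_one)


end

end Pool.Agent.Work.MP_c5a777_ag.Sev

end
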