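import Pool.Agent.Work.MP_c5a777_ag.Bdx.B01
import Pool.Agent.Work.MP_c5a777_ag.Sev.StT
import Pool.Agent.Work.MP_c5a777_ag.Sev.StR

/-! Bundle of small proof modules (one section per former module). -/

section

/-!
The three forms in which the residue of the order seven class is trivial.
-/

set_option autoImplicit false

namespace Pool.Agent.Work.MP_c5a777_ag.Sev

namespace AuxForms

variable {L : Type*} [Field L] (A : ValuationSubring L) [IsDiscreteValuationRing A]

theorem one_left {b : L} (hb : b ≠ 0) : TameSeventh A 1 b := by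
  have h := tf_pow_seven A (a := (1 : L)) (b := b) one_ne_zero hb
  rwa [one_pow] at h

theorem one_right {a : L} (ha : a ≠ 0) : TameSeventh A a 1 :=
  tf_symm A one_ne_zero ha (one_left A ha)

theorem pow_self {u : L} (hu : u ≠ 0) (k : ℕ) : TameSeventh A u (u ^ k) := by
  induction k with
  | zero => rw [pow_zero]; exact one_right A hu
  | succ k ih =>
    rw [pow_succ]
    exact tf_mul_right A hu (pow_ne_zero k hu) hu ih (tf_self A hu)

theorem pow_right {u g : L} (hu : u ≠ 0) (hg : g ≠ 0) : TameSeventh A u (g ^ 7) :=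
  tf_symm A (pow_ne_zero 7 hg) hu (tf_pow_seven A hg hu)

theorem form1 [Algebra ℂ L] (hC : ∀ z : ℂ, algebraMap ℂ L z ∈ A) {u f g : L} {k : ℕ} {κ : ℂ}
    (hu : u ≠ 0) (hκ : κ ≠ 0) (hg : g ≠ 0)
    (h : A.valuation (f / (algebraMap ℂ L κ * u ^ k * g ^ 7) - 1) < 1) :
    TameSeventh A u f := by
  have hκ' : algebraMap ℂ L κ ≠ 0 := fun h0 =>
    hκ ((algebraMap ℂ L).injective (by rw [h0, map_zero]))
  have h1 : algebraMap ℂ L κ * u ^ k ≠ 0 := mul_ne_zero hκ' (pow_ne_zero k hu)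
  have h2 : algebraMap ℂ L κ * u ^ k * g ^ 7 ≠ 0 := mul_ne_zero h1 (pow_ne_zero 7 hg)
  refine GH.approx_right A hu h h2 ?_ ?_
  · rw [add_sub_cancel, mul_div_cancel₀ _ h2]
  · refine tf_mul_right A hu h1 (pow_ne_zero 7 hg) ?_ (pow_right A hu hg)
    refine tf_mul_right A hu hκ' (pow_ne_zero k hu) ?_ (pow_self A hu k)
    exact tf_symm A hκ' hu (tf_const' A hC hu κ hκ)

theorem form2 {u f p a b : L} (hu : u ≠ 0) (hf : f ≠ 0) (hp : p ≠ 0) (e : u = a * p ^ 7)
    (ha : A.valuation a = 1) (hb : A.valuation (a - b ^ 7) < 1) : TameSeventh A u f := by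
  have ha0 : a ≠ 0 := by
    rintro rfl
    exact hu (by rw [e, zero_mul])
  rw [e]
  exact tf_mul_left A ha0 (pow_ne_zero 7 hp) hf (tf_unit_seventh A hf ha b hb)
    (tf_pow_seven A hp hf)

theorem form3 {u f p a g b : L} (hu : u ≠ 0) (hf : f ≠ 0) (hp : p ≠ 0) (e : u = a * p ^ 7)
    (e' : f = b * g ^ 7) (ha : A.valuation a = 1) (hb : A.valuation b = 1) :
    TameSeventh A u f := by
  have ha0 : a ≠ 0 := by
    rintro rfl
    exact hu (by rw [e, zero_mul])
  rw [e]
  refine tf_mul_left A ha0 (pow_ne_zero 7 hp) hf (tf_unit_pow A hf ha (k := g) ?_)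
    (tf_pow_seven A hp hf)
  rw [e', map_mul, hb, one_mul, map_pow]

end AuxForms

theorem pr_Forms : StForms := by
  intro L _ _ A hC _ u f hu hf
  refine ⟨?_, ?_, ?_⟩
  · rintro ⟨g, k, κ, hκ, hg, h⟩
    exact AuxForms.form1 A hC hu hκ hg h
  · rintro ⟨p, a, b, hp, e, ha, hb⟩
    exact AuxForms.form2 A hu hf hp e ha hb
  · rintro ⟨p, a, g, b, hp, _, e, e', ha, hb⟩
    exact AuxForms.form3 A hu hf hp e e' ha hb

end Pool.Agent.Work.MP_c5a777_ag.Sev

end

section

set_option autoImplicit false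

/-!
# Embedding in a purely transcendental field, from a point
-/

open Polynomial

namespace Pool.Agent.Work.MP_c5a777_ag.Sev

noncomputable section

namespace AuxKEmb

theorem indep {M : Type} [Field M] [Algebra ℂ M] (s r x : M)
    (h : AlgebraicIndependent ℂ ![s ^ 7, r, x]) : AlgebraicIndependent ℂ ![s, r, x] := by
  set v : Fin 3 → M := ![s, r, x] with hv
  set A : Subalgebra ℂ M := Algebra.adjoin ℂ (Set.range v) with hA
  let x' : Fin 3 → A := fun i => ⟨v i, Algebra.subset_adjoin ⟨i, rfl⟩⟩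
  let y' : Fin 3 → A := ![x' 0 ^ 7, x' 1, x' 2]
  have hvy : A.val ∘ y' = ![s ^ 7, r, x] := by
    funext i
    fin_cases i <;> rfl
  have hvx : A.val ∘ x' = v := rfl
  have hinj : Function.Injective A.val := Subtype.val_injective
  have hy : AlgebraicIndependent ℂ y' := by
    rw [← AlgHom.algebraicIndependent_iff A.val hinj, hvy]
    exact h
  have hle := hy.cardinalMk_le_trdeg
  have htop : Algebra.adjoin ℂ (Set.range x') = ⊤ := by
    have hr : Set.range x' = ((↑) : A → M) ⁻¹' (Set.range v) := by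
      ext a
      constructor
      · rintro ⟨i, rfl⟩
        exact ⟨i, rfl⟩
      · rintro ⟨i, hi⟩
        exact ⟨i, Subtype.ext hi⟩
    rw [hr]
    exact Algebra.adjoin_adjoin_coe_preimage
  have halg : Algebra.IsAlgebraic (Algebra.adjoin ℂ (Set.range x')) A := by
    constructor
    intro a
    have ha : a ∈ Algebra.adjoin ℂ (Set.range x') := by
      rw [htop]
      exact Algebra.mem_top
    exact isAlgebraic_algebraMap (⟨a, ha⟩ : Algebra.adjoin ℂ (Set.range x'))
  have hb := Algebra.IsAlgebraic.isTranscendenceBasis_of_le_trdeg_of_finite (R := ℂ) x' hle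
  rw [← hvx]
  exact (AlgHom.algebraicIndependent_iff A.val hinj).2 hb.1

theorem map_Wu {R S : Type} [CommRing R] [CommRing S] (θ : R →+* S)
    (h c u r x y : R) : θ (Wu h c u r x y) = Wu (θ h) (θ c) (θ u) (θ r) (θ x) (θ y) := by
  unfold Wu wf Sf We a1 a2 a3 a4 a6
  simp only [map_add, map_mul, map_sub, map_neg, map_pow, map_ofNat, map_one]

end AuxKEmb

theorem pr_KEmb (h1 : StTHom) (h2 : StTNF) : StKEmb := by
  intro z _ hex
  obtain ⟨u, r, x, y, hind, hW⟩ := hex
  let M : Type := AlgebraicClosure (FractionRing (MvPolynomial (Fin 3) ℂ))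
  let io : FractionRing (MvPolynomial (Fin 3) ℂ) →ₐ[ℂ] M :=
    IsScalarTower.toAlgHom ℂ (FractionRing (MvPolynomial (Fin 3) ℂ)) M
  have hio : Function.Injective io := io.toRingHom.injective
  obtain ⟨s, hs⟩ := IsAlgClosed.exists_pow_nat_eq (io u) (n := 7) (by norm_num)
  have hind' : AlgebraicIndependent ℂ ![s, io r, io x] := by
    apply AuxKEmb.indep
    rw [hs]
    have h3 := (AlgHom.algebraicIndependent_iff io hio).2 hind
    have e : (![io u, io r, io x] : Fin 3 → M) = io ∘ ![u, r, x] := by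
      funext i
      fin_cases i <;> rfl
    rw [e]
    exact h3
  have hW' : Wu (algebraMap ℂ M (z + z ^ 6)) (algebraMap ℂ M 5) (s ^ 7) (io r) (io x) (io y)
      = 0 := by
    have h3 := congrArg io.toRingHom hW
    rw [AuxKEmb.map_Wu, map_zero] at h3
    rw [hs, map_ofNat]
    have h4 : io.toRingHom (algebraMap ℂ (FractionRing (MvPolynomial (Fin 3) ℂ)) (z + z ^ 6)) =
        algebraMap ℂ M (z + z ^ 6) := io.commutes _
    have h5 : io.toRingHom 5 = 5 := map_ofNat _ 5
    rw [h4, h5] at h3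
    exact h3
  obtain ⟨φ, hC, hφs, hφr, hφx, hφy⟩ := h1 ℂ M (algebraMap ℂ M) 5 (z + z ^ 6) s (io r) (io x)
    (io y) hW'
  have hφinj : Function.Injective φ := by
    refine h2 ℂ M (algebraMap ℂ M) (algebraMap ℂ M).injective 5 (z + z ^ 6) s (io r) (io x)
      (io y) φ hC hφs hφr hφx hφy ?_
    intro p hp
    exact (algebraicIndependent_iff.1 hind') p hp
  let φa : TT (5 : ℂ) (z + z ^ 6) →ₐ[ℂ] M := { φ with commutes' := hC }
  let Φ : K1 z →ₐ[ℂ] M := IsFractionRing.liftAlgHom (g := φa) hφinj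
  have hΦ : ∀ t : TT (5 : ℂ) (z + z ^ 6), Φ (algebraMap _ (K1 z) t) = φ t := fun t =>
    IsFractionRing.lift_algebraMap hφinj t
  have hmem : ∀ a ∈ LF z, Φ a ∈ io.range := by
    have hle : LF z ≤ (io.fieldRange).comap Φ := by
      apply IntermediateField.adjoin_le_iff.2
      intro a ha
      simp only [Set.mem_insert_iff, Set.mem_singleton_iff] at ha
      rcases ha with rfl | rfl | rfl | rfl
      · refine ⟨u, ?_⟩
        change io u = Φ (gs z ^ 7)
        rw [map_pow, gs, hΦ, hφs, hs]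
      · refine ⟨r, ?_⟩
        change io r = Φ (gr z)
        rw [gr, hΦ, hφr]
      · refine ⟨x, ?_⟩
        change io x = Φ (gx z)
        rw [gx, hΦ, hφx]
      · refine ⟨y, ?_⟩
        change io y = Φ (gy z)
        rw [gy, hΦ, hφy]
    intro a ha
    exact hle ha
  let e := AlgEquiv.ofInjective io hio
  exact ⟨e.symm.toAlgHom.comp ((Φ.comp (LF z).val).codRestrict io.range
    (fun a => hmem a a.2))⟩

end

end Pool.Agent.Work.MP_c5a777_ag.Sev

end

section

/-!
# Finite generation and transcendence degree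
-/

open Polynomial

set_option autoImplicit false

namespace Pool.Agent.Work.MP_c5a777_ag.Sev

namespace AuxKFG

theorem mem_u (z : ℂ) : gs z ^ 7 ∈ LF z := IntermediateField.subset_adjoin _ _ (by simp)

theorem mem_r (z : ℂ) : gr z ∈ LF z := IntermediateField.subset_adjoin _ _ (by simp)

theorem mem_x (z : ℂ) : gx z ∈ LF z := IntermediateField.subset_adjoin _ _ (by simp)

theorem mem_y (z : ℂ) : gy z ∈ LF z := IntermediateField.subset_adjoin _ _ (by simp)

theorem trdeg_FR : Algebra.trdeg ℂ (FractionRing (MvPolynomial (Fin 3) ℂ)) = 3 := by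
  have h1 : Algebra.trdeg ℂ (MvPolynomial (Fin 3) ℂ) = 3 := by
    have := MvPolynomial.trdeg_of_isDomain (ι := Fin 3) (S := ℂ)
    rw [this]
    simp
  have h := _root_.trdeg_add_eq ℂ (MvPolynomial (Fin 3) ℂ)
    (A := FractionRing (MvPolynomial (Fin 3) ℂ))
  have : Algebra.IsAlgebraic (MvPolynomial (Fin 3) ℂ) (FractionRing (MvPolynomial (Fin 3) ℂ)) :=
    IsLocalization.isAlgebraic _ (nonZeroDivisors (MvPolynomial (Fin 3) ℂ))
  rw [h1, trdeg_eq_zero (R := MvPolynomial (Fin 3) ℂ), add_zero] at h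
  exact h.symm

end AuxKFG

open AuxKFG in
theorem pr_KFG : StKFG := by
  classical
  intro z
  refine ⟨{⟨gs z ^ 7, mem_u z⟩, ⟨gr z, mem_r z⟩, ⟨gx z, mem_x z⟩, ⟨gy z, mem_y z⟩}, ?_⟩
  rw [eq_top_iff]
  intro f _
  have hinj : Function.Injective ((LF z).val) := Subtype.val_injective
  have h1 : (IntermediateField.adjoin ℂ
      ((({⟨gs z ^ 7, mem_u z⟩, ⟨gr z, mem_r z⟩, ⟨gx z, mem_x z⟩, ⟨gy z, mem_y z⟩} :
        Finset (LF z)) : Set (LF z)))).map (LF z).val = LF z := by
    rw [IntermediateField.adjoin_map]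
    have : (LF z).val '' ((({⟨gs z ^ 7, mem_u z⟩, ⟨gr z, mem_r z⟩, ⟨gx z, mem_x z⟩,
        ⟨gy z, mem_y z⟩} : Finset (LF z)) : Set (LF z))) =
        {gs z ^ 7, gr z, gx z, gy z} := by
      simp only [Finset.coe_insert, Finset.coe_singleton, Set.image_insert_eq,
        Set.image_singleton]
      rfl
    rw [this]
    rfl
  have h2 : (LF z).val f ∈ (IntermediateField.adjoin ℂ
      ((({⟨gs z ^ 7, mem_u z⟩, ⟨gr z, mem_r z⟩, ⟨gx z, mem_x z⟩, ⟨gy z, mem_y z⟩} :
        Finset (LF z)) : Set (LF z)))).map (LF z).val := by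
    rw [h1]; exact f.2
  obtain ⟨y, hy, hyz⟩ := h2
  have : y = f := hinj hyz
  rw [← this]
  exact hy

open AuxKFG in
theorem pr_KTr (h1 : StKInd) : StKTr := by
  intro z hne
  obtain ⟨φ⟩ := hne
  apply le_antisymm
  · rw [← trdeg_FR]
    exact trdeg_le_of_injective φ φ.injective
  · have h2 : AlgebraicIndependent ℂ (![⟨gs z ^ 7, mem_u z⟩, ⟨gr z, mem_r z⟩,
        ⟨gx z, mem_x z⟩] : Fin 3 → LF z) := by
      refine AlgebraicIndependent.of_comp (LF z).val ?_
      have e : ((LF z).val ∘ (![⟨gs z ^ 7, mem_u z⟩, ⟨gr z, mem_r z⟩,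
          ⟨gx z, mem_x z⟩] : Fin 3 → LF z)) = ![gs z ^ 7, gr z, gx z] := by
        funext i
        fin_cases i <;> rfl
      rw [e]
      exact (h1 z).2
    have h3 := h2.cardinalMk_le_trdeg
    simpa using h3

end Pool.Agent.Work.MP_c5a777_ag.Sev

end

section

/-!
# Item KFrac: fractions over a valuation ring
-/

open Polynomial

set_option autoImplicit false

namespace Pool.Agent.Work.MP_c5a777_ag.Sev

namespace AuxKFrac

/-- every element of the model over the complex numbers is a fraction with a constant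
denominator -/
theorem key (h2 : StTInd) (z : ℂ) (O : ValuationSubring ℂ) (c h : O) (ι : TT c h →+* K1 z)
    (hC : ∀ a : O, ι (tC c h a) = algebraMap ℂ (K1 z) (a : ℂ)) (hs : ι (ts c h) = gs z)
    (hr : ι (tr c h) = gr z) (hx : ι (tx c h) = gx z) (hy : ι (ty c h) = gy z)
    (t : TT (5 : ℂ) (z + z ^ 6)) :
    ∃ d : O, d ≠ 0 ∧ ∃ t1 : TT c h,
      algebraMap (TT (5 : ℂ) (z + z ^ 6)) (K1 z) t * algebraMap ℂ (K1 z) (d : ℂ) = ι t1 := by
  have h01 : (1 : O) ≠ 0 := one_ne_zero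
  refine h2 ℂ 5 (z + z ^ 6) (fun t => ∃ d : O, d ≠ 0 ∧ ∃ t1 : TT c h,
    algebraMap (TT (5 : ℂ) (z + z ^ 6)) (K1 z) t * algebraMap ℂ (K1 z) (d : ℂ) = ι t1)
    ?_ ?_ ?_ ?_ ?_ ?_ ?_ t
  · intro a
    have ha : algebraMap (TT (5 : ℂ) (z + z ^ 6)) (K1 z) (tC 5 (z + z ^ 6) a) =
        algebraMap ℂ (K1 z) a := rfl
    rw [ha]
    by_cases h0 : a = 0
    · exact ⟨1, h01, 0, by rw [h0, map_zero, map_zero, zero_mul]⟩
    · rcases O.mem_or_inv_mem a with h | h
      · refine ⟨1, h01, tC _ _ ⟨a, h⟩, ?_⟩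
        rw [hC, OneMemClass.coe_one, map_one, mul_one]
      · refine ⟨⟨a⁻¹, h⟩, ?_, 1, ?_⟩
        · intro h'
          have h'' : a⁻¹ = 0 := congrArg Subtype.val h'
          exact inv_ne_zero h0 h''
        · rw [← map_mul, mul_inv_cancel₀ h0, map_one, map_one]
  · refine ⟨1, h01, ts c h, ?_⟩
    rw [hs, OneMemClass.coe_one, map_one, mul_one]
    rfl
  · refine ⟨1, h01, tr c h, ?_⟩
    rw [hr, OneMemClass.coe_one, map_one, mul_one]
    rfl
  · refine ⟨1, h01, tx c h, ?_⟩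
    rw [hx, OneMemClass.coe_one, map_one, mul_one]
    rfl
  · refine ⟨1, h01, ty c h, ?_⟩
    rw [hy, OneMemClass.coe_one, map_one, mul_one]
    rfl
  · rintro a b ⟨d, hd, t1, ht⟩ ⟨d', hd', t1', ht'⟩
    refine ⟨d * d', mul_ne_zero hd hd', t1 * tC _ _ d' + t1' * tC _ _ d, ?_⟩
    rw [map_add, map_add, map_mul, map_mul, hC, hC, ← ht, ← ht', MulMemClass.coe_mul, map_mul]
    ring
  · rintro a b ⟨d, hd, t1, ht⟩ ⟨d', hd', t1', ht'⟩
    refine ⟨d * d', mul_ne_zero hd hd', t1 * t1', ?_⟩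
    rw [map_mul, map_mul, ← ht, ← ht', MulMemClass.coe_mul, map_mul]
    ring

theorem comp_sub {K : Type} [Field K] (f : ℂ →+* K) (O : ValuationSubring ℂ) (a : O) :
    (f.comp O.subtype) a = f (a : ℂ) := rfl

theorem inj_sub {K : Type} [Field K] (f : ℂ →+* K) (O : ValuationSubring ℂ) :
    Function.Injective (f.comp O.subtype) :=
  f.injective.comp Subtype.val_injective

theorem rel_sub {K : Type} [Field K] (f : ℂ →+* K) (O : ValuationSubring ℂ) (c h : O) (u : ℂ)
    (hc : (c : ℂ) = 5) (hh : (h : ℂ) = u) (A r x y : K) (h4 : Wu (f u) 5 A r x y = 0) :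
    Wu ((f.comp O.subtype) h) ((f.comp O.subtype) c) A r x y = 0 := by
  rw [comp_sub, comp_sub, hc, hh, map_ofNat]
  exact h4

theorem ind_sub {K : Type} [Field K] [Algebra ℂ K] (O : ValuationSubring ℂ) (v : Fin 3 → K)
    (hv : AlgebraicIndependent ℂ v) (p : MvPolynomial (Fin 3) O)
    (hp : MvPolynomial.eval₂ ((algebraMap ℂ K).comp O.subtype) v p = 0) : p = 0 := by
  have h6 : MvPolynomial.aeval v (MvPolynomial.map O.subtype p) = 0 := by
    rw [MvPolynomial.aeval_def, MvPolynomial.eval₂_map]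
    exact hp
  have h7 := (algebraicIndependent_iff.1 hv) _ h6
  exact MvPolynomial.map_injective _ Subtype.val_injective (by rw [h7, map_zero])

/-- the embedding -/
theorem emb (h1 : StTHom) (h3 : StTNF) (z : ℂ) (O : ValuationSubring ℂ) (c h : O)
    (hc : (c : ℂ) = 5) (hh : (h : ℂ) = z + z ^ 6)
    (h4 : Wu (algebraMap ℂ (K1 z) (z + z ^ 6)) 5 (gs z ^ 7) (gr z) (gx z) (gy z) = 0)
    (h5 : AlgebraicIndependent ℂ ![gs z, gr z, gx z]) :
    ∃ ι : TT c h →+* K1 z, Function.Injective ι ∧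
      (∀ a : O, ι (tC c h a) = algebraMap ℂ (K1 z) (a : ℂ)) ∧ ι (ts c h) = gs z ∧
      ι (tr c h) = gr z ∧ ι (tx c h) = gx z ∧ ι (ty c h) = gy z := by
  obtain ⟨ι, hC, hs, hr, hx, hy⟩ := h1 O (K1 z) ((algebraMap ℂ (K1 z)).comp O.subtype) c h
    (gs z) (gr z) (gx z) (gy z) (rel_sub _ O c h _ hc hh _ _ _ _ h4)
  exact ⟨ι, h3 O (K1 z) _ (inj_sub _ O) c h _ _ _ _ ι hC hs hr hx hy
    (fun p hp => ind_sub O _ h5 p hp), fun a => (hC a).trans (comp_sub _ O a), hs, hr, hx, hy⟩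

end AuxKFrac

theorem pr_KFrac (h1 : StTHom) (h2 : StTInd) (h3 : StTNF) (h4 : StKRel) (h5 : StKInd) :
    StKFrac := by
  intro z O c h hc hh
  obtain ⟨ι, hinj, hC', hs, hr, hx, hy⟩ := AuxKFrac.emb h1 h3 z O c h hc hh (h4 z) (h5 z).1
  refine ⟨ι, hinj, hC', hs, hr, hx, hy, ?_⟩
  intro γ hγ
  obtain ⟨t, t', ht', rfl⟩ := IsFractionRing.div_surjective (A := TT (5 : ℂ) (z + z ^ 6)) γ
  obtain ⟨d, hd, t1, h8⟩ := AuxKFrac.key h2 z O c h ι hC' hs hr hx hy t
  obtain ⟨d', hd', t1', h9⟩ := AuxKFrac.key h2 z O c h ι hC' hs hr hx hy t'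
  have n1 : algebraMap (TT (5 : ℂ) (z + z ^ 6)) (K1 z) t ≠ 0 := by
    intro h0
    rw [h0, zero_div] at hγ
    exact hγ rfl
  have n2 : algebraMap (TT (5 : ℂ) (z + z ^ 6)) (K1 z) t' ≠ 0 := by
    intro h0
    rw [h0, div_zero] at hγ
    exact hγ rfl
  have n3 : algebraMap ℂ (K1 z) (d : ℂ) ≠ 0 := by
    rw [Ne, map_eq_zero]
    exact fun h => hd (Subtype.ext h)
  have n4 : algebraMap ℂ (K1 z) (d' : ℂ) ≠ 0 := by
    rw [Ne, map_eq_zero]
    exact fun h => hd' (Subtype.ext h)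
  have e1 : ι (t1 * tC _ _ d') = algebraMap (TT (5 : ℂ) (z + z ^ 6)) (K1 z) t *
      algebraMap ℂ (K1 z) (d : ℂ) * algebraMap ℂ (K1 z) (d' : ℂ) := by
    rw [map_mul, hC', h8]
  have e2 : ι (t1' * tC _ _ d) = algebraMap (TT (5 : ℂ) (z + z ^ 6)) (K1 z) t' *
      algebraMap ℂ (K1 z) (d' : ℂ) * algebraMap ℂ (K1 z) (d : ℂ) := by
    rw [map_mul, hC', h9]
  refine ⟨t1 * tC _ _ d', t1' * tC _ _ d, ?_, ?_, ?_⟩
  · intro h0
    rw [h0, map_zero] at e1
    exact mul_ne_zero (mul_ne_zero n1 n3) n4 e1.symm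
  · intro h0
    rw [h0, map_zero] at e2
    exact mul_ne_zero (mul_ne_zero n2 n4) n3 e2.symm
  · rw [e1, e2]
    field_simp

end Pool.Agent.Work.MP_c5a777_ag.Sev

end

section

/-!
# The function is not a norm (order seven)
-/

set_option autoImplicit false

open Polynomial

namespace Pool.Agent.Work.MP_c5a777_ag.Sev

namespace AuxKNorm

theorem map_fu {R S : Type*} [CommRing R] [CommRing S] (g : R →+* S) (h c u r x y : R) :
    g (fu h c u r x y) = fu (g h) (g c) (g u) (g r) (g x) (g y) := by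
  simp only [fu, ff, e8, e10, e14, wf, Sf, map_add, map_sub, map_mul, map_pow, map_neg,
    map_ofNat, map_one]

theorem mem_of_pow {O : ValuationSubring ℂ} {z : ℂ} (hz : z ^ 7 = 1) : z ∈ O := by
  rw [← O.valuation_le_one_iff]
  by_contra h
  push Not at h
  have h1 : 1 < O.valuation z ^ 7 := one_lt_pow₀ h (by norm_num)
  rw [← map_pow, hz, map_one] at h1
  exact lt_irrefl _ h1

end AuxKNorm

open AuxKNorm in
theorem pr_KNorm (h1 : StNoNorm) (h2 : StTheta) (h3 : StTHom) (h4 : StTInd) (h5 : StTFree)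
    (h6 : StKFrac) (h7 : StVal5) (h8 : StTRel) (h9 : StKf) : StKNorm := by
  intro z hz σ hσC hσs hσr hσx hσy γ hN
  obtain ⟨O, hO⟩ := h7
  have hz7 : z ^ 7 = 1 := hz.pow_eq_one
  have hzO : z ∈ O := mem_of_pow hz7
  obtain ⟨z0, hz0⟩ : ∃ z0 : O, (z0 : ℂ) = z := ⟨⟨z, hzO⟩, rfl⟩
  have hz07 : z0 ^ 7 = 1 := by
    apply Subtype.ext
    push_cast
    rw [hz0, hz7]
  obtain ⟨h, hh⟩ : ∃ h : O, (h : ℂ) = z + z ^ 6 := ⟨z0 + z0 ^ 6, by push_cast; rw [hz0]⟩
  obtain ⟨c, hc5⟩ : ∃ c : O, c = 5 := ⟨5, rfl⟩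
  have hc : (c : ℂ) = 5 := by rw [hc5]; rfl
  have hcm : c ∈ IsLocalRing.maximalIdeal O := by
    rw [O.valuation_lt_one_iff, hc]
    exact hO
  have h5m : (5 : O) ∈ IsLocalRing.maximalIdeal O := hc5 ▸ hcm
  obtain ⟨Ω, _, _, θ, ord, hθ, hmul, hf0, hf4, hτ⟩ := h2 O c h hcm h5m
  obtain ⟨ι, hι, hιC, hιs, hιr, hιx, hιy, hfrac⟩ := h6 z O c h hc hh
  have hrel := h8 O c h
  obtain ⟨σT, hTC, hTs, hTr, hTx, hTy⟩ := h3 O (TT c h) (tC c h) c h (tC c h z0 * ts c h)
    (tr c h) (tx c h) (ty c h) (by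
      have e : (tC c h z0 * ts c h) ^ 7 = ts c h ^ 7 := by
        rw [mul_pow, ← map_pow, hz07, map_one, one_mul]
      rw [e]
      exact hrel)
  have hcomm : ∀ a, ι (σT a) = σ (ι a) := by
    refine h4 O c h (fun a => ι (σT a) = σ (ι a)) ?_ ?_ ?_ ?_ ?_ ?_ ?_
    · intro a
      rw [hTC, hιC, hσC]
    · rw [hTs, map_mul, hιC, hιs, hσs, hz0]
    · rw [hTr, hιr, hσr]
    · rw [hTx, hιx, hσx]
    · rw [hTy, hιy, hσy]
    · intro a b ha hb
      rw [map_add, map_add, map_add, map_add, ha, hb]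
    · intro a b ha hb
      rw [map_mul, map_mul, map_mul, map_mul, ha, hb]
  obtain ⟨τ, hτ1, hτ2, hτ3⟩ := hτ z0 hz07 σT hTC hTs hTr hTx hTy
  have hγ : γ ≠ 0 := by
    intro h0
    apply h9 z hz
    rw [← hN, Finset.prod_eq_zero (Finset.mem_range.2 (by norm_num : 0 < 7))]
    simp [h0]
  obtain ⟨z1, z2, hz1, hz2, hγe⟩ := hfrac γ hγ
  have hfree : Module.Free O (TT c h) := (h5 O c h).1
  refine h1 O (TT c h) Ω (K1 z) θ hθ σT (fun a => hTC a) τ hτ1 hτ2 ord hmul hτ3 ι hι σ hcomm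
    (fu (tC c h h) (tC c h c) (ts c h ^ 7) (tr c h) (tx c h) (ty c h)) hf0 (by
      rw [hf4]; norm_num) z1 z2 hz1 hz2 γ hγe ?_
  rw [hN, map_fu, map_pow, hιs, hιr, hιx, hιy, hιC, hιC, hh, hc, map_ofNat]

end Pool.Agent.Work.MP_c5a777_ag.Sev

end

section

/-!
# The algebra is not split
-/

open Polynomial

set_option autoImplicit false

namespace Pool.Agent.Work.MP_c5a777_ag.Sev

namespace AuxKSplit

theorem mem_r (z : ℂ) : gr z ∈ LF z := IntermediateField.subset_adjoin _ _ (by simp)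

theorem mem_x (z : ℂ) : gx z ∈ LF z := IntermediateField.subset_adjoin _ _ (by simp)

theorem mem_y (z : ℂ) : gy z ∈ LF z := IntermediateField.subset_adjoin _ _ (by simp)

theorem fix (z : ℂ) (σ : K1 z ≃ₐ[LF z] K1 z) (x : K1 z) (hx : x ∈ LF z) : σ x = x :=
  σ.commutes (⟨x, hx⟩ : LF z)

theorem gs_ne (h4 : StKInd) (z : ℂ) : gs z ≠ 0 := by
  have h := (h4 z).1.ne_zero 0
  simpa using h

end AuxKSplit

theorem pr_KSplit (h1 : StMat) (h2 : StKAut) (h3 : StKNorm) (h4 : StKInd) (h5 : StKf) :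
    StKSplit := by
  intro z hz u f hu hf hUV
  obtain ⟨U, V, hU, hV, hVU⟩ := hUV
  obtain ⟨σ, hσ, hσ7⟩ := h2 z hz
  have hw : IsPrimitiveRoot (algebraMap ℂ (LF z) z) 7 :=
    hz.map_of_injective (algebraMap ℂ (LF z)).injective
  have hu0 : u ≠ 0 := by
    intro h
    rw [h] at hu
    have h6 : gs z ^ 7 = 0 := by
      rw [← hu]
      rfl
    exact pow_ne_zero 7 (AuxKSplit.gs_ne h4 z) h6
  have hf0 : f ≠ 0 := by
    intro h
    rw [h] at hf
    apply h5 z hz
    rw [← hf]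
    rfl
  have hp : gs z ^ 7 = algebraMap (LF z) (K1 z) u := hu.symm
  have hσ' : σ (gs z) = algebraMap (LF z) (K1 z) (algebraMap ℂ (LF z) z) * gs z := hσ
  obtain ⟨γ, hγ⟩ := h1 (LF z) (K1 z) (algebraMap ℂ (LF z) z) hw u f hu0 hf0 (gs z) hp σ hσ' hσ7
    U V hU hV hVU
  have hC : ∀ a : ℂ, ((σ : K1 z ≃ₐ[LF z] K1 z) : K1 z →+* K1 z) (algebraMap ℂ (K1 z) a) =
      algebraMap ℂ (K1 z) a := fun a => σ.commutes (algebraMap ℂ (LF z) a)
  refine h3 z hz ((σ : K1 z ≃ₐ[LF z] K1 z) : K1 z →+* K1 z) hC hσ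
    (AuxKSplit.fix z σ _ (AuxKSplit.mem_r z)) (AuxKSplit.fix z σ _ (AuxKSplit.mem_x z))
    (AuxKSplit.fix z σ _ (AuxKSplit.mem_y z)) γ ?_
  have e : algebraMap (LF z) (K1 z) f =
      fu (algebraMap ℂ (K1 z) (z + z ^ 6)) 5 (gs z ^ 7) (gr z) (gx z) (gy z) := hf
  rw [← e, hγ]
  rfl

end Pool.Agent.Work.MP_c5a777_ag.Sev

end

section

/-!
# Item TFree: the model is free over the base, and a domain
-/

open Polynomial

set_option autoImplicit false

namespace Pool.Agent.Work.MP_c5a777_ag.Sev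

namespace AuxTFree

variable {O : Type} [CommRing O]

noncomputable local instance algP (c h : O) : Algebra (MvPolynomial (Fin 2) O) (TT c h) :=
  inferInstanceAs (Algebra (MvPolynomial (Fin 2) O) (WC c h).toAffine.CoordinateRing)

local instance freeP (c h : O) : Module.Free (MvPolynomial (Fin 2) O) (TT c h) :=
  inferInstanceAs (Module.Free (MvPolynomial (Fin 2) O) (WC c h).toAffine.CoordinateRing)

local instance towP (c h : O) : IsScalarTower O (MvPolynomial (Fin 2) O) (TT c h) :=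
  IsScalarTower.of_algebraMap_eq fun _ => rfl

theorem free (c h : O) : Module.Free O (TT c h) :=
  Module.Free.trans (R := O) (S := MvPolynomial (Fin 2) O) (M := TT c h)

theorem dom (c h : O) (hO : IsDomain O) : IsDomain (TT c h) :=
  inferInstanceAs (IsDomain (WC c h).toAffine.CoordinateRing)

end AuxTFree

theorem pr_TFree : StTFree := fun _ _ c h => ⟨AuxTFree.free c h, AuxTFree.dom c h⟩

end Pool.Agent.Work.MP_c5a777_ag.Sev

end

section

/-!
# Item TNF: injectivity of a homomorphism from the model into a field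
-/

open Polynomial

set_option autoImplicit false

namespace Pool.Agent.Work.MP_c5a777_ag.Sev

noncomputable section

namespace AuxTNF

/-- three variables over `O` give the polynomials in one variable over `O[s, r]` -/
def th (O : Type) [CommRing O] : MvPolynomial (Fin 3) O →+* (MvPolynomial (Fin 2) O)[X] :=
  MvPolynomial.eval₂Hom ((Polynomial.C).comp MvPolynomial.C)
    ![Polynomial.C (MvPolynomial.X 0), Polynomial.C (MvPolynomial.X 1), Polynomial.X]

theorem th_C {O : Type} [CommRing O] (a : O) :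
    th O (MvPolynomial.C a) = Polynomial.C (MvPolynomial.C a) := by
  simp [th]

theorem th_0 {O : Type} [CommRing O] :
    th O (MvPolynomial.X 0) = Polynomial.C (MvPolynomial.X 0) := by
  simp [th]

theorem th_1 {O : Type} [CommRing O] :
    th O (MvPolynomial.X 1) = Polynomial.C (MvPolynomial.X 1) := by
  simp [th]

theorem th_2 {O : Type} [CommRing O] : th O (MvPolynomial.X 2) = Polynomial.X := by
  simp [th]

theorem th_surj (O : Type) [CommRing O] : Function.Surjective (th O) := by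
  have hC : ∀ r : MvPolynomial (Fin 2) O, ∃ p, th O p = Polynomial.C r := by
    intro r
    induction r using MvPolynomial.induction_on with
    | C a => exact ⟨MvPolynomial.C a, th_C a⟩
    | add p q hp hq =>
      obtain ⟨p', hp'⟩ := hp
      obtain ⟨q', hq'⟩ := hq
      exact ⟨p' + q', by rw [map_add, hp', hq', map_add]⟩
    | mul_X p i hp =>
      obtain ⟨p', hp'⟩ := hp
      fin_cases i
      · exact ⟨p' * MvPolynomial.X 0, by rw [map_mul, hp', th_0, ← map_mul]; rfl⟩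
      · exact ⟨p' * MvPolynomial.X 1, by rw [map_mul, hp', th_1, ← map_mul]; rfl⟩
  intro q
  induction q using Polynomial.induction_on with
  | C a => exact hC a
  | add p q hp hq =>
    obtain ⟨p', hp'⟩ := hp
    obtain ⟨q', hq'⟩ := hq
    exact ⟨p' + q', by rw [map_add, hp', hq']⟩
  | monomial n a h =>
    obtain ⟨p', hp'⟩ := h
    exact ⟨p' * MvPolynomial.X 2, by rw [map_mul, hp', th_2]; ring⟩

theorem aux {O S : Type} [CommRing O] [Field S] (g : O →+* S) (hg : Function.Injective g)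
    (c h : O) (s r x : S) (φ : (WC c h).toAffine.CoordinateRing →+* S)
    (h0 : ∀ a, φ (algebraMap (MvPolynomial (Fin 2) O) (WC c h).toAffine.CoordinateRing
      (MvPolynomial.C a)) = g a)
    (h1 : φ (algebraMap (MvPolynomial (Fin 2) O) (WC c h).toAffine.CoordinateRing
      (MvPolynomial.X 0)) = s)
    (h2 : φ (algebraMap (MvPolynomial (Fin 2) O) (WC c h).toAffine.CoordinateRing
      (MvPolynomial.X 1)) = r)
    (h3 : φ (algebraMap (MvPolynomial (Fin 2) O)[X] (WC c h).toAffine.CoordinateRing X) = x)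
    (hp : ∀ p : MvPolynomial (Fin 3) O, MvPolynomial.eval₂ g ![s, r, x] p = 0 → p = 0) :
    Function.Injective φ := by
  have : IsDomain O := hg.isDomain g
  have : Module.Finite (MvPolynomial (Fin 2) O)[X] (WC c h).toAffine.CoordinateRing :=
    Module.Finite.of_basis (WeierstrassCurve.Affine.CoordinateRing.basis (WC c h).toAffine)
  have : Algebra.IsIntegral (MvPolynomial (Fin 2) O)[X] (WC c h).toAffine.CoordinateRing :=
    Algebra.IsIntegral.of_finite _ _
  rw [RingHom.injective_iff_ker_eq_bot]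
  apply Ideal.eq_bot_of_comap_eq_bot (R := (MvPolynomial (Fin 2) O)[X])
  rw [RingHom.comap_ker, ← RingHom.injective_iff_ker_eq_bot, injective_iff_map_eq_zero]
  intro q hq
  obtain ⟨p, rfl⟩ := th_surj O q
  have key : (φ.comp (algebraMap (MvPolynomial (Fin 2) O)[X]
      (WC c h).toAffine.CoordinateRing)).comp (th O) = MvPolynomial.eval₂Hom g ![s, r, x] := by
    apply MvPolynomial.ringHom_ext
    · intro a
      rw [RingHom.comp_apply, RingHom.comp_apply, th_C, MvPolynomial.coe_eval₂Hom,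
        MvPolynomial.eval₂_C, ← h0]
      rfl
    · intro i
      fin_cases i
      · change φ (algebraMap _ _ (th O (MvPolynomial.X 0))) =
          MvPolynomial.eval₂Hom g ![s, r, x] (MvPolynomial.X 0)
        rw [th_0, MvPolynomial.coe_eval₂Hom, MvPolynomial.eval₂_X]
        exact h1
      · change φ (algebraMap _ _ (th O (MvPolynomial.X 1))) =
          MvPolynomial.eval₂Hom g ![s, r, x] (MvPolynomial.X 1)
        rw [th_1, MvPolynomial.coe_eval₂Hom, MvPolynomial.eval₂_X]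
        exact h2
      · change φ (algebraMap _ _ (th O (MvPolynomial.X 2))) =
          MvPolynomial.eval₂Hom g ![s, r, x] (MvPolynomial.X 2)
        rw [th_2, MvPolynomial.coe_eval₂Hom, MvPolynomial.eval₂_X]
        exact h3
  have h4 : MvPolynomial.eval₂ g ![s, r, x] p = 0 := by
    have := RingHom.congr_fun key p
    rw [RingHom.comp_apply, hq] at this
    exact this.symm
  rw [hp p h4, map_zero]

end AuxTNF

theorem pr_TNF : StTNF := by
  intro O S _ _ g hg c h s r x y φ h0 h1 h2 h3 _ hp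
  exact AuxTNF.aux g hg c h s r x φ h0 h1 h2 h3 hp

end

end Pool.Agent.Work.MP_c5a777_ag.Sev

end

section

/-!
# Item TRel: the relation, the universal property and induction for the model
-/

open Polynomial

set_option autoImplicit false

namespace Pool.Agent.Work.MP_c5a777_ag.Sev

noncomputable section

namespace AuxTRel

section maps

variable {R S : Type} [CommRing R] [CommRing S] (f : R →+* S)

theorem map_a1 (h A w : R) : f (a1 h A w) = a1 (f h) (f A) (f w) := by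
  simp only [a1, map_add, map_mul, map_pow, map_neg, map_ofNat]

theorem map_a2 (h w : R) : f (a2 h w) = a2 (f h) (f w) := by
  simp only [a2, map_add, map_mul, map_pow, map_neg, map_ofNat]

theorem map_a3 (h A w : R) : f (a3 h A w) = a3 (f h) (f A) (f w) := by
  simp only [a3, map_add, map_sub, map_mul, map_pow, map_ofNat]

theorem map_a4 (h A w T : R) : f (a4 h A w T) = a4 (f h) (f A) (f w) (f T) := by
  simp only [a4, map_add, map_sub, map_mul, map_pow, map_neg, map_ofNat]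

theorem map_a6 (h A w T : R) : f (a6 h A w T) = a6 (f h) (f A) (f w) (f T) := by
  simp only [a6, map_add, map_sub, map_mul, map_pow, map_neg, map_ofNat]

theorem map_wf (c u r : R) : f (wf c u r) = wf (f c) (f u) (f r) := by
  simp only [wf, map_add, map_mul, map_pow, map_one]

theorem map_Sf (c u r : R) : f (Sf c u r) = Sf (f c) (f u) (f r) := by
  simp only [Sf, map_add, map_mul, map_pow, map_one]

end maps

variable {O : Type} [CommRing O]

/-- The projection onto the model. -/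
def pj (c h : O) : (MvPolynomial (Fin 2) O)[X][X] →+* TT c h :=
  AdjoinRoot.mk (WC c h).toAffine.polynomial

theorem pj_C (c h a : O) : pj c h (C (C (MvPolynomial.C a))) = tC c h a := rfl

theorem pj_s (c h : O) : pj c h (C (C (MvPolynomial.X 0))) = ts c h := rfl

theorem pj_r (c h : O) : pj c h (C (C (MvPolynomial.X 1))) = tr c h := rfl

theorem pj_x (c h : O) : pj c h (C X) = tx c h := rfl

theorem pj_y (c h : O) : pj c h X = ty c h := rfl

theorem pj_surj (c h : O) : Function.Surjective (pj c h) := AdjoinRoot.mk_surjective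

/-- The value of the equation under a homomorphism. -/
theorem eval_rel {S : Type} [CommRing S] (c h : O) (F : (MvPolynomial (Fin 2) O)[X][X] →+* S) :
    F (WC c h).toAffine.polynomial =
      Wu (F (C (C (MvPolynomial.C h)))) (F (C (C (MvPolynomial.C c))))
        (F (C (C (MvPolynomial.X 0))) ^ 7) (F (C (C (MvPolynomial.X 1)))) (F (C X)) (F X) := by
  let B : MvPolynomial (Fin 2) O →+* S := F.comp ((C : (MvPolynomial (Fin 2) O)[X] →+* _).comp C)
  have hB : ∀ a, F (C (C a)) = B a := fun a => rfl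
  have h1 : F (WC c h).toAffine.polynomial =
      (F X) ^ 2 + (B (WC c h).a₁ * F (C X) + B (WC c h).a₃) * F X -
        ((F (C X)) ^ 3 + B (WC c h).a₂ * (F (C X)) ^ 2 + B (WC c h).a₄ * F (C X) +
          B (WC c h).a₆) := by
    have h0 : (WC c h).toAffine.polynomial =
        (X ^ 2 + C (C (WC c h).a₁ * X + C (WC c h).a₃) * X -
          C (X ^ 3 + C (WC c h).a₂ * X ^ 2 + C (WC c h).a₄ * X + C (WC c h).a₆) :
          (MvPolynomial (Fin 2) O)[X][X]) := rfl
    rw [h0]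
    refine (map_sub F _ _).trans ?_
    simp only [map_add, map_mul, map_pow, hB]
  rw [h1]
  simp only [hB, Wu, We, WC, map_a1, map_a2, map_a3, map_a4, map_a6, map_wf, map_Sf, map_pow]
  ring

theorem ind (c h : O) (P : TT c h → Prop) (h1 : ∀ a, P (tC c h a)) (h2 : P (ts c h))
    (h3 : P (tr c h)) (h4 : P (tx c h)) (h5 : P (ty c h))
    (h6 : ∀ a b, P a → P b → P (a + b)) (h7 : ∀ a b, P a → P b → P (a * b)) (z : TT c h) :
    P z := by
  have hone : P 1 := by
    have := h1 1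
    rwa [map_one] at this
  have hpow : ∀ a, P a → ∀ n : ℕ, P (a ^ n) := by
    intro a ha n
    induction n with
    | zero => rwa [pow_zero]
    | succ n ih =>
      rw [pow_succ]
      exact h7 _ _ ih ha
  have hM : ∀ p : MvPolynomial (Fin 2) O, P (pj c h (C (C p))) := by
    intro p
    induction p using MvPolynomial.induction_on with
    | C a => exact h1 a
    | add p q hp hq =>
      rw [map_add, map_add, map_add]
      exact h6 _ _ hp hq
    | mul_X p i hp =>
      rw [map_mul, map_mul, map_mul]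
      apply h7 _ _ hp
      fin_cases i
      · exact h2
      · exact h3
  have hX : ∀ p : (MvPolynomial (Fin 2) O)[X], P (pj c h (C p)) := by
    intro p
    induction p using Polynomial.induction_on with
    | C a => exact hM a
    | add p q hp hq =>
      rw [map_add, map_add]
      exact h6 _ _ hp hq
    | monomial n a _ =>
      rw [map_mul, map_mul, map_pow, map_pow]
      exact h7 _ _ (hM a) (hpow _ h4 _)
  obtain ⟨q, rfl⟩ := pj_surj c h z
  induction q using Polynomial.induction_on with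
  | C a => exact hX a
  | add p q hp hq =>
    rw [map_add]
    exact h6 _ _ hp hq
  | monomial n a _ =>
    rw [map_mul, map_pow]
    exact h7 _ _ (hX a) (hpow _ h5 _)

end AuxTRel

theorem pr_TRel : StTRel := by
  intro O _ c h
  have h1 := AuxTRel.eval_rel c h (AuxTRel.pj c h)
  have h2 : AuxTRel.pj c h (WC c h).toAffine.polynomial = 0 := AdjoinRoot.mk_self
  rw [h2] at h1
  exact h1.symm

theorem pr_THom : StTHom := by
  intro O S _ _ g c h s r x y hW
  let B : MvPolynomial (Fin 2) O →+* S := MvPolynomial.eval₂Hom g ![s, r]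
  have hBC : ∀ a, B (MvPolynomial.C a) = g a := fun a => MvPolynomial.eval₂Hom_C _ _ _
  have hB0 : B (MvPolynomial.X 0) = s := by
    rw [MvPolynomial.coe_eval₂Hom, MvPolynomial.eval₂_X]
    rfl
  have hB1 : B (MvPolynomial.X 1) = r := by
    rw [MvPolynomial.coe_eval₂Hom, MvPolynomial.eval₂_X]
    rfl
  let E : (MvPolynomial (Fin 2) O)[X] →+* S := Polynomial.eval₂RingHom B x
  have hEC : ∀ a, E (C a) = B a := fun a => by
    simp only [E, Polynomial.coe_eval₂RingHom, Polynomial.eval₂_C]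
  have hEX : E X = x := by
    simp only [E, Polynomial.coe_eval₂RingHom, Polynomial.eval₂_X]
  have h1 := AuxTRel.eval_rel c h (Polynomial.eval₂RingHom E y)
  simp only [Polynomial.coe_eval₂RingHom, Polynomial.eval₂_C, Polynomial.eval₂_X] at h1
  rw [hEC, hEC, hEC, hEC, hBC, hBC, hB0, hB1, hEX, hW] at h1
  let L : (WC c h).toAffine.CoordinateRing →+* S := AdjoinRoot.lift E y h1
  have hL : ∀ q, L (AdjoinRoot.mk _ q) = q.eval₂ E y := fun q => AdjoinRoot.lift_mk h1 q
  refine ⟨L, fun a => ?_, ?_, ?_, ?_, ?_⟩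
  · change L (AdjoinRoot.mk _ (C (C (MvPolynomial.C a)))) = g a
    rw [hL, Polynomial.eval₂_C, hEC, hBC]
  · change L (AdjoinRoot.mk _ (C (C (MvPolynomial.X 0)))) = s
    rw [hL, Polynomial.eval₂_C, hEC, hB0]
  · change L (AdjoinRoot.mk _ (C (C (MvPolynomial.X 1)))) = r
    rw [hL, Polynomial.eval₂_C, hEC, hB1]
  · change L (AdjoinRoot.mk _ (C X)) = x
    rw [hL, Polynomial.eval₂_C, hEX]
  · change L (AdjoinRoot.mk _ X) = y
    rw [hL, Polynomial.eval₂_X]

theorem pr_TInd : StTInd := by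
  intro O _ c h P h1 h2 h3 h4 h5 h6 h7 z
  exact AuxTRel.ind c h P h1 h2 h3 h4 h5 h6 h7 z

end

end Pool.Agent.Work.MP_c5a777_ag.Sev

end

section

/-!
# Constants of the heptagon
-/

namespace Pool.Agent.Work.MP_c5a777_ag.Sev

section

variable {K : Type*} [CommRing K] {z h : K}

theorem z_seven (hz : z ^ 6 + z ^ 5 + z ^ 4 + z ^ 3 + z ^ 2 + z + 1 = 0) : z ^ 7 = 1 := by
  linear_combination (z - 1) * hz

theorem rel_of_z (hz : z ^ 6 + z ^ 5 + z ^ 4 + z ^ 3 + z ^ 2 + z + 1 = 0) (hh : h = z + z ^ 6) :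
    h ^ 3 + h ^ 2 - 2 * h - 1 = 0 := by
  subst hh
  linear_combination (z^12 - z^11 + 3*z^7 - 2*z^6 - z^4 + 3*z^2 - z - 1) * hz

theorem tau_16 (hz : z ^ 6 + z ^ 5 + z ^ 4 + z ^ 3 + z ^ 2 + z + 1 = 0)
    (hh : h = z + z ^ 6) : tau (z ^ 5) 1 6 = (z ^ 6 - z) ^ 3 * h := by
  subst hh
  unfold tau
  linear_combination (z^59 - z^58 - z^54 + z^53 + z^52 - z^51 - z^47 + z^46 + z^45 - z^44 -
    z^40 + z^39 + z^38 - z^37 - z^34 + z^32 + z^31 - z^30 - z^27 + z^25 + 2*z^24 - 2*z^23 - z^20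
    + 3*z^17 - 2*z^16 + z^13 - 2*z^12 + 3*z^10 - 2*z^9 + z^6 - 2*z^5 + z^4) * hz

theorem tau_25 (hz : z ^ 6 + z ^ 5 + z ^ 4 + z ^ 3 + z ^ 2 + z + 1 = 0)
    (hh : h = z + z ^ 6) : tau (z ^ 5) 2 5 = -((z ^ 6 - z) ^ 3 * h ^ 2 * (h ^ 2 - 1)) := by
  subst hh
  unfold tau
  linear_combination (z^54 - z^53 + z^47 - z^46 - z^44 + z^43 + z^40 - 2*z^39 + z^38 - z^37 +
    2*z^36 - z^35 + z^33 - 2*z^32 + 2*z^31 - 2*z^30 + 2*z^29 - z^28 - 2*z^26 + z^25 + z^24 -
    z^23 + 2*z^22 - 4*z^21 + 3*z^20 - z^18 + z^17 + 2*z^16 - z^15 - z^14 + 2*z^11 - 2*z^10 + z^8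
    - z^7 - z^6 + z^5) * hz

theorem tau_34 (hz : z ^ 6 + z ^ 5 + z ^ 4 + z ^ 3 + z ^ 2 + z + 1 = 0)
    (hh : h = z + z ^ 6) : tau (z ^ 5) 3 4 = -((z ^ 6 - z) ^ 3 * (h ^ 2 - 1) ^ 2) := by
  subst hh
  unfold tau
  linear_combination (z^49 - z^48 - z^44 + z^43 + z^42 - z^41 - z^37 + 2*z^36 - 2*z^34 + z^33
    + z^31 - 2*z^30 + 2*z^29 - 2*z^27 - 2*z^26 + 3*z^25 - z^23 + 2*z^22 - 3*z^21 + z^20 + z^18 +
    2*z^16 - z^15 + 2*z^14 - 4*z^13 + z^12 + 3*z^11 - 3*z^10 - 3*z^9 + 4*z^8 - z^7 - 2*z^6 +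
    2*z^5 + z^4 - z^3) * hz

theorem tau_12 (hz : z ^ 6 + z ^ 5 + z ^ 4 + z ^ 3 + z ^ 2 + z + 1 = 0)
    (hh : h = z + z ^ 6) : tau (z ^ 5) 1 2 = z * ((z ^ 6 - z) ^ 3 * h) := by
  subst hh
  unfold tau
  linear_combination (0) * hz

theorem tau_46 (hz : z ^ 6 + z ^ 5 + z ^ 4 + z ^ 3 + z ^ 2 + z + 1 = 0)
    (hh : h = z + z ^ 6) : tau (z ^ 5) 4 6 = z * ((z ^ 6 - z) ^ 3 * h * (h ^ 2 - 1)) := by
  subst hh
  unfold tau
  linear_combination (z^74 - z^73 + z^67 - z^66 - z^64 + z^63 + z^60 - z^59 - z^57 + z^56 -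
    z^54 + 2*z^53 - z^52 - z^50 + z^49 - z^47 + 2*z^46 - z^45 - z^43 + z^42 - z^40 + 2*z^39 -
    z^38 - z^36 + z^35 + z^34 - 2*z^33 + 2*z^32 - 2*z^31 + z^30 - z^29 + z^28 + z^27 - 2*z^26 +
    2*z^25 - z^24 - z^22 + 4*z^21 - 2*z^20 - z^19 + z^18 - z^17 - z^15 + z^14 + z^13 - z^12 -
    2*z^11 + 2*z^10 - z^8 + z^7 + z^6 - z^5) * hz

theorem tau_13 (hz : z ^ 6 + z ^ 5 + z ^ 4 + z ^ 3 + z ^ 2 + z + 1 = 0)
    (hh : h = z + z ^ 6) : tau (z ^ 5) 1 3 = z ^ 6 * ((z ^ 6 - z) ^ 3 * h * (h ^ 2 - 1)) := by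
  subst hh
  unfold tau
  linear_combination (-z^36 + z^35 + 3*z^26 - 3*z^25 - 3*z^16 + 3*z^15 + z^6 - z^5) * hz

theorem tau_56 (hz : z ^ 6 + z ^ 5 + z ^ 4 + z ^ 3 + z ^ 2 + z + 1 = 0)
    (hh : h = z + z ^ 6) : tau (z ^ 5) 5 6 = z ^ 6 * ((z ^ 6 - z) ^ 3 * h) := by
  subst hh
  unfold tau
  linear_combination (z^79 - z^78 - z^74 + z^73 + z^72 - z^71 - z^67 + z^66 + z^65 - z^64 -
    z^60 + z^59 + z^58 - z^57 - z^54 + z^52 + z^51 - z^50 - z^47 + z^45 + 2*z^44 - 2*z^43 - z^40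
    + z^38 + 2*z^37 - 2*z^36 - z^33 + z^31 + 2*z^30 - 2*z^29 - z^26 + z^24 + 2*z^23 - 2*z^22 -
    z^18 + z^17 + 2*z^16 - 2*z^15 - z^11 + z^10) * hz

theorem tau_26 (hz : z ^ 6 + z ^ 5 + z ^ 4 + z ^ 3 + z ^ 2 + z + 1 = 0)
    (hh : h = z + z ^ 6) : tau (z ^ 5) 2 6 = z ^ 5 * ((z ^ 6 - z) ^ 3 * h * (h ^ 2 - 1)) := by
  subst hh
  unfold tau
  linear_combination (z^64 - z^63 + z^57 - z^56 - z^54 + z^53 + z^50 - z^49 - z^47 + z^46 -
    z^44 + 2*z^43 - z^42 - z^40 + z^39 - z^37 + 2*z^36 - 2*z^35 + z^34 - z^33 + z^32 - z^30 +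
    2*z^29 - 2*z^28 + z^27 - z^26 + 4*z^25 - 2*z^24 - z^23 + z^22 - 2*z^21 + z^20 - z^19 +
    2*z^18 - z^16 - 2*z^15 + 2*z^14 - z^12 + 2*z^11 - z^9) * hz

theorem tau_35 (hz : z ^ 6 + z ^ 5 + z ^ 4 + z ^ 3 + z ^ 2 + z + 1 = 0)
    (hh : h = z + z ^ 6) : tau (z ^ 5) 3 5 = -(z ^ 5 * ((z ^ 6 - z) ^ 3 * h ^ 2 * (h ^ 2 - 1))) := by
  subst hh
  unfold tau
  linear_combination (z^59 - z^58 + z^52 - z^51 - z^49 + z^48 + z^45 - 2*z^44 + z^43 - z^42 +
    2*z^41 - z^40 + z^38 - 2*z^37 + 2*z^36 - 2*z^35 + 2*z^34 - z^33 - 2*z^31 + z^30 + z^29 -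
    z^28 + 2*z^27 - 4*z^26 + 3*z^25 - z^23 + z^22 + 2*z^21 - z^20 - z^19 + 2*z^16 - 2*z^15 +
    z^13 - z^12 - z^11 + z^10) * hz

theorem tau_15 (hz : z ^ 6 + z ^ 5 + z ^ 4 + z ^ 3 + z ^ 2 + z + 1 = 0)
    (hh : h = z + z ^ 6) : tau (z ^ 5) 1 5 = z ^ 2 * ((z ^ 6 - z) ^ 3 * h * (h ^ 2 - 1)) := by
  subst hh
  unfold tau
  linear_combination (z^49 - z^48 - z^44 + z^43 + z^42 - z^41 - z^37 + z^36 + z^35 - z^34 -
    z^32 + z^31 - z^30 + 2*z^28 - z^27 - z^25 + z^24 - z^23 + 3*z^22 - z^21 - 2*z^18 + z^17 -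
    z^16 + z^15 + z^14 - 3*z^12 + z^11 + z^10 - z^9 + z^8 + z^7 - z^5) * hz

theorem tau_24 (hz : z ^ 6 + z ^ 5 + z ^ 4 + z ^ 3 + z ^ 2 + z + 1 = 0)
    (hh : h = z + z ^ 6) : tau (z ^ 5) 2 4 = -(z ^ 2 * ((z ^ 6 - z) ^ 3 * h ^ 2 * (h ^ 2 - 1))) := by
  subst hh
  unfold tau
  linear_combination (z^44 - z^43 + z^38 - z^36 - 2*z^34 + 3*z^33 - z^32 + z^31 - z^29 -
    3*z^28 + z^27 + 2*z^26 + z^24 - 3*z^23 + 2*z^22 - 2*z^21 + 2*z^19 + 3*z^18 - 2*z^17 - z^16 +
    z^13 - z^12 + z^11 - z^9 - z^8 + z^7) * hz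

theorem tau_36 (hz : z ^ 6 + z ^ 5 + z ^ 4 + z ^ 3 + z ^ 2 + z + 1 = 0)
    (hh : h = z + z ^ 6) : tau (z ^ 5) 3 6 = -(z ^ 3 * ((z ^ 6 - z) ^ 3 * (h ^ 2 - 1) ^ 2)) := by
  subst hh
  unfold tau
  linear_combination (z^69 - z^68 + z^62 - z^61 + z^55 - 3*z^54 + 2*z^53 + z^48 - 3*z^47 +
    2*z^46 + z^41 - 3*z^40 + 3*z^39 - z^38 + 2*z^34 - 4*z^33 + 3*z^32 - z^31 - 3*z^29 + 3*z^28 -
    2*z^26 + 3*z^25 - 2*z^24 + z^23 - z^22 + z^21 + z^19 + 2*z^17 - 3*z^16 + 3*z^14 - 3*z^13 -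
    3*z^12 + 4*z^11 - z^10 - 2*z^9 + 2*z^8 + z^7 - z^6) * hz

theorem tau_45 (hz : z ^ 6 + z ^ 5 + z ^ 4 + z ^ 3 + z ^ 2 + z + 1 = 0)
    (hh : h = z + z ^ 6) : tau (z ^ 5) 4 5 = z ^ 3 * ((z ^ 6 - z) ^ 3 * h * (h ^ 2 - 1)) := by
  subst hh
  unfold tau
  linear_combination (z^64 - z^63 - z^59 + z^58 + z^57 - z^56 - z^52 + z^51 + z^50 - z^49 -
    z^45 + 2*z^43 - z^42 - z^38 + 2*z^36 - z^35 + z^34 - 2*z^33 + z^32 - z^31 + 2*z^29 - z^28 +
    z^27 - 2*z^26 + z^25 - z^24 + 3*z^23 - z^22 - z^19 - z^17 + z^16 + z^15 - z^14 - 2*z^13 +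
    2*z^12 - z^10 + z^9 + z^8 - z^7) * hz

theorem tau_14 (hz : z ^ 6 + z ^ 5 + z ^ 4 + z ^ 3 + z ^ 2 + z + 1 = 0)
    (hh : h = z + z ^ 6) : tau (z ^ 5) 1 4 = -(z ^ 4 * ((z ^ 6 - z) ^ 3 * (h ^ 2 - 1) ^ 2)) := by
  subst hh
  unfold tau
  linear_combination (z^40 - z^38 + z^35 - 2*z^34 + 2*z^33 - z^31 - 3*z^30 + 3*z^29 - z^28 +
    2*z^26 - 3*z^25 + z^24 + z^22 - z^21 + 3*z^20 - z^19 + z^18 - 3*z^17 + z^16 + 3*z^15 -
    3*z^14 - 2*z^13 + 3*z^12 - 2*z^11 - z^10 + 2*z^9 + z^8 - z^7 + z^6 - z^5) * hz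

theorem tau_23 (hz : z ^ 6 + z ^ 5 + z ^ 4 + z ^ 3 + z ^ 2 + z + 1 = 0)
    (hh : h = z + z ^ 6) : tau (z ^ 5) 2 3 = z ^ 4 * ((z ^ 6 - z) ^ 3 * h * (h ^ 2 - 1)) := by
  subst hh
  unfold tau
  linear_combination (-z^29 + z^28 + 2*z^24 - 2*z^23 - 2*z^14 + 2*z^13 + z^9 - z^8) * hz

theorem h_k (hz : z ^ 6 + z ^ 5 + z ^ 4 + z ^ 3 + z ^ 2 + z + 1 = 0)
    (hh : h = z + z ^ 6) : h ^ 2 - (h ^ 2 - 1) ^ 2 = h := by
  have hr := rel_of_z hz hh
  linear_combination (1 - h) * hr

theorem s1_sq (hz : z ^ 6 + z ^ 5 + z ^ 4 + z ^ 3 + z ^ 2 + z + 1 = 0)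
    (hh : h = z + z ^ 6) : (z ^ 6 - z) ^ 2 = h ^ 2 - 4 := by
  have h7 := z_seven hz
  subst hh
  linear_combination (-4) * h7

end

end Pool.Agent.Work.MP_c5a777_ag.Sev

end

section

/-!
# The field obtained by adjoining a seventh root
-/

set_option autoImplicit false

namespace Pool.Agent.Work.MP_c5a777_ag.Sev

open Polynomial

namespace AuxAdj

theorem fix {F K : Type} [Field F] [Field K] [Algebra F K] (h : (Module.finrank F K).Prime)
    (σ : K ≃ₐ[F] K) (s : K) (hs : σ s ≠ s) (x : K) (hx : σ x = x) :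
    ∃ y : F, algebraMap F K y = x := by
  let E : IntermediateField F K :=
    { carrier := {x | σ x = x}
      mul_mem' := fun {a b} ha hb => by
        simp only [Set.mem_ofPred_eq] at ha hb ⊢
        rw [map_mul, ha, hb]
      add_mem' := fun {a b} ha hb => by
        simp only [Set.mem_ofPred_eq] at ha hb ⊢
        rw [map_add, ha, hb]
      algebraMap_mem' := fun y => by
        simp only [Set.mem_ofPred_eq]
        exact σ.commutes y
      inv_mem' := fun a ha => by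
        simp only [Set.mem_ofPred_eq] at ha ⊢
        rw [map_inv₀, ha] }
  have := IntermediateField.isSimpleOrder_of_finrank_prime F K h
  rcases eq_bot_or_eq_top E with hE | hE
  · have h1 : x ∈ E := hx
    rw [hE, IntermediateField.mem_bot] at h1
    exact h1
  · exfalso
    have h1 : s ∈ E := by rw [hE]; trivial
    exact hs h1

theorem trdeg {F K : Type} [Field F] [Field K] [Algebra ℂ F] [Algebra ℂ K] [Algebra F K]
    [IsScalarTower ℂ F K] [FiniteDimensional F K] : Algebra.trdeg ℂ K = Algebra.trdeg ℂ F := by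
  have h := trdeg_add_eq ℂ F (A := K)
  rw [trdeg_eq_zero (R := F), add_zero] at h
  exact h.symm

theorem main {F : Type} [Field F] [Algebra ℂ F] (u : F) (hu0 : u ≠ 0)
    [Fact (Irreducible (X ^ 7 - C u))] (z0 : ℂ) (hz0 : IsPrimitiveRoot z0 7) :
    ∃ (σ : AdjoinRoot (X ^ 7 - C u) ≃ₐ[F] AdjoinRoot (X ^ 7 - C u))
      (s : AdjoinRoot (X ^ 7 - C u)), s ^ 7 = algebraMap F _ u ∧
      σ s = algebraMap ℂ _ (z0 ^ 2) * s ∧
      (∀ x, σ x = x → ∃ y : F, algebraMap F _ y = x) ∧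
      (∀ E : Subfield (AdjoinRoot (X ^ 7 - C u)), s ∈ E → (∀ x : F, algebraMap F _ x ∈ E) →
        E = ⊤) ∧
      Algebra.trdeg ℂ (AdjoinRoot (X ^ 7 - C u)) = Algebra.trdeg ℂ F := by
  have hirr : Irreducible (X ^ 7 - C u) := Fact.out
  have hne : (X ^ 7 - C u) ≠ 0 := hirr.ne_zero
  have hdim : Module.finrank F (AdjoinRoot (X ^ 7 - C u)) = 7 := by
    rw [(AdjoinRoot.powerBasis hne).finrank, AdjoinRoot.powerBasis_dim, natDegree_X_pow_sub_C]
  have hfin : FiniteDimensional F (AdjoinRoot (X ^ 7 - C u)) :=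
    (AdjoinRoot.powerBasis hne).finite
  have hroot : (AdjoinRoot.root (X ^ 7 - C u)) ^ 7 = algebraMap F _ u := by
    have := root_X_pow_sub_C_pow 7 u
    rw [this]
    rfl
  have hζ0 : IsPrimitiveRoot (z0 ^ 2) 7 := hz0.pow_of_coprime 2 (by norm_num)
  have hζ : IsPrimitiveRoot (algebraMap ℂ F (z0 ^ 2)) 7 :=
    hζ0.map_of_injective (algebraMap ℂ F).injective
  let η : rootsOfUnity 7 F := hζ.toRootsOfUnity
  have hσ : autAdjoinRootXPowSubC 7 u η (AdjoinRoot.root _) =
      algebraMap ℂ _ (z0 ^ 2) * AdjoinRoot.root (X ^ 7 - C u) := by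
    rw [autAdjoinRootXPowSubC_root, Algebra.smul_def]
    rw [IsScalarTower.algebraMap_apply ℂ F (AdjoinRoot (X ^ 7 - C u))]
    rfl
  refine ⟨autAdjoinRootXPowSubC 7 u η, AdjoinRoot.root _, hroot, hσ, ?_, ?_, ?_⟩
  · intro x hx
    refine fix (by rw [hdim]; norm_num) _ (AdjoinRoot.root (X ^ 7 - C u)) ?_ x hx
    rw [hσ]
    intro h
    have hs0 : AdjoinRoot.root (X ^ 7 - C u) ≠ 0 := by
      intro h0
      rw [h0, zero_pow (by norm_num), eq_comm, map_eq_zero] at hroot
      exact hu0 hroot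
    have h1 : algebraMap ℂ (AdjoinRoot (X ^ 7 - C u)) (z0 ^ 2) = 1 :=
      mul_right_cancel₀ hs0 (by rw [h, one_mul])
    have h2 : z0 ^ 2 = 1 := (algebraMap ℂ (AdjoinRoot (X ^ 7 - C u))).injective
      (by rw [h1, map_one])
    exact absurd (hζ0.eq_orderOf.trans (by rw [h2, orderOf_one])) (by norm_num)
  · intro E hs hF
    rw [eq_top_iff]
    intro x _
    have hx : x ∈ Algebra.adjoin F ({AdjoinRoot.root (X ^ 7 - C u)} : Set _) := by
      rw [AdjoinRoot.adjoinRoot_eq_top]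
      trivial
    induction hx using Algebra.adjoin_induction with
    | mem x hx => rw [Set.mem_singleton_iff.1 hx]; exact hs
    | algebraMap r => exact hF r
    | add x y _ _ h1 h2 => exact E.add_mem (h1 trivial) (h2 trivial)
    | mul x y _ _ h1 h2 => exact E.mul_mem (h1 trivial) (h2 trivial)
  · exact trdeg

end AuxAdj

theorem pr_Adj : StAdj := by
  intro F _ _ u hu0 hu z0 hz0
  have hirr : Irreducible (X ^ 7 - C u) := X_pow_sub_C_irreducible_of_prime (by norm_num) hu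
  have : Fact (Irreducible (X ^ 7 - C u)) := ⟨hirr⟩
  obtain ⟨σ, s, h⟩ := AuxAdj.main u hu0 z0 hz0
  exact ⟨AdjoinRoot (X ^ 7 - C u), inferInstance, inferInstance, inferInstance, inferInstance,
    σ, s, h⟩

end Pool.Agent.Work.MP_c5a777_ag.Sev

end

section

/-!
# MP_c5a777_ag, block Sev, item DerEx: derivations detect transcendental elements
-/

set_option autoImplicit false

namespace Pool.Agent.Work.MP_c5a777_ag.Sev

namespace AuxDerEx

open MvPolynomial

section
variable {k L ι : Type} [Field k] [Field L] [Algebra k L] {x : ι → L}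

/-- the derivation on the polynomial subalgebra with prescribed values -/
theorem der0 (hx : AlgebraicIndependent k x) (c : ι → L) :
    ∃ d : Derivation k (Algebra.adjoin k (Set.range x)) L,
      ∀ i, d ⟨x i, Algebra.subset_adjoin ⟨i, rfl⟩⟩ = c i := by
  let _ : Algebra (MvPolynomial ι k) L := (aeval x : MvPolynomial ι k →ₐ[k] L).toRingHom.toAlgebra
  have _ : IsScalarTower k (MvPolynomial ι k) L := IsScalarTower.of_algebraMap_eq fun r => by
    change algebraMap k L r = aeval x (algebraMap k (MvPolynomial ι k) r)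
    rw [AlgHom.commutes]
  have hsm : ∀ (p : MvPolynomial ι k) (l : L), p • l = aeval x p * l := fun p l => by
    rw [Algebra.smul_def]
    rfl
  refine ⟨Derivation.mk' ((mkDerivation k c).toLinearMap ∘ₗ hx.aevalEquiv.symm.toLinearMap) ?_, ?_⟩
  · intro a b
    have h1 : ∀ a : Algebra.adjoin k (Set.range x), aeval x (hx.aevalEquiv.symm a) = (a : L) := by
      intro a
      rw [← hx.algebraMap_aevalEquiv, AlgEquiv.apply_symm_apply]
      rfl
    change mkDerivation k c (hx.aevalEquiv.symm (a * b)) =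
      a • mkDerivation k c (hx.aevalEquiv.symm b) + b • mkDerivation k c (hx.aevalEquiv.symm a)
    rw [map_mul, Derivation.leibniz, hsm, hsm, h1, h1]
    rfl
  · intro i
    change mkDerivation k c (hx.aevalEquiv.symm ⟨x i, Algebra.subset_adjoin ⟨i, rfl⟩⟩) = c i
    have h2 : hx.aevalEquiv (X i) = ⟨x i, Algebra.subset_adjoin ⟨i, rfl⟩⟩ := by
      apply Subtype.ext
      change algebraMap (Algebra.adjoin k (Set.range x)) L (hx.aevalEquiv (X i)) = x i
      rw [hx.algebraMap_aevalEquiv, aeval_X]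
    rw [← h2, AlgEquiv.symm_apply_apply, mkDerivation_X]

open scoped IntermediateField.algebraAdjoinAdjoin in
theorem etale [CharZero k] (hx : IsTranscendenceBasis k x) :
    Algebra.FormallyEtale (Algebra.adjoin k (Set.range x)) L := by
  have h1 : Algebra.FormallyEtale (Algebra.adjoin k (Set.range x))
      (IntermediateField.adjoin k (Set.range x)) :=
    Algebra.FormallyEtale.of_isLocalization (nonZeroDivisors (Algebra.adjoin k (Set.range x)))
  have h2 : Algebra.IsAlgebraic (IntermediateField.adjoin k (Set.range x)) L :=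
    hx.isAlgebraic_field
  have h0 : CharZero (IntermediateField.adjoin k (Set.range x)) :=
    charZero_of_injective_algebraMap (algebraMap k _).injective
  have h4 : Algebra.FormallyEtale (IntermediateField.adjoin k (Set.range x)) L :=
    Algebra.FormallyEtale.of_isSeparable _ L
  exact Algebra.FormallyEtale.comp _ (IntermediateField.adjoin k (Set.range x)) _

/-- derivations with prescribed values on a transcendence basis -/
theorem key [CharZero k] (hx : IsTranscendenceBasis k x) (c : ι → L) :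
    ∃ D : Derivation k L L, ∀ i, D (x i) = c i := by
  obtain ⟨d, hd⟩ := der0 hx.1 c
  have _ := etale hx
  let e := KaehlerDifferential.tensorKaehlerEquivOfFormallyEtale k
    (Algebra.adjoin k (Set.range x)) L
  let g := (d.liftKaehlerDifferential).liftBaseChange L
  refine ⟨(g ∘ₗ e.symm.toLinearMap).compDer (KaehlerDifferential.D k L), fun i => ?_⟩
  have h1 : (x i : L) = algebraMap (Algebra.adjoin k (Set.range x)) L
    ⟨x i, Algebra.subset_adjoin ⟨i, rfl⟩⟩ := rfl
  change g (e.symm (KaehlerDifferential.D k L (x i))) = c i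
  rw [h1, KaehlerDifferential.tensorKaehlerEquivOfFormallyEtale_symm_D_algebraMap]
  change (d.liftKaehlerDifferential).liftBaseChange L _ = c i
  rw [LinearMap.liftBaseChange_one_tmul, Derivation.liftKaehlerDifferential_comp_D, hd]

end

/-- derivations with prescribed values on an independent set -/
theorem key' {k L : Type} [Field k] [Field L] [Algebra k L] [CharZero k] {s : Set L}
    (hs : AlgebraicIndepOn k id s) (c : L → L) : ∃ D : Derivation k L L, ∀ y ∈ s, D y = c y := by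
  obtain ⟨t, hst, ht⟩ := exists_isTranscendenceBasis_superset hs
  obtain ⟨D, hD⟩ := key ht (fun y => c y)
  exact ⟨D, fun y hy => hD ⟨y, hst hy⟩⟩


theorem alg {k L : Type} [Field k] [Field L] [Algebra k L] [CharZero k]
    (D : Derivation k L L) {x : L} (hx : IsAlgebraic k x) : D x = 0 := by
  have h1 := D.map_aeval (minpoly k x) x
  rw [minpoly.aeval, map_zero] at h1
  have hs : (minpoly k x).Separable := (minpoly.irreducible hx.isIntegral).separable
  have h2 : Polynomial.aeval x (Polynomial.derivative (minpoly k x)) ≠ 0 :=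
    hs.aeval_derivative_ne_zero (minpoly.aeval k x)
  rcases smul_eq_zero.1 h1.symm with h | h
  · exact absurd h h2
  · exact h

/-- a derivation which kills `E` is `E`-linear -/
theorem lin {K : Type} [Field K] (D : Derivation ℤ K K) (E : Subfield K)
    (h : ∀ x ∈ E, D x = 0) : ∃ D' : Derivation E K K, ∀ x, D' x = D x := by
  refine ⟨Derivation.mk' { toFun := D, map_add' := D.map_add, map_smul' := fun c x => ?_ } ?_, ?_⟩
  · have h1 : (c • x : K) = (c : K) * x := rfl
    rw [h1, Derivation.leibniz, h _ c.2, smul_zero, add_zero]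
    rfl
  · intro a b
    exact D.leibniz a b
  · intro x
    rfl

theorem ch {K : Type} [Field K] [CharZero K] (E : Subfield K) : CharZero E :=
  ⟨fun m n h => by
    have h1 : ((m : E) : K) = ((n : E) : K) := congrArg _ h
    have h2 : ((m : ℕ) : K) = ((n : ℕ) : K) := by
      simpa using h1
    exact Nat.cast_injective h2⟩

end AuxDerEx

open AuxDerEx

theorem pr_DerEx : StDerEx := by
  intro K _ _ E hE b hb
  have h0 : CharZero E := ch E
  have hc : Transcendental E b := fun h => hb (hE b h)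
  have hind : AlgebraicIndependent E ![b] := algebraicIndependent_iff_transcendental.2 hc
  have hs : AlgebraicIndepOn E id (Set.range ![b]) := hind.coe_range
  obtain ⟨D, hD⟩ := key' hs (fun _ => 1)
  refine ⟨D.restrictScalars ℤ, fun x hx => ?_, ?_⟩
  · exact D.map_algebraMap (⟨x, hx⟩ : E)
  · have h1 : D b = 1 := hD b ⟨0, rfl⟩
    change D b ≠ 0
    rw [h1]
    exact one_ne_zero

theorem pr_DerAlg : StDerAlg := by
  intro K _ _ D E h x hx
  have h0 : CharZero E := ch E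
  obtain ⟨D', hD'⟩ := lin D E h
  rw [← hD']
  exact alg D' hx

end Pool.Agent.Work.MP_c5a777_ag.Sev

end

section

/-!
# Nonvanishing of the auxiliary elements at the generic point
-/

set_option autoImplicit false

namespace Pool.Agent.Work.MP_c5a777_ag.Sev

namespace AuxGen

abbrev MP2 := MvPolynomial (Fin 2) ℂ
abbrev KK := FractionRing MP2

/-- A polynomial which does not vanish at one point is not zero in the fraction field. -/
theorem ne_of_eval (p : MP2) (a b : ℂ) (hp : MvPolynomial.eval ![a, b] p ≠ 0) :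
    algebraMap MP2 KK p ≠ 0 := by
  intro h
  have h0 : p = 0 := (IsFractionRing.injective MP2 KK) (h.trans (map_zero _).symm)
  apply hp
  rw [h0, map_zero]

/-- A polynomial in three variables at the point `h, m, e`. -/
theorem alg_C (h0 : ℂ) : algebraMap ℂ KK h0 = algebraMap MP2 KK (MvPolynomial.C h0) := by
  rw [IsScalarTower.algebraMap_apply ℂ MP2 KK h0]
  rfl

/-- The numerator of the denominator of `n`. -/
def PP {R : Type} [CommRing R] (h m e : R) : R :=
  e * (h ^ 2 - m) ^ 2 * h + (h ^ 2 - 1) ^ 3 * m * (1 + h * e) * (m * e + h)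

/-- The numerator of `n`. -/
def NN {R : Type} [CommRing R] (h m : R) : R := h * m + (h ^ 2 - 1) ^ 3 * m - (h ^ 2 - 1) ^ 2

theorem map_PP {R S : Type} [CommRing R] [CommRing S] (f : R →+* S) (h m e : R) :
    f (PP h m e) = PP (f h) (f m) (f e) := by
  unfold PP
  simp only [map_add, map_sub, map_mul, map_pow, map_one]

theorem map_NN {R S : Type} [CommRing R] [CommRing S] (f : R →+* S) (h m : R) :
    f (NN h m) = NN (f h) (f m) := by
  unfold NN
  simp only [map_add, map_sub, map_mul, map_pow, map_one]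

theorem den_eq {k : Type} [Field k] (h m e : k) (he : e ≠ 0) (hD : h ^ 2 - m ≠ 0) :
    h + (h ^ 2 - 1) ^ 3 * m * (1 + h * e) * (m + h / e) / (h ^ 2 - m) ^ 2 =
      PP h m e / (e * (h ^ 2 - m) ^ 2) := by
  unfold PP
  field_simp

theorem nn_eq {k : Type} [Field k] (h m e : k) (he : e ≠ 0) (hD : h ^ 2 - m ≠ 0) :
    nn h m e = NN h m * (e * (h ^ 2 - m) ^ 2) / PP h m e := by
  unfold nn
  rw [den_eq h m e he hD, div_div_eq_mul_div]
  rfl

end AuxGen

open AuxGen in
theorem pr_Gen (h1 : StConst) : StGen := by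
  intro h0 hr h m e hh hm he
  obtain ⟨-, c1, c2, -, -, c3⟩ := h1 ℂ h0 hr
  have hR : h0 ^ 3 + h0 ^ 2 - 2 * h0 - 1 = 0 := hr
  have c4 : h0 - (h0 ^ 2 - 1) ^ 3 ≠ 0 := by
    intro h
    have : (h0 - (h0 ^ 2 - 1) ^ 3) * (14 - 3 * h0 - 6 * h0 ^ 2) = 1 := by
      linear_combination (6 * h0 ^ 5 - 3 * h0 ^ 4 - 17 * h0 ^ 3 + 8 * h0 ^ 2 + 15 * h0 - 13) * hR
    rw [h, zero_mul] at this
    exact zero_ne_one this
  have hC : h = algebraMap MP2 KK (MvPolynomial.C h0) := hh.trans (alg_C h0)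
  have hh' : h ≠ 0 := by
    rw [hh]
    exact (map_ne_zero _).2 c1
  -- general principle
  have key : ∀ (F : ∀ (R : Type) [CommRing R], R → R → R → R),
      (∀ (R S : Type) [CommRing R] [CommRing S] (f : R →+* S) (x y z : R),
        f (F R x y z) = F S (f x) (f y) (f z)) →
      ∀ b : ℂ, F ℂ h0 0 b ≠ 0 → F KK h m e ≠ 0 := by
    intro F hF b hb
    have h2 := ne_of_eval (F MP2 (MvPolynomial.C h0) (MvPolynomial.X 0) (MvPolynomial.X 1)) 0 b
      (by
        rw [hF MP2 ℂ]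
        simpa using hb)
    rw [hF MP2 KK, ← hC, ← hm, ← he] at h2
    exact h2
  have e1 : m ≠ 0 := by
    rw [hm]
    apply ne_of_eval _ 1 1
    simp
  have e2 : e ≠ 0 := by
    rw [he]
    apply ne_of_eval _ 1 1
    simp
  have e3 : h ^ 2 - m ≠ 0 := by
    apply key (fun R _ x y z => x ^ (2 : ℕ) - y) (by intros; simp) 0
    simpa using c1
  have e4 : PP h m e ≠ 0 := by
    apply key (fun R _ x y z => PP x y z) (by intros; exact map_PP _ _ _ _) (-1 / h0)
    have : PP h0 0 (-1 / h0) = -h0 ^ 4 := by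
      unfold PP
      field_simp
      ring
    rw [this]
    exact neg_ne_zero.2 (pow_ne_zero _ c1)
  have e5 : NN h m ≠ 0 := by
    apply key (fun R _ x y z => NN x y) (by intros; exact map_NN _ _ _) 0
    have : NN h0 0 = -(h0 ^ 2 - 1) ^ 2 := by
      unfold NN
      ring
    rw [this]
    exact neg_ne_zero.2 (pow_ne_zero _ c2)
  have e6 : nn h m e ≠ 0 := by
    rw [nn_eq h m e e2 e3]
    exact div_ne_zero (mul_ne_zero e5 (mul_ne_zero e2 (pow_ne_zero _ e3))) e4
  have e7 : h + (h ^ 2 - 1) ^ 3 * m * (1 + h * e) * (m + h / e) / (h ^ 2 - m) ^ 2 ≠ 0 := by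
    rw [den_eq h m e e2 e3]
    exact div_ne_zero e4 (mul_ne_zero e2 (pow_ne_zero _ e3))
  have e8 : 1 - (h ^ 2 - 1) * (m - nn h m e) ≠ 0 := by
    have hq : PP h m e - (h ^ 2 - 1) * m * PP h m e +
        (h ^ 2 - 1) * NN h m * (e * (h ^ 2 - m) ^ 2) ≠ 0 := by
      apply key (fun R _ x y z => PP x y z - (x ^ (2 : ℕ) - 1) * y * PP x y z +
        (x ^ (2 : ℕ) - 1) * NN x y * (z * (x ^ (2 : ℕ) - y) ^ (2 : ℕ)))
        (by intros; simp only [map_add, map_sub, map_mul, map_pow, map_one, map_PP, map_NN])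
        (-1 / h0)
      have : PP h0 0 (-1 / h0) - (h0 ^ 2 - 1) * 0 * PP h0 0 (-1 / h0) +
          (h0 ^ 2 - 1) * NN h0 0 * (-1 / h0 * (h0 ^ 2 - 0) ^ 2) =
          -h0 ^ 3 * (h0 - (h0 ^ 2 - 1) ^ 3) := by
        unfold PP NN
        field_simp
        ring
      rw [this]
      exact mul_ne_zero (neg_ne_zero.2 (pow_ne_zero _ c1)) c4
    have : 1 - (h ^ 2 - 1) * (m - nn h m e) = (PP h m e - (h ^ 2 - 1) * m * PP h m e +
        (h ^ 2 - 1) * NN h m * (e * (h ^ 2 - m) ^ 2)) / PP h m e := by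
      rw [nn_eq h m e e2 e3]
      field_simp
      ring
    rw [this]
    exact div_ne_zero hq e4
  have e9 : La h m e ≠ 0 := by
    have hq : PP h m e * (h ^ 2 - m) + NN h m * (e * (h ^ 2 - m) ^ 2) * (1 + h * e) ≠ 0 := by
      apply key (fun R _ x y z => PP x y z * (x ^ (2 : ℕ) - y) +
        NN x y * (z * (x ^ (2 : ℕ) - y) ^ (2 : ℕ)) * (1 + x * z))
        (by intros; simp only [map_add, map_sub, map_mul, map_pow, map_one, map_PP, map_NN])
        (-1 / h0)
      have : PP h0 0 (-1 / h0) * (h0 ^ 2 - 0) + NN h0 0 * (-1 / h0 * (h0 ^ 2 - 0) ^ 2) *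
          (1 + h0 * (-1 / h0)) = -h0 ^ 6 := by
        unfold PP NN
        field_simp
        ring
      rw [this]
      exact neg_ne_zero.2 (pow_ne_zero _ c1)
    have : La h m e = (PP h m e * (h ^ 2 - m) + NN h m * (e * (h ^ 2 - m) ^ 2) * (1 + h * e)) /
        (PP h m e * (h ^ 2 - m)) := by
      unfold La
      rw [nn_eq h m e e2 e3]
      field_simp
    rw [this]
    exact div_ne_zero hq (mul_ne_zero e4 e3)
  have e10 : C0 h ≠ 0 := by
    have : C0 h = algebraMap ℂ KK (C0 h0) := by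
      have h4 : algebraMap ℂ KK 4 = 4 := map_ofNat _ 4
      have h7 : algebraMap ℂ KK 7 = 7 := map_ofNat _ 7
      unfold C0
      rw [map_div₀, map_mul, map_mul, map_sub, map_sub, map_pow, map_one, h4, h7, ← hh]
    rw [this]
    apply (map_ne_zero _).2
    unfold C0
    exact div_ne_zero (mul_ne_zero (mul_ne_zero c3 c1) c2) (by norm_num)
  refine ⟨e1, e2, e3, e6, e7, e8, e9, ?_⟩
  unfold be dd
  exact div_ne_zero (mul_ne_zero (mul_ne_zero (mul_ne_zero (mul_ne_zero e10 hh') e2)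
    (pow_ne_zero _ e6)) (one_div_ne_zero e8)) e1

end Pool.Agent.Work.MP_c5a777_ag.Sev

end

section

/-!
# The element is not a seventh power
-/

set_option autoImplicit false

namespace Pool.Agent.Work.MP_c5a777_ag.Sev

namespace AuxNot7

variable {F : Type} [Field F]

/-- A polynomial `p + q X ^ n` with `q ≠ 0` as a rational function. -/
theorem deg_bin (p q : F) (hq : q ≠ 0) (n : ℕ) (hn : 0 < n) :
    (RatFunc.C p - RatFunc.C q * RatFunc.X ^ n : RatFunc F) ≠ 0 ∧
    RatFunc.intDegree (RatFunc.C p - RatFunc.C q * RatFunc.X ^ n : RatFunc F) = n := by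
  have e : (RatFunc.C p - RatFunc.C q * RatFunc.X ^ n : RatFunc F) =
      algebraMap (Polynomial F) (RatFunc F)
        (Polynomial.C p - Polynomial.C q * Polynomial.X ^ n) := by
    rw [map_sub, map_mul, map_pow, RatFunc.algebraMap_C, RatFunc.algebraMap_C,
      RatFunc.algebraMap_X]
  have hd : (Polynomial.C p - Polynomial.C q * Polynomial.X ^ n : Polynomial F).natDegree = n := by
    have h1 : (Polynomial.C p - Polynomial.C q * Polynomial.X ^ n : Polynomial F) =
        Polynomial.C (-q) * Polynomial.X ^ n + Polynomial.C p := by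
      rw [Polynomial.C_neg]
      ring
    rw [h1, Polynomial.natDegree_add_C, Polynomial.natDegree_C_mul_X_pow]
    exact neg_ne_zero.2 hq
  have h0 : (Polynomial.C p - Polynomial.C q * Polynomial.X ^ n : Polynomial F) ≠ 0 := by
    intro h
    rw [h, Polynomial.natDegree_zero] at hd
    omega
  refine ⟨?_, ?_⟩
  · rw [e]
    exact (map_ne_zero_iff _ (RatFunc.algebraMap_injective F)).2 h0
  · rw [e, RatFunc.intDegree_polynomial, hd]

theorem deg_pow (y : RatFunc F) (hy : y ≠ 0) (n : ℕ) :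
    RatFunc.intDegree (y ^ n) = n * RatFunc.intDegree y := by
  induction n with
  | zero => rw [pow_zero, RatFunc.intDegree_one]; simp
  | succ n ih =>
    rw [pow_succ, RatFunc.intDegree_mul (pow_ne_zero _ hy) hy, ih]
    push_cast
    ring

end AuxNot7

theorem pr_Not7 : StNot7 := by
  intro F0 _ a b c ha hc y h
  obtain ⟨h1, h2⟩ := AuxNot7.deg_bin b c hc 3 (by norm_num)
  obtain ⟨h3, h4⟩ := AuxNot7.deg_bin c a ha 4 (by norm_num)
  have hX : (RatFunc.X : RatFunc F0) ≠ 0 := RatFunc.X_ne_zero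
  have hX3 : (RatFunc.X ^ 3 : RatFunc F0) ≠ 0 := pow_ne_zero _ hX
  have hy : y ≠ 0 := by
    intro h0
    rw [h0, zero_pow (by norm_num)] at h
    exact (div_ne_zero h1 (mul_ne_zero hX3 h3)) h.symm
  have h5 := congrArg RatFunc.intDegree h
  rw [AuxNot7.deg_pow y hy, RatFunc.intDegree_div h1 (mul_ne_zero hX3 h3),
    RatFunc.intDegree_mul hX3 h3, AuxNot7.deg_pow _ hX, RatFunc.intDegree_X, h2, h4] at h5
  push_cast at h5
  omega

end Pool.Agent.Work.MP_c5a777_ag.Sev

end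

section

set_option autoImplicit false
set_option linter.unusedVariables false

namespace Pool.Agent.Work.MP_c5a777_ag.Sev

namespace AuxOmega

variable {K : Type} [Field K]

/-- The doubling case. -/
theorem dbl [CharZero K] (D : Derivation ℤ K K) (a4 x y w l x3 y3 : K) (h4 : D a4 = 0)
    (hy : y ≠ 0) (hl : 2 * y * l = 3 * x ^ 2 + a4) (h3 : x3 = l * l - x - x)
    (hy3 : y3 = -(l * (x3 - x) + y)) (hx : D x = 2 * y * w) (hY : D y = (3 * x ^ 2 + a4) * w) :
    D x3 = 2 * y3 * (2 * w) ∧ D y3 = (3 * x3 ^ 2 + a4) * (2 * w) := by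
  have e1 : y * l + y * l = x * x + x * x + x * x + a4 := by linear_combination hl
  have e2 := congrArg D e1
  simp only [map_add, Derivation.leibniz, smul_eq_mul, hx, hY, h4] at e2
  have e3 : D l = w * (6 * x - 2 * l ^ 2) := by
    have h2y : (2 * y) ≠ 0 := mul_ne_zero two_ne_zero hy
    apply mul_left_cancel₀ h2y
    linear_combination e2 + 2 * l * w * hl
  have e4 : D x3 = 2 * y3 * (2 * w) := by
    rw [h3]
    simp only [map_sub, Derivation.leibniz, smul_eq_mul, hx, e3]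
    rw [hy3, h3]
    ring
  refine ⟨e4, ?_⟩
  have e5 : D y3 = -((x3 - x) * D l + l * (D x3 - D x) + D y) := by
    rw [hy3]
    simp only [map_neg, map_add, map_sub, Derivation.leibniz, smul_eq_mul]
    ring
  rw [e5, e4, e3, hx, hY, hy3, h3]
  linear_combination (3 * w) * hl

/-- The chord case. -/
theorem chord (D : Derivation ℤ K K) (a4 a6 x1 y1 x2 y2 w1 w2 l x3 y3 : K) (h4 : D a4 = 0)
    (hne : x1 ≠ x2) (hc1 : y1 ^ 2 = x1 ^ 3 + a4 * x1 + a6) (hc2 : y2 ^ 2 = x2 ^ 3 + a4 * x2 + a6)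
    (hl : l * (x1 - x2) = y1 - y2) (h3 : x3 = l * l - x1 - x2)
    (hy3 : y3 = -(l * (x3 - x1) + y1)) (hx1 : D x1 = 2 * y1 * w1)
    (hY1 : D y1 = (3 * x1 ^ 2 + a4) * w1) (hx2 : D x2 = 2 * y2 * w2)
    (hY2 : D y2 = (3 * x2 ^ 2 + a4) * w2) :
    D x3 = 2 * y3 * (w1 + w2) ∧ D y3 = (3 * x3 ^ 2 + a4) * (w1 + w2) := by
  have hs : x1 - x2 ≠ 0 := sub_ne_zero.mpr hne
  have hS : l * (y1 + y2) = x1 ^ 2 + x1 * x2 + x2 ^ 2 + a4 := by
    apply mul_left_cancel₀ hs
    linear_combination (y1 + y2) * hl + hc1 - hc2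
  have e2 := congrArg D hl
  simp only [map_sub, Derivation.leibniz, smul_eq_mul, hx1, hx2, hY1, hY2] at e2
  have e3 : D l = w1 * (x1 - x3) + w2 * (x2 - x3) := by
    apply mul_left_cancel₀ hs
    rw [h3]
    linear_combination e2 + (w2 - w1) * hS + (w1 + w2) * l * hl
  have e4 : D x3 = 2 * y3 * (w1 + w2) := by
    rw [h3]
    simp only [map_sub, Derivation.leibniz, smul_eq_mul, hx1, hx2, e3]
    rw [hy3, h3]
    linear_combination (-2 * w2) * hl
  refine ⟨e4, ?_⟩
  have e5 : D y3 = -((x3 - x1) * D l + l * (D x3 - D x1) + D y1) := by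
    rw [hy3]
    simp only [map_neg, map_add, map_sub, Derivation.leibniz, smul_eq_mul]
    ring
  rw [e5, e4, e3, hx1, hY1, hy3, h3]
  linear_combination (2 * w1 + w2) * hS - (2 * w1 + w2) * l * hl

end AuxOmega

open WeierstrassCurve.Affine in
theorem pr_Omega : StOmega := by
  intro K _ _ _ D a4 a6 h4 h6 P Q w1 w2 hP hQ
  rcases P with _ | ⟨x1, y1, n1⟩
  · have h0 : w1 = 0 := hP
    have e : (Point.zero : (Wsh a4 a6).Point) + Q = Q := zero_add Q
    rw [h0, zero_add, e]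
    exact hQ
  rcases Q with _ | ⟨x2, y2, n2⟩
  · have h0 : w2 = 0 := hQ
    have e : (Point.some x1 y1 n1 : (Wsh a4 a6).Point) + Point.zero = Point.some x1 y1 n1 :=
      add_zero (Point.some x1 y1 n1 : (Wsh a4 a6).Point)
    rw [h0, add_zero, e]
    exact hP
  obtain ⟨hx1, hY1⟩ := hP
  obtain ⟨hx2, hY2⟩ := hQ
  have c1 : y1 ^ 2 = x1 ^ 3 + a4 * x1 + a6 := by
    have := ((Wsh a4 a6).equation_iff x1 y1).mp n1.1
    simp only [Wsh] at this
    linear_combination this
  have c2 : y2 ^ 2 = x2 ^ 3 + a4 * x2 + a6 := by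
    have := ((Wsh a4 a6).equation_iff x2 y2).mp n2.1
    simp only [Wsh] at this
    linear_combination this
  have hneg : ∀ x y : K, (Wsh a4 a6).negY x y = -y := by
    intro x y
    simp [negY, Wsh]
  by_cases hxx : x1 = x2
  · by_cases hyy : y1 = (Wsh a4 a6).negY x2 y2
    · rw [Point.add_of_Y_eq hxx hyy]
      have hyy2 : y1 = -y2 := by rw [hyy, hneg]
      have hw : w1 + w2 = 0 := by
        have hns := ((Wsh a4 a6).nonsingular_iff' x1 y1).mp n1
        have e1 : 2 * y1 * (w1 + w2) = 0 := by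
          have : D x1 = D x2 := by rw [hxx]
          rw [hx1, hx2] at this
          rw [hyy2] at this ⊢
          linear_combination this
        have e2 : (3 * x1 ^ 2 + a4) * (w1 + w2) = 0 := by
          have : D y1 = - D y2 := by rw [hyy2, map_neg]
          rw [hY1, hY2] at this
          rw [← hxx] at this
          linear_combination this
        rcases hns.2 with h | h
        · simp only [Wsh] at h
          rcases mul_eq_zero.mp e2 with h' | h'
          · exact absurd (by linear_combination -h') h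
          · exact h'
        · simp only [Wsh] at h
          rcases mul_eq_zero.mp e1 with h' | h'
          · exact absurd (by linear_combination h') h
          · exact h'
      exact hw
    · rw [Point.add_some (fun h => hyy h.2)]
      have hye : y1 = y2 := Y_eq_of_Y_ne n1.1 n2.1 hxx hyy
      subst hxx
      subst hye
      rw [hneg] at hyy
      have hy0 : y1 ≠ 0 := by
        intro h
        apply hyy
        rw [h, neg_zero]
      have hww : w1 = w2 := by
        have : 2 * y1 * w1 = 2 * y1 * w2 := by rw [← hx1, ← hx2]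
        exact mul_left_cancel₀ (mul_ne_zero two_ne_zero hy0) this
      subst hww
      have hl : 2 * y1 * (Wsh a4 a6).slope x1 x1 y1 y1 = 3 * x1 ^ 2 + a4 := by
        have hyy' : y1 ≠ (Wsh a4 a6).negY x1 y1 := by rw [hneg]; exact hyy
        rw [slope_of_Y_ne rfl hyy', hneg]
        simp only [Wsh]
        have h2 : y1 - -y1 ≠ 0 := by
          intro h
          apply hy0
          have : 2 * y1 = 0 := by linear_combination h
          exact (mul_eq_zero.mp this).resolve_left two_ne_zero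
        field_simp
        ring
      have := AuxOmega.dbl D a4 x1 y1 w1 ((Wsh a4 a6).slope x1 x1 y1 y1)
        ((Wsh a4 a6).addX x1 x1 ((Wsh a4 a6).slope x1 x1 y1 y1))
        ((Wsh a4 a6).addY x1 x1 y1 ((Wsh a4 a6).slope x1 x1 y1 y1)) h4 hy0 hl
        (by simp only [addX, Wsh]; ring)
        (by simp only [addY, negAddY, hneg]) hx1 hY1
      rw [← two_mul]
      exact this
  · rw [Point.add_some (fun h => hxx h.1)]
    have hl : (Wsh a4 a6).slope x1 x2 y1 y2 * (x1 - x2) = y1 - y2 := by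
      rw [slope_of_X_ne hxx]
      exact div_mul_cancel₀ _ (sub_ne_zero.mpr hxx)
    exact AuxOmega.chord D a4 a6 x1 y1 x2 y2 w1 w2 ((Wsh a4 a6).slope x1 x2 y1 y2)
        ((Wsh a4 a6).addX x1 x2 ((Wsh a4 a6).slope x1 x2 y1 y2))
        ((Wsh a4 a6).addY x1 x2 y1 ((Wsh a4 a6).slope x1 x2 y1 y2)) h4 hxx c1 c2 hl
        (by simp only [addX, Wsh]; ring)
        (by simp only [addY, negAddY, hneg]) hx1 hY1 hx2 hY2

end Pool.Agent.Work.MP_c5a777_ag.Sev

end

section

/-!
The action of an endomorphism of the field on the points of the curve (item PtMap).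
-/

set_option autoImplicit false

namespace Pool.Agent.Work.MP_c5a777_ag.Sev

namespace AuxPtMap

open WeierstrassCurve.Affine

variable {K : Type} [Field K] {σ : K →+* K} {W : WeierstrassCurve.Affine K}

theorem ns (hW : W.map σ = W) {x y : K} (h : W.Nonsingular x y) :
    W.Nonsingular (σ x) (σ y) := by
  have h1 := (W.map_nonsingular (f := σ) σ.injective x y).mpr h
  rw [hW] at h1
  exact h1

theorem ng (hW : W.map σ = W) (x y : K) : W.negY (σ x) (σ y) = σ (W.negY x y) := by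
  have h1 := map_negY (W' := W) σ x y
  rw [hW] at h1
  exact h1

theorem ax (hW : W.map σ = W) (x₁ x₂ l : K) :
    W.addX (σ x₁) (σ x₂) (σ l) = σ (W.addX x₁ x₂ l) := by
  have h1 := map_addX (W' := W) σ x₁ x₂ l
  rw [hW] at h1
  exact h1

theorem ay (hW : W.map σ = W) (x₁ x₂ y₁ l : K) :
    W.addY (σ x₁) (σ x₂) (σ y₁) (σ l) = σ (W.addY x₁ x₂ y₁ l) := by
  have h1 := map_addY (W' := W) σ x₁ y₁ x₂ l
  rw [hW] at h1
  exact h1

theorem sl [DecidableEq K] (hW : W.map σ = W) (x₁ x₂ y₁ y₂ : K) :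
    W.slope (σ x₁) (σ x₂) (σ y₁) (σ y₂) = σ (W.slope x₁ x₂ y₁ y₂) := by
  have h1 := map_slope (W := W) σ x₁ x₂ y₁ y₂
  rw [hW] at h1
  exact h1

/-- the map on points -/
def pm (hW : W.map σ = W) : W.Point → W.Point
  | .zero => .zero
  | .some x y h => .some (σ x) (σ y) (ns hW h)

theorem pm_add [DecidableEq K] (hW : W.map σ = W) (P Q : W.Point) :
    pm hW (P + Q) = pm hW P + pm hW Q := by
  rcases P with _ | ⟨x₁, y₁, h₁⟩
  · rfl
  rcases Q with _ | ⟨x₂, y₂, h₂⟩
  · rfl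
  by_cases hxy : x₁ = x₂ ∧ y₁ = W.negY x₂ y₂
  · rw [Point.add_of_Y_eq hxy.1 hxy.2]
    show _ = Point.some (σ x₁) (σ y₁) (ns hW h₁) + Point.some (σ x₂) (σ y₂) (ns hW h₂)
    rw [Point.add_of_Y_eq (congrArg σ hxy.1) (by rw [hxy.2, ng hW])]
    rfl
  · rw [Point.add_some hxy]
    show _ = Point.some (σ x₁) (σ y₁) (ns hW h₁) + Point.some (σ x₂) (σ y₂) (ns hW h₂)
    rw [Point.add_some (fun h => hxy ⟨σ.injective h.1, σ.injective (by rw [h.2, ng hW])⟩)]
    show Point.some (σ _) (σ _) _ = _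
    simp only [Point.some.injEq]
    rw [sl hW, ax hW, ay hW]
    exact ⟨rfl, rfl⟩

end AuxPtMap

theorem pr_PtMap : StPtMap := by
  intro K _ _ σ a4 a6 h4 h6
  have hW : (Wsh a4 a6).map σ = Wsh a4 a6 := by
    ext <;> simp [Wsh, h4, h6]
  exact ⟨⟨⟨AuxPtMap.pm hW, rfl⟩, AuxPtMap.pm_add hW⟩, fun x y hp => ⟨AuxPtMap.ns hW hp, rfl⟩⟩

end Pool.Agent.Work.MP_c5a777_ag.Sev

end

section

/-!
Three elements over which a field of transcendence degree three is algebraic are
algebraically independent.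
-/

set_option autoImplicit false

namespace Pool.Agent.Work.MP_c5a777_ag.Sev

namespace AuxTrdeg

open scoped IntermediateField.algebraAdjoinAdjoin in
theorem alg_adjoin {K : Type} [Field K] [Algebra ℂ K] (s : Set K)
    (h : Algebra.IsAlgebraic (IntermediateField.adjoin ℂ s) K) :
    Algebra.IsAlgebraic (Algebra.adjoin ℂ s) K :=
  (IsFractionRing.comap_isAlgebraic_iff (A := Algebra.adjoin ℂ s)
    (K := IntermediateField.adjoin ℂ s) (C := K)).mpr h

end AuxTrdeg

theorem pr_Trdeg : StTrdeg := by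
  intro K _ _ htr a b c halg
  have e : (({a, b, c} : Set K)) = Set.range ![a, b, c] := by
    ext x
    simp only [Set.mem_insert_iff, Set.mem_singleton_iff, Set.mem_range, Fin.exists_fin_succ,
      Fin.exists_fin_zero]
    simp [eq_comm]
  rw [e] at halg
  have := AuxTrdeg.alg_adjoin _ halg
  refine (Algebra.IsAlgebraic.isTranscendenceBasis_of_le_trdeg_of_finite ℂ ![a, b, c] ?_).1
  rw [htr]
  simp

end Pool.Agent.Work.MP_c5a777_ag.Sev

end
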