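import Pool.Agent.Work.MP_c5a777_ag.Bdx.B02
import Pool.Agent.Work.MP_c5a777_ag.Bdx.B01

/-! Bundle of small proof modules (one section per former module). -/

section

set_option autoImplicit false

/-!
# Corner areas and total area of the heptagon
-/

namespace Pool.Agent.Work.MP_c5a777_ag.Sev

namespace AuxCorner

section

variable {K : Type*} [CommRing K] {z h : K}

theorem sum_3 (hz : z ^ 6 + z ^ 5 + z ^ 4 + z ^ 3 + z ^ 2 + z + 1 = 0) :
    (z ^ 4) ^ 3 + (z ^ 2) ^ 3 + 1 ^ 3 + (z ^ 5) ^ 3 + (z ^ 3) ^ 3 + z ^ 3 + (z ^ 6) ^ 3 = 0 := by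
  linear_combination (z^12 - z^11 + z^9 - z^8 + z^6 - z^4 + z^3 - z + 1) * hz

theorem sum_4 (hz : z ^ 6 + z ^ 5 + z ^ 4 + z ^ 3 + z ^ 2 + z + 1 = 0) :
    (z ^ 4) ^ 4 + (z ^ 2) ^ 4 + 1 ^ 4 + (z ^ 5) ^ 4 + (z ^ 3) ^ 4 + z ^ 4 + (z ^ 6) ^ 4 = 0 := by
  linear_combination (z^18 - z^17 + z^14 - z^13 + z^11 - z^9 + z^7 - z^5 + z^4 - z + 1) * hz

theorem sum_5 (hz : z ^ 6 + z ^ 5 + z ^ 4 + z ^ 3 + z ^ 2 + z + 1 = 0) :
    (z ^ 4) ^ 5 + (z ^ 2) ^ 5 + 1 ^ 5 + (z ^ 5) ^ 5 + (z ^ 3) ^ 5 + z ^ 5 + (z ^ 6) ^ 5 = 0 := by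
  linear_combination (z^24 - z^23 + z^19 - z^18 + z^17 - z^16 + z^14 - z^13 + z^12 - z^11 +
    z^10 - z^8 + z^7 - z^6 + z^5 - z + 1) * hz

theorem sum_6 (hz : z ^ 6 + z ^ 5 + z ^ 4 + z ^ 3 + z ^ 2 + z + 1 = 0) :
    (z ^ 4) ^ 6 + (z ^ 2) ^ 6 + 1 ^ 6 + (z ^ 5) ^ 6 + (z ^ 3) ^ 6 + z ^ 6 + (z ^ 6) ^ 6 = 0 := by
  linear_combination (z^30 - z^29 + z^24 - z^22 + z^18 - z^15 + z^12 - z^8 + z^6 - z + 1) * hz

theorem sum_7 (hz : z ^ 6 + z ^ 5 + z ^ 4 + z ^ 3 + z ^ 2 + z + 1 = 0) :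
    (z ^ 4) ^ 7 + (z ^ 2) ^ 7 + 1 ^ 7 + (z ^ 5) ^ 7 + (z ^ 3) ^ 7 + z ^ 7 + (z ^ 6) ^ 7 = 7 := by
  linear_combination (z^36 - z^35 + 2*z^29 - 2*z^28 + 3*z^22 - 3*z^21 + 4*z^15 - 4*z^14 + 5*z^8
    - 5*z^7 + 6*z - 6) * hz

theorem sum_8 (hz : z ^ 6 + z ^ 5 + z ^ 4 + z ^ 3 + z ^ 2 + z + 1 = 0) :
    (z ^ 4) ^ 8 + (z ^ 2) ^ 8 + 1 ^ 8 + (z ^ 5) ^ 8 + (z ^ 3) ^ 8 + z ^ 8 + (z ^ 6) ^ 8 = 0 := by
  linear_combination (z^42 - z^41 + z^35 - z^33 + z^28 - z^25 + z^21 - z^17 + z^14 - z^9 + z^7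
    - z + 1) * hz

theorem sum_9 (hz : z ^ 6 + z ^ 5 + z ^ 4 + z ^ 3 + z ^ 2 + z + 1 = 0) :
    (z ^ 4) ^ 9 + (z ^ 2) ^ 9 + 1 ^ 9 + (z ^ 5) ^ 9 + (z ^ 3) ^ 9 + z ^ 9 + (z ^ 6) ^ 9 = 0 := by
  linear_combination (z^48 - z^47 + z^41 - z^40 + z^39 - z^38 + z^34 - z^33 + z^32 - z^31 +
    z^30 - z^29 + z^27 - z^26 + z^25 - z^24 + z^23 - z^22 + z^21 - z^19 + z^18 - z^17 + z^16 -
    z^15 + z^14 - z^10 + z^9 - z^8 + z^7 - z + 1) * hz

theorem sum_10 (hz : z ^ 6 + z ^ 5 + z ^ 4 + z ^ 3 + z ^ 2 + z + 1 = 0) :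
    (z ^ 4) ^ 10 + (z ^ 2) ^ 10 + 1 ^ 10 + (z ^ 5) ^ 10 + (z ^ 3) ^ 10 + z ^ 10 + (z ^ 6) ^ 10 = 0 := by
  linear_combination (z^54 - z^53 + z^47 - z^46 + z^44 - z^43 + z^40 - z^39 + z^37 - z^36 +
    z^34 - z^32 + z^30 - z^29 + z^27 - z^25 + z^24 - z^22 + z^20 - z^18 + z^17 - z^15 + z^14 -
    z^11 + z^10 - z^8 + z^7 - z + 1) * hz

theorem sum_11 (hz : z ^ 6 + z ^ 5 + z ^ 4 + z ^ 3 + z ^ 2 + z + 1 = 0) :
    (z ^ 4) ^ 11 + (z ^ 2) ^ 11 + 1 ^ 11 + (z ^ 5) ^ 11 + (z ^ 3) ^ 11 + z ^ 11 + (z ^ 6) ^ 11 = 0 := by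
  linear_combination (z^60 - z^59 + z^53 - z^52 + z^49 - z^48 + z^46 - z^45 + z^42 - z^41 +
    z^39 - z^37 + z^35 - z^34 + z^32 - z^30 + z^28 - z^26 + z^25 - z^23 + z^21 - z^19 + z^18 -
    z^15 + z^14 - z^12 + z^11 - z^8 + z^7 - z + 1) * hz

theorem dt_zz (V : V6 K) (ω κ : K) :
    dt (zz V κ) (zz V (ω * κ)) =
      κ ^ 3 * ((ω ^ 2 - ω) * d12 V) + κ ^ 4 * ((ω ^ 3 - ω) * d13 V) +
      κ ^ 5 * ((ω ^ 4 - ω) * d14 V + (ω ^ 3 - ω ^ 2) * d23 V) +
      κ ^ 6 * ((ω ^ 5 - ω) * d15 V + (ω ^ 4 - ω ^ 2) * d24 V) +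
      κ ^ 7 * ((ω ^ 6 - ω) * d16 V + (ω ^ 5 - ω ^ 2) * d25 V + (ω ^ 4 - ω ^ 3) * d34 V) +
      κ ^ 8 * ((ω ^ 6 - ω ^ 2) * d26 V + (ω ^ 5 - ω ^ 3) * d35 V) +
      κ ^ 9 * ((ω ^ 6 - ω ^ 3) * d36 V + (ω ^ 5 - ω ^ 4) * d45 V) +
      κ ^ 10 * ((ω ^ 6 - ω ^ 4) * d46 V) + κ ^ 11 * ((ω ^ 6 - ω ^ 5) * d56 V) := by
  simp only [dt, zz, d12, d13, d14, d15, d16, d23, d24, d25, d26, d34, d35, d36, d45, d46, d56]
  ring

theorem tot_aux (V : V6 K) (ω k0 k1 k2 k3 k4 k5 k6 : K)
    (S3 : k0 ^ 3 + k1 ^ 3 + k2 ^ 3 + k3 ^ 3 + k4 ^ 3 + k5 ^ 3 + k6 ^ 3 = 0)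
    (S4 : k0 ^ 4 + k1 ^ 4 + k2 ^ 4 + k3 ^ 4 + k4 ^ 4 + k5 ^ 4 + k6 ^ 4 = 0)
    (S5 : k0 ^ 5 + k1 ^ 5 + k2 ^ 5 + k3 ^ 5 + k4 ^ 5 + k5 ^ 5 + k6 ^ 5 = 0)
    (S6 : k0 ^ 6 + k1 ^ 6 + k2 ^ 6 + k3 ^ 6 + k4 ^ 6 + k5 ^ 6 + k6 ^ 6 = 0)
    (S7 : k0 ^ 7 + k1 ^ 7 + k2 ^ 7 + k3 ^ 7 + k4 ^ 7 + k5 ^ 7 + k6 ^ 7 = 7)
    (S8 : k0 ^ 8 + k1 ^ 8 + k2 ^ 8 + k3 ^ 8 + k4 ^ 8 + k5 ^ 8 + k6 ^ 8 = 0)
    (S9 : k0 ^ 9 + k1 ^ 9 + k2 ^ 9 + k3 ^ 9 + k4 ^ 9 + k5 ^ 9 + k6 ^ 9 = 0)
    (S10 : k0 ^ 10 + k1 ^ 10 + k2 ^ 10 + k3 ^ 10 + k4 ^ 10 + k5 ^ 10 + k6 ^ 10 = 0)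
    (S11 : k0 ^ 11 + k1 ^ 11 + k2 ^ 11 + k3 ^ 11 + k4 ^ 11 + k5 ^ 11 + k6 ^ 11 = 0) :
    dt (zz V k0) (zz V (ω * k0)) + dt (zz V k1) (zz V (ω * k1)) +
      dt (zz V k2) (zz V (ω * k2)) + dt (zz V k3) (zz V (ω * k3)) +
      dt (zz V k4) (zz V (ω * k4)) + dt (zz V k5) (zz V (ω * k5)) +
      dt (zz V k6) (zz V (ω * k6)) =
    7 * ((ω ^ 6 - ω) * d16 V + (ω ^ 5 - ω ^ 2) * d25 V + (ω ^ 4 - ω ^ 3) * d34 V) := by
  rw [dt_zz, dt_zz, dt_zz, dt_zz, dt_zz, dt_zz, dt_zz]
  linear_combination ((ω ^ 2 - ω) * d12 V) * S3 + ((ω ^ 3 - ω) * d13 V) * S4 +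
    ((ω ^ 4 - ω) * d14 V + (ω ^ 3 - ω ^ 2) * d23 V) * S5 +
    ((ω ^ 5 - ω) * d15 V + (ω ^ 4 - ω ^ 2) * d24 V) * S6 +
    ((ω ^ 6 - ω) * d16 V + (ω ^ 5 - ω ^ 2) * d25 V + (ω ^ 4 - ω ^ 3) * d34 V) * S7 +
    ((ω ^ 6 - ω ^ 2) * d26 V + (ω ^ 5 - ω ^ 3) * d35 V) * S8 +
    ((ω ^ 6 - ω ^ 3) * d36 V + (ω ^ 5 - ω ^ 4) * d45 V) * S9 +
    ((ω ^ 6 - ω ^ 4) * d46 V) * S10 + ((ω ^ 6 - ω ^ 5) * d56 V) * S11

theorem w61 (hz : z ^ 6 + z ^ 5 + z ^ 4 + z ^ 3 + z ^ 2 + z + 1 = 0) (hh : h = z + z ^ 6) :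
    (z ^ 5) ^ 6 - z ^ 5 = -((z ^ 6 - z) * h) := by
  subst hh
  linear_combination (z^24 - z^23 + z^17 - z^16 + z^10 - z^9 + z^6 - z^5 + z^3 - z^2) * hz

theorem w52 (hz : z ^ 6 + z ^ 5 + z ^ 4 + z ^ 3 + z ^ 2 + z + 1 = 0) (hh : h = z + z ^ 6) :
    (z ^ 5) ^ 5 - (z ^ 5) ^ 2 = (z ^ 6 - z) * (h ^ 2 - 1) := by
  subst hh
  linear_combination (z^19 - z^18 - z^7 + z^6 - z^4 + z^3 + z^2 - z) * hz

theorem w43 (hz : z ^ 6 + z ^ 5 + z ^ 4 + z ^ 3 + z ^ 2 + z + 1 = 0) :
    (z ^ 5) ^ 4 - (z ^ 5) ^ 3 = z ^ 6 - z := by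
  linear_combination (z^14 - z^13 - z^9 + z^8 + z^7 - z^6 - z^2 + z) * hz

end

end AuxCorner

open AuxCorner in
theorem pr_Corner : StCorner := by
  intro K _ z h V hz hh hG
  have h7 := z_seven hz
  constructor
  · intro k
    have e1 : pk V z (k + 1) = zz V (z ^ 5 * (z ^ 5) ^ (k + 5)) := by
      unfold pk; congr 1; ring
    have e2 : pk V z (k + 2) = zz V ((z ^ 5) ^ 2 * (z ^ 5) ^ (k + 5)) := by
      unfold pk; congr 1; ring
    have k7 : ((z ^ 5) ^ (k + 5)) ^ 7 = 1 := by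
      have : ((z ^ 5) ^ (k + 5)) ^ 7 = (z ^ 7) ^ (5 * (k + 5)) := by ring
      rw [this, h7, one_pow]
    have k3 : z * ((z ^ 5) ^ (k + 5)) ^ 3 = z ^ (k + 6) := by
      have : z * ((z ^ 5) ^ (k + 5)) ^ 3 = z ^ (k + 6) * (z ^ 7) ^ (2 * k + 10) := by ring
      rw [this, h7, one_pow, mul_one]
    have k4 : z ^ 6 * ((z ^ 5) ^ (k + 5)) ^ 4 = z ^ (6 * (k + 6)) := by
      have : z ^ 6 * ((z ^ 5) ^ (k + 5)) ^ 4 = z ^ (6 * (k + 6)) * (z ^ 7) ^ (2 * k + 10) := by
        ring
      rw [this, h7, one_pow, mul_one]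
    unfold Tk
    rw [e1, e2]
    unfold pk
    rw [corner, tau_12 hz hh, tau_13 hz hh, tau_14 hz hh, tau_15 hz hh, tau_16 hz hh,
      tau_23 hz hh, tau_24 hz hh, tau_25 hz hh, tau_26 hz hh, tau_34 hz hh, tau_35 hz hh,
      tau_36 hz hh, tau_45 hz hh, tau_46 hz hh, tau_56 hz hh, ← k3, ← k4]
    unfold XV YV
    generalize (z ^ 5) ^ (k + 5) = κ at k7 ⊢
    generalize z ^ 6 - z = c
    obtain ⟨r26, r15, r36, r14, r16⟩ := hG
    simp only [d12, d13, d14, d15, d16, d23, d24, d25, d26, d34, d35, d36, d45, d46, d56] at *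
    linear_combination (-(z ^ 4 * c ^ 3 * (h ^ 2 - 1) * κ ^ 5)) * r14 +
      (z ^ 2 * c ^ 3 * h * (h ^ 2 - 1) * κ ^ 6) * r15 + (c ^ 3 * κ ^ 7) * r16 +
      (z ^ 5 * c ^ 3 * h * (h ^ 2 - 1) * κ ^ 8) * r26 +
      (-(z ^ 3 * c ^ 3 * (h ^ 2 - 1) * κ ^ 9)) * r36 +
      (κ ^ 3 * z * c ^ 3 * h * (h ^ 2 - 1) * (V.a4 * V.b6 - V.b4 * V.a6)) * k7 +
      (κ ^ 4 * z ^ 6 * c ^ 3 * h * (V.a5 * V.b6 - V.b5 * V.a6)) * k7
  · have p0 : (z ^ 5) ^ (0 + 5) = z ^ 4 := by
      linear_combination (z ^ 18 + z ^ 11 + z ^ 4) * h7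
    have p1 : (z ^ 5) ^ (1 + 5) = z ^ 2 := by
      linear_combination (z ^ 23 + z ^ 16 + z ^ 9 + z ^ 2) * h7
    have p2 : (z ^ 5) ^ (2 + 5) = 1 := by
      linear_combination (z ^ 28 + z ^ 21 + z ^ 14 + z ^ 7 + 1) * h7
    have p3 : (z ^ 5) ^ (3 + 5) = z ^ 5 := by
      linear_combination (z ^ 33 + z ^ 26 + z ^ 19 + z ^ 12 + z ^ 5) * h7
    have p4 : (z ^ 5) ^ (4 + 5) = z ^ 3 := by
      linear_combination (z ^ 38 + z ^ 31 + z ^ 24 + z ^ 17 + z ^ 10 + z ^ 3) * h7
    have p5 : (z ^ 5) ^ (5 + 5) = z := by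
      linear_combination (z ^ 43 + z ^ 36 + z ^ 29 + z ^ 22 + z ^ 15 + z ^ 8 + z) * h7
    have p6 : (z ^ 5) ^ (6 + 5) = z ^ 6 := by
      linear_combination (z ^ 48 + z ^ 41 + z ^ 34 + z ^ 27 + z ^ 20 + z ^ 13 + z ^ 6) * h7
    have q0 : z ^ 5 * z ^ 4 = z ^ 2 := by linear_combination z ^ 2 * h7
    have q1 : z ^ 5 * z ^ 2 = 1 := by linear_combination h7
    have q2 : z ^ 5 * 1 = z ^ 5 := mul_one _
    have q3 : z ^ 5 * z ^ 5 = z ^ 3 := by linear_combination z ^ 3 * h7
    have q4 : z ^ 5 * z ^ 3 = z := by linear_combination z * h7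
    have q5 : z ^ 5 * z = z ^ 6 := by ring
    have q6 : z ^ 5 * z ^ 6 = z ^ 4 := by linear_combination z ^ 4 * h7
    have hT := tot_aux V (z ^ 5) (z ^ 4) (z ^ 2) 1 (z ^ 5) (z ^ 3) z (z ^ 6) (sum_3 hz)
      (sum_4 hz) (sum_5 hz) (sum_6 hz) (sum_7 hz) (sum_8 hz) (sum_9 hz) (sum_10 hz) (sum_11 hz)
    rw [q0, q1, q2, q3, q4, q5, q6, w61 hz hh, w52 hz hh, w43 hz] at hT
    unfold pk
    rw [p0, p1, p2, p3, p4, p5, p6]
    unfold AV
    unfold dt at hT
    unfold tot
    linear_combination hT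

end Pool.Agent.Work.MP_c5a777_ag.Sev

end

section

/-!
# The data for the order seven class
-/

set_option autoImplicit false

namespace Pool.Agent.Work.MP_c5a777_ag.Sev

namespace AuxData

section maps

variable {A B : Type*} [Field A] [Field B] (f : A →+* B)

theorem map_nn (h m e : A) : f (nn h m e) = nn (f h) (f m) (f e) := by
  simp [nn]

theorem map_dd (h m e : A) : f (dd h m e) = dd (f h) (f m) (f e) := by
  simp [dd, map_nn]

theorem map_La (h m e : A) : f (La h m e) = La (f h) (f m) (f e) := by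
  simp [La, map_nn]

theorem map_Lb (h m e : A) : f (Lb h m e) = Lb (f h) (f m) (f e) := by
  simp [Lb, map_nn]

theorem map_C0 (h : A) : f (C0 h) = C0 (f h) := by
  have h4 : f 4 = 4 := map_ofNat f 4
  have h7 : f 7 = 7 := map_ofNat f 7
  simp [C0, h4, h7]

theorem map_al (h m e : A) : f (al h m e) = al (f h) (f m) (f e) := by
  simp [al, map_nn, map_La, map_dd, map_C0]

theorem map_be (h m e : A) : f (be h m e) = be (f h) (f m) (f e) := by
  simp [be, map_nn, map_dd, map_C0]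

theorem map_al' (h m e : A) : f (al' h m e) = al' (f h) (f m) (f e) := by
  simp [al', map_nn, map_Lb, map_dd, map_C0]

theorem map_be' (h m e : A) : f (be' h m e) = be' (f h) (f m) (f e) := by
  simp [be', map_nn, map_dd, map_C0]

end maps

section forms

variable {K : Type*} [Field K]

theorem key (a b p u c : K) (hp : p ≠ 0) (hD : c - a * p ^ 4 ≠ 0)
    (hdef : u = (b - c * p ^ 3) / (p ^ 3 * (c - a * p ^ 4))) :
    c * (1 + u) * p ^ 3 = b + a * p ^ 7 * u := by
  have h1 : u * (p ^ 3 * (c - a * p ^ 4)) = b - c * p ^ 3 := by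
    rw [hdef]
    exact div_mul_cancel₀ _ (mul_ne_zero (pow_ne_zero _ hp) hD)
  linear_combination h1

theorem xform (a b p s u c : K) (hp : p ≠ 0) (hs : s ≠ 0) (hu : s ^ 7 = u)
    (hk : c * (1 + u) * p ^ 3 = b + a * p ^ 7 * u) :
    u * (a * (p * s) ^ 4 + b / (p * s) ^ 3) = c * s ^ 4 * (1 + s ^ 7) := by
  subst hu
  field_simp
  linear_combination -hk

theorem yform (a b p s u r c : K) (hp : p ≠ 0) (hs : s ≠ 0) (hu : s ^ 7 = u)
    (hr : c * r = b * p ^ 3 * u + a / p ^ 4) :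
    u * (b * (p * s) ^ 3 + a / (p * s) ^ 4) = c * s ^ 3 * r := by
  have h1 : c * s ^ 3 * r = s ^ 3 * (c * r) := by ring
  rw [h1, hr]
  subst hu
  field_simp

end forms

section equi

variable {K : Type*} [Field K]

theorem scale (z h m e g l : K) (hz7 : z ^ 7 = 1) (hz : z ≠ 0) (hg : g ≠ 0) :
    (VV h m e (z ^ 2 * g) l).a1 = z ^ 4 * (VV h m e g l).a1 ∧
    (VV h m e (z ^ 2 * g) l).a2 = z ^ 2 * (VV h m e g l).a2 ∧
    (VV h m e (z ^ 2 * g) l).a3 = (VV h m e g l).a3 ∧
    (VV h m e (z ^ 2 * g) l).a4 = z ^ 5 * (VV h m e g l).a4 ∧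
    (VV h m e (z ^ 2 * g) l).a5 = z ^ 3 * (VV h m e g l).a5 ∧
    (VV h m e (z ^ 2 * g) l).a6 = z * (VV h m e g l).a6 ∧
    (VV h m e (z ^ 2 * g) l).b1 = z ^ 6 * (VV h m e g l).b1 ∧
    (VV h m e (z ^ 2 * g) l).b2 = z ^ 4 * (VV h m e g l).b2 ∧
    (VV h m e (z ^ 2 * g) l).b3 = z ^ 2 * (VV h m e g l).b3 ∧
    (VV h m e (z ^ 2 * g) l).b4 = (VV h m e g l).b4 ∧
    (VV h m e (z ^ 2 * g) l).b5 = z ^ 5 * (VV h m e g l).b5 ∧
    (VV h m e (z ^ 2 * g) l).b6 = z ^ 3 * (VV h m e g l).b6 := by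
  have i2 : ((z ^ 2 * g) ^ 2)⁻¹ = z ^ 3 * (g ^ 2)⁻¹ := by
    field_simp
    linear_combination -hz7
  have i3 : ((z ^ 2 * g) ^ 3)⁻¹ = z * (g ^ 3)⁻¹ := by
    field_simp
    linear_combination -hz7
  refine ⟨?_, ?_, ?_, ?_, ?_, ?_, ?_, ?_, ?_, ?_, ?_, ?_⟩
  · simp only [VV]; ring
  · simp only [VV, div_eq_mul_inv, mul_inv, i2, i3]
    linear_combination (z ^ 2 * (l * ((h ^ 2 - 1) * h⁻¹ * ((g ^ 2 * m * (e⁻¹ *
      (nn h m e)⁻¹)) ^ 2 * (e * nn h m e ^ 2 * ((g ^ 3)⁻¹ * m⁻¹)) + h * (g ^ 3 * m * (e⁻¹ *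
      (nn h m e)⁻¹)) * (e * nn h m e * (g ^ 2)⁻¹)) * (h ^ 2 - m)⁻¹))) * hz7
  · simp only [VV]
  · simp only [VV]; ring
  · simp only [VV, div_eq_mul_inv, i2]; ring
  · simp only [VV, div_eq_mul_inv, mul_inv, i3]; ring
  · simp only [VV]; ring
  · simp only [VV]; ring
  · simp only [VV]; ring
  · simp only [VV]
  · simp only [VV, div_eq_mul_inv, mul_inv, i2, i3]
    linear_combination (z ^ 5 * ((h ^ 2 - 1) * h⁻¹ * ((g ^ 3 * m * (e⁻¹ *
      (nn h m e)⁻¹)) * (e * nn h m e * (g ^ 2)⁻¹) ^ 2) * (h ^ 2 - m)⁻¹)) * hz7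
  · simp only [VV, div_eq_mul_inv, i2]; ring

theorem equi_of (σ : K →+* K) (z h m e g l : K) (hz7 : z ^ 7 = 1) (hz : z ≠ 0) (hg : g ≠ 0)
    (hσz : σ z = z) (hσh : σ h = h) (hσm : σ m = m) (hσe : σ e = e) (hσg : σ g = z ^ 2 * g)
    (hσl : σ l = l) : Equi σ z (VV h m e g l) := by
  obtain ⟨q1, q2, q3, q4, q5, q6, q7, q8, q9, q10, q11, q12⟩ := scale z h m e g l hz7 hz hg
  have hσn : σ (nn h m e) = nn h m e := by
    rw [map_nn σ, hσh, hσm, hσe]
  refine ⟨hσz, ?_, ?_, ?_, ?_, ?_, ?_, ?_, ?_, ?_, ?_, ?_, ?_⟩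
  · rw [← q1]
    simp only [VV, map_mul, map_div₀, map_pow, hσg, hσl, hσm, hσe, hσn]
  · rw [← q2]
    simp only [VV, map_mul, map_div₀, map_pow, map_add, map_sub, map_one, hσg, hσl, hσh, hσm,
      hσe, hσn]
  · rw [← q3]
    simp only [VV, hσl]
  · simp only [VV, map_zero, mul_zero]
  · rw [← q5]
    simp only [VV, map_mul, map_div₀, map_pow, map_sub, map_neg, map_one, hσg, hσl, hσh,
      hσe, hσn]
  · rw [← q6]
    simp only [VV, map_mul, map_div₀, map_pow, hσg, hσl, hσm, hσe, hσn]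
  · rw [← q7]
    simp only [VV, map_mul, map_div₀, map_pow, hσg, hσm, hσe, hσn]
  · rw [← q8]
    simp only [VV, map_mul, map_div₀, map_pow, map_sub, map_neg, map_one, hσg, hσh, hσm,
      hσe, hσn]
  · simp only [VV, map_zero, mul_zero]
  · simp only [VV, map_one]
  · rw [← q11]
    simp only [VV, map_mul, map_div₀, map_pow, map_add, map_sub, map_one, hσg, hσh, hσm,
      hσe, hσn]
  · rw [← q12]
    simp only [VV, map_mul, map_div₀, map_pow, hσg, hσe, hσn]

end equi

section gen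

/-- Recovering the parameters from the minors. -/
theorem recov {K : Type*} [Field K] (h m e g l : K) (hm : m ≠ 0) (he : e ≠ 0) (hg : g ≠ 0)
    (hn : nn h m e ≠ 0) (hl : l ≠ 0) (E : Subfield K) (h34 : d34 (VV h m e g l) ∈ E)
    (h14 : d14 (VV h m e g l) ∈ E) (h36 : d36 (VV h m e g l) ∈ E)
    (h46 : d46 (VV h m e g l) ∈ E) (h13 : d13 (VV h m e g l) ∈ E) :
    m ∈ E ∧ e ∈ E ∧ g ∈ E := by
  have e34 : d34 (VV h m e g l) = l := by simp [d34, VV]
  have e14 : d14 (VV h m e g l) = l * (g ^ 2 * m / (e * nn h m e)) := by simp [d14, VV]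
  have e36 : d36 (VV h m e g l) = l * (e * nn h m e / g ^ 2) := by simp [d36, VV]
  have e46 : d46 (VV h m e g l) = -(l * (e * nn h m e ^ 2 / (g ^ 3 * m))) := by
    simp [d46, VV]
  have e13 : d13 (VV h m e g l) = -(g ^ 3 * m / (e * nn h m e) * l) := by simp [d13, VV]
  rw [e34] at h34
  rw [e14] at h14
  rw [e36] at h36
  rw [e46] at h46
  rw [e13] at h13
  have q1 : g ^ 2 * m / (e * nn h m e) ∈ E := by
    have := E.div_mem h14 h34
    rwa [mul_div_cancel_left₀ _ hl] at this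
  have p6 : e * nn h m e / g ^ 2 ∈ E := by
    have := E.div_mem h36 h34
    rwa [mul_div_cancel_left₀ _ hl] at this
  have q6 : e * nn h m e ^ 2 / (g ^ 3 * m) ∈ E := by
    have := E.div_mem (E.neg_mem h46) h34
    rwa [neg_neg, mul_div_cancel_left₀ _ hl] at this
  have p1 : g ^ 3 * m / (e * nn h m e) ∈ E := by
    have := E.div_mem (E.neg_mem h13) h34
    rwa [neg_neg, mul_div_cancel_right₀ _ hl] at this
  have hgE : g ∈ E := by
    have := E.div_mem p1 q1
    have e1 : g ^ 3 * m / (e * nn h m e) / (g ^ 2 * m / (e * nn h m e)) = g := by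
      field_simp
    rwa [e1] at this
  have hmE : m ∈ E := by
    have := E.mul_mem q1 p6
    have e1 : g ^ 2 * m / (e * nn h m e) * (e * nn h m e / g ^ 2) = m := by
      field_simp
    rwa [e1] at this
  have hnE : nn h m e ∈ E := by
    have := E.mul_mem p1 q6
    have e1 : g ^ 3 * m / (e * nn h m e) * (e * nn h m e ^ 2 / (g ^ 3 * m)) = nn h m e := by
      field_simp
    rwa [e1] at this
  have heE : e ∈ E := by
    have := E.mul_mem (E.div_mem p6 hnE) (E.pow_mem hgE 2)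
    have e1 : e * nn h m e / g ^ 2 / nn h m e * g ^ 2 = e := by
      field_simp
    rwa [e1] at this
  exact ⟨hmE, heE, hgE⟩

/-- A subfield which contains the images of the generators contains the image of the field
of rational functions. -/
theorem memF {K0 F K : Type} [Field K0] [Field F] [Field K]
    (i : MvPolynomial (Fin 2) ℂ →+* K0) (hi : ∀ y : K0, ∃ p q, i p / i q = y)
    (c : K0 →+* F) (X : F)
    (hx : ∀ x : F, ∃ p q : Polynomial K0, Polynomial.eval₂ c X p / Polynomial.eval₂ c X q = x)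
    (f : F →+* K) (E : Subfield K) (hC : ∀ a : ℂ, f (c (i (MvPolynomial.C a))) ∈ E)
    (hm : ∀ j, f (c (i (MvPolynomial.X j))) ∈ E) (hX : f X ∈ E) (x : F) : f x ∈ E := by
  have hpoly : ∀ p : MvPolynomial (Fin 2) ℂ, f (c (i p)) ∈ E := by
    intro p
    induction p using MvPolynomial.induction_on with
    | C a => exact hC a
    | add p q hp hq =>
      rw [map_add, map_add, map_add]
      exact E.add_mem hp hq
    | mul_X p j hp =>
      rw [map_mul, map_mul, map_mul]
      exact E.mul_mem hp (hm j)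
  have hfr : ∀ y : K0, f (c y) ∈ E := by
    intro y
    obtain ⟨p, q, rfl⟩ := hi y
    rw [map_div₀, map_div₀]
    exact E.div_mem (hpoly p) (hpoly q)
  have hpol : ∀ p : Polynomial K0, f (Polynomial.eval₂ c X p) ∈ E := by
    intro p
    induction p using Polynomial.induction_on' with
    | add p q hp hq =>
      rw [Polynomial.eval₂_add, map_add]
      exact E.add_mem hp hq
    | monomial n a =>
      rw [Polynomial.eval₂_monomial, map_mul, map_pow]
      exact E.mul_mem (hfr a) (E.pow_mem hX n)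
  obtain ⟨p, q, rfl⟩ := hx x
  rw [map_div₀]
  exact E.div_mem (hpol p) (hpol q)

theorem ratX {K0 : Type} [Field K0] (x : RatFunc K0) : ∃ p q : Polynomial K0,
    Polynomial.eval₂ RatFunc.C RatFunc.X p / Polynomial.eval₂ RatFunc.C RatFunc.X q = x := by
  have h : ∀ p : Polynomial K0, Polynomial.eval₂ RatFunc.C RatFunc.X p =
      algebraMap (Polynomial K0) (RatFunc K0) p := by
    intro p
    induction p using Polynomial.induction_on' with
    | add p q hp hq => rw [Polynomial.eval₂_add, map_add, hp, hq]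
    | monomial n a =>
      rw [Polynomial.eval₂_monomial, ← Polynomial.C_mul_X_pow_eq_monomial, map_mul, map_pow,
        RatFunc.algebraMap_X, RatFunc.algebraMap_C]
  induction x using RatFunc.induction_on with
  | f p q hq => exact ⟨p, q, by rw [h, h]⟩

theorem ccF (a : ℂ) : algebraMap ℂ (RatFunc (FractionRing (MvPolynomial (Fin 2) ℂ))) a =
    RatFunc.C (algebraMap ℂ (FractionRing (MvPolynomial (Fin 2) ℂ)) a) := by
  rw [RatFunc.algebraMap_apply]
  simp only [map_one, Polynomial.algebraMap_apply, RatFunc.algebraMap_C]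
  exact div_one (RatFunc.C (algebraMap ℂ (FractionRing (MvPolynomial (Fin 2) ℂ)) a))

theorem ccK (a : ℂ) : algebraMap ℂ (FractionRing (MvPolynomial (Fin 2) ℂ)) a =
    algebraMap (MvPolynomial (Fin 2) ℂ) _ (MvPolynomial.C a) := by
  rw [IsScalarTower.algebraMap_apply ℂ (MvPolynomial (Fin 2) ℂ)
    (FractionRing (MvPolynomial (Fin 2) ℂ)), MvPolynomial.algebraMap_eq]

end gen

theorem core {K0 F : Type} [Field K0] [CharZero K0] [Field F] [Algebra ℂ F] (h1 : StGood)
    (h2 : StXYA) (h4 : StAdj) (z0 : ℂ) (hz0 : IsPrimitiveRoot z0 7)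
    (hz0p : z0 ^ 6 + z0 ^ 5 + z0 ^ 4 + z0 ^ 3 + z0 ^ 2 + z0 + 1 = 0)
    (i : MvPolynomial (Fin 2) ℂ →+* K0) (hi : ∀ y : K0, ∃ p q, i p / i q = y)
    (c : K0 →+* F) (X : F) (hX0 : X ≠ 0)
    (hx : ∀ x : F, ∃ p q : Polynomial K0, Polynomial.eval₂ c X p / Polynomial.eval₂ c X q = x)
    (hc : ∀ a : ℂ, algebraMap ℂ F a = c (i (MvPolynomial.C a)))
    (hk m e : K0) (hhk : hk = i (MvPolynomial.C (z0 + z0 ^ 6)))
    (hm : m = i (MvPolynomial.X 0)) (he : e = i (MvPolynomial.X 1)) (hrelk : Rel hk)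
    (hk0 : hk ≠ 0) (m0 : m ≠ 0) (e0 : e ≠ 0) (hm0 : hk ^ 2 - m ≠ 0) (n0 : nn hk m e ≠ 0)
    (den0 : hk + (hk ^ 2 - 1) ^ 3 * m * (1 + hk * e) * (m + hk / e) / (hk ^ 2 - m) ^ 2 ≠ 0)
    (d0 : 1 - (hk ^ 2 - 1) * (m - nn hk m e) ≠ 0)
    (htr : Algebra.trdeg ℂ F = 3)
    (hnot : ∀ y : F, y ^ 7 ≠ (c (be hk m e) - c 5 * X ^ 3) /
      (X ^ 3 * (c 5 - c (al hk m e) * X ^ 4))) :
    ∃ (K : Type) (_ : Field K) (_ : Algebra ℂ K) (_ : Algebra F K) (_ : IsScalarTower ℂ F K)
      (σ : K ≃ₐ[F] K) (s : K) (u r : F) (V : V6 K) (z h : K), Hep F K z0 σ s u r V z h := by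
  obtain ⟨u, hudef⟩ : ∃ u : F, u = (c (be hk m e) - c 5 * X ^ 3) /
      (X ^ 3 * (c 5 - c (al hk m e) * X ^ 4)) := ⟨_, rfl⟩
  rw [← hudef] at hnot
  have hu : u ≠ 0 := fun h => hnot 0 (by rw [h]; simp)
  have hD : c 5 - c (al hk m e) * X ^ 4 ≠ 0 := by
    intro h
    rw [h, mul_zero, div_zero] at hudef
    exact hu hudef
  have hkey := key (c (al hk m e)) (c (be hk m e)) X u (c 5) hX0 hD hudef
  obtain ⟨K, iK, iCK, iFK, iT, σ, s, hs7, hσs, hfix, hgen, htrK⟩ := h4 F u hu hnot z0 hz0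
  have : CharZero K := charZero_of_injective_algebraMap (algebraMap ℂ K).injective
  -- the map from K0
  obtain ⟨j, hj⟩ : ∃ j : K0 →+* K, j = (algebraMap F K).comp c := ⟨_, rfl⟩
  have hj' : ∀ y, j y = algebraMap F K (c y) := fun y => by rw [hj]; rfl
  have hji : Function.Injective j := j.injective
  have jne : ∀ y, y ≠ 0 → j y ≠ 0 := fun y hy => by
    rw [Ne, map_eq_zero]; exact hy
  have hcK : ∀ a : ℂ, algebraMap ℂ K a = j (i (MvPolynomial.C a)) := fun a => by
    rw [hj', ← hc, ← IsScalarTower.algebraMap_apply]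
  obtain ⟨z, hz⟩ : ∃ z : K, z = algebraMap ℂ K z0 := ⟨_, rfl⟩
  have hzp : z ^ 6 + z ^ 5 + z ^ 4 + z ^ 3 + z ^ 2 + z + 1 = 0 := by
    rw [hz]
    have h := congrArg (algebraMap ℂ K) hz0p
    simpa only [map_add, map_sub, map_mul, map_pow, map_one, map_zero, map_ofNat] using h
  have hz7 : z ^ 7 = 1 := z_seven hzp
  have hzne : z ≠ 0 := by
    intro h
    rw [h] at hz7
    norm_num at hz7
  have hh : j hk = z + z ^ 6 := by
    rw [hhk, ← hcK, hz, map_add, map_pow]
  have hrelK : Rel (j hk) := by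
    unfold Rel at hrelk ⊢
    have h := congrArg j hrelk
    simpa only [map_add, map_sub, map_mul, map_pow, map_one, map_zero, map_ofNat] using h
  have hs0 : s ≠ 0 := by
    intro h
    rw [h] at hs7
    have : algebraMap F K u = 0 := by rw [← hs7]; norm_num
    rw [map_eq_zero] at this
    exact hu this
  obtain ⟨p, hp⟩ : ∃ p : K, p = algebraMap F K X := ⟨_, rfl⟩
  have hp0 : p ≠ 0 := by rw [hp, Ne, map_eq_zero]; exact hX0
  have hg0 : p * s ≠ 0 := mul_ne_zero hp0 hs0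
  have M0 : j m ≠ 0 := jne _ m0
  have E0 : j e ≠ 0 := jne _ e0
  have HM0 : j hk ^ 2 - j m ≠ 0 := by
    have := jne _ hm0
    simpa only [map_sub, map_pow] using this
  have N0 : nn (j hk) (j m) (j e) ≠ 0 := by
    rw [← map_nn]; exact jne _ n0
  have DEN0 : j hk + (j hk ^ 2 - 1) ^ 3 * j m * (1 + j hk * j e) * (j m + j hk / j e) /
      (j hk ^ 2 - j m) ^ 2 ≠ 0 := by
    have := jne _ den0
    simpa only [map_add, map_sub, map_mul, map_pow, map_one, map_div₀] using this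
  have D0 : 1 - (j hk ^ 2 - 1) * (j m - nn (j hk) (j m) (j e)) ≠ 0 := by
    have := jne _ d0
    simpa only [map_add, map_sub, map_mul, map_pow, map_one, map_nn] using this
  obtain ⟨U, hU⟩ : ∃ U : K, U = algebraMap F K u := ⟨_, rfl⟩
  have hU0 : U ≠ 0 := by rw [hU, Ne, map_eq_zero]; exact hu
  have hsU : s ^ 7 = U := by rw [hU]; exact hs7
  obtain ⟨l, hl⟩ : ∃ l : K, l = U * j hk * dd (j hk) (j m) (j e) / (7 * (z ^ 6 - z)) :=
    ⟨_, rfl⟩
  have hz6 : z ^ 6 - z ≠ 0 := by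
    intro h
    have h6 : z ^ 2 = 1 := by
      have : z ^ 7 = z * z := by
        have := sub_eq_zero.mp h
        calc z ^ 7 = z * z ^ 6 := by ring
          _ = z * z := by rw [this]
      rw [← hz7, this]; ring
    have h1 : z = 1 := by
      calc z = z ^ 7 * z := by rw [hz7, one_mul]
        _ = (z ^ 2) ^ 4 := by ring
        _ = 1 := by rw [h6]; norm_num
    rw [h1] at hzp
    norm_num at hzp
  have hl0 : l ≠ 0 := by
    rw [hl]
    refine div_ne_zero (mul_ne_zero (mul_ne_zero hU0 (jne _ hk0)) ?_)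
      (mul_ne_zero (by norm_num) hz6)
    unfold dd
    exact div_ne_zero one_ne_zero D0
  obtain ⟨hA, hXX, hYY⟩ := h2 K z (j hk) (j m) (j e) (p * s) l U hzp hh M0 E0 hg0 HM0 N0 DEN0
    D0 hl
  have hGood := h1 K (j hk) (j m) (j e) (p * s) l hrelK M0 E0 hg0 HM0 N0 DEN0
  obtain ⟨r, hr⟩ : ∃ r : F, r = (c (be' hk m e) * X ^ 3 * u + c (al' hk m e) / X ^ 4) / c 5 :=
    ⟨_, rfl⟩
  have c50 : c 5 ≠ 0 := by
    rw [Ne, map_eq_zero]; norm_num
  have j5 : j 5 = 5 := map_ofNat j 5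
  have hf5 : algebraMap F K (c 5) = 5 := by rw [← hj', j5]
  refine ⟨K, iK, iCK, iFK, iT, σ, s, u, r, VV (j hk) (j m) (j e) (p * s) l, z, j hk, ?_⟩
  have hσz : σ z = z := by
    rw [hz, IsScalarTower.algebraMap_apply ℂ F K, σ.commutes]
  have hσF : ∀ y : F, σ (algebraMap F K y) = algebraMap F K y := fun y => σ.commutes y
  have hσg : σ (p * s) = z ^ 2 * (p * s) := by
    rw [map_mul, hσs, hp, hσF, map_pow, ← hz]
    ring
  have hσj : ∀ y, σ (j y) = j y := fun y => by rw [hj', hσF]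
  have hσl : σ l = l := by
    rw [hl]
    have e1 : dd (j hk) (j m) (j e) = j (dd hk m e) := (map_dd j hk m e).symm
    rw [e1, hU]
    simp only [map_div₀, map_mul, map_sub, map_pow, map_ofNat, hσz, hσj, hσF]
  exact
    { htr := by rw [htrK]; exact htr
      hz0 := hz0
      hz := hz
      hh := hh
      hu := hu
      hs := hs7
      hfix := hfix
      hσ := by rw [hσs, map_pow, ← hz]
      equi := equi_of (σ : K →+* K) z (j hk) (j m) (j e) (p * s) l hz7 hzne hg0 hσz (hσj _)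
        (hσj _) (hσj _) hσg hσl
      good := hGood
      hA := by rw [hA, hsU]
      hX := by
        rw [hXX]
        refine xform (al (j hk) (j m) (j e)) (be (j hk) (j m) (j e)) p s U 5 hp0 hs0 hsU ?_
        have := congrArg (algebraMap F K) hkey
        simp only [map_mul, map_add, map_one, map_pow, ← hj'] at this
        rw [j5, map_be, map_al, ← hU, ← hp] at this
        exact this
      hY := by
        rw [hYY]
        refine yform (al' (j hk) (j m) (j e)) (be' (j hk) (j m) (j e)) p s U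
          (algebraMap F K r) 5 hp0 hs0 hsU ?_
        have h5 : c 5 * r = c (be' hk m e) * X ^ 3 * u + c (al' hk m e) / X ^ 4 := by
          rw [hr]; exact mul_div_cancel₀ _ c50
        have := congrArg (algebraMap F K) h5
        simp only [map_mul, map_add, map_pow, map_div₀, ← hj'] at this
        rw [j5, map_be', map_al', ← hU, ← hp] at this
        exact this
      gen := by
        intro E _ hC hsE h34 h14 h36 h46 h13
        obtain ⟨hmE, heE, hgE⟩ := recov (j hk) (j m) (j e) (p * s) l M0 E0 hg0 N0 hl0 E h34 h14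
          h36 h46 h13
        refine hgen E hsE ?_
        refine memF i hi c X hx (algebraMap F K) E ?_ ?_ ?_
        · intro a
          rw [← hj', ← hcK]
          exact hC a
        · intro t
          fin_cases t
          · simp only [Fin.zero_eta]
            rw [← hm, ← hj']
            exact hmE
          · simp only [Fin.mk_one]
            rw [← he, ← hj']
            exact heE
        · rw [← hp]
          have := E.div_mem hgE hsE
          rwa [mul_div_cancel_right₀ _ hs0] at this }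

end AuxData

theorem pr_Data (h1 : StGood) (h2 : StXYA) (h3 : StNot7) (h4 : StAdj) (h5 : StRat3)
    (h6 : StGen) (h7 : StRelZ) (h8 : StConst) : StData := by
  intro z0 hz0
  have hz0p : z0 ^ 6 + z0 ^ 5 + z0 ^ 4 + z0 ^ 3 + z0 ^ 2 + z0 + 1 = 0 := by
    have := hz0.geom_sum_eq_zero (by norm_num)
    simp only [Finset.sum_range_succ, Finset.sum_range_zero] at this
    linear_combination this
  have hrel0 : Rel (z0 + z0 ^ 6) := h7 ℂ z0 hz0p
  set K0 : Type := FractionRing (MvPolynomial (Fin 2) ℂ) with hK0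
  have : CharZero K0 := charZero_of_injective_algebraMap (algebraMap ℂ K0).injective
  set hk : K0 := algebraMap ℂ K0 (z0 + z0 ^ 6) with hhk
  set m : K0 := algebraMap (MvPolynomial (Fin 2) ℂ) K0 (MvPolynomial.X 0) with hm
  set e : K0 := algebraMap (MvPolynomial (Fin 2) ℂ) K0 (MvPolynomial.X 1) with he
  obtain ⟨m0, e0, hm0, n0, den0, d0, La0, be0⟩ := h6 _ hrel0 hk m e rfl rfl rfl
  have hrelk : Rel hk := by
    have : Rel (algebraMap ℂ K0 (z0 + z0 ^ 6)) := by
      unfold Rel at hrel0 ⊢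
      have h := congrArg (algebraMap ℂ K0) hrel0
      simpa only [map_add, map_sub, map_mul, map_pow, map_one, map_zero, map_ofNat] using h
    exact this
  obtain ⟨-, hk0, hk1, -, -, hk4⟩ := h8 K0 hk hrelk
  have h70 : (7 : K0) ≠ 0 := by norm_num
  have h50 : (5 : K0) ≠ 0 := by norm_num
  have C00 : C0 hk ≠ 0 := by
    unfold C0
    exact div_ne_zero (mul_ne_zero (mul_ne_zero hk4 hk0) hk1) h70
  have dd0 : dd hk m e ≠ 0 := by
    unfold dd
    exact div_ne_zero one_ne_zero d0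
  have al0 : al hk m e ≠ 0 := by
    unfold al
    exact div_ne_zero (mul_ne_zero (mul_ne_zero (mul_ne_zero C00 (pow_ne_zero _ m0)) La0) dd0)
      (mul_ne_zero (pow_ne_zero _ e0) (pow_ne_zero _ n0))
  obtain ⟨⟨emb⟩, htr⟩ := h5
  have hnot := h3 K0 (al hk m e) (be hk m e) 5 al0 h50
  obtain ⟨K, iK, iCK, iFK, iT, σ, s, u, r, V, z, h, H⟩ := AuxData.core (F := RatFunc K0) h1 h2
    h4 z0 hz0 hz0p (algebraMap (MvPolynomial (Fin 2) ℂ) K0)
    (fun y => by
      obtain ⟨p, q, -, h⟩ := IsFractionRing.div_surjective (A := MvPolynomial (Fin 2) ℂ) y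
      exact ⟨p, q, h⟩)
    RatFunc.C RatFunc.X RatFunc.X_ne_zero AuxData.ratX
    (fun a => by rw [AuxData.ccF, AuxData.ccK])
    hk m e (AuxData.ccK _) rfl rfl hrelk hk0 m0 e0 hm0 n0 den0 d0 htr hnot
  exact ⟨RatFunc K0, K, inferInstance, iK, inferInstance, iCK, iFK, iT, σ, s, u, r, V, z, h,
    ⟨emb⟩, H⟩

end Pool.Agent.Work.MP_c5a777_ag.Sev

end

section

/-!
# Derivatives of brackets
-/

set_option autoImplicit false
set_option linter.unusedTactic false
set_option linter.unreachableTactic false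

namespace Pool.Agent.Work.MP_c5a777_ag.Sev

namespace AuxDer

section

variable {K : Type*} [Field K]

/-- The constants of a derivation. -/
def kerD (D : Derivation ℤ K K) : Subring K where
  carrier := {x | D x = 0}
  mul_mem' := by
    intro a b ha hb
    change D a = 0 at ha
    change D b = 0 at hb
    change D (a * b) = 0
    rw [Derivation.leibniz, ha, hb, smul_zero, smul_zero, add_zero]
  one_mem' := D.map_one_eq_zero
  add_mem' := by
    intro a b ha hb
    change D a = 0 at ha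
    change D b = 0 at hb
    change D (a + b) = 0
    rw [map_add, ha, hb, add_zero]
  zero_mem' := map_zero D
  neg_mem' := by
    intro a ha
    change D a = 0 at ha
    change D (-a) = 0
    rw [map_neg, ha, neg_zero]

theorem mem_kerD {D : Derivation ℤ K K} {x : K} : x ∈ kerD D ↔ D x = 0 := Iff.rfl

theorem D_sq (D : Derivation ℤ K K) (P : K) : D (P ^ 2) = 2 * P * D P := by
  rw [pow_two, Derivation.leibniz]
  simp only [smul_eq_mul]
  ring

theorem D_mul (D : Derivation ℤ K K) (P Q : K) : D (P * Q) = P * D Q + Q * D P := by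
  rw [Derivation.leibniz]
  simp only [smul_eq_mul]

theorem D_cmul {D : Derivation ℤ K K} {c : K} (hc : c ∈ kerD D) (P : K) :
    D (c * P) = c * D P := by
  rw [D_mul, mem_kerD.1 hc, mul_zero, add_zero]

theorem D_Fc (D : Derivation ℤ K K) (A T0 T1 T2 T3 T4 T5 T6 P Q : K) (hA : A ∈ kerD D)
    (h0 : T0 ∈ kerD D) (h1 : T1 ∈ kerD D) (h2 : T2 ∈ kerD D) (h3 : T3 ∈ kerD D)
    (h4 : T4 ∈ kerD D) (h5 : T5 ∈ kerD D) (h6 : T6 ∈ kerD D) :
    D (Fc A T0 T1 T2 T3 T4 T5 T6 P Q) =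
      FcP A T0 T1 T2 T3 T4 T5 T6 P Q * D P + FcQ A T0 T1 T2 T3 T4 T5 T6 P Q * D Q := by
  have e21 : f21 A T2 T6 ∈ kerD D := by
    unfold f21
    repeat' first
      | with_reducible assumption
      | with_reducible apply add_mem
      | with_reducible apply sub_mem
      | with_reducible apply mul_mem
      | with_reducible apply neg_mem
      | with_reducible apply pow_mem
      | with_reducible apply one_mem
      | with_reducible apply ofNat_mem
  have e12 : f12 A T3 T6 ∈ kerD D := by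
    unfold f12
    repeat' first
      | with_reducible assumption
      | with_reducible apply add_mem
      | with_reducible apply sub_mem
      | with_reducible apply mul_mem
      | with_reducible apply neg_mem
      | with_reducible apply pow_mem
      | with_reducible apply one_mem
      | with_reducible apply ofNat_mem
  have e20 : f20 A T2 T4 T5 ∈ kerD D := by
    unfold f20
    repeat' first
      | with_reducible assumption
      | with_reducible apply add_mem
      | with_reducible apply sub_mem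
      | with_reducible apply mul_mem
      | with_reducible apply neg_mem
      | with_reducible apply pow_mem
      | with_reducible apply one_mem
      | with_reducible apply ofNat_mem
  have e02 : f02 A T0 T1 T3 T6 ∈ kerD D := by
    unfold f02
    repeat' first
      | with_reducible assumption
      | with_reducible apply add_mem
      | with_reducible apply sub_mem
      | with_reducible apply mul_mem
      | with_reducible apply neg_mem
      | with_reducible apply pow_mem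
      | with_reducible apply one_mem
      | with_reducible apply ofNat_mem
  have e11 : f11 A T0 T1 T2 T3 T4 T5 T6 ∈ kerD D := by
    unfold f11
    repeat' first
      | with_reducible assumption
      | with_reducible apply add_mem
      | with_reducible apply sub_mem
      | with_reducible apply mul_mem
      | with_reducible apply neg_mem
      | with_reducible apply pow_mem
      | with_reducible apply one_mem
      | with_reducible apply ofNat_mem
  have e10 : f10 A T0 T1 T2 T3 T4 T5 ∈ kerD D := by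
    unfold f10
    repeat' first
      | with_reducible assumption
      | with_reducible apply add_mem
      | with_reducible apply sub_mem
      | with_reducible apply mul_mem
      | with_reducible apply neg_mem
      | with_reducible apply pow_mem
      | with_reducible apply one_mem
      | with_reducible apply ofNat_mem
  have e01 : f01 A T0 T1 T3 T4 T5 T6 ∈ kerD D := by
    unfold f01
    repeat' first
      | with_reducible assumption
      | with_reducible apply add_mem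
      | with_reducible apply sub_mem
      | with_reducible apply mul_mem
      | with_reducible apply neg_mem
      | with_reducible apply pow_mem
      | with_reducible apply one_mem
      | with_reducible apply ofNat_mem
  have e00 : f00 A T0 T1 T3 T4 T5 ∈ kerD D := by
    unfold f00
    repeat' first
      | with_reducible assumption
      | with_reducible apply add_mem
      | with_reducible apply sub_mem
      | with_reducible apply mul_mem
      | with_reducible apply neg_mem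
      | with_reducible apply pow_mem
      | with_reducible apply one_mem
      | with_reducible apply ofNat_mem
  unfold Fc FcP FcQ
  generalize f21 A T2 T6 = g21 at *
  generalize f12 A T3 T6 = g12 at *
  generalize f20 A T2 T4 T5 = g20 at *
  generalize f02 A T0 T1 T3 T6 = g02 at *
  generalize f11 A T0 T1 T2 T3 T4 T5 T6 = g11 at *
  generalize f10 A T0 T1 T2 T3 T4 T5 = g10 at *
  generalize f01 A T0 T1 T3 T4 T5 T6 = g01 at *
  generalize f00 A T0 T1 T3 T4 T5 = g00 at *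
  rw [map_add, map_add, map_add, map_add, map_add, map_add, map_add, mem_kerD.1 e00,
    D_cmul e01, D_cmul e10, D_cmul e02, D_cmul e20, D_sq, D_sq, mul_assoc g11, D_cmul e11,
    D_mul D P Q, mul_assoc g21, D_cmul e21, mul_assoc g12, D_cmul e12, D_mul D (P ^ 2) Q,
    D_mul D P (Q ^ 2), D_sq, D_sq]
  ring

theorem D_quartic {D : Derivation ℤ K K} {b s q3 q2 q1 q0 r : K} (hb : b ∈ kerD D)
    (h3 : q3 ∈ kerD D) (h2 : q2 ∈ kerD D) (h1 : q1 ∈ kerD D) (h0 : q0 ∈ kerD D)
    (hs : s ^ 2 = b ^ 2 * r ^ 4 + q3 * r ^ 3 + q2 * r ^ 2 + q1 * r + q0) :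
    2 * s * D s = (4 * b ^ 2 * r ^ 3 + 3 * q3 * r ^ 2 + 2 * q2 * r + q1) * D r := by
  have e := congrArg D hs
  have r3 : D (r ^ 3) = 3 * r ^ 2 * D r := by
    rw [show r ^ 3 = r * r ^ 2 by ring, D_mul, D_sq]
    ring
  have r4 : D (r ^ 4) = 4 * r ^ 3 * D r := by
    rw [show r ^ 4 = r * r ^ 3 by ring, D_mul, r3]
    ring
  have hb2 : b ^ 2 ∈ kerD D := pow_mem hb 2
  rw [D_sq, map_add, map_add, map_add, map_add, mem_kerD.1 h0, D_cmul h1, D_cmul h2, D_cmul h3,
    D_cmul hb2, r3, r4, D_sq] at e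
  rw [e]
  ring

theorem D_x {D : Derivation ℤ K K} {b s q3 q2 q1 q0 r : K} (hb : b ∈ kerD D)
    (h3 : q3 ∈ kerD D) (h2 : q2 ∈ kerD D) (h1 : q1 ∈ kerD D) (h0 : q0 ∈ kerD D)
    (hs : s ^ 2 = b ^ 2 * r ^ 4 + q3 * r ^ 3 + q2 * r ^ 2 + q1 * r + q0) :
    3 * s * D (18 * b ^ 2 * r ^ 2 - 18 * b * s + 9 * q3 * r + 3 * q2) =
      (27 * ((4 * b ^ 2 * r + q3) * s - b * (4 * b ^ 2 * r ^ 3 + 3 * q3 * r ^ 2 + 2 * q2 * r +
        q1))) * D r := by
  have e := D_quartic hb h3 h2 h1 h0 hs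
  have k1 : 18 * b ^ 2 ∈ kerD D := by
    repeat' first
      | with_reducible assumption
      | with_reducible apply add_mem
      | with_reducible apply sub_mem
      | with_reducible apply mul_mem
      | with_reducible apply neg_mem
      | with_reducible apply pow_mem
      | with_reducible apply one_mem
      | with_reducible apply ofNat_mem
  have k2 : 18 * b ∈ kerD D := by
    repeat' first
      | with_reducible assumption
      | with_reducible apply add_mem
      | with_reducible apply sub_mem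
      | with_reducible apply mul_mem
      | with_reducible apply neg_mem
      | with_reducible apply pow_mem
      | with_reducible apply one_mem
      | with_reducible apply ofNat_mem
  have k3 : 9 * q3 ∈ kerD D := by
    repeat' first
      | with_reducible assumption
      | with_reducible apply add_mem
      | with_reducible apply sub_mem
      | with_reducible apply mul_mem
      | with_reducible apply neg_mem
      | with_reducible apply pow_mem
      | with_reducible apply one_mem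
      | with_reducible apply ofNat_mem
  have k4 : 3 * q2 ∈ kerD D := by
    repeat' first
      | with_reducible assumption
      | with_reducible apply add_mem
      | with_reducible apply sub_mem
      | with_reducible apply mul_mem
      | with_reducible apply neg_mem
      | with_reducible apply pow_mem
      | with_reducible apply one_mem
      | with_reducible apply ofNat_mem
  rw [map_add, map_add, map_sub, D_cmul k1, D_cmul k2, D_cmul k3, mem_kerD.1 k4, D_sq]
  linear_combination (-27 * b) * e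

theorem D_y {D : Derivation ℤ K K} {b s q3 q2 q1 q0 r : K} (hb : b ∈ kerD D)
    (h3 : q3 ∈ kerD D) (h2 : q2 ∈ kerD D) (h1 : q1 ∈ kerD D) (h0 : q0 ∈ kerD D)
    (hs : s ^ 2 = b ^ 2 * r ^ 4 + q3 * r ^ 3 + q2 * r ^ 2 + q1 * r + q0) :
    6 * s * D (27 * ((4 * b ^ 2 * r + q3) * s - b * (4 * b ^ 2 * r ^ 3 + 3 * q3 * r ^ 2 +
        2 * q2 * r + q1))) =
      (3 * (18 * b ^ 2 * r ^ 2 - 18 * b * s + 9 * q3 * r + 3 * q2) ^ 2 -
        27 * (12 * b ^ 2 * q0 - 3 * q3 * q1 + q2 ^ 2)) * D r := by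
  have e := D_quartic hb h3 h2 h1 h0 hs
  have k1 : 4 * b ^ 2 ∈ kerD D := by
    repeat' first
      | with_reducible assumption
      | with_reducible apply add_mem
      | with_reducible apply sub_mem
      | with_reducible apply mul_mem
      | with_reducible apply neg_mem
      | with_reducible apply pow_mem
      | with_reducible apply one_mem
      | with_reducible apply ofNat_mem
  have k2 : 3 * q3 ∈ kerD D := by
    repeat' first
      | with_reducible assumption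
      | with_reducible apply add_mem
      | with_reducible apply sub_mem
      | with_reducible apply mul_mem
      | with_reducible apply neg_mem
      | with_reducible apply pow_mem
      | with_reducible apply one_mem
      | with_reducible apply ofNat_mem
  have k3 : 2 * q2 ∈ kerD D := by
    repeat' first
      | with_reducible assumption
      | with_reducible apply add_mem
      | with_reducible apply sub_mem
      | with_reducible apply mul_mem
      | with_reducible apply neg_mem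
      | with_reducible apply pow_mem
      | with_reducible apply one_mem
      | with_reducible apply ofNat_mem
  have k27 : (27 : K) ∈ kerD D := ofNat_mem _ 27
  have r3 : D (r ^ 3) = 3 * r ^ 2 * D r := by
    rw [show r ^ 3 = r * r ^ 2 by ring, D_mul, D_sq]
    ring
  rw [D_cmul k27, map_sub, D_mul D _ s, map_add, D_cmul k1, mem_kerD.1 h3, D_cmul hb, map_add,
    map_add, map_add, mem_kerD.1 h1, D_cmul k3, D_cmul k2, D_cmul k1, D_sq, r3]
  linear_combination (81 * (4 * b ^ 2 * r + q3)) * e - 324 * b ^ 2 * D r * hs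

theorem s7 {R : Type*} [CommRing R] (X Y : R) : X ^ 7 + Y ^ 7 = (X + Y) ^ 7 -
    7 * (X * Y) * (X + Y) ^ 5 + 14 * (X * Y) ^ 2 * (X + Y) ^ 3 - 7 * (X * Y) ^ 3 * (X + Y) := by
  ring

theorem mem_q {D : Derivation ℤ K K} {h A t w : K} (kh : h ∈ kerD D) (kA : A ∈ kerD D)
    (kt : t ∈ kerD D) (kw : w ∈ kerD D) : qb h A t ∈ kerD D ∧ 2 * q3 h A t w ∈ kerD D ∧
      2 * q2 h A t w ∈ kerD D ∧ 4 * q1 h A t w ∈ kerD D ∧ q0 h A t w ∈ kerD D := by
  refine ⟨?_, ?_, ?_, ?_, ?_⟩
  · unfold qb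
    repeat' first
      | with_reducible assumption
      | with_reducible apply add_mem
      | with_reducible apply sub_mem
      | with_reducible apply mul_mem
      | with_reducible apply neg_mem
      | with_reducible apply pow_mem
      | with_reducible apply one_mem
      | with_reducible apply ofNat_mem
  · unfold q3
    repeat' first
      | with_reducible assumption
      | with_reducible apply add_mem
      | with_reducible apply sub_mem
      | with_reducible apply mul_mem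
      | with_reducible apply neg_mem
      | with_reducible apply pow_mem
      | with_reducible apply one_mem
      | with_reducible apply ofNat_mem
  · unfold q2
    repeat' first
      | with_reducible assumption
      | with_reducible apply add_mem
      | with_reducible apply sub_mem
      | with_reducible apply mul_mem
      | with_reducible apply neg_mem
      | with_reducible apply pow_mem
      | with_reducible apply one_mem
      | with_reducible apply ofNat_mem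
  · unfold q1
    repeat' first
      | with_reducible assumption
      | with_reducible apply add_mem
      | with_reducible apply sub_mem
      | with_reducible apply mul_mem
      | with_reducible apply neg_mem
      | with_reducible apply pow_mem
      | with_reducible apply one_mem
      | with_reducible apply ofNat_mem
  · unfold q0
    repeat' first
      | with_reducible assumption
      | with_reducible apply add_mem
      | with_reducible apply sub_mem
      | with_reducible apply mul_mem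
      | with_reducible apply neg_mem
      | with_reducible apply pow_mem
      | with_reducible apply one_mem
      | with_reducible apply ofNat_mem

end

end AuxDer

open AuxDer in
theorem pr_Der (h1 : StCorner) (h2 : StRelK) (h3 : StSq) (h4 : StPer) : StDer := by
  intro K _ _ z h V hz hh hg D hDz hDA hDX hDY k
  have hr := rel_of_z hz hh
  have h7 := z_seven hz
  have kz : z ∈ kerD D := hDz
  have kA : AV z h V ∈ kerD D := hDA
  have kX : XV z h V ∈ kerD D := hDX
  have kY : YV z h V ∈ kerD D := hDY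
  have kh : h ∈ kerD D := by
    rw [hh]
    exact add_mem kz (pow_mem kz 6)
  have kT : ∀ i, Tk V z i ∈ kerD D := by
    intro i
    rw [(h1 K z h V hz hh hg).1 i]
    exact add_mem (mul_mem (pow_mem kz _) kX) (mul_mem (pow_mem kz _) kY)
  have kw : wV z h V ∈ kerD D := mul_mem kX kY
  constructor
  · have e := (h2 K z h V hz hh hg (k + 3)).1
    have e' := (h2 K z h V hz hh hg (k + 3)).2
    have hb : bk V z (k + 3 + 4) = bk V z k := (h4 K z h V h7 k).2.1
    rw [hb] at e e'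
    have eD := congrArg D e
    rw [D_Fc D _ _ _ _ _ _ _ _ _ _ kA (kT _) (kT _) (kT _) (kT _) (kT _) (kT _) (kT _),
      map_zero] at eD
    have es : sk V z h k = FcP (AV z h V) (Tk V z (k + 3)) (Tk V z (k + 3 + 1))
      (Tk V z (k + 3 + 2)) (Tk V z (k + 3 + 3)) (Tk V z (k + 3 + 4)) (Tk V z (k + 3 + 5))
      (Tk V z (k + 3 + 6)) (bk V z (k + 3)) (bk V z k) := rfl
    rw [← es] at eD
    rw [e']
    linear_combination eD
  · intro _
    have hS := h3 K z h V hz hh hg k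
    unfold Gq at hS
    have kt := kT (k + 4)
    obtain ⟨kb, k3, k2, k1, k0⟩ := mem_q kh kA kt kw
    have ex := D_x kb k3 k2 k1 k0 hS
    have ey := D_y kb k3 k2 k1 k0 hS
    have hI := inv_I h (AV z h V) (Tk V z (k + 4)) (wV z h V) hr
    have hs7 : Tk V z (k + 4) ^ 7 - 7 * wV z h V * Tk V z (k + 4) ^ 5 +
        14 * wV z h V ^ 2 * Tk V z (k + 4) ^ 3 - 7 * wV z h V ^ 3 * Tk V z (k + 4) =
        SV z h V := by
      have hz7 : ∀ n : ℕ, (z ^ n) ^ 7 = 1 := by
        intro n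
        rw [← pow_mul, mul_comm, pow_mul, h7, one_pow]
      have ew : wV z h V = (z ^ (k + 4 + 6) * XV z h V) * (z ^ (6 * (k + 4 + 6)) * YV z h V) := by
        have : z ^ (k + 4 + 6) * z ^ (6 * (k + 4 + 6)) = 1 := by
          rw [← pow_add, show k + 4 + 6 + 6 * (k + 4 + 6) = 7 * (k + 4 + 6) by ring, pow_mul, h7,
            one_pow]
        unfold wV
        linear_combination (-(XV z h V * YV z h V)) * this
      have eS : SV z h V = (z ^ (k + 4 + 6) * XV z h V) ^ 7 +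
          (z ^ (6 * (k + 4 + 6)) * YV z h V) ^ 7 := by
        rw [mul_pow, mul_pow, hz7, hz7, one_mul, one_mul]
        rfl
      rw [eS, s7, ← ew, ← (h1 K z h V hz hh hg).1 (k + 4)]
    rw [hs7] at hI
    rw [hI] at ey
    have er : D (rk V z k) = 2 * D (bk V z k) := by
      have c2 : (2 : K) ∈ kerD D := ofNat_mem _ 2
      unfold rk
      rw [map_sub, map_add, mem_kerD.1 (kT _), mem_kerD.1 (kT _), D_cmul c2, sub_zero, add_zero]
    rw [er] at ex ey
    have c4 : (4 : K)⁻¹ ∈ kerD D := by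
      rw [mem_kerD, Derivation.leibniz_inv]
      have : D (4 : K) = 0 := mem_kerD.1 (ofNat_mem _ 4)
      rw [this, smul_zero]
    have c8 : (8 : K)⁻¹ ∈ kerD D := by
      rw [mem_kerD, Derivation.leibniz_inv]
      have : D (8 : K) = 0 := mem_kerD.1 (ofNat_mem _ 8)
      rw [this, smul_zero]
    constructor
    · unfold xk yk
      rw [div_eq_inv_mul, D_cmul c4]
      linear_combination (1 / 8 : K) * ex
    · unfold xk yk
      rw [div_eq_inv_mul (27 * _) 8, D_cmul c8]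
      linear_combination (1 / 32 : K) * ey

end Pool.Agent.Work.MP_c5a777_ag.Sev

end

section

/-!
# A derivation which kills the constants but no bracket
-/

set_option autoImplicit false

namespace Pool.Agent.Work.MP_c5a777_ag.Sev

namespace AuxDeriv

/-- The relative algebraic closure of the subfield generated by two elements. -/
noncomputable def EE (K : Type) [Field K] [Algebra ℂ K] (S : Set K) : Subfield K :=
  (algebraicClosure (IntermediateField.adjoin ℂ S) K).toSubfield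

theorem mem_EE {K : Type} [Field K] [Algebra ℂ K] {S : Set K} {x : K} :
    x ∈ EE K S ↔ IsAlgebraic (IntermediateField.adjoin ℂ S) x := by
  unfold EE
  rw [IntermediateField.mem_toSubfield]
  exact mem_algebraicClosure_iff

theorem EE_closed {K : Type} [Field K] [Algebra ℂ K] {S : Set K} (x : K)
    (hx : IsAlgebraic (EE K S) x) : x ∈ EE K S := by
  rw [mem_EE]
  have hx2 : IsAlgebraic (algebraicClosure (IntermediateField.adjoin ℂ S) K) x := hx
  exact hx2.restrictScalars (IntermediateField.adjoin ℂ S)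

theorem EE_base {K : Type} [Field K] [Algebra ℂ K] {S : Set K} (x : K)
    (hx : x ∈ IntermediateField.adjoin ℂ S) : x ∈ EE K S := by
  rw [mem_EE]
  exact isAlgebraic_algebraMap (⟨x, hx⟩ : IntermediateField.adjoin ℂ S)

theorem EE_const {K : Type} [Field K] [Algebra ℂ K] {S : Set K} (a : ℂ) :
    algebraMap ℂ K a ∈ EE K S :=
  EE_base _ ((IntermediateField.adjoin ℂ S).algebraMap_mem a)

theorem EE_mem {K : Type} [Field K] [Algebra ℂ K] {S : Set K} (x : K) (hx : x ∈ S) :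
    x ∈ EE K S :=
  EE_base _ (IntermediateField.subset_adjoin ℂ S hx)

/-- The bracket is not in the relative algebraic closure. -/
theorem not_mem {K : Type} [Field K] [Algebra ℂ K] (a b c : K)
    (h : AlgebraicIndependent ℂ ![a, b, c]) : c ∉ EE K {a, b} := by
  intro hc
  rw [mem_EE] at hc
  have h1 : Transcendental (Algebra.adjoin ℂ ((![a, b, c] : Fin 3 → K) '' {0, 1}))
      ((![a, b, c] : Fin 3 → K) 2) :=
    h.transcendental_adjoin (s := {0, 1}) (i := 2) (by decide)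
  have h2 : (![a, b, c] : Fin 3 → K) '' {0, 1} = {a, b} := by
    rw [Set.image_pair]
    rfl
  rw [h2] at h1
  exact (IntermediateField.transcendental_adjoin_iff.mpr h1) hc

/-- A root of a quartic with nonzero leading coefficient over a relatively algebraically closed
subfield lies in the subfield. -/
theorem quartic_mem {K : Type} [Field K] (E : Subfield K)
    (hE : ∀ x : K, IsAlgebraic E x → x ∈ E) (c4 c3 c2 c1 c0 x : K) (h4 : c4 ∈ E) (h3 : c3 ∈ E)
    (h2 : c2 ∈ E) (h1 : c1 ∈ E) (h0 : c0 ∈ E) (hne : c4 ≠ 0)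
    (hx : c4 * x ^ 4 + c3 * x ^ 3 + c2 * x ^ 2 + c1 * x + c0 = 0) : x ∈ E := by
  apply hE
  refine ⟨Polynomial.C (⟨c4, h4⟩ : E) * Polynomial.X ^ 4 +
    Polynomial.C (⟨c3, h3⟩ : E) * Polynomial.X ^ 3 +
    Polynomial.C (⟨c2, h2⟩ : E) * Polynomial.X ^ 2 +
    Polynomial.C (⟨c1, h1⟩ : E) * Polynomial.X + Polynomial.C (⟨c0, h0⟩ : E), ?_, ?_⟩
  · intro hp
    have := congrArg (fun p => Polynomial.coeff p 4) hp
    simp [Polynomial.coeff_X, Polynomial.coeff_C] at this
    exact hne (congrArg Subtype.val this)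
  · simp only [map_add, map_mul, map_pow, Polynomial.aeval_C, Polynomial.aeval_X]
    exact hx

/-- Periodicity, iterated. -/
theorem per_iter {K : Type} (f : ℕ → K) (h : ∀ k, f (k + 7) = f k) (k m : ℕ) :
    f (k + 7 * m) = f k := by
  induction m with
  | zero => rfl
  | succ n ih =>
    rw [show k + 7 * (n + 1) = (k + 7 * n) + 7 by ring, h, ih]

theorem qb_mem {K : Type} [Field K] (E : Subfield K) (h A t : K) (hh : h ∈ E) (hA : A ∈ E)
    (ht : t ∈ E) : qb h A t ∈ E := by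
  have e : ((qb (⟨h, hh⟩ : E) ⟨A, hA⟩ ⟨t, ht⟩ : E) : K) = qb h A t := by
    unfold qb
    push_cast
    rfl
  rw [← e]
  exact Subtype.property _

theorem q3_mem {K : Type} [Field K] (E : Subfield K) (h A t w : K) (hh : h ∈ E) (hA : A ∈ E)
    (ht : t ∈ E) (hw : w ∈ E) : q3 h A t w ∈ E := by
  have e : ((q3 (⟨h, hh⟩ : E) ⟨A, hA⟩ ⟨t, ht⟩ ⟨w, hw⟩ : E) : K) = q3 h A t w := by
    unfold q3
    push_cast
    rfl
  rw [← e]
  exact Subtype.property _

theorem q2_mem {K : Type} [Field K] (E : Subfield K) (h A t w : K) (hh : h ∈ E) (hA : A ∈ E)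
    (ht : t ∈ E) (hw : w ∈ E) : q2 h A t w ∈ E := by
  have e : ((q2 (⟨h, hh⟩ : E) ⟨A, hA⟩ ⟨t, ht⟩ ⟨w, hw⟩ : E) : K) = q2 h A t w := by
    unfold q2
    push_cast
    rfl
  rw [← e]
  exact Subtype.property _

theorem q1_mem {K : Type} [Field K] (E : Subfield K) (h A t w : K) (hh : h ∈ E) (hA : A ∈ E)
    (ht : t ∈ E) (hw : w ∈ E) : q1 h A t w ∈ E := by
  have e : ((q1 (⟨h, hh⟩ : E) ⟨A, hA⟩ ⟨t, ht⟩ ⟨w, hw⟩ : E) : K) = q1 h A t w := by
    unfold q1
    push_cast
    rfl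
  rw [← e]
  exact Subtype.property _

theorem q0_mem {K : Type} [Field K] (E : Subfield K) (h A t w : K) (hh : h ∈ E) (hA : A ∈ E)
    (ht : t ∈ E) (hw : w ∈ E) : q0 h A t w ∈ E := by
  have e : ((q0 (⟨h, hh⟩ : E) ⟨A, hA⟩ ⟨t, ht⟩ ⟨w, hw⟩ : E) : K) = q0 h A t w := by
    unfold q0
    push_cast
    rfl
  rw [← e]
  exact Subtype.property _

end AuxDeriv

open AuxDeriv

theorem pr_Deriv (h1 : StIndep) (h2 : StDerEx) (h3 : StDerAlg) (h4 : StDer) (h5 : StSq)
    (h6 : StPer) (h7 : StEqui) (h8 : StCorner) : StDeriv := by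
  intro F K _ _ _ _ _ _ z0 σ s u r V z h H
  haveI : CharZero K := charZero_of_injective_algebraMap (algebraMap ℂ K).injective
  obtain ⟨htr, hz0, hz, hh, hu, hs, hfix, hσ, equi, good, hA, hX, hY, gen⟩ := id H
  have hz7 : z ^ 7 = 1 := by
    rw [hz, ← map_pow, hz0.pow_eq_one, map_one]
  have hz1 : z ≠ 1 := by
    rw [hz]
    intro hc
    have : z0 = 1 := (algebraMap ℂ K).injective (by rw [hc, map_one])
    exact hz0.ne_one (by norm_num) this
  have hcyc : z ^ 6 + z ^ 5 + z ^ 4 + z ^ 3 + z ^ 2 + z + 1 = 0 := by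
    have : (z - 1) * (z ^ 6 + z ^ 5 + z ^ 4 + z ^ 3 + z ^ 2 + z + 1) = 0 := by
      linear_combination hz7
    rcases mul_eq_zero.mp this with h | h
    · exact absurd (sub_eq_zero.mp h) hz1
    · exact h
  have hs0 : s ≠ 0 := by
    rintro rfl
    have h0 : algebraMap F K u = 0 := by
      rw [← hs]
      norm_num
    exact hu ((map_eq_zero _).mp h0)
  set E : Subfield K := EE K {s, algebraMap F K r} with hEdef
  have hEcl : ∀ x : K, IsAlgebraic E x → x ∈ E := fun x hx => EE_closed x hx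
  have hsE : s ∈ E := EE_mem _ (by simp)
  have hrE : algebraMap F K r ∈ E := EE_mem _ (by simp)
  have hzE : z ∈ E := by
    rw [hz]
    exact EE_const z0
  have hhE : h ∈ E := by
    rw [hh]
    exact E.add_mem hzE (E.pow_mem hzE 6)
  have hnE : ∀ n : ℕ, (n : K) ∈ E := fun n => natCast_mem E n
  have h5E : (5 : K) ∈ E := by
    have := hnE 5
    exact_mod_cast this
  have hAE : AV z h V ∈ E := by
    rw [hA]
    exact E.pow_mem hsE 7
  have hXE : XV z h V ∈ E := by
    rw [hX]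
    exact E.mul_mem (E.mul_mem h5E (E.pow_mem hsE 4)) (E.add_mem E.one_mem (E.pow_mem hsE 7))
  have hYE : YV z h V ∈ E := by
    rw [hY]
    exact E.mul_mem (E.mul_mem h5E (E.pow_mem hsE 3)) hrE
  have hwE : wV z h V ∈ E := E.mul_mem hXE hYE
  obtain ⟨hT, -⟩ := h8 K z h V hcyc hh good
  have hTE : ∀ k, Tk V z k ∈ E := by
    intro k
    rw [hT k]
    exact E.add_mem (E.mul_mem (E.pow_mem hzE _) hXE) (E.mul_mem (E.pow_mem hzE _) hYE)
  have hb4 : bk V z 4 ∉ E := not_mem _ _ _ (h1 F K z0 σ s u r V z h H)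
  obtain ⟨D, hDE, hDb⟩ := h2 K E hEcl (bk V z 4) hb4
  have hDer := h4 K z h V hcyc hh good D (hDE _ hzE) (hDE _ hAE) (hDE _ hXE) (hDE _ hYE)
  have hPer := h6 K z h V hz7
  obtain ⟨eA, -, -, -, -, eK⟩ := h7 K (σ : K →+* K) z h V hz7 hh equi
  have hσh : (σ : K →+* K) h = h := by
    rw [hh, map_add, map_pow, equi.z0]
  -- the leading coefficient
  have hqb : ∀ j, qb h (AV z h V) (Tk V z j) ≠ 0 := by
    intro j hj
    have hstep : ∀ i : ℕ, qb h (AV z h V) (Tk V z (j + i)) = 0 := by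
      intro i
      induction i with
      | zero => exact hj
      | succ n ih =>
        have h9 := congrArg (σ : K →+* K) ih
        unfold qb at h9 ⊢
        rw [map_zero, map_add, map_mul, map_sub, map_pow, hσh, eA, (eK (j + n)).1] at h9
        have h10 : (σ : K →+* K) 2 = 2 := map_ofNat _ 2
        rw [h10] at h9
        exact h9
    have hsum : Tk V z j + Tk V z (j + 1) + Tk V z (j + 2) + Tk V z (j + 3) + Tk V z (j + 4) +
        Tk V z (j + 5) + Tk V z (j + 6) = 0 := by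
      rw [hT, hT, hT, hT, hT, hT, hT]
      have e1 : z ^ (j + 6) * (z ^ 6 + z ^ 5 + z ^ 4 + z ^ 3 + z ^ 2 + z + 1) = 0 := by
        rw [hcyc, mul_zero]
      have e2 : z ^ (6 * (j + 6)) * ((z ^ 6) ^ 6 + (z ^ 6) ^ 5 + (z ^ 6) ^ 4 + (z ^ 6) ^ 3 +
          (z ^ 6) ^ 2 + z ^ 6 + 1) = 0 := by
        have : (z ^ 6) ^ 6 + (z ^ 6) ^ 5 + (z ^ 6) ^ 4 + (z ^ 6) ^ 3 +
          (z ^ 6) ^ 2 + z ^ 6 + 1 = 0 := by
          linear_combination hcyc + (z * (z ^ 28 + z ^ 21 + z ^ 14 + z ^ 7 + 1) +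
            z ^ 2 * (z ^ 21 + z ^ 14 + z ^ 7 + 1) + z ^ 3 * (z ^ 14 + z ^ 7 + 1) +
            z ^ 4 * (z ^ 7 + 1) + z ^ 5) * hz7
        rw [this, mul_zero]
      linear_combination XV z h V * e1 + YV z h V * e2
    have h0 := hstep 0
    have g1 := hstep 1
    have g2 := hstep 2
    have g3 := hstep 3
    have g4 := hstep 4
    have g5 := hstep 5
    have g6 := hstep 6
    unfold qb at h0 g1 g2 g3 g4 g5 g6
    have h7A : 7 * AV z h V = 0 := by
      linear_combination h0 + g1 + g2 + g3 + g4 + g5 + g6 - (2 - h ^ 2) * hsum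
    rw [hA] at h7A
    have : s ^ 7 = 0 := by
      rcases mul_eq_zero.mp h7A with h | h
      · norm_num at h
      · exact h
    exact hs0 (pow_eq_zero_iff (by norm_num) |>.mp this)
  have hs4 : sk V z h 4 ≠ 0 := by
    intro hc
    have hq := h5 K z h V hcyc hh good 4
    rw [hc] at hq
    have h2E : (2 : K) ∈ E := by
      have := hnE 2
      exact_mod_cast this
    have h4E : (4 : K) ∈ E := by
      have := hnE 4
      exact_mod_cast this
    have hmem : rk V z 4 ∈ E := by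
      refine quartic_mem E hEcl (qb h (AV z h V) (Tk V z (4 + 4)) ^ 2)
        (2 * q3 h (AV z h V) (Tk V z (4 + 4)) (wV z h V))
        (2 * q2 h (AV z h V) (Tk V z (4 + 4)) (wV z h V))
        (4 * q1 h (AV z h V) (Tk V z (4 + 4)) (wV z h V))
        (q0 h (AV z h V) (Tk V z (4 + 4)) (wV z h V)) _ ?_ ?_ ?_ ?_ ?_
        (pow_ne_zero 2 (hqb _)) ?_
      · exact E.pow_mem (qb_mem E _ _ _ hhE hAE (hTE _)) 2
      · exact E.mul_mem h2E (q3_mem E _ _ _ _ hhE hAE (hTE _) hwE)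
      · exact E.mul_mem h2E (q2_mem E _ _ _ _ hhE hAE (hTE _) hwE)
      · exact E.mul_mem h4E (q1_mem E _ _ _ _ hhE hAE (hTE _) hwE)
      · exact q0_mem E _ _ _ _ hhE hAE (hTE _) hwE
      · have hq2 := hq.symm
        unfold Gq at hq2
        rw [hq2]
        ring
    apply hb4
    have hb : bk V z 4 = (rk V z 4 - Tk V z (4 + 1) + Tk V z 4) / 2 := by
      unfold rk
      ring
    rw [hb]
    exact E.div_mem (E.add_mem (E.sub_mem hmem (hTE _)) (hTE _)) h2E
  have hsk4 : ∀ j : ℕ, sk V z h (4 + j) ≠ 0 := by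
    intro j
    induction j with
    | zero => exact hs4
    | succ n ih =>
      have e := (eK (4 + n)).2.2.1
      rw [show 4 + (n + 1) = 4 + n + 1 by ring, ← e]
      exact (map_ne_zero _).mpr ih
  have hsk : ∀ k : ℕ, sk V z h k ≠ 0 := by
    intro k
    rw [← (hPer k).2.2.1, show k + 7 = 4 + (k + 3) by ring]
    exact hsk4 _
  have hδ : D (bk V z 4) / sk V z h 4 ≠ 0 := div_ne_zero hDb hs4
  have hmain : ∀ j : ℕ, D (bk V z (4 + 3 * j)) =
      D (bk V z 4) / sk V z h 4 * sk V z h (4 + 3 * j) := by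
    intro j
    induction j with
    | zero => exact (div_mul_cancel₀ _ hs4).symm
    | succ n ih =>
      have e := (hDer (4 + 3 * n)).1
      rw [ih] at e
      rw [show 4 + 3 * (n + 1) = 4 + 3 * n + 3 by ring]
      apply mul_left_cancel₀ (hsk (4 + 3 * n))
      rw [e]
      ring
  refine ⟨D, D (bk V z 4) / sk V z h 4, hδ, ?_, ?_⟩
  · intro x hx
    exact hDE x (mem_EE.mpr hx)
  · intro k
    refine ⟨hsk k, ?_⟩
    have e := hmain (5 * k + 1)
    rw [show 4 + 3 * (5 * k + 1) = k + 7 * (2 * k + 1) by ring] at e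
    rw [per_iter (fun k => bk V z k) (fun k => (hPer k).2.1) k (2 * k + 1),
      per_iter (fun k => sk V z h k) (fun k => (hPer k).2.2.1) k (2 * k + 1)] at e
    exact e

end Pool.Agent.Work.MP_c5a777_ag.Sev

end

section

/-!
# The functions s, r and one bracket are algebraically independent
-/

set_option autoImplicit false

namespace Pool.Agent.Work.MP_c5a777_ag.Sev

namespace AuxIndep

/-- The relative algebraic closure is relatively algebraically closed. -/
theorem mem_acl {L K : Type*} [Field L] [Field K] [Algebra L K] (x : K)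
    (hx : IsAlgebraic (algebraicClosure L K).toSubfield x) :
    x ∈ (algebraicClosure L K).toSubfield := by
  have h1 : IsAlgebraic (algebraicClosure L K) x := hx
  have h2 : IsIntegral L x := isIntegral_trans x h1.isIntegral
  have h3 : IsAlgebraic L x := h2.isAlgebraic
  have h4 : x ∈ algebraicClosure L K := mem_algebraicClosure_iff.2 h3
  exact h4

theorem cyclo {z0 : ℂ} (h : IsPrimitiveRoot z0 7) :
    z0 ^ 6 + z0 ^ 5 + z0 ^ 4 + z0 ^ 3 + z0 ^ 2 + z0 + 1 = 0 := by
  have h1 := h.geom_sum_eq_zero (by norm_num)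
  simp only [Finset.sum_range_succ, Finset.sum_range_zero] at h1
  linear_combination h1

end AuxIndep

open AuxIndep in
theorem pr_Indep (h1 : StStep) (h2 : StFourier) (h3 : StTrdeg) : StIndep := by
  intro F K _ _ _ _ _ _ z0 σ s u r V z h hp
  have : CharZero K := charZero_of_injective_algebraMap (algebraMap ℂ K).injective
  have hz : z ^ 6 + z ^ 5 + z ^ 4 + z ^ 3 + z ^ 2 + z + 1 = 0 := by
    rw [hp.hz]
    have := congrArg (algebraMap ℂ K) (cyclo hp.hz0)
    simpa using this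
  have hs0 : s ≠ 0 := by
    intro h0
    apply hp.hu
    have h5 := hp.hs
    rw [h0, zero_pow (by norm_num)] at h5
    exact (algebraMap F K).injective (by rw [← h5, map_zero])
  have hA0 : AV z h V ≠ 0 := by
    rw [hp.hA]
    exact pow_ne_zero _ hs0
  apply h3 K hp.htr
  set M := IntermediateField.adjoin ℂ ({s, algebraMap F K r, bk V z 4} : Set K) with hM
  set N := IntermediateField.adjoin ℂ ({s, algebraMap F K r} : Set K) with hN
  have hME : ∀ x ∈ M, x ∈ (algebraicClosure M K).toSubfield := by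
    intro x hx
    exact (algebraicClosure M K).algebraMap_mem ⟨x, hx⟩
  have hNM : N ≤ M := by
    apply IntermediateField.adjoin.mono
    intro x hx
    simp only [Set.mem_insert_iff, Set.mem_singleton_iff] at hx ⊢
    tauto
  have hsN : s ∈ N := IntermediateField.subset_adjoin _ _ (by simp)
  have hrN : algebraMap F K r ∈ N := IntermediateField.subset_adjoin _ _ (by simp)
  have hbM : bk V z 4 ∈ M := IntermediateField.subset_adjoin _ _ (by simp)
  have hcN : ∀ a : ℂ, algebraMap ℂ K a ∈ N := fun a => N.algebraMap_mem a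
  have hzN : z ∈ N := by rw [hp.hz]; exact hcN z0
  have hnN : ∀ n : ℕ, (n : K) ∈ N := fun n => natCast_mem N n
  have h5N : (5 : K) ∈ N := by exact_mod_cast hnN 5
  have hAN : AV z h V ∈ N := by
    rw [hp.hA]
    exact pow_mem hsN 7
  have hXN : XV z h V ∈ N := by
    rw [hp.hX]
    exact mul_mem (mul_mem h5N (pow_mem hsN 4)) (add_mem (one_mem N) (pow_mem hsN 7))
  have hYN : YV z h V ∈ N := by
    rw [hp.hY]
    exact mul_mem (mul_mem h5N (pow_mem hsN 3)) hrN
  have hσN : ∀ x ∈ N, σ x ∈ N := by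
    have h6 : N ≤ N.comap (σ.restrictScalars ℂ).toAlgHom := by
      rw [hN, IntermediateField.adjoin_le_iff]
      intro x hx
      simp only [Set.mem_insert_iff, Set.mem_singleton_iff] at hx
      rcases hx with rfl | rfl
      · show σ x ∈ N
        rw [hp.hσ]
        exact mul_mem (pow_mem hzN 2) hsN
      · show σ (algebraMap F K r) ∈ N
        rw [σ.commutes]
        exact hrN
    intro x hx
    exact h6 hx
  have hb : ∀ k : ℕ, bk V z k ∈ (algebraicClosure M K).toSubfield :=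
    h1 K (σ : K →+* K) z h V hz hp.hh hp.good hp.equi hA0 N.toSubfield
      (algebraicClosure M K).toSubfield (fun x hx => hME x (hNM hx)) hzN hAN hXN hYN hσN
      (fun x hx => mem_acl x hx) (hME _ hbM)
  obtain ⟨e1, e2, e3, e4, e5⟩ := h2 K z h V hz hp.hh hp.good (algebraicClosure M K).toSubfield
    (hME _ (hNM hzN)) (hME _ (hNM hAN)) (hME _ (hNM hXN)) (hME _ (hNM hYN)) hb
  have htop := hp.gen (algebraicClosure M K).toSubfield (fun x hx => mem_acl x hx)
    (fun a => hME _ (hNM (hcN a))) (hME _ (hNM hsN)) e1 e2 e3 e4 e5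
  constructor
  intro x
  have h7 : x ∈ (algebraicClosure M K).toSubfield := by rw [htop]; trivial
  exact mem_algebraicClosure_iff.1 h7

end Pool.Agent.Work.MP_c5a777_ag.Sev

end

section

set_option autoImplicit false

/-!
# The curve is nonsingular at the generic point
-/

namespace Pool.Agent.Work.MP_c5a777_ag.Sev

namespace AuxNonsing

theorem map_disc {R S : Type*} [CommRing R] [CommRing S] (φ : R →+* S) (h c u r : R) :
    φ (4 * II h u (wf c u r) (Sf c u r) ^ 3 - JJ h u (wf c u r) (Sf c u r) ^ 2) =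
      4 * II (φ h) (φ u) (wf (φ c) (φ u) (φ r)) (Sf (φ c) (φ u) (φ r)) ^ 3 -
        JJ (φ h) (φ u) (wf (φ c) (φ u) (φ r)) (Sf (φ c) (φ u) (φ r)) ^ 2 := by
  simp only [II, JJ, wf, Sf, map_sub, map_add, map_mul, map_pow, map_neg, map_one, map_ofNat]

open Polynomial in
theorem exists_u (c q : ℂ) (hc : c ≠ 0) : ∃ u : ℂ, u ≠ 0 ∧ c ^ 7 * (1 + u) ^ 7 = q * u ^ 3 := by
  have hc7 : c ^ 7 ≠ 0 := pow_ne_zero _ hc
  set p : ℂ[X] := C (c ^ 7) * (1 + X) ^ 7 - C q * X ^ 3 with hp
  have hd : p.coeff 7 = c ^ 7 := by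
    rw [hp, coeff_sub, coeff_C_mul, coeff_C_mul, coeff_X_pow, coeff_one_add_X_pow]
    norm_num
  have hdeg : p.degree ≠ 0 := by
    intro h0
    have := coeff_eq_zero_of_degree_lt (p := p) (n := 7) (by rw [h0]; norm_num)
    exact hc7 (hd ▸ this)
  obtain ⟨u, hu⟩ := IsAlgClosed.exists_root p hdeg
  rw [IsRoot.def, hp] at hu
  simp only [eval_sub, eval_mul, eval_C, eval_pow, eval_add, eval_one, eval_X] at hu
  refine ⟨u, ?_, by linear_combination hu⟩
  rintro rfl
  apply hc7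
  simpa using hu

theorem key (h c q : ℂ) (hc : c ≠ 0) (hq : q ≠ 0)
    (hF : ∀ u : ℂ, 4 * II h u (wf c u 0) (Sf c u 0) ^ 3 - JJ h u (wf c u 0) (Sf c u 0) ^ 2 = 0) :
    6912 + (12 * (-96 - 336 * h + 336 * h ^ 2) ^ 2 - (2016 + 1008 * h - 1008 * h ^ 2) ^ 2) * q +
      4 * (-96 - 336 * h + 336 * h ^ 2) ^ 3 * q ^ 2 = 0 := by
  obtain ⟨u, hu, hS⟩ := exists_u c q hc
  have h1 := hF u
  have hw : wf c u 0 = 0 := by simp [wf]
  have hS' : Sf c u 0 = q * u ^ 7 := by
    unfold Sf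
    linear_combination u ^ 4 * hS
  rw [hw, hS'] at h1
  have h2 : u ^ 24 * q * (6912 + (12 * (-96 - 336 * h + 336 * h ^ 2) ^ 2 -
      (2016 + 1008 * h - 1008 * h ^ 2) ^ 2) * q +
      4 * (-96 - 336 * h + 336 * h ^ 2) ^ 3 * q ^ 2) = 0 := by
    unfold II JJ at h1
    linear_combination h1
  rcases mul_eq_zero.1 h2 with h3 | h3
  · exact absurd h3 (mul_ne_zero (pow_ne_zero _ hu) hq)
  · exact h3

end AuxNonsing

open AuxNonsing in
theorem pr_Nonsing (h1 : StConst) : StNonsing := by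
  intro K _ _ h0 c0 _ hc0 h c u r hh hc hind h4
  have _ := h1
  have hF : (4 * II (MvPolynomial.C h0 : MvPolynomial (Fin 2) ℂ) (MvPolynomial.X 0)
      (wf (MvPolynomial.C c0) (MvPolynomial.X 0) (MvPolynomial.X 1))
      (Sf (MvPolynomial.C c0) (MvPolynomial.X 0) (MvPolynomial.X 1)) ^ 3 -
      JJ (MvPolynomial.C h0) (MvPolynomial.X 0)
      (wf (MvPolynomial.C c0) (MvPolynomial.X 0) (MvPolynomial.X 1))
      (Sf (MvPolynomial.C c0) (MvPolynomial.X 0) (MvPolynomial.X 1)) ^ 2) = 0 := by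
    have inj := hind
    rw [algebraicIndependent_iff_injective_aeval] at inj
    apply inj
    rw [map_zero]
    have := map_disc (MvPolynomial.aeval ![u, r] : MvPolynomial (Fin 2) ℂ →ₐ[ℂ] K).toRingHom
      (MvPolynomial.C h0) (MvPolynomial.C c0) (MvPolynomial.X 0) (MvPolynomial.X 1)
    simp only [AlgHom.toRingHom_eq_coe, RingHom.coe_coe, MvPolynomial.aeval_C,
      MvPolynomial.aeval_X] at this
    rw [this, ← hh, ← hc]
    simpa using h4
  have hF' : ∀ x : ℂ, 4 * II h0 x (wf c0 x 0) (Sf c0 x 0) ^ 3 -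
      JJ h0 x (wf c0 x 0) (Sf c0 x 0) ^ 2 = 0 := by
    intro x
    have := map_disc (MvPolynomial.eval ![x, 0] : MvPolynomial (Fin 2) ℂ →+* ℂ)
      (MvPolynomial.C h0) (MvPolynomial.C c0) (MvPolynomial.X 0) (MvPolynomial.X 1)
    rw [hF, map_zero] at this
    simpa using this.symm
  have k1 := key h0 c0 1 hc0 one_ne_zero hF'
  have k2 := key h0 c0 (-1) hc0 (by norm_num) hF'
  have k3 := key h0 c0 2 hc0 (by norm_num) hF'
  generalize 12 * (-96 - 336 * h0 + 336 * h0 ^ 2) ^ 2 -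
    (2016 + 1008 * h0 - 1008 * h0 ^ 2) ^ 2 = B at k1 k2 k3
  generalize 4 * (-96 - 336 * h0 + 336 * h0 ^ 2) ^ 3 = C at k1 k2 k3
  have hB : B = 0 := by linear_combination (k1 - k2) / 2
  have : (3 * 6912 : ℂ) = 0 := by
    linear_combination 4 * k1 - k3 - 2 * hB
  norm_num at this

end Pool.Agent.Work.MP_c5a777_ag.Sev

end

section

set_option autoImplicit false

namespace Pool.Agent.Work.MP_c5a777_ag.Sev

namespace AuxPer

section

variable {K : Type} [Field K]

theorem pk_per {z : K} (hz : z ^ 7 = 1) (V : V6 K) (k j : ℕ) :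
    pk V z (k + 7 + j) = pk V z (k + j) := by
  unfold pk
  congr 1
  have e : k + 7 + j + 5 = (k + j + 5) + 7 := by omega
  rw [e, pow_add (z ^ 5) (k + j + 5) 7]
  have e2 : (z ^ 5) ^ 7 = 1 := by
    rw [← pow_mul, mul_comm, pow_mul, hz, one_pow]
  rw [e2, mul_one]

theorem Tk_per {z : K} (hz : z ^ 7 = 1) (V : V6 K) (k j : ℕ) :
    Tk V z (k + 7 + j) = Tk V z (k + j) := by
  unfold Tk
  rw [pk_per hz, Nat.add_assoc (k + 7) j 1, Nat.add_assoc (k + 7) j 2, pk_per hz, pk_per hz]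
  rfl

theorem bk_per {z : K} (hz : z ^ 7 = 1) (V : V6 K) (k j : ℕ) :
    bk V z (k + 7 + j) = bk V z (k + j) := by
  unfold bk
  rw [pk_per hz, Nat.add_assoc (k + 7) j 1, Nat.add_assoc (k + 7) j 3, pk_per hz, pk_per hz]
  rfl

theorem Tk_per0 {z : K} (hz : z ^ 7 = 1) (V : V6 K) (k : ℕ) :
    Tk V z (k + 7) = Tk V z k := Tk_per hz V k 0

theorem bk_per0 {z : K} (hz : z ^ 7 = 1) (V : V6 K) (k : ℕ) :
    bk V z (k + 7) = bk V z k := bk_per hz V k 0

theorem sk_per0 {z : K} (hz : z ^ 7 = 1) (h : K) (V : V6 K) (k : ℕ) :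
    sk V z h (k + 7) = sk V z h k := by
  unfold sk
  rw [Tk_per hz V k 3, Tk_per hz V k 4, Tk_per hz V k 5, Tk_per hz V k 6, Tk_per hz V k 7,
    Tk_per hz V k 8, Tk_per hz V k 9, bk_per hz V k 3, bk_per0 hz V k]

theorem rk_per0 {z : K} (hz : z ^ 7 = 1) (V : V6 K) (k : ℕ) :
    rk V z (k + 7) = rk V z k := by
  unfold rk
  rw [Tk_per hz V k 1, Tk_per0 hz V k, bk_per0 hz V k]

/-! ### Equivariance -/

variable {σ : K →+* K} {z h : K} {V : V6 K}

theorem sh (hh : h = z + z ^ 6) (E : Equi σ z V) : σ h = h := by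
  rw [hh, map_add, map_pow, E.z0]

theorem s16 (hz : z ^ 7 = 1) (E : Equi σ z V) : σ (d16 V) = d16 V := by
  simp only [d16, map_sub, map_mul, E.a1, E.b6, E.b1, E.a6]
  linear_combination (V.a1 * V.b6 - V.b1 * V.a6) * hz

theorem s25 (hz : z ^ 7 = 1) (E : Equi σ z V) : σ (d25 V) = d25 V := by
  simp only [d25, map_sub, map_mul, E.a2, E.b5, E.b2, E.a5]
  linear_combination (V.a2 * V.b5 - V.b2 * V.a5) * hz

theorem s34 (hz : z ^ 7 = 1) (E : Equi σ z V) : σ (d34 V) = d34 V := by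
  simp only [d34, map_sub, map_mul, E.a3, E.b4, E.b3, E.a4]
  linear_combination (- V.b3 * V.a4) * hz

theorem s12 (hz : z ^ 7 = 1) (E : Equi σ z V) : σ (d12 V) = z * d12 V := by
  simp only [d12, map_sub, map_mul, E.a1, E.b2, E.b1, E.a2]
  linear_combination (z * (V.a1 * V.b2 - V.b1 * V.a2)) * hz

theorem s46 (hz : z ^ 7 = 1) (E : Equi σ z V) : σ (d46 V) = z * d46 V := by
  simp only [d46, map_sub, map_mul, E.a4, E.b6, E.b4, E.a6]
  linear_combination (z * V.a4 * V.b6) * hz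

theorem s13 (E : Equi σ z V) : σ (d13 V) = z ^ 6 * d13 V := by
  simp only [d13, map_sub, map_mul, E.a1, E.b3, E.b1, E.a3]
  ring

theorem s56 (E : Equi σ z V) : σ (d56 V) = z ^ 6 * d56 V := by
  simp only [d56, map_sub, map_mul, E.a5, E.b6, E.b5, E.a6]
  ring

theorem sAV (hz : z ^ 7 = 1) (hh : h = z + z ^ 6) (E : Equi σ z V) :
    σ (AV z h V) = AV z h V := by
  simp only [AV, map_add, map_sub, map_mul, map_neg, map_pow, map_one, map_ofNat, E.z0,
    sh hh E, s16 hz E, s25 hz E, s34 hz E]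

theorem sXV (hz : z ^ 7 = 1) (hh : h = z + z ^ 6) (E : Equi σ z V) :
    σ (XV z h V) = z * XV z h V := by
  simp only [XV, map_add, map_sub, map_mul, map_pow, map_one, E.z0,
    sh hh E, s12 hz E, s46 hz E]
  ring

theorem sYV (hh : h = z + z ^ 6) (E : Equi σ z V) :
    σ (YV z h V) = z ^ 6 * YV z h V := by
  simp only [YV, map_add, map_sub, map_mul, map_pow, map_one, E.z0,
    sh hh E, s13 E, s56 E]
  ring

theorem swV (hz : z ^ 7 = 1) (hh : h = z + z ^ 6) (E : Equi σ z V) :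
    σ (wV z h V) = wV z h V := by
  simp only [wV, map_mul, sXV hz hh E, sYV hh E]
  linear_combination (XV z h V * YV z h V) * hz

theorem sSV (hz : z ^ 7 = 1) (hh : h = z + z ^ 6) (E : Equi σ z V) :
    σ (SV z h V) = SV z h V := by
  simp only [SV, map_add, map_pow, sXV hz hh E, sYV hh E, mul_pow, ← pow_mul]
  have e : z ^ (6 * 7) = 1 := by rw [mul_comm, pow_mul, hz, one_pow]
  rw [e, hz, one_mul, one_mul]

theorem spk1 (hz : z ^ 7 = 1) (E : Equi σ z V) (k : ℕ) :
    σ (pk V z k).1 = z ^ 20 * (pk V z (k + 1)).1 := by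
  have e : (z ^ 5) ^ (k + 1 + 5) = z ^ 5 * (z ^ 5) ^ (k + 5) := by
    rw [show k + 1 + 5 = (k + 5) + 1 by omega, pow_succ, mul_comm]
  have e0 : σ ((z ^ 5) ^ (k + 5)) = (z ^ 5) ^ (k + 5) := by
    rw [map_pow, map_pow, E.z0]
  simp only [pk, zz]
  rw [e]
  generalize (z ^ 5) ^ (k + 5) = t at e0
  simp only [map_add, map_mul, map_pow, e0, E.a1, E.a2, E.a3, E.a4, E.a5, E.a6]
  have g1 : z ^ 25 = z ^ 4 := by
    linear_combination (z ^ 4 * (z ^ 14 + z ^ 7 + 1)) * hz
  have g2 : z ^ 30 = z ^ 2 := by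
    linear_combination (z ^ 2 * (z ^ 21 + z ^ 14 + z ^ 7 + 1)) * hz
  have g3 : z ^ 35 = 1 := by
    linear_combination (z ^ 28 + z ^ 21 + z ^ 14 + z ^ 7 + 1) * hz
  have g4 : z ^ 40 = z ^ 5 := by
    linear_combination (z ^ 5 * (z ^ 28 + z ^ 21 + z ^ 14 + z ^ 7 + 1)) * hz
  have g5 : z ^ 45 = z ^ 3 := by
    linear_combination (z ^ 3 * (z ^ 35 + z ^ 28 + z ^ 21 + z ^ 14 + z ^ 7 + 1)) * hz
  have g6 : z ^ 50 = z := by
    linear_combination (z * (z ^ 42 + z ^ 35 + z ^ 28 + z ^ 21 + z ^ 14 + z ^ 7 + 1)) * hz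
  linear_combination (-t * V.a1) * g1 - (t ^ 2 * V.a2) * g2 - (t ^ 3 * V.a3) * g3 -
    (t ^ 4 * V.a4) * g4 - (t ^ 5 * V.a5) * g5 - (t ^ 6 * V.a6) * g6

theorem spk2 (hz : z ^ 7 = 1) (E : Equi σ z V) (k : ℕ) :
    σ (pk V z k).2 = z ^ 15 * (pk V z (k + 1)).2 := by
  have e : (z ^ 5) ^ (k + 1 + 5) = z ^ 5 * (z ^ 5) ^ (k + 5) := by
    rw [show k + 1 + 5 = (k + 5) + 1 by omega, pow_succ, mul_comm]
  have e0 : σ ((z ^ 5) ^ (k + 5)) = (z ^ 5) ^ (k + 5) := by
    rw [map_pow, map_pow, E.z0]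
  simp only [pk, zz]
  rw [e]
  generalize (z ^ 5) ^ (k + 5) = t at e0
  simp only [map_add, map_mul, map_pow, e0, E.b1, E.b2, E.b3, E.b4, E.b5, E.b6]
  have g1 : z ^ 20 = z ^ 6 := by
    linear_combination (z ^ 6 * (z ^ 7 + 1)) * hz
  have g2 : z ^ 25 = z ^ 4 := by
    linear_combination (z ^ 4 * (z ^ 14 + z ^ 7 + 1)) * hz
  have g3 : z ^ 30 = z ^ 2 := by
    linear_combination (z ^ 2 * (z ^ 21 + z ^ 14 + z ^ 7 + 1)) * hz
  have g4 : z ^ 35 = 1 := by
    linear_combination (z ^ 28 + z ^ 21 + z ^ 14 + z ^ 7 + 1) * hz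
  have g5 : z ^ 40 = z ^ 5 := by
    linear_combination (z ^ 5 * (z ^ 28 + z ^ 21 + z ^ 14 + z ^ 7 + 1)) * hz
  have g6 : z ^ 45 = z ^ 3 := by
    linear_combination (z ^ 3 * (z ^ 35 + z ^ 28 + z ^ 21 + z ^ 14 + z ^ 7 + 1)) * hz
  linear_combination (-t * V.b1) * g1 - (t ^ 2 * V.b2) * g2 - (t ^ 3 * V.b3) * g3 -
    (t ^ 4 * V.b4) * g4 - (t ^ 5 * V.b5) * g5 - (t ^ 6 * V.b6) * g6

theorem sbr (hz : z ^ 7 = 1) (E : Equi σ z V) (i j l : ℕ) :
    σ (br (pk V z i) (pk V z j) (pk V z l)) =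
      br (pk V z (i + 1)) (pk V z (j + 1)) (pk V z (l + 1)) := by
  simp only [br, map_sub, map_mul, spk1 hz E, spk2 hz E]
  have g : z ^ 35 = 1 := by
    linear_combination (z ^ 28 + z ^ 21 + z ^ 14 + z ^ 7 + 1) * hz
  generalize pk V z (i + 1) = p
  generalize pk V z (j + 1) = q
  generalize pk V z (l + 1) = r
  linear_combination ((q.1 - p.1) * (r.2 - p.2) - (q.2 - p.2) * (r.1 - p.1)) * g

theorem sTk (hz : z ^ 7 = 1) (E : Equi σ z V) (k : ℕ) : σ (Tk V z k) = Tk V z (k + 1) := by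
  unfold Tk
  rw [sbr hz E]

theorem sbk (hz : z ^ 7 = 1) (E : Equi σ z V) (k : ℕ) : σ (bk V z k) = bk V z (k + 1) := by
  unfold bk
  rw [sbr hz E]

theorem sFcP (A T0 T1 T2 T3 T4 T5 T6 u v : K) :
    σ (FcP A T0 T1 T2 T3 T4 T5 T6 u v) =
      FcP (σ A) (σ T0) (σ T1) (σ T2) (σ T3) (σ T4) (σ T5) (σ T6) (σ u) (σ v) := by
  simp only [FcP, f21, f12, f20, f11, f10, map_add, map_sub, map_mul, map_neg, map_pow,
    map_ofNat]

theorem sskk (hz : z ^ 7 = 1) (hh : h = z + z ^ 6) (E : Equi σ z V) (k : ℕ) :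
    σ (sk V z h k) = sk V z h (k + 1) := by
  unfold sk
  rw [sFcP, sAV hz hh E]
  simp only [sTk hz E, sbk hz E]

theorem srk (hz : z ^ 7 = 1) (E : Equi σ z V) (k : ℕ) :
    σ (rk V z k) = rk V z (k + 1) := by
  unfold rk
  simp only [map_add, map_sub, map_mul, map_ofNat, sTk hz E, sbk hz E]

theorem sqb (h A t : K) : σ (qb h A t) = qb (σ h) (σ A) (σ t) := by
  simp only [qb, map_add, map_sub, map_mul, map_pow, map_ofNat]

theorem sq3 (h A t w : K) : σ (q3 h A t w) = q3 (σ h) (σ A) (σ t) (σ w) := by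
  simp only [q3, map_add, map_sub, map_mul, map_neg, map_pow, map_ofNat]

theorem sq2 (h A t w : K) : σ (q2 h A t w) = q2 (σ h) (σ A) (σ t) (σ w) := by
  simp only [q2, map_add, map_sub, map_mul, map_neg, map_pow, map_ofNat]

theorem sq1 (h A t w : K) : σ (q1 h A t w) = q1 (σ h) (σ A) (σ t) (σ w) := by
  simp only [q1, map_add, map_sub, map_mul, map_neg, map_pow, map_ofNat]

theorem sxk (hz : z ^ 7 = 1) (hh : h = z + z ^ 6) (E : Equi σ z V) (k : ℕ) :
    σ (xk V z h k) = xk V z h (k + 1) := by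
  unfold xk
  simp only [map_div₀, map_add, map_sub, map_mul, map_pow, map_ofNat, sqb, sq3, sq2, sh hh E,
    sAV hz hh E, swV hz hh E, sTk hz E, srk hz E, sskk hz hh E]

theorem syk (hz : z ^ 7 = 1) (hh : h = z + z ^ 6) (E : Equi σ z V) (k : ℕ) :
    σ (yk V z h k) = yk V z h (k + 1) := by
  unfold yk
  simp only [map_div₀, map_add, map_sub, map_mul, map_pow, map_ofNat, sqb, sq3, sq2, sq1, sh hh E,
    sAV hz hh E, swV hz hh E, sTk hz E, srk hz E, sskk hz hh E]

end

end AuxPer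

open AuxPer in
theorem pr_Per : StPer := by
  intro K _ z h V hz k
  refine ⟨Tk_per0 hz V k, bk_per0 hz V k, sk_per0 hz h V k, rk_per0 hz V k, ?_, ?_⟩
  · unfold xk
    rw [Tk_per hz V k 4, rk_per0 hz V k, sk_per0 hz h V k]
  · unfold yk
    rw [Tk_per hz V k 4, rk_per0 hz V k, sk_per0 hz h V k]

open AuxPer in
theorem pr_Equi : StEqui := by
  intro K _ σ z h V hz hh E
  exact ⟨sAV hz hh E, sXV hz hh E, sYV hh E, swV hz hh E, sSV hz hh E, fun k =>
    ⟨sTk hz E k, sbk hz E k, sskk hz hh E k, srk hz E k, sxk hz hh E k, syk hz hh E k⟩⟩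

end Pool.Agent.Work.MP_c5a777_ag.Sev

end

section

/-!
# The rational point
-/

set_option autoImplicit false

namespace Pool.Agent.Work.MP_c5a777_ag.Sev

namespace AuxPointF

open Polynomial

section Alg

variable {K : Type} [Field K] [Algebra ℂ K]

theorem ind2 {s r b : K} (h : AlgebraicIndependent ℂ ![s, r, b]) :
    AlgebraicIndependent ℂ ![s, r] := by
  have h1 := h.comp (![0, 1] : Fin 2 → Fin 3) (by
    intro i j hij
    fin_cases i <;> fin_cases j <;> simp_all)
  have e : ![s, r, b] ∘ (![0, 1] : Fin 2 → Fin 3) = ![s, r] := by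
    funext i
    fin_cases i <;> rfl
  rwa [e] at h1

theorem ind2_seven {s r : K} (h : AlgebraicIndependent ℂ ![s, r]) :
    AlgebraicIndependent ℂ ![s ^ 7, r] := by
  have h1 := h.polynomial_aeval_of_transcendental (f := ![(X ^ 7 : ℂ[X]), X]) (by
    intro i
    fin_cases i
    · exact (transcendental_X ℂ).pow (by norm_num)
    · exact transcendental_X ℂ)
  have e : (fun i => aeval (![s, r] i) (![(X ^ 7 : ℂ[X]), X] i)) = ![s ^ 7, r] := by
    funext i
    fin_cases i <;> simp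
  rwa [e] at h1

theorem ind3 {a b c : K} (h : AlgebraicIndependent ℂ ![a, b])
    (hc : Transcendental (Algebra.adjoin ℂ (Set.range ![a, b])) c) :
    AlgebraicIndependent ℂ ![a, b, c] := by
  have h1 := (h.option_iff_transcendental c).2 hc
  have h2 := h1.comp (finSuccEquivLast : Fin 3 ≃ Option (Fin 2)) (Equiv.injective _)
  have e : (fun o : Option (Fin 2) => o.elim c ![a, b]) ∘ (finSuccEquivLast : Fin 3 ≃ _) =
      ![a, b, c] := by
    funext i
    fin_cases i
    · change (finSuccEquivLast (0 : Fin 3)).elim c ![a, b] = a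
      have : (finSuccEquivLast (0 : Fin 3)) = some (0 : Fin 2) := by
        simpa using finSuccEquivLast_castSucc (0 : Fin 2)
      rw [this]; rfl
    · change (finSuccEquivLast (1 : Fin 3)).elim c ![a, b] = b
      have : (finSuccEquivLast (1 : Fin 3)) = some (1 : Fin 2) := by
        simpa using finSuccEquivLast_castSucc (1 : Fin 2)
      rw [this]; rfl
    · change (finSuccEquivLast (2 : Fin 3)).elim c ![a, b] = c
      have : (finSuccEquivLast (2 : Fin 3)) = none := by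
        simpa using finSuccEquivLast_last (n := 2)
      rw [this]; rfl
  rwa [e] at h2

end Alg

theorem map_II {R S : Type*} [CommRing R] [CommRing S] (f : R →+* S) (h A w T : R) :
    f (II h A w T) = II (f h) (f A) (f w) (f T) := by
  simp only [II, map_add, map_sub, map_mul, map_pow, map_neg, map_ofNat]

theorem map_JJ {R S : Type*} [CommRing R] [CommRing S] (f : R →+* S) (h A w T : R) :
    f (JJ h A w T) = JJ (f h) (f A) (f w) (f T) := by
  simp only [JJ, map_add, map_sub, map_mul, map_pow, map_neg, map_ofNat]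

theorem map_wf {R S : Type*} [CommRing R] [CommRing S] (f : R →+* S) (c u r : R) :
    f (wf c u r) = wf (f c) (f u) (f r) := by
  simp only [wf, map_add, map_mul, map_pow, map_one]

theorem map_Sf {R S : Type*} [CommRing R] [CommRing S] (f : R →+* S) (c u r : R) :
    f (Sf c u r) = Sf (f c) (f u) (f r) := by
  simp only [Sf, map_add, map_mul, map_pow, map_one]

/-- Nonsingularity of points when the discriminant is not zero. -/
theorem nonsing {K : Type*} [Field K] [CharZero K] {a4 a6 x y : K}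
    (hd : 4 * a4 ^ 3 + 27 * a6 ^ 2 ≠ 0) (he : y ^ 2 = x ^ 3 + a4 * x + a6) :
    (Wsh a4 a6).Nonsingular x y := by
  rw [WeierstrassCurve.Affine.nonsingular_iff, WeierstrassCurve.Affine.equation_iff]
  refine ⟨?_, ?_⟩
  · simp only [Wsh]
    linear_combination he
  · by_contra hc
    push Not at hc
    obtain ⟨h1, h2⟩ := hc
    simp only [Wsh] at h1 h2
    have hy : y = 0 := by
      have : (2 : K) * y = 0 := by linear_combination h2
      exact (mul_eq_zero.1 this).resolve_left two_ne_zero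
    have h3 : a4 = -3 * x ^ 2 := by linear_combination -h1
    have h4 : a6 = 2 * x ^ 3 := by
      rw [hy] at he
      rw [h3] at he
      linear_combination -he
    apply hd
    rw [h3, h4]
    ring

theorem sing_ne {K : Type*} [Field K] [CharZero K] {a4 a6 x y : K}
    (hn : (Wsh a4 a6).Nonsingular x y) (hy : y = 0) (hx : 3 * x ^ 2 + a4 = 0) : False := by
  rw [WeierstrassCurve.Affine.nonsingular_iff] at hn
  simp only [Wsh] at hn
  rcases hn.2 with h | h
  · apply h
    linear_combination -hx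
  · apply h
    rw [hy]
    ring

theorem some_congr {K : Type*} [Field K] {a4 a6 x y x' y' : K}
    (hp : (Wsh a4 a6).Nonsingular x y) (hq : (Wsh a4 a6).Nonsingular x' y') (h1 : x = x')
    (h2 : y = y') : (WeierstrassCurve.Affine.Point.some x y hp : (Wsh a4 a6).Point) =
      .some x' y' hq := by
  subst h1 h2
  rfl

section Sum

variable {K : Type} [Field K] [DecidableEq K] [CharZero K]

theorem om_sum (hO : StOmega) (D : Derivation ℤ K K) (a4 a6 : K) (h4 : D a4 = 0)
    (h6 : D a6 = 0) (P : ℕ → (Wsh a4 a6).Point) (w : K) (hP : ∀ k, IsOm D a4 a6 (P k) w)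
    (n : ℕ) : IsOm D a4 a6 (∑ k ∈ Finset.range n, P k) (n * w) := by
  induction n with
  | zero =>
    rw [Finset.sum_range_zero, Nat.cast_zero, zero_mul]
    exact (rfl : (0 : K) = 0)
  | succ n ih =>
    rw [Finset.sum_range_succ]
    have := hO K D a4 a6 h4 h6 _ _ _ _ ih (hP n)
    have e : ((n + 1 : ℕ) : K) * w = n * w + w := by push_cast; ring
    rw [e]
    exact this

end Sum

end AuxPointF

open AuxPointF

theorem pr_PointF (h1 : StDeriv) (h2 : StIndep) (h3 : StPtk) (h4 : StDer) (h5 : StOmega)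
    (h6 : StPtMap) (h7 : StNonsing) (h8 : StShort) (h9 : StEqui) (h10 : StPer)
    (h11 : StRelZ) : StPointF := by
  classical
  intro F K _ _ _ _ _ _ z0 σ s u r V z h H
  have hcK : CharZero K := charZero_of_injective_algebraMap (algebraMap ℂ K).injective
  have hcF : CharZero F := charZero_of_injective_algebraMap (algebraMap ℂ F).injective
  set ι : F →+* K := algebraMap F K with hι
  have hιi : Function.Injective ι := ι.injective
  -- constants
  have hΦ0 : z0 ^ 6 + z0 ^ 5 + z0 ^ 4 + z0 ^ 3 + z0 ^ 2 + z0 + 1 = 0 := by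
    have := H.hz0.geom_sum_eq_zero (by norm_num)
    simp only [Finset.sum_range_succ, Finset.sum_range_zero] at this
    linear_combination this
  have hΦ : z ^ 6 + z ^ 5 + z ^ 4 + z ^ 3 + z ^ 2 + z + 1 = 0 := by
    rw [H.hz]
    have := congrArg (algebraMap ℂ K) hΦ0
    simpa only [map_add, map_pow, map_one, map_zero] using this
  have hz7 : z ^ 7 = 1 := z_seven hΦ
  set hF : F := algebraMap ℂ F (z0 + z0 ^ 6) with hhF
  have hhK : h = ι hF := by
    rw [H.hh, H.hz, hhF, hι, ← IsScalarTower.algebraMap_apply, map_add, map_pow]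
  have hRel0 : Rel (z0 + z0 ^ 6) := h11 ℂ z0 hΦ0
  have hRelF : Rel hF := by
    have := congrArg (algebraMap ℂ F) hRel0
    unfold Rel
    rw [hhF]
    simpa only [map_add, map_sub, map_mul, map_pow, map_one, map_zero, map_ofNat] using this
  have hA : AV z h V = ι u := H.hA.trans H.hs
  have hs7 : s ^ 7 = ι u := H.hs
  have hw : wV z h V = ι (wf 5 u r) := by
    rw [map_wf, map_ofNat, wV, H.hX, H.hY, ← hs7, wf]
    ring
  have hS : SV z h V = ι (Sf 5 u r) := by
    rw [map_Sf, map_ofNat, SV, H.hX, H.hY, ← hs7, Sf]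
    ring
  set IF : F := II hF u (wf 5 u r) (Sf 5 u r) with hIF
  set JF : F := JJ hF u (wf 5 u r) (Sf 5 u r) with hJF
  have hI : II h (AV z h V) (wV z h V) (SV z h V) = ι IF := by
    rw [hA, hw, hS, hhK, hIF, map_II]
  have hJ : JJ h (AV z h V) (wV z h V) (SV z h V) = ι JF := by
    rw [hA, hw, hS, hhK, hJF, map_JJ]
  -- the field of constants
  obtain ⟨D, δ, hδ, hD0, hDk⟩ := h1 F K z0 σ s u r V z h H
  set M : IntermediateField ℂ K := IntermediateField.adjoin ℂ ({s, ι r} : Set K) with hM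
  have hsM : s ∈ M := IntermediateField.subset_adjoin _ _ (by simp)
  have hrM : ι r ∈ M := IntermediateField.subset_adjoin _ _ (by simp)
  have hDM : ∀ x ∈ M, D x = 0 := fun x hx =>
    hD0 x (isAlgebraic_algebraMap (⟨x, hx⟩ : M))
  have hcM : ∀ a : ℂ, algebraMap ℂ K a ∈ M := fun a => M.algebraMap_mem a
  have huM : ι u ∈ M := by rw [← hs7]; exact pow_mem hsM 7
  have hhM : ι hF ∈ M := by
    rw [hhF, hι, ← IsScalarTower.algebraMap_apply]
    exact hcM _
  have hzM : z ∈ M := by rw [H.hz]; exact hcM _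
  have hwM : ι (wf 5 u r) ∈ M := by
    have e : ι (wf 5 u r) = algebraMap M K (wf 5 ⟨ι u, huM⟩ ⟨ι r, hrM⟩) := by
      rw [map_wf, map_wf, map_ofNat, map_ofNat]
      rfl
    rw [e]
    exact Subtype.property _
  have hSM : ι (Sf 5 u r) ∈ M := by
    have e : ι (Sf 5 u r) = algebraMap M K (Sf 5 ⟨ι u, huM⟩ ⟨ι r, hrM⟩) := by
      rw [map_Sf, map_Sf, map_ofNat, map_ofNat]
      rfl
    rw [e]
    exact Subtype.property _
  have hIM : ι IF ∈ M := by
    have e : ι IF = algebraMap M K (II ⟨ι hF, hhM⟩ ⟨ι u, huM⟩ ⟨ι (wf 5 u r), hwM⟩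
        ⟨ι (Sf 5 u r), hSM⟩) := by
      rw [hIF, map_II, map_II]
      rfl
    rw [e]
    exact Subtype.property _
  have hJM : ι JF ∈ M := by
    have e : ι JF = algebraMap M K (JJ ⟨ι hF, hhM⟩ ⟨ι u, huM⟩ ⟨ι (wf 5 u r), hwM⟩
        ⟨ι (Sf 5 u r), hSM⟩) := by
      rw [hJF, map_JJ, map_JJ]
      rfl
    rw [e]
    exact Subtype.property _
  -- independence of `s, r` and of `u, r`
  have hind : AlgebraicIndependent ℂ ![s, ι r] := ind2 (h2 F K z0 σ s u r V z h H)
  have hindu : AlgebraicIndependent ℂ ![ι u, ι r] := by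
    have := ind2_seven hind
    rwa [hs7] at this
  have hdisc : 4 * ι IF ^ 3 - ι JF ^ 2 ≠ 0 := by
    have := h7 K (z0 + z0 ^ 6) 5 hRel0 (by norm_num) (ι hF) 5 (ι u) (ι r)
      (by rw [hhF, hι, ← IsScalarTower.algebraMap_apply]) (by rw [map_ofNat]) hindu
    rw [hIF, hJF, map_II, map_JJ, map_wf, map_Sf, map_ofNat]
    exact this
  set a4 : K := ι (-27 * IF) with ha4
  set a6 : K := ι (-27 * JF) with ha6
  have ha4' : a4 = -27 * ι IF := by rw [ha4, map_mul, map_neg, map_ofNat]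
  have ha6' : a6 = -27 * ι JF := by rw [ha6, map_mul, map_neg, map_ofNat]
  have hd : 4 * a4 ^ 3 + 27 * a6 ^ 2 ≠ 0 := by
    rw [ha4', ha6']
    have e : 4 * (-27 * ι IF) ^ 3 + 27 * (-27 * ι JF) ^ 2 =
        (-19683) * (4 * ι IF ^ 3 - ι JF ^ 2) := by ring
    rw [e]
    exact mul_ne_zero (by norm_num) hdisc
  have ha4M : a4 ∈ M := by
    rw [ha4']
    exact mul_mem (neg_mem (ofNat_mem M 27)) hIM
  have ha6M : a6 ∈ M := by
    rw [ha6']
    exact mul_mem (neg_mem (ofNat_mem M 27)) hJM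
  have hDa4 : D a4 = 0 := hDM _ ha4M
  have hDa6 : D a6 = 0 := hDM _ ha6M
  -- the points
  have hpt : ∀ k, (Wsh a4 a6).Nonsingular (xk V z h k) (yk V z h k) := by
    intro k
    apply nonsing hd
    have := h3 K z h V hΦ H.hh H.good k
    rw [hI, hJ] at this
    rw [this, ha4', ha6']
    ring
  set P : ℕ → (Wsh a4 a6).Point := fun k =>
    .some (xk V z h k) (yk V z h k) (hpt k) with hP
  have hom : ∀ k, IsOm D a4 a6 (P k) (δ / 6) := by
    intro k
    have hX : D (XV z h V) = 0 := by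
      apply hDM
      rw [H.hX]
      exact mul_mem (mul_mem (ofNat_mem M 5) (pow_mem hsM 4)) (add_mem (one_mem M)
        (pow_mem hsM 7))
    have hY : D (YV z h V) = 0 := by
      apply hDM
      rw [H.hY]
      exact mul_mem (mul_mem (ofNat_mem M 5) (pow_mem hsM 3)) hrM
    have hAD : D (AV z h V) = 0 := by
      apply hDM
      rw [hA]
      exact huM
    obtain ⟨hk0, hbk⟩ := hDk k
    obtain ⟨e1, e2⟩ := (h4 K z h V hΦ H.hh H.good D (hDM _ hzM) hAD hX hY k).2 hk0
    rw [hbk] at e1 e2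
    rw [hI] at e2
    have h6' : (6 : K) ≠ 0 := by norm_num
    refine ⟨?_, ?_⟩
    · have e3 : (6 * sk V z h k) * D (xk V z h k) =
          (6 * sk V z h k) * (2 * yk V z h k * (δ / 6)) := by
        rw [e1]
        field_simp
      exact mul_left_cancel₀ (mul_ne_zero h6' hk0) e3
    · have e3 : (6 * sk V z h k) * D (yk V z h k) =
          (6 * sk V z h k) * ((3 * xk V z h k ^ 2 + a4) * (δ / 6)) := by
        rw [e2, ha4']
        field_simp
        ring
      exact mul_left_cancel₀ (mul_ne_zero h6' hk0) e3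
  -- the sum
  obtain ⟨φ, hφ⟩ := h6 K (σ : K →+* K) a4 a6 (σ.commutes _) (σ.commutes _)
  have heq := h9 K (σ : K →+* K) z h V hz7 H.hh H.equi
  have hφP : ∀ k, φ (P k) = P (k + 1) := by
    intro k
    obtain ⟨hq, e⟩ := hφ (xk V z h k) (yk V z h k) (hpt k)
    obtain ⟨-, -, -, -, -, hk⟩ := heq
    obtain ⟨-, -, -, -, hx, hy⟩ := hk k
    rw [hP]
    simp only
    rw [e]
    exact some_congr _ _ hx hy
  have hP7 : P 7 = P 0 := by
    obtain ⟨-, -, -, -, hx, hy⟩ := h10 K z h V hz7 0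
    exact some_congr _ _ (by simpa using hx) (by simpa using hy)
  have hφS : φ (∑ k ∈ Finset.range 7, P k) = ∑ k ∈ Finset.range 7, P k := by
    rw [map_sum]
    simp only [hφP]
    have e1 := Finset.sum_range_succ P 7
    have e2 := Finset.sum_range_succ' P 7
    rw [e1, hP7] at e2
    exact (add_right_cancel e2).symm
  have homS := om_sum h5 D a4 a6 hDa4 hDa6 P (δ / 6) hom 7
  set w' : K := ((7 : ℕ) : K) * (δ / 6) with hw'
  have hw'0 : w' ≠ 0 := by
    rw [hw']
    exact mul_ne_zero (by norm_num) (div_ne_zero hδ (by norm_num))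
  rcases hQ : (∑ k ∈ Finset.range 7, P k) with _ | ⟨X, Y, hn⟩
  · rw [hQ] at homS
    exact absurd homS hw'0
  · rw [hQ] at homS hφS
    obtain ⟨hDX, hDY⟩ : D X = 2 * Y * w' ∧ D Y = (3 * X ^ 2 + a4) * w' := homS
    obtain ⟨hq, e⟩ := hφ X Y hn
    rw [e] at hφS
    have hXY := WeierstrassCurve.Affine.Point.some.inj hφS
    obtain ⟨X0, hX0⟩ := H.hfix X hXY.1
    obtain ⟨Y0, hY0⟩ := H.hfix Y hXY.2
    have hEq : Y ^ 2 = X ^ 3 + a4 * X + a6 := by
      have := hn.1
      rw [WeierstrassCurve.Affine.equation_iff] at this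
      simp only [Wsh] at this
      linear_combination this
    have hEq0 : Y0 ^ 2 = X0 ^ 3 - 27 * IF * X0 - 27 * JF := by
      apply hιi
      rw [map_sub, map_sub, map_mul, map_mul, map_mul, map_pow, map_pow, map_ofNat, hX0, hY0,
        hEq, ha4', ha6']
      ring
    obtain ⟨x, y, hx, hy, hW⟩ := h8 F hF u (wf 5 u r) (Sf 5 u r) X0 Y0 hRelF hEq0
    refine ⟨x, y, hW, ?_⟩
    -- transcendence
    have hXt : ¬ IsAlgebraic M X := by
      intro hXa
      have hYa : IsAlgebraic M Y := by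
        refine IsAlgebraic.of_pow (n := 2) (by norm_num) ?_
        rw [hEq]
        exact ((hXa.pow 3).add ((isAlgebraic_algebraMap (⟨a4, ha4M⟩ : M)).mul hXa)).add
          (isAlgebraic_algebraMap (⟨a6, ha6M⟩ : M))
      have hDX0 := hD0 X hXa
      have hDY0 := hD0 Y hYa
      rw [hDX] at hDX0
      rw [hDY] at hDY0
      have hy0 : Y = 0 := by
        have := (mul_eq_zero.1 hDX0).resolve_right hw'0
        exact (mul_eq_zero.1 this).resolve_left two_ne_zero
      exact sing_ne hn hy0 ((mul_eq_zero.1 hDY0).resolve_right hw'0)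
    have hxt : ¬ IsAlgebraic M (ι x) := by
      intro hxa
      apply hXt
      have hτM : ι (3 * u ^ 4 + 42 * hF * wf 5 u r * u ^ 2 +
          (-42 - 84 * hF + 21 * hF ^ 2) * wf 5 u r ^ 2) ∈ M := by
        have e : ι (3 * u ^ 4 + 42 * hF * wf 5 u r * u ^ 2 +
            (-42 - 84 * hF + 21 * hF ^ 2) * wf 5 u r ^ 2) =
            3 * ι u ^ 4 + 42 * ι hF * ι (wf 5 u r) * ι u ^ 2 +
            (-42 - 84 * ι hF + 21 * ι hF ^ 2) * ι (wf 5 u r) ^ 2 := by
          simp only [map_add, map_sub, map_neg, map_mul, map_pow, map_ofNat]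
        rw [e]
        exact add_mem (add_mem (mul_mem (ofNat_mem M 3) (pow_mem huM 4))
          (mul_mem (mul_mem (mul_mem (ofNat_mem M 42) hhM) hwM) (pow_mem huM 2)))
          (mul_mem (add_mem (sub_mem (neg_mem (ofNat_mem M 42))
            (mul_mem (ofNat_mem M 84) hhM)) (mul_mem (ofNat_mem M 21) (pow_mem hhM 2)))
            (pow_mem hwM 2))
      have e : X = 9 * ι x + ι (3 * u ^ 4 + 42 * hF * wf 5 u r * u ^ 2 +
          (-42 - 84 * hF + 21 * hF ^ 2) * wf 5 u r ^ 2) := by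
        rw [← hX0, hx, map_add, map_mul, map_ofNat]
      rw [e]
      exact ((isAlgebraic_algebraMap (⟨9, ofNat_mem M 9⟩ : M)).mul hxa).add
        (isAlgebraic_algebraMap (⟨_, hτM⟩ : M))
    have hT : Transcendental (Algebra.adjoin ℂ (Set.range ![ι u, ι r])) (ι x) := by
      intro hx'
      apply hxt
      have hle : Algebra.adjoin ℂ (Set.range ![ι u, ι r]) ≤ M.toSubalgebra := by
        apply Algebra.adjoin_le
        rintro _ ⟨i, rfl⟩
        fin_cases i
        · exact huM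
        · exact hrM
      exact IsAlgebraic.tower_top_of_subalgebra_le hle hx'
    have hfin : AlgebraicIndependent ℂ ![ι u, ι r, ι x] := ind3 hindu hT
    have e : ![ι u, ι r, ι x] = (IsScalarTower.toAlgHom ℂ F K) ∘ ![u, r, x] := by
      funext i
      fin_cases i <;> rfl
    rw [e] at hfin
    exact hfin.of_comp _

theorem pr_Point (h1 : StData) (h2 : StPointF) : StPoint := by
  intro z0 hz0
  obtain ⟨F, K, _, _, _, _, _, _, σ, s, u, r, V, z, h, ⟨f⟩, H⟩ := h1 z0 hz0
  obtain ⟨x, y, hW, hind⟩ := h2 F K z0 σ s u r V z h H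
  refine ⟨f u, f r, f x, f y, ?_, ?_⟩
  · have h3 : AlgebraicIndependent ℂ (f ∘ ![u, r, x]) :=
      hind.map' (f := f) f.toRingHom.injective
    have e : f ∘ ![u, r, x] = ![f u, f r, f x] := by
      funext i
      fin_cases i <;> rfl
    rwa [e] at h3
  · have h4 := congrArg f hW
    rw [map_zero] at h4
    rw [← h4]
    simp only [Wu, We, wf, Sf, a1, a2, a3, a4, a6, map_add, map_sub, map_neg, map_mul, map_pow,
      map_one, map_ofNat, AlgHom.commutes]

end Pool.Agent.Work.MP_c5a777_ag.Sev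

end

section

/-!
# The point given by one bracket lies on the curve
-/

set_option autoImplicit false

namespace Pool.Agent.Work.MP_c5a777_ag.Sev

namespace AuxPtk

theorem sum_seven {K : Type} [Field K] (z X Y t : K) (n : ℕ) (hz : z ^ 7 = 1)
    (ht : t = z ^ n * X + z ^ (6 * n) * Y) :
    t ^ 7 - 7 * (X * Y) * t ^ 5 + 14 * (X * Y) ^ 2 * t ^ 3 - 7 * (X * Y) ^ 3 * t =
      X ^ 7 + Y ^ 7 := by
  have hab : z ^ n * z ^ (6 * n) = 1 := by
    rw [← pow_add, show n + 6 * n = 7 * n by ring, pow_mul, hz, one_pow]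
  have ha : (z ^ n) ^ 7 = 1 := by
    rw [← pow_mul, mul_comm, pow_mul, hz, one_pow]
  have hb : (z ^ (6 * n)) ^ 7 = 1 := by
    rw [← pow_mul, mul_comm, pow_mul, hz, one_pow]
  have h1 := s7_eq (z ^ n * X) (z ^ (6 * n) * Y)
  have h2 : z ^ n * X * (z ^ (6 * n) * Y) = X * Y := by
    linear_combination (X * Y) * hab
  rw [h2, ← ht] at h1
  rw [← h1, mul_pow, mul_pow, ha, hb, one_mul, one_mul]

end AuxPtk

theorem pr_Ptk (h1 : StCorner) (h2 : StSq) : StPtk := by
  intro K _ _ z h V hz hh hV k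
  have hrel : Rel h := rel_of_z hz hh
  have hs := h2 K z h V hz hh hV k
  have hT := (h1 K z h V hz hh hV).1 (k + 4)
  have hS : Tk V z (k + 4) ^ 7 - 7 * wV z h V * Tk V z (k + 4) ^ 5 +
      14 * wV z h V ^ 2 * Tk V z (k + 4) ^ 3 - 7 * wV z h V ^ 3 * Tk V z (k + 4) = SV z h V := by
    unfold wV SV
    exact AuxPtk.sum_seven z _ _ _ _ (z_seven hz) hT
  unfold Gq at hs
  have hp := quartic_point (qb h (AV z h V) (Tk V z (k + 4))) (4 * sk V z h k)
    (2 * q3 h (AV z h V) (Tk V z (k + 4)) (wV z h V))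
    (2 * q2 h (AV z h V) (Tk V z (k + 4)) (wV z h V))
    (4 * q1 h (AV z h V) (Tk V z (k + 4)) (wV z h V))
    (q0 h (AV z h V) (Tk V z (k + 4)) (wV z h V)) (rk V z k) hs
  rw [inv_I h _ _ _ hrel, inv_J h _ _ _ hrel, hS] at hp
  unfold xk yk
  linear_combination (1 / 64) * hp

end Pool.Agent.Work.MP_c5a777_ag.Sev

end

section

/-!
# The cubic relation between the brackets of the heptagon
-/

set_option autoImplicit false

namespace Pool.Agent.Work.MP_c5a777_ag.Sev

namespace AuxRelK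

variable {K : Type} [CommRing K]

theorem z7 {z : K} (hz : z ^ 6 + z ^ 5 + z ^ 4 + z ^ 3 + z ^ 2 + z + 1 = 0) : z ^ 7 = 1 := by
  linear_combination (z - 1) * hz

theorem per {z : K} (hz : z ^ 6 + z ^ 5 + z ^ 4 + z ^ 3 + z ^ 2 + z + 1 = 0) (V : V6 K) (k : ℕ) :
    pk V z (k + 7) = pk V z k := by
  have h1 : (z ^ 5) ^ 7 = 1 := by
    rw [← pow_mul, Nat.mul_comm, pow_mul, z7 hz, one_pow]
  have h2 : (z ^ 5) ^ (k + 7 + 5) = (z ^ 5) ^ (k + 5) := by
    have e : k + 7 + 5 = (k + 5) + 7 := by omega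
    rw [e, pow_add, h1, mul_one]
  unfold pk
  rw [h2]

theorem br_cyc (a b c : K × K) : br a b c = br b c a := by
  simp only [br]
  ring

theorem tot_all {z : K} (hz : z ^ 6 + z ^ 5 + z ^ 4 + z ^ 3 + z ^ 2 + z + 1 = 0) {V : V6 K}
    {A : K} (h : tot (pk V z 0) (pk V z 1) (pk V z 2) (pk V z 3) (pk V z 4) (pk V z 5) (pk V z 6) =
      A) : ∀ k : ℕ, tot (pk V z k) (pk V z (k + 1)) (pk V z (k + 2)) (pk V z (k + 3))
        (pk V z (k + 4)) (pk V z (k + 5)) (pk V z (k + 6)) = A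
  | 0 => h
  | k + 1 => by
    have h1 := tot_all hz h k
    rw [tot_rot, ← per hz V k] at h1
    exact h1

end AuxRelK

open AuxRelK in
theorem pr_RelK (h1 : StCorner) : StRelK := by
  intro K _ z h V hz hh hG k
  have ht := tot_all hz (h1 K z h V hz hh hG).2
  have e7 : pk V z (k + 7) = pk V z k := per hz V k
  have e8 : pk V z (k + 8) = pk V z (k + 1) := per hz V (k + 1)
  have e9 : pk V z (k + 9) = pk V z (k + 2) := per hz V (k + 2)
  have e10 : pk V z (k + 10) = pk V z (k + 3) := per hz V (k + 3)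
  have e11 : pk V z (k + 11) = pk V z (k + 4) := per hz V (k + 4)
  have T0 : Tk V z k = br (pk V z k) (pk V z (k + 1)) (pk V z (k + 2)) := rfl
  have T1 : Tk V z (k + 1) = br (pk V z (k + 1)) (pk V z (k + 2)) (pk V z (k + 3)) := rfl
  have T2 : Tk V z (k + 2) = br (pk V z (k + 2)) (pk V z (k + 3)) (pk V z (k + 4)) := rfl
  have T3 : Tk V z (k + 3) = br (pk V z (k + 3)) (pk V z (k + 4)) (pk V z (k + 5)) := rfl
  have T4 : Tk V z (k + 4) = br (pk V z (k + 4)) (pk V z (k + 5)) (pk V z (k + 6)) := rfl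
  have T5 : Tk V z (k + 5) = br (pk V z (k + 5)) (pk V z (k + 6)) (pk V z k) := by
    rw [← e7]; rfl
  have T6 : Tk V z (k + 6) = br (pk V z (k + 6)) (pk V z k) (pk V z (k + 1)) := by
    rw [← e7, ← e8]; rfl
  have T7 : Tk V z (k + 7) = br (pk V z k) (pk V z (k + 1)) (pk V z (k + 2)) := by
    rw [← e7, ← e8, ← e9]; rfl
  have T8 : Tk V z (k + 8) = br (pk V z (k + 1)) (pk V z (k + 2)) (pk V z (k + 3)) := by
    rw [← e8, ← e9, ← e10]; rfl
  have T9 : Tk V z (k + 9) = br (pk V z (k + 2)) (pk V z (k + 3)) (pk V z (k + 4)) := by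
    rw [← e9, ← e10, ← e11]; rfl
  have B0 : bk V z k = br (pk V z k) (pk V z (k + 1)) (pk V z (k + 3)) := rfl
  have B3 : bk V z (k + 3) = br (pk V z (k + 3)) (pk V z (k + 4)) (pk V z (k + 6)) := rfl
  have B4 : bk V z (k + 4) = br (pk V z (k + 4)) (pk V z (k + 5)) (pk V z k) := by
    rw [← e7]; rfl
  constructor
  · have h2 := Fc_zero (pk V z k) (pk V z (k + 1)) (pk V z (k + 2)) (pk V z (k + 3))
      (pk V z (k + 4)) (pk V z (k + 5)) (pk V z (k + 6))
    rw [ht k, ← T0, ← T1, ← T2, ← T3, ← T4, ← T5, ← T6, ← B0,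
      br_cyc (pk V z k) (pk V z (k + 4)) (pk V z (k + 5)), ← B4] at h2
    exact h2
  · have h2 := shift_id (pk V z (k + 3)) (pk V z (k + 4)) (pk V z (k + 5)) (pk V z (k + 6))
      (pk V z k) (pk V z (k + 1)) (pk V z (k + 2))
    have h3 : tot (pk V z (k + 3)) (pk V z (k + 4)) (pk V z (k + 5)) (pk V z (k + 6))
        (pk V z k) (pk V z (k + 1)) (pk V z (k + 2)) = AV z h V := by
      rw [← e7, ← e8, ← e9]
      exact ht (k + 3)
    rw [h3, br_cyc (pk V z (k + 3)) (pk V z k) (pk V z (k + 1)),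
      br_cyc (pk V z k) (pk V z (k + 4)) (pk V z (k + 5))] at h2
    unfold sk
    rw [T0, T1, T2, T3, T4, T5, T6, T7, T8, T9, B0, B3, B4]
    exact h2

end Pool.Agent.Work.MP_c5a777_ag.Sev

end

section

/-!
# From the short form to the long form
-/

namespace Pool.Agent.Work.MP_c5a777_ag.Sev

namespace AuxShort

theorem key {R : Type*} [CommRing R] (h A w S x y : R) (hh : Rel h) :
    (27 * y - 9 * (3 * A ^ 2 + 21 * h * w) * x -
      ((-1134 - 3402 * h - 1890 * h ^ 2) * w ^ 3 + (1134 - 378 * h ^ 2) * w ^ 2 * A ^ 2)) ^ 2 -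
      (9 * x + (3 * A ^ 4 + 42 * h * w * A ^ 2 +
        (-42 - 84 * h + 21 * h ^ 2) * w ^ 2)) ^ 3 +
      27 * II h A w S * (9 * x + (3 * A ^ 4 + 42 * h * w * A ^ 2 +
        (-42 - 84 * h + 21 * h ^ 2) * w ^ 2)) + 27 * JJ h A w S =
    729 * We h A w S x y := by
  unfold Rel at hh
  unfold II JJ We a1 a2 a3 a4 a6
  linear_combination (
    -9261*h^3*w^6 - 55566*h^2*A^2*w^5 + 120393*h^2*w^6 + 194481*h*A^4*w^4 + 896994*h*A^2*w^5 +
    190512*h*A*w^2*S + 3064068*h*w^6 - 11907*h*w^4*x + 259308*A^6*w^3 - 2480625*A^4*w^4 +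
    381024*A^3*w*S + 4969188*A^2*w^5 - 190512*A^2*w^3*x - 1143072*A*w^2*S + 10068030*w^6 -
    607257*w^4*x) * hh

end AuxShort

theorem pr_Short : StShort := by
  intro K _ _ h A w S x y hh hxy
  have h9 : (9 : K) ≠ 0 := by norm_num
  have h27 : (27 : K) ≠ 0 := by norm_num
  set x' : K := (x - (3 * A ^ 4 + 42 * h * w * A ^ 2 +
    (-42 - 84 * h + 21 * h ^ 2) * w ^ 2)) / 9 with hx'
  set y' : K := (y + 9 * (3 * A ^ 2 + 21 * h * w) * x' +
    ((-1134 - 3402 * h - 1890 * h ^ 2) * w ^ 3 + (1134 - 378 * h ^ 2) * w ^ 2 * A ^ 2)) / 27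
    with hy'
  have e1 : x = 9 * x' + (3 * A ^ 4 + 42 * h * w * A ^ 2 +
      (-42 - 84 * h + 21 * h ^ 2) * w ^ 2) := by
    rw [hx', mul_div_cancel₀ _ h9]
    ring
  have e2 : y = 27 * y' - 9 * (3 * A ^ 2 + 21 * h * w) * x' -
      ((-1134 - 3402 * h - 1890 * h ^ 2) * w ^ 3 + (1134 - 378 * h ^ 2) * w ^ 2 * A ^ 2) := by
    rw [hy', mul_div_cancel₀ _ h27]
    ring
  refine ⟨x', y', e1, e2, ?_⟩
  have k := AuxShort.key h A w S x' y' hh
  rw [← e1, ← e2, hxy] at k
  have h729 : (729 : K) ≠ 0 := by norm_num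
  have : 729 * We h A w S x' y' = 0 := by
    rw [← k]
    ring
  exact (mul_eq_zero.1 this).resolve_left h729

end Pool.Agent.Work.MP_c5a777_ag.Sev

end

section

set_option autoImplicit false

/-!
# The square root of the quartic
-/

namespace Pool.Agent.Work.MP_c5a777_ag.Sev

namespace AuxSq

variable {K : Type*} [CommRing K]

/-- the square of the derivative of the cubic is the discriminant -/
theorem fcp_sq (A T0 T1 T2 T3 T4 T5 T6 P Q : K)
    (h : Fc A T0 T1 T2 T3 T4 T5 T6 P Q = 0) :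
    FcP A T0 T1 T2 T3 T4 T5 T6 P Q ^ 2 =
      (f12 A T3 T6 * Q ^ 2 + f11 A T0 T1 T2 T3 T4 T5 T6 * Q + f10 A T0 T1 T2 T3 T4 T5) ^ 2 -
      4 * (f21 A T2 T6 * Q + f20 A T2 T4 T5) * (f02 A T0 T1 T3 T6 * Q ^ 2 +
        f01 A T0 T1 T3 T4 T5 T6 * Q + f00 A T0 T1 T3 T4 T5) := by
  unfold Fc at h
  unfold FcP
  generalize f21 A T2 T6 = x21 at *
  generalize f12 A T3 T6 = x12 at *
  generalize f20 A T2 T4 T5 = x20 at *
  generalize f11 A T0 T1 T2 T3 T4 T5 T6 = x11 at *
  generalize f02 A T0 T1 T3 T6 = x02 at *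
  generalize f10 A T0 T1 T2 T3 T4 T5 = x10 at *
  generalize f01 A T0 T1 T3 T4 T5 T6 = x01 at *
  generalize f00 A T0 T1 T3 T4 T5 = x00 at *
  linear_combination (4 * (x21 * Q + x20)) * h

variable {z h p q : K}

theorem c0 (z7 : z ^ 7 = 1) (hh : h = z + z ^ 6) :
    z ^ 3 * p + z ^ 18 * q = h * (z ^ 4 * p + z ^ 24 * q) - (z ^ 5 * p + z ^ 30 * q) := by
  subst hh
  linear_combination (- z^18*q - z^3*p) * z7

theorem c3 (z7 : z ^ 7 = 1) (hh : h = z + z ^ 6) :
    z ^ 6 * p + z ^ 36 * q = h * (z ^ 5 * p + z ^ 30 * q) - (z ^ 4 * p + z ^ 24 * q) := by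
  subst hh
  linear_combination (- z^24*q - z^4*p) * z7

theorem c4 (z7 : z ^ 7 = 1) (hh : h = z + z ^ 6) :
    z ^ 7 * p + z ^ 42 * q = (h ^ 2 - 1) * (z ^ 5 * p + z ^ 30 * q) -
      h * (z ^ 4 * p + z ^ 24 * q) := by
  subst hh
  linear_combination (- 2*z^30*q - z^25*q - z^10*p - 2*z^5*p) * z7

theorem c5 (hz : z ^ 6 + z ^ 5 + z ^ 4 + z ^ 3 + z ^ 2 + z + 1 = 0) (z7 : z ^ 7 = 1)
    (hh : h = z + z ^ 6) :
    z ^ 8 * p + z ^ 48 * q = (1 - h ^ 2) * (z ^ 4 * p + z ^ 24 * q) +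
      (1 - h ^ 2) * (z ^ 5 * p + z ^ 30 * q) := by
  subst hh
  linear_combination (z^41*q + z^35*q + z^34*q + 2*z^30*q + z^29*q + z^28*q + z^27*q + z^25*q +
    2*z^24*q + z^23*q + z^22*q + z^21*q + z^20*q + z^19*q + z^18*q + z^17*q + z^16*q + z^15*q +
    z^14*q + z^13*q + z^12*q + z^11*q + z^10*p + z^10*q + z^9*p + z^9*q + z^8*q + z^7*q + z^6*q +
    2*z^5*p + z^5*q + 2*z^4*p + z^4*q + z^3*p + z^3*q + z^2*p + z^2*q + z*p + z*q + p + q) * z7 +
    (p + q) * hz

theorem c6 (z7 : z ^ 7 = 1) (hh : h = z + z ^ 6) :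
    z ^ 9 * p + z ^ 54 * q = (h ^ 2 - 1) * (z ^ 4 * p + z ^ 24 * q) -
      h * (z ^ 5 * p + z ^ 30 * q) := by
  subst hh
  linear_combination (z^47*q + z^40*q + z^33*q + z^26*q - z^24*q - z^9*p - z^4*p) * z7

theorem cw (z7 : z ^ 7 = 1) (hh : h = z + z ^ 6) :
    (z ^ 5 * p + z ^ 30 * q) ^ 2 - h * (z ^ 4 * p + z ^ 24 * q) * (z ^ 5 * p + z ^ 30 * q) +
      (z ^ 4 * p + z ^ 24 * q) ^ 2 - (4 - h ^ 2) * (p * q) = 0 := by
  subst hh
  linear_combination (- z^48*q^2 - z^33*p*q - z^26*p*q - z^23*p*q + 2*z^21*p*q - z^19*p*q -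
    z^16*p*q + 2*z^14*p*q - z^12*p*q - z^9*p*q - z^8*p^2 + 2*z^7*p*q - z^2*p*q + 4*p*q) * z7

theorem pk_per (V : V6 K) (z7 : z ^ 7 = 1) (k : ℕ) : pk V z (k + 7) = pk V z k := by
  unfold pk
  congr 1
  have e : (z ^ 5) ^ (k + 7 + 5) = (z ^ 5) ^ (k + 5) * (z ^ 7) ^ 5 := by ring
  rw [e, z7, one_pow, mul_one]

theorem Tk_per (V : V6 K) (z7 : z ^ 7 = 1) (k : ℕ) : Tk V z (k + 7) = Tk V z k := by
  unfold Tk
  rw [show k + 7 + 1 = k + 1 + 7 by ring, show k + 7 + 2 = k + 2 + 7 by ring, pk_per V z7,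
    pk_per V z7, pk_per V z7]

theorem bk_per (V : V6 K) (z7 : z ^ 7 = 1) (k : ℕ) : bk V z (k + 7) = bk V z k := by
  unfold bk
  rw [show k + 7 + 1 = k + 1 + 7 by ring, show k + 7 + 3 = k + 3 + 7 by ring, pk_per V z7,
    pk_per V z7, pk_per V z7]

end AuxSq

theorem pr_Sq (h1 : StCorner) (h2 : StRelK) : StSq := by
  intro K _ z h V hz hh hG k
  have z7 : z ^ 7 = 1 := z_seven hz
  have hT := (h1 K z h V hz hh hG).1
  obtain ⟨hF, -⟩ := h2 K z h V hz hh hG (k + 3)
  rw [show k + 3 + 4 = k + 7 by ring, AuxSq.bk_per V z7] at hF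
  have hF' : Fc (AV z h V) (Tk V z (k + 3)) (Tk V z (k + 4)) (Tk V z (k + 5)) (Tk V z (k + 6))
      (Tk V z (k + 7)) (Tk V z (k + 8)) (Tk V z (k + 9)) (bk V z (k + 3)) (bk V z k) = 0 := hF
  have hsq := AuxSq.fcp_sq _ _ _ _ _ _ _ _ _ _ hF'
  set p : K := z ^ (k + 6) * XV z h V with hp
  set q : K := z ^ (6 * (k + 6)) * YV z h V with hq
  have t3 : Tk V z (k + 3) = z ^ 3 * p + z ^ 18 * q := by rw [hT, hp, hq]; ring
  have t4 : Tk V z (k + 4) = z ^ 4 * p + z ^ 24 * q := by rw [hT, hp, hq]; ring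
  have t5 : Tk V z (k + 5) = z ^ 5 * p + z ^ 30 * q := by rw [hT, hp, hq]; ring
  have t6 : Tk V z (k + 6) = z ^ 6 * p + z ^ 36 * q := by rw [hT, hp, hq]; ring
  have t7 : Tk V z (k + 7) = z ^ 7 * p + z ^ 42 * q := by rw [hT, hp, hq]; ring
  have t8 : Tk V z (k + 8) = z ^ 8 * p + z ^ 48 * q := by rw [hT, hp, hq]; ring
  have t9 : Tk V z (k + 9) = z ^ 9 * p + z ^ 54 * q := by rw [hT, hp, hq]; ring
  have hpq : p * q = wV z h V := by
    have e : z ^ (k + 6) * z ^ (6 * (k + 6)) = (z ^ 7) ^ (k + 6) := by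
      rw [← pow_add, ← pow_mul]
      congr 1
      ring
    rw [hp, hq, wV]
    calc z ^ (k + 6) * XV z h V * (z ^ (6 * (k + 6)) * YV z h V) =
        z ^ (k + 6) * z ^ (6 * (k + 6)) * (XV z h V * YV z h V) := by ring
      _ = XV z h V * YV z h V := by rw [e, z7, one_pow, one_mul]
  have hd := disc_quartic h (AV z h V) (Tk V z (k + 4)) (Tk V z (k + 5)) (wV z h V) (bk V z k)
    (rel_of_z hz hh)
    (by rw [t4, t5, ← hpq]; exact AuxSq.cw z7 hh)
    (Tk V z (k + 3)) (Tk V z (k + 6)) (Tk V z (k + 7)) (Tk V z (k + 8)) (Tk V z (k + 9))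
    (by rw [t3, t4, t5]; exact AuxSq.c0 z7 hh)
    (by rw [t6, t4, t5]; exact AuxSq.c3 z7 hh)
    (by rw [t7, t4, t5]; exact AuxSq.c4 z7 hh)
    (by rw [t8, t4, t5]; exact AuxSq.c5 hz z7 hh)
    (by rw [t9, t4, t5]; exact AuxSq.c6 z7 hh)
  have hr : rk V z k = 2 * bk V z k + Tk V z (k + 8) - Tk V z (k + 7) := by
    rw [rk, show k + 8 = k + 1 + 7 by ring, AuxSq.Tk_per V z7, AuxSq.Tk_per V z7]
  rw [hr, ← hd, sk, mul_pow, hsq]
  norm_num

end Pool.Agent.Work.MP_c5a777_ag.Sev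

end

section

set_option autoImplicit false

/-!
# A subfield which is algebraically closed in `K` and contains one bracket contains all
-/

namespace Pool.Agent.Work.MP_c5a777_ag.Sev

namespace AuxStep

theorem sum_T {K : Type} [CommRing K] (z X Y : K)
    (hz : z ^ 6 + z ^ 5 + z ^ 4 + z ^ 3 + z ^ 2 + z + 1 = 0) (T : ℕ → K)
    (hT : ∀ k, T k = z ^ (k + 6) * X + z ^ (6 * (k + 6)) * Y) (k : ℕ) :
    T k + T (k + 1) + T (k + 2) + T (k + 3) + T (k + 4) + T (k + 5) + T (k + 6) = 0 := by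
  have h7 := z_seven hz
  have e : z ^ 36 + z ^ 30 + z ^ 24 + z ^ 18 + z ^ 12 + z ^ 6 + 1 = 0 := by
    have : z ^ 36 + z ^ 30 + z ^ 24 + z ^ 18 + z ^ 12 + z ^ 6 + 1 =
        z * (z ^ 7) ^ 5 + z ^ 2 * (z ^ 7) ^ 4 + z ^ 3 * (z ^ 7) ^ 3 + z ^ 4 * (z ^ 7) ^ 2 +
          z ^ 5 * z ^ 7 + z ^ 6 + 1 := by ring
    rw [this, h7]
    linear_combination hz
  simp only [hT]
  have e1 : z ^ (k + 6) * X + z ^ (6 * (k + 6)) * Y + (z ^ (k + 1 + 6) * X +
      z ^ (6 * (k + 1 + 6)) * Y) + (z ^ (k + 2 + 6) * X + z ^ (6 * (k + 2 + 6)) * Y) +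
      (z ^ (k + 3 + 6) * X + z ^ (6 * (k + 3 + 6)) * Y) +
      (z ^ (k + 4 + 6) * X + z ^ (6 * (k + 4 + 6)) * Y) +
      (z ^ (k + 5 + 6) * X + z ^ (6 * (k + 5 + 6)) * Y) +
      (z ^ (k + 6 + 6) * X + z ^ (6 * (k + 6 + 6)) * Y) =
      z ^ (k + 6) * X * (z ^ 6 + z ^ 5 + z ^ 4 + z ^ 3 + z ^ 2 + z + 1) +
      z ^ (6 * (k + 6)) * Y *
        (z ^ 36 + z ^ 30 + z ^ 24 + z ^ 18 + z ^ 12 + z ^ 6 + 1) := by
    ring
  rw [e1, hz, e]
  ring

theorem ne_zero {K : Type} [Field K] [CharZero K] (σ : K →+* K) (A : K) (T : ℕ → K)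
    (hs : ∀ k, T k + T (k + 1) + T (k + 2) + T (k + 3) + T (k + 4) + T (k + 5) + T (k + 6) = 0)
    (hA : σ A = A) (hT : ∀ k, σ (T k) = T (k + 1)) (hA0 : A ≠ 0) (k : ℕ) :
    A - T (k + 2) - T (k + 6) ≠ 0 := by
  intro h
  have key : ∀ j, A - T (k + j + 2) - T (k + j + 6) = 0 := by
    intro j
    induction j with
    | zero => simpa using h
    | succ j ih =>
      have h1 := congrArg σ ih
      rw [map_sub, map_sub, hA, hT, hT, map_zero] at h1
      have e1 : k + (j + 1) + 2 = k + j + 2 + 1 := by omega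
      have e2 : k + (j + 1) + 6 = k + j + 6 + 1 := by omega
      rw [e1, e2]
      exact h1
  have k0 := key 0
  have k1 := key 1
  have k2 := key 2
  have k3 := key 3
  have k4 := key 4
  have k5 := key 5
  have k6 := key 6
  have s1 := hs (k + 2)
  have s2 := hs (k + 6)
  simp only [add_assoc, Nat.reduceAdd, zero_add] at k0 k1 k2 k3 k4 k5 k6 s1 s2
  have : (7 : K) * A = 0 := by
    linear_combination k0 + k1 + k2 + k3 + k4 + k5 + k6 + s1 + s2
  rcases mul_eq_zero.1 this with h7 | h7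
  · norm_num at h7
  · exact hA0 h7

open Polynomial in
theorem alg_of_quad {K : Type} [Field K] (E : Subfield K) (P a b c : K) (ha : a ∈ E)
    (hb : b ∈ E) (hc : c ∈ E) (ha0 : a ≠ 0) (h : a * P ^ 2 + b * P + c = 0) :
    IsAlgebraic E P := by
  refine ⟨C (⟨a, ha⟩ : E) * X ^ 2 + C (⟨b, hb⟩ : E) * X + C (⟨c, hc⟩ : E), ?_, ?_⟩
  · intro h0
    have h1 := congrArg (fun p : E[X] => p.coeff 2) h0
    simp only [coeff_add, coeff_C_mul, coeff_X_pow, coeff_X, coeff_C, coeff_zero] at h1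
    norm_num at h1
    exact ha0 (congrArg Subtype.val h1)
  · simp only [map_add, map_mul, map_pow, aeval_C, aeval_X]
    exact h

end AuxStep

open AuxStep in
theorem pr_Step (h1 : StCorner) (h2 : StRelK) (h3 : StPer) (h4 : StEqui) : StStep := by
  intro K _ _ σ z h V hz hh hG hE hA0 E0 E hle zE AE XE YE hσ halg hb4
  have h7 := z_seven hz
  obtain ⟨sA, -, -, -, -, sk⟩ := h4 K σ z h V h7 hh hE
  have hT := (h1 K z h V hz hh hG).1
  have per := h3 K z h V h7
  have TE : ∀ k, Tk V z k ∈ E0 := by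
    intro k
    rw [hT k]
    exact E0.add_mem (E0.mul_mem (pow_mem zE _) XE) (E0.mul_mem (pow_mem zE _) YE)
  have hf21 := ne_zero σ (AV z h V) (Tk V z) (sum_T z _ _ hz _ hT) sA (fun k => (sk k).1) hA0
  have step : ∀ k, bk V z (k + 4) ∈ E → bk V z k ∈ E := by
    intro k hQ
    have rel := (h2 K z h V hz hh hG k).1
    unfold Fc at rel
    have cA := hle AE
    have c0 := hle (TE k)
    have c1 := hle (TE (k + 1))
    have c2 := hle (TE (k + 2))
    have c3 := hle (TE (k + 3))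
    have c4 := hle (TE (k + 4))
    have c5 := hle (TE (k + 5))
    have c6 := hle (TE (k + 6))
    by_cases ha : f21 (AV z h V) (Tk V z (k + 2)) (Tk V z (k + 6)) * bk V z (k + 4) +
        f20 (AV z h V) (Tk V z (k + 2)) (Tk V z (k + 4)) (Tk V z (k + 5)) = 0
    · -- `Q` is in `E0`
      have hQ0 : bk V z (k + 4) ∈ E0 := by
        have hn : f21 (AV z h V) (Tk V z (k + 2)) (Tk V z (k + 6)) ≠ 0 := hf21 k
        have e : bk V z (k + 4) =
            (-f20 (AV z h V) (Tk V z (k + 2)) (Tk V z (k + 4)) (Tk V z (k + 5))) /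
              f21 (AV z h V) (Tk V z (k + 2)) (Tk V z (k + 6)) := by
          rw [eq_div_iff hn]
          linear_combination ha
        rw [e]
        have t2 := TE (k + 2)
        have t4 := TE (k + 4)
        have t5 := TE (k + 5)
        have t6 := TE (k + 6)
        apply E0.div_mem
        · apply E0.neg_mem
          unfold f20
          exact E0.neg_mem (E0.mul_mem t4 (E0.sub_mem (E0.sub_mem AE t2) t5))
        · unfold f21
          exact E0.sub_mem (E0.sub_mem AE t2) t6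
      have e1 : bk V z (k + 5) ∈ E0 := by
        rw [← (sk (k + 4)).2.1]
        exact hσ _ hQ0
      have e2 : bk V z (k + 6) ∈ E0 := by
        rw [← (sk (k + 5)).2.1]
        exact hσ _ e1
      have e3 : bk V z (k + 7) ∈ E0 := by
        rw [← (sk (k + 6)).2.1]
        exact hσ _ e2
      rw [(per k).2.1] at e3
      exact hle e3
    · apply halg
      refine alg_of_quad E _ _ (f12 (AV z h V) (Tk V z (k + 3)) (Tk V z (k + 6)) *
        bk V z (k + 4) ^ 2 + f11 (AV z h V) (Tk V z k) (Tk V z (k + 1)) (Tk V z (k + 2))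
          (Tk V z (k + 3)) (Tk V z (k + 4)) (Tk V z (k + 5)) (Tk V z (k + 6)) *
          bk V z (k + 4) + f10 (AV z h V) (Tk V z k) (Tk V z (k + 1)) (Tk V z (k + 2))
          (Tk V z (k + 3)) (Tk V z (k + 4)) (Tk V z (k + 5)))
        (f02 (AV z h V) (Tk V z k) (Tk V z (k + 1)) (Tk V z (k + 3)) (Tk V z (k + 6)) *
          bk V z (k + 4) ^ 2 + f01 (AV z h V) (Tk V z k) (Tk V z (k + 1)) (Tk V z (k + 3))
          (Tk V z (k + 4)) (Tk V z (k + 5)) (Tk V z (k + 6)) * bk V z (k + 4) +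
          f00 (AV z h V) (Tk V z k) (Tk V z (k + 1)) (Tk V z (k + 3)) (Tk V z (k + 4))
            (Tk V z (k + 5))) ?_ ?_ ?_ ha ?_
      · generalize AV z h V = A at *
        generalize Tk V z (k + 2) = t2 at *
        generalize Tk V z (k + 4) = t4 at *
        generalize Tk V z (k + 5) = t5 at *
        generalize Tk V z (k + 6) = t6 at *
        generalize bk V z (k + 4) = Q at *
        lift A to E using cA
        lift t2 to E using c2
        lift t4 to E using c4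
        lift t5 to E using c5
        lift t6 to E using c6
        lift Q to E using hQ
        have := (f21 A t2 t6 * Q + f20 A t2 t4 t5 : E).2
        convert this using 1
        simp [f21, f20]
      · generalize AV z h V = A at *
        generalize Tk V z k = t0 at *
        generalize Tk V z (k + 1) = t1 at *
        generalize Tk V z (k + 2) = t2 at *
        generalize Tk V z (k + 3) = t3 at *
        generalize Tk V z (k + 4) = t4 at *
        generalize Tk V z (k + 5) = t5 at *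
        generalize Tk V z (k + 6) = t6 at *
        generalize bk V z (k + 4) = Q at *
        lift A to E using cA
        lift t0 to E using c0
        lift t1 to E using c1
        lift t2 to E using c2
        lift t3 to E using c3
        lift t4 to E using c4
        lift t5 to E using c5
        lift t6 to E using c6
        lift Q to E using hQ
        have := (f12 A t3 t6 * Q ^ 2 + f11 A t0 t1 t2 t3 t4 t5 t6 * Q +
          f10 A t0 t1 t2 t3 t4 t5 : E).2
        convert this using 1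
        simp [f12, f11, f10, show ((2 : E) : K) = 2 from rfl]
      · generalize AV z h V = A at *
        generalize Tk V z k = t0 at *
        generalize Tk V z (k + 1) = t1 at *
        generalize Tk V z (k + 3) = t3 at *
        generalize Tk V z (k + 4) = t4 at *
        generalize Tk V z (k + 5) = t5 at *
        generalize Tk V z (k + 6) = t6 at *
        generalize bk V z (k + 4) = Q at *
        lift A to E using cA
        lift t0 to E using c0
        lift t1 to E using c1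
        lift t3 to E using c3
        lift t4 to E using c4
        lift t5 to E using c5
        lift t6 to E using c6
        lift Q to E using hQ
        have := (f02 A t0 t1 t3 t6 * Q ^ 2 + f01 A t0 t1 t3 t4 t5 t6 * Q +
          f00 A t0 t1 t3 t4 t5 : E).2
        convert this using 1
        simp [f02, f01, f00, show ((2 : E) : K) = 2 from rfl]
      · linear_combination rel
  have b0 := step 0 hb4
  have b3 := step 3 (by rw [show 3 + 4 = 0 + 7 by rfl, (per 0).2.1]; exact b0)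
  have b6 := step 6 (by rw [show 6 + 4 = 3 + 7 by rfl, (per 3).2.1]; exact b3)
  have b2 := step 2 b6
  have b5 := step 5 (by rw [show 5 + 4 = 2 + 7 by rfl, (per 2).2.1]; exact b2)
  have b1 := step 1 b5
  have all : ∀ q r : ℕ, r < 7 → bk V z (r + 7 * q) ∈ E := by
    intro q
    induction q with
    | zero =>
      intro r hr
      interval_cases r
      · exact b0
      · exact b1
      · exact b2
      · exact b3
      · exact hb4
      · exact b5
      · exact b6
    | succ q ih =>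
      intro r hr
      rw [show r + 7 * (q + 1) = r + 7 * q + 7 by ring, (per (r + 7 * q)).2.1]
      exact ih r hr
  intro k
  rw [show k = k % 7 + 7 * (k / 7) by omega]
  exact all _ _ (Nat.mod_lt _ (by norm_num))

end Pool.Agent.Work.MP_c5a777_ag.Sev

end
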